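import Mathlib

/-!
# The irrelevant ideal and base change
-/

open CategoryTheory CategoryTheory.Limits AlgebraicGeometry

noncomputable section

namespace HilbChar

attribute [local instance] MvPolynomial.gradedAlgebra

/-- The standard grading of `A[X₀, X₁, X₂, X₃]`: `gr A n` is the `A`-module of forms of
degree `n`. -/
abbrev gr (A : Type) [CommRing A] : ℕ → Submodule A (MvPolynomial (Fin 4) A) :=
  MvPolynomial.homogeneousSubmodule (Fin 4) A

/-- The graded ring homomorphism `A[X₀, …, X₃] → B[X₀, …, X₃]` induced by `φ : A → B`. -/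
def grMap {A B : Type} [CommRing A] [CommRing B] (φ : A →+* B) :
    GradedRingHom (gr A) (gr B) where
  toRingHom := MvPolynomial.map φ
  map_mem {_ _} h := MvPolynomial.IsHomogeneous.map h φ

/-- The irrelevant ideal of `A[X₀, …, X₃]`. -/
abbrev irr (A : Type) [CommRing A] : HomogeneousIdeal (gr A) := HomogeneousIdeal.irrelevant (gr A)

theorem irrelevant_le_map {A B : Type} [CommRing A] [CommRing B] (φ : A →+* B) :
    irr B ≤ (irr A).map (grMap φ) := by
  intro f hf
  have h0 : MvPolynomial.coeff 0 f = 0 := by
    have h1 : MvPolynomial.homogeneousComponent 0 f = 0 := by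
      have := (HomogeneousIdeal.mem_irrelevant_iff (gr B) f).1 hf
      rw [← this, GradedRing.proj_apply]
      exact (MvPolynomial.decomposition.decompose'_apply f 0).symm
    rw [MvPolynomial.homogeneousComponent_zero] at h1
    simpa using h1
  have key : f ∈ Ideal.span ((MvPolynomial.X : Fin 4 → MvPolynomial (Fin 4) B) '' Set.univ) := by
    rw [MvPolynomial.mem_ideal_span_X_image]
    intro m hm
    by_contra hcon
    push Not at hcon
    have : m = 0 := by
      ext i
      exact hcon i (Set.mem_univ i)
    rw [this, MvPolynomial.mem_support_iff] at hm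
    exact hm h0
  refine (Ideal.span_le.2 ?_) key
  rintro _ ⟨i, -, rfl⟩
  have hX : (MvPolynomial.X i : MvPolynomial (Fin 4) A) ∈ HomogeneousIdeal.irrelevant (gr A) := by
    rw [HomogeneousIdeal.mem_irrelevant_iff, GradedRing.proj_apply]
    exact DirectSum.decompose_of_mem_ne (gr A) (MvPolynomial.isHomogeneous_X A i) one_ne_zero
  have : grMap φ (MvPolynomial.X i) = MvPolynomial.X i := MvPolynomial.map_X φ i
  rw [← this]
  exact Ideal.mem_map_of_mem _ hX

end HilbChar
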