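import Mathlib
import Pool.Agent.Work.MP_c21e2e_ag.Irrelevant

/-!
# Families of curves in projective three-space and the Hilbert scheme

Definitions used in the statement of the result on MP_c21e2e_ag.
-/

open CategoryTheory CategoryTheory.Limits AlgebraicGeometry

noncomputable section

namespace SpaceCurve

attribute [local instance] MvPolynomial.gradedAlgebra

/-- Projective three-space `Proj A[X₀, X₁, X₂, X₃]` over the ring `A`. -/
def P3 (A : CommRingCat.{0}) : Scheme.{0} := Proj (MvPolynomial.homogeneousSubmodule (Fin 4) A)

/-- The ring of forms of degree zero. -/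
def grZero (A : CommRingCat.{0}) : CommRingCat.{0} :=
  CommRingCat.of (MvPolynomial.homogeneousSubmodule (Fin 4) A 0)

/-- The canonical map from `A` to the ring of forms of degree zero. -/
def toGrZero (A : CommRingCat.{0}) : A ⟶ grZero A :=
  CommRingCat.ofHom (algebraMap A (MvPolynomial.homogeneousSubmodule (Fin 4) A 0))

/-- The canonical morphism from projective three-space to `Spec` of the ring of forms of
degree zero. -/
def P3.toSpecZero (A : CommRingCat.{0}) : P3 A ⟶ Spec (grZero A) :=
  Proj.toSpecZero (MvPolynomial.homogeneousSubmodule (Fin 4) A)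

/-- The structure morphism `P3 A ⟶ Spec A`. -/
def P3.toSpec (A : CommRingCat.{0}) : P3 A ⟶ Spec A := P3.toSpecZero A ≫ Spec.map (toGrZero A)

/-- The homomorphism of graded rings `A[X₀, …, X₃] → B[X₀, …, X₃]` induced by `φ : A ⟶ B`. -/
def grMap {A B : CommRingCat.{0}} (φ : A ⟶ B) :
    GradedRingHom (MvPolynomial.homogeneousSubmodule (Fin 4) A)
      (MvPolynomial.homogeneousSubmodule (Fin 4) B) where
  toRingHom := MvPolynomial.map φ.hom
  map_mem {_ _} h := MvPolynomial.IsHomogeneous.map h φ.hom

theorem irrelevant_le_map {A B : CommRingCat.{0}} (φ : A ⟶ B) :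
    HomogeneousIdeal.irrelevant (MvPolynomial.homogeneousSubmodule (Fin 4) B) ≤
      (HomogeneousIdeal.irrelevant (MvPolynomial.homogeneousSubmodule (Fin 4) A)).map (grMap φ) :=
  HilbChar.irrelevant_le_map φ.hom

/-- The base change morphism `P3 B ⟶ P3 A` induced by `φ : A ⟶ B`. -/
def P3.map {A B : CommRingCat.{0}} (φ : A ⟶ B) : P3 B ⟶ P3 A :=
  Proj.map (grMap φ) (irrelevant_le_map φ)

/-- The ring `A[X₀, …, X₃]_(Xᵢ)` of homogeneous fractions of degree zero with denominators the
powers of `Xᵢ`. -/
def chartRing (A : CommRingCat.{0}) (i : Fin 4) : CommRingCat.{0} :=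
  CommRingCat.of (HomogeneousLocalization.Away (MvPolynomial.homogeneousSubmodule (Fin 4) A)
    (MvPolynomial.X i : MvPolynomial (Fin 4) A))

/-- The standard affine chart `Spec A[X₀, …, X₃]_(Xᵢ) ⟶ P3 A`. -/
def chart (A : CommRingCat.{0}) (i : Fin 4) : Spec (chartRing A i) ⟶ P3 A :=
  Proj.awayι _ (MvPolynomial.X i) (MvPolynomial.isHomogeneous_X A i) (by exact one_pos)

/-- The element `F / Xᵢⁿ` of `A[X₀, …, X₃]_(Xᵢ)`, for a form `F` of degree `n`. -/
def formDiv {A : CommRingCat.{0}} (i : Fin 4) {n : ℕ}
    (F : MvPolynomial.homogeneousSubmodule (Fin 4) A n) : chartRing A i :=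
  HomogeneousLocalization.Away.mk (MvPolynomial.homogeneousSubmodule (Fin 4) A)
    (MvPolynomial.isHomogeneous_X A i) n F.1 (by simp only [smul_eq_mul, mul_one]; exact F.2)

/-- The preimage of an ideal under a ring homomorphism. -/
def preimageIdeal {R S : CommRingCat.{0}} (f : R ⟶ S) (I : Ideal S) : Ideal R :=
  I.comap f.hom

/-- The ideal of the ring `R` which corresponds to an ideal sheaf on `Spec R`, under the
identification of `R` with the ring of global sections of `Spec R`. -/
def topIdeal {R : CommRingCat.{0}} (I : (Spec R).IdealSheafData) : Ideal R :=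
  preimageIdeal (Scheme.ΓSpecIso R).inv (I.ideal ⟨⊤, isAffineOpen_top _⟩)

/-- The element `r` of the ring `R` lies in the ideal which corresponds to the ideal sheaf `I`. -/
def VanishesOn {R : CommRingCat.{0}} (r : R) (I : (Spec R).IdealSheafData) : Prop :=
  r ∈ topIdeal I

/-- The `A`-module of the forms of degree `n` which vanish on the closed subscheme `Z` of `P3 A`:
for all `i`, the fraction `F / Xᵢⁿ` lies in the ideal of `Z` in the `i`-th standard affine
chart. -/
def vanishing {A : CommRingCat.{0}} (Z : (P3 A).IdealSheafData) (n : ℕ) :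
    Submodule A (MvPolynomial.homogeneousSubmodule (Fin 4) A n) :=
  Submodule.span A {F | ∀ i, VanishesOn (formDiv i F) (Z.comap (chart A i))}

/-- The rank of a quotient module (the dimension, over a field). -/
def codim {F M : Type} [CommRing F] [AddCommGroup M] [Module F M] (V : Submodule F M) : ℕ :=
  Module.finrank F (M ⧸ V)

/-- For a field `F`, the closed subscheme `Z` of projective three-space over `F` has Hilbert
polynomial `d t + 1 - g`: the space of forms of degree `n` modulo those vanishing on `Z` has
dimension `d n + 1 - g` for all large `n`. -/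
def HasHilbPoly {F : CommRingCat.{0}} (Z : (P3 F).IdealSheafData) (d : ℕ) (g : ℤ) : Prop :=
  ∃ n₀ : ℕ, ∀ n ≥ n₀, (codim (vanishing Z n) : ℤ) = d * n + 1 - g

/-- The set `Hilb_{d,g}(A)` of flat families of curves in `P3 A`: closed subschemes of `P3 A`,
flat and of finite presentation over `Spec A`, all of whose fibres over field-valued points
of `Spec A` have Hilbert polynomial `d t + 1 - g`. -/
def Hilb (d : ℕ) (g : ℤ) (A : CommRingCat.{0}) : Set (P3 A).IdealSheafData :=
  {Z | Flat (Z.subschemeι ≫ P3.toSpec A) ∧
    LocallyOfFinitePresentation (Z.subschemeι ≫ P3.toSpec A) ∧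
    ∀ (F : CommRingCat.{0}) (φ : A ⟶ F), IsField F → HasHilbPoly (Z.comap (P3.map φ)) d g}

/-- A Hilbert scheme of curves of degree `d` and arithmetic genus `g` in projective three-space:
a scheme whose `A`-valued points are, naturally in the ring `A`, the members
of `Hilb_{d,g}(A)`. -/
structure HilbertScheme (d : ℕ) (g : ℤ) where
  /-- the underlying scheme -/
  H : Scheme.{0}
  /-- the closed subscheme of `P3 A` which corresponds to an `A`-valued point -/
  family : ∀ {A : CommRingCat.{0}}, (Spec A ⟶ H) → (P3 A).IdealSheafData
  /-- the points correspond bijectively to the members of `Hilb_{d,g}(A)` -/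
  bijOn : ∀ A : CommRingCat.{0}, Set.BijOn (family (A := A)) Set.univ (Hilb d g A)
  /-- compatibility with base change -/
  natural : ∀ {A B : CommRingCat.{0}} (φ : A ⟶ B) (s : Spec A ⟶ H),
    family (Spec.map φ ≫ s) = (family s).comap (P3.map φ)

/-- Let `K` and `L` be fields. The closed subscheme `X` of `P3 K` specialises, as a member
of `Hilb_{d,g}`, to the closed subscheme `X'` of `P3 L`: there are a ring `A` contained in `K`, with
a residue field `F = A / 𝔪` containing `L`, and a member of `Hilb_{d,g}(A)` whose base change
to `K` is `X` and whose base change to `F` is the base change of `X'`. -/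
def SpecialisesTo (d : ℕ) (g : ℤ) {K L : CommRingCat.{0}} (X : (P3 K).IdealSheafData)
    (X' : (P3 L).IdealSheafData) : Prop :=
  ∃ (A F : CommRingCat.{0}) (f : A ⟶ K) (q : A ⟶ F) (j : L ⟶ F),
    Function.Injective f.hom ∧ Function.Surjective q.hom ∧ IsField F ∧
      ∃ Y ∈ Hilb d g A, Y.comap (P3.map f) = X ∧ Y.comap (P3.map q) = X'.comap (P3.map j)

/-- Some irreducible component of the space `X` has a generic point `η` which is mapped
by `a : X ⟶ T` to a point outside the closure of the image of `b : Y ⟶ T`. -/
def HasComponentOutside {X Y T : TopCat.{0}} (a : X ⟶ T) (b : Y ⟶ T) : Prop :=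
  ∃ Z ∈ irreducibleComponents X, ∃ η, IsGenericPoint η Z ∧ a.hom η ∉ closure (Set.range b.hom)

/-- The underlying topological space of the scheme `H × Spec A`. -/
def Points (H : Scheme.{0}) (A : CommRingCat.{0}) : TopCat.{0} :=
  Scheme.forgetToTop.obj (H ⨯ Spec A)

/-- The map from the space of `H × Spec B` to that of `H × Spec A` induced by `φ : A ⟶ B`. -/
def Points.map (H : Scheme.{0}) {A B : CommRingCat.{0}} (φ : A ⟶ B) : Points H B ⟶ Points H A :=
  Scheme.forgetToTop.map (prod.map (𝟙 H) (Spec.map φ))

/-- The scheme `H × Spec Fbar`, where `Fbar` is an algebraic closure of the field with `p`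
elements, has an irreducible component which exists only in characteristic `p`: its generic point
does not lie in the closure, in `H × Spec W`, of `H × Spec Frac W`, where `W` is the ring of Witt
vectors of `Fbar`. -/
def HasComponentOnlyInChar (p : ℕ) [Fact p.Prime] (H : Scheme.{0}) : Prop :=
  HasComponentOutside
    (Points.map H (CommRingCat.ofHom
      (WittVector.constantCoeff (p := p) (R := AlgebraicClosure (ZMod p)))))
    (Points.map H (CommRingCat.ofHom
      (algebraMap (WittVector p (AlgebraicClosure (ZMod p)))
        (FractionRing (WittVector p (AlgebraicClosure (ZMod p)))))))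

end SpaceCurve
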