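import Pool.Agent.Work.MP_c21e2e_ag.Config

set_option linter.unusedSectionVars false
set_option linter.unusedSimpArgs false
set_option linter.style.setOption false

/-!
# The curve does not lift to characteristic zero
-/

namespace Pool.Agent.Work.MP_c21e2e_ag

open Matrix

/-- shear of the coordinates -/
def shear {k : Type*} [CommRing k] (τ : k) (M : Mat k) : Mat k :=
  !![M 0 0, τ * M 0 0 + M 0 1; M 1 0, τ * M 1 0 + M 1 1]

lemma det_shear_sub {k : Type*} [CommRing k] (τ : k) (M M' : Mat k) :
    (shear τ M - shear τ M').det = (M - M').det := by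
  simp only [shear, Matrix.det_fin_two, Matrix.sub_apply, Matrix.of_apply, Matrix.cons_val',
    Matrix.cons_val_zero, Matrix.cons_val_one, Matrix.cons_val_fin_one]
  ring

lemma shear_inj {k : Type*} [CommRing k] {τ : k} {M M' : Mat k} (h : shear τ M = shear τ M') :
    M = M' := by
  have h00 := congrFun (congrFun h 0) 0
  have h01 := congrFun (congrFun h 0) 1
  have h10 := congrFun (congrFun h 1) 0
  have h11 := congrFun (congrFun h 1) 1
  simp only [shear, Matrix.of_apply, Matrix.cons_val',
    Matrix.cons_val_zero, Matrix.cons_val_one, Matrix.cons_val_fin_one] at h00 h01 h10 h11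
  rw [h00] at h01
  rw [h10] at h11
  ext i j
  fin_cases i <;> fin_cases j
  · exact h00
  · exact add_left_cancel h01
  · exact h10
  · exact add_left_cancel h11

/-- the sheared configuration -/
def Conf.shear {nA nB k : Type*} [Field k] (X : Conf nA nB k) (τ : k) : Conf nA nB k where
  M := fun a => MP_c21e2e_ag.shear τ (X.M a)
  L := fun j => MP_c21e2e_ag.shear τ (X.L j)
  hM := fun a a' h => by rw [det_shear_sub]; exact X.hM a a' h
  hL := fun a a' h => by rw [det_shear_sub]; exact X.hL a a' h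
  hML := fun a j h => X.hML a j (shear_inj h)

/-- after a general shear, all incidences are at finite distance -/
lemma exists_shear {nA nB k : Type*} [Field k] [Infinite k] [Finite nA] [Finite nB]
    (X : Conf nA nB k) : ∃ τ : k, ∀ a j, (X.M a - X.L j).det = 0 →
      ∃ s, MeetAt ((X.shear τ).M a) ((X.shear τ).L j) s := by
  classical
  cases nonempty_fintype nA
  cases nonempty_fintype nB
  let bad : Finset k := Finset.univ.image fun x : nA × nB × Fin 2 =>
    - ((X.M x.1 - X.L x.2.1) x.2.2 1) / ((X.M x.1 - X.L x.2.1) x.2.2 0)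
  obtain ⟨τ, hτ⟩ := Infinite.exists_notMem_finset bad
  refine ⟨τ, fun a j h => ?_⟩
  have hbad : ∀ i : Fin 2, (X.M a - X.L j) i 0 ≠ 0 →
      τ * (X.M a - X.L j) i 0 + (X.M a - X.L j) i 1 ≠ 0 := by
    intro i hi h0
    apply hτ
    rw [Finset.mem_image]
    refine ⟨(a, j, i), Finset.mem_univ _, ?_⟩
    simp only
    rw [div_eq_iff hi]
    linear_combination -h0
  have hne := X.hML a j
  rw [Matrix.det_fin_two] at h
  set D := X.M a - X.L j with hD
  -- the second column of the sheared difference is nonzero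
  have hcol : ∃ i : Fin 2, τ * D i 0 + D i 1 ≠ 0 := by
    by_contra hno
    push Not at hno
    have h0 : ∀ i, D i 0 = 0 := fun i => by
      by_contra hi
      exact hbad i hi (hno i)
    have h1 : ∀ i, D i 1 = 0 := fun i => by
      have := hno i
      rw [h0 i] at this
      simpa using this
    apply hne
    rw [← sub_eq_zero]
    ext i j'
    fin_cases j'
    · exact h0 i
    · exact h1 i
  have key : ∃ s, ∀ i, D i 0 + (τ * D i 0 + D i 1) * s = 0 := by
    obtain ⟨i, hi⟩ := hcol
    refine ⟨- D i 0 / (τ * D i 0 + D i 1), fun i' => ?_⟩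
    have hdet : ∀ i i' : Fin 2, D i' 0 * (τ * D i 0 + D i 1) = (τ * D i' 0 + D i' 1) * D i 0 := by
      intro i i'
      fin_cases i <;> fin_cases i'
      · simp only [Fin.zero_eta, Fin.isValue]; ring
      · simp only [Fin.zero_eta, Fin.mk_one, Fin.isValue]; linear_combination -h
      · simp only [Fin.zero_eta, Fin.mk_one, Fin.isValue]; linear_combination h
      · simp only [Fin.mk_one, Fin.isValue]; ring
    field_simp
    linear_combination hdet i i'
  obtain ⟨s, hs⟩ := key
  refine ⟨s, fun i => ?_⟩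
  have := hs i
  simp only [hD, Matrix.sub_apply] at this
  fin_cases i
  · simp only [Conf.shear, MP_c21e2e_ag.shear, Matrix.of_apply, Matrix.cons_val',
      Matrix.cons_val_zero, Matrix.cons_val_one, Matrix.cons_val_fin_one, Fin.zero_eta,
      Fin.isValue] at this ⊢
    linear_combination this
  · simp only [Conf.shear, MP_c21e2e_ag.shear, Matrix.of_apply, Matrix.cons_val',
      Matrix.cons_val_zero, Matrix.cons_val_one, Matrix.cons_val_fin_one, Fin.mk_one,
      Fin.isValue] at this ⊢
    linear_combination this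

lemma map_br {R S : Type*} [CommRing R] [CommRing S] (f : R →+* S) (x y z : Fin 3 → R) :
    f (br x y z) = br (fun i => f (x i)) (fun i => f (y i)) (fun i => f (z i)) := by
  simp [br]

/-- the relevant coordinates -/
def qv {R : Type*} [CommRing R] (M M' : Mat R) : Fin 3 → R :=
  ![M 0 0 - M' 0 0, M 1 0 - M' 1 0, M 1 1 - M' 1 1]

/-- the functional -/
def gv {R : Type*} [CommRing R] (E0 E : Mat R) : Fin 3 → R :=
  ![E0 1 0 * E 1 1 - E 1 0 * E0 1 1, - E0 1 0 * E 0 1 + E 1 0 * E0 0 1,
    E0 1 0 * E 0 0 - E 1 0 * E0 0 0]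

/-- incidence conditions give linear conditions -/
lemma gv_dot {R : Type*} [CommRing R] {M M' L L0 L1 : Mat R}
    (h1 : (M - L).det = 0) (h2 : (M' - L).det = 0) (h3 : (M - L0).det = 0)
    (h4 : (M' - L0).det = 0) (h5 : (M - L1).det = 0) (h6 : (M' - L1).det = 0) :
    gv (L0 - L1) (L - L1) ⬝ᵥ qv M M' = 0 := by
  simp only [Matrix.det_fin_two, Matrix.sub_apply] at h1 h2 h3 h4 h5 h6
  simp only [gv, qv, dotProduct, Fin.sum_univ_three, Matrix.cons_val_zero, Matrix.cons_val_one,
    Matrix.cons_val, Matrix.sub_apply]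
  linear_combination (-(L0 1 0 - L1 1 0)) * (h1 - h2 - h5 + h6) +
    (L 1 0 - L1 1 0) * (h3 - h4 - h5 + h6)

theorem no_lift {R K k : Type*} [CommRing R] [Field K] [Field k] (v : Red R K k)
    (hK : (2 : K) ≠ 0) (d : FData k) (τ : k) (MA : Option (Fin 7) → Mat R)
    (MB : Option (Option (Fin 7)) → Mat R)
    (hMA : ∀ a, (MA a).map v.ρ = shear τ (d.MA a)) (hMB : ∀ j, (MB j).map v.ρ = shear τ (d.MB j))
    (hinc : ∀ a j, (d.MA a - d.MB j).det = 0 → (MA a - MB j).det = 0) : False := by
  apply hK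
  let q : Fin 7 → (Fin 3 → R) := fun i => qv (MA (some i)) (MA none)
  let g : Fin 7 → (Fin 3 → R) := fun j => gv (MB (some none) - MB none) (MB (some (some j)) - MB none)
  -- incidences
  have hdot : ∀ i j, (d.MA (some i) - d.MB (some (some j))).det = 0 → g j ⬝ᵥ q i = 0 := by
    intro i j h
    exact gv_dot (hinc _ _ h) (hinc _ _ (d.inc_inf j)) (hinc _ _ (d.inc_zero _))
      (hinc _ _ (d.inc_zero _)) (hinc _ _ (d.inc_none _)) (hinc _ _ (d.inc_none _))
  -- entries of reductions
  have eA : ∀ a i j, v.ρ (MA a i j) = shear τ (d.MA a) i j := by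
    intro a i j; rw [← hMA]; rfl
  have eB : ∀ a i j, v.ρ (MB a i j) = shear τ (d.MB a) i j := by
    intro a i j; rw [← hMB]; rfl
  have hg : ∀ j, v.ρ (g j 2) ≠ 0 := by
    intro j
    have h1 := d.DD_ne j
    have h2 := d.pt_ne j
    have h3 := d.hl0
    have : v.ρ (g j 2) = - d.θ ^ 2 / (d.lam * d.pt j * d.DD j) := by
      simp only [g, gv, Matrix.cons_val, map_sub, map_mul, Matrix.sub_apply, eB, shear,
        FData.MB, Matrix.of_apply, Matrix.cons_val', Matrix.cons_val_zero, Matrix.cons_val_one,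
        Matrix.cons_val_fin_one]
      field_simp
      ring
    rw [this]
    exact div_ne_zero (neg_ne_zero.mpr (pow_ne_zero _ d.θ_ne_zero))
      (mul_ne_zero (mul_ne_zero h3 h2) h1)
  let qK : Fin 7 → (Fin 3 → K) := fun i l => v.ι (q i l)
  let gK : Fin 7 → (Fin 3 → K) := fun j l => v.ι (g j l)
  have hgK : ∀ j, gK j ≠ 0 := by
    intro j h
    have h1 : v.ι (g j 2) = 0 := congrFun h 2
    have h2 : g j 2 = 0 := v.inj (by simpa using h1)
    exact hg j (by rw [h2, map_zero])
  have hdotK : ∀ i j, (d.MA (some i) - d.MB (some (some j))).det = 0 → gK j ⬝ᵥ qK i = 0 := by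
    intro i j h
    have h1 := congrArg v.ι (hdot i j h)
    simpa [dotProduct, Fin.sum_univ_three, gK, qK] using h1
  have hline : ∀ j : Fin 7, br (qK j) (qK (j + 1)) (qK (j + 3)) = 0 := by
    intro j
    exact br_zero_of_dot (hgK j) (hdotK _ _ (d.inc0 j)) (hdotK _ _ (d.inc1 j))
      (hdotK _ _ (d.inc3 j))
  -- nondegeneracy
  have hq : ∀ i l, v.ρ (q i l) = ![d.pt i / d.E i, 1 / d.E i, (τ - d.pt i ^ 3) / d.E i] l := by
    intro i l
    have h1 := d.E_ne i
    fin_cases l
    · simp [q, qv, eA, shear, FData.MA]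
    · simp [q, qv, eA, shear, FData.MA]
    · simp only [q, qv, Fin.reduceFinMk, Matrix.cons_val, map_sub, eA, shear, FData.MA,
        Matrix.of_apply, Matrix.cons_val', Matrix.cons_val_zero, Matrix.cons_val_one,
        Matrix.cons_val_fin_one]
      field_simp
      ring
  have hnd : ∀ i j l : Fin 7, i ≠ j → j ≠ l → i ≠ l → d.pt i + d.pt j + d.pt l ≠ 0 →
      br (qK i) (qK j) (qK l) ≠ 0 := by
    intro i j l hij hjl hil hs h
    have h1 : v.ι (br (q i) (q j) (q l)) = 0 := by rw [map_br]; exact h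
    have h2 : br (q i) (q j) (q l) = 0 := v.inj (by simpa using h1)
    have h3 := congrArg v.ρ h2
    rw [map_br, map_zero] at h3
    have e1 := d.E_ne i
    have e2 := d.E_ne j
    have e3 := d.E_ne l
    have h4 : br (fun m => v.ρ (q i m)) (fun m => v.ρ (q j m)) (fun m => v.ρ (q l m)) =
        (d.pt j - d.pt i) * (d.pt j - d.pt l) * (d.pt i - d.pt l) * (d.pt i + d.pt j + d.pt l) /
          (d.E i * d.E j * d.E l) := by
      simp only [br, hq, Matrix.cons_val_zero, Matrix.cons_val_one, Matrix.cons_val]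
      field_simp
      ring
    rw [h4] at h3
    refine (div_ne_zero (mul_ne_zero (mul_ne_zero (mul_ne_zero ?_ ?_) ?_) hs)
      (mul_ne_zero (mul_ne_zero e1 e2) e3)) h3
    · exact sub_ne_zero.mpr fun h => hij (d.pt_inj h).symm
    · exact sub_ne_zero.mpr fun h => hjl (d.pt_inj h)
    · exact sub_ne_zero.mpr fun h => hil (d.pt_inj h)
  have hpow : ∀ m : ℕ, d.θ ^ m ≠ 0 := fun m => pow_ne_zero _ d.θ_ne_zero
  have hθ := d.hθ
  have h2 := d.two_eq
  refine fano qK (hline 0) (hline 1) (hline 2) (hline 3) (hline 4) (hline 5) (hline 6)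
    (hnd _ _ _ (by decide) (by decide) (by decide) ?_)
    (hnd _ _ _ (by decide) (by decide) (by decide) ?_)
    (hnd _ _ _ (by decide) (by decide) (by decide) ?_)
    (hnd _ _ _ (by decide) (by decide) (by decide) ?_)
    (hnd _ _ _ (by decide) (by decide) (by decide) ?_)
    (hnd _ _ _ (by decide) (by decide) (by decide) ?_)
    (hnd _ _ _ (by decide) (by decide) (by decide) ?_)
  · have : d.pt 0 + d.pt 1 + d.pt 2 = d.θ ^ 5 := by
      simp only [FData.pt]
      simp
      linear_combination (-d.θ ^ 2 - 1) * hθ - 0 * h2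
    rw [this]; exact hpow _
  · have : d.pt 5 + d.pt 1 + d.pt 2 = d.θ ^ 0 := by
      simp only [FData.pt]
      simp
      linear_combination (d.θ ^ 2 + 1) * hθ + (d.θ ^ 2 + d.θ) * h2
    rw [this]; exact hpow _
  · have : d.pt 0 + d.pt 5 + d.pt 2 = d.θ ^ 1 := by
      simp only [FData.pt]
      simp
      linear_combination (d.θ ^ 2 + 1) * hθ + (d.θ ^ 2 + 1) * h2
    rw [this]; exact hpow _
  · have : d.pt 0 + d.pt 1 + d.pt 5 = d.θ ^ 2 := by
      simp only [FData.pt]
      simp
      linear_combination (d.θ ^ 2 + 1) * hθ + (d.θ + 1) * h2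
    rw [this]; exact hpow _
  · have : d.pt 3 + d.pt 1 + d.pt 2 = d.θ ^ 6 := by
      simp only [FData.pt]
      simp
      linear_combination (-d.θ ^ 3 - d.θ) * hθ - 0 * h2
    rw [this]; exact hpow _
  · have : d.pt 0 + d.pt 4 + d.pt 2 = d.θ ^ 3 := by
      simp only [FData.pt]
      simp
      linear_combination (d.θ - 1) * hθ + (d.θ ^ 2) * h2
    rw [this]; exact hpow _
  · have : d.pt 0 + d.pt 1 + d.pt 6 = d.θ ^ 4 := by
      simp only [FData.pt]
      simp
      linear_combination (d.θ ^ 3 + 1) * hθ + (d.θ + 1) * h2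
    rw [this]; exact hpow _

end Pool.Agent.Work.MP_c21e2e_ag
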