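import Pool.Agent.Work.MP_c21e2e_ag.Core1

set_option linter.unusedSectionVars false
set_option linter.unusedSimpArgs false
set_option linter.style.setOption false

/-!
# Lifts of the curve: torsion-freeness and purity
-/

namespace Pool.Agent.Work.MP_c21e2e_ag

open MvPolynomial

section comm

variable {A : Type*} [CommRing A]

lemma exists_assoc [IsNoetherianRing A] (I : Ideal A) {f : A} (hf : f ∉ I) :
    ∃ Q : Ideal A, Q.IsPrime ∧ (∃ y, ∀ g, g ∈ Q ↔ g * y ∈ I) ∧ ∀ g, g * f ∈ I → g ∈ Q := by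
  have h0 : Ideal.Quotient.mk I f ≠ 0 := by rwa [Ne, Ideal.Quotient.eq_zero_iff_mem]
  obtain ⟨Q, hQ, hle⟩ := exists_le_isAssociatedPrime_of_isNoetherianRing A _ h0
  rw [isAssociatedPrime_iff] at hQ
  obtain ⟨hQ, y, hy⟩ := hQ
  obtain ⟨y, rfl⟩ := Ideal.Quotient.mk_surjective y
  have key : ∀ z g : A, g ∈ (⊥ : Submodule A (A ⧸ I)).colon {Ideal.Quotient.mk I z} ↔
      g * z ∈ I := by
    intro z g
    rw [Submodule.mem_colon_singleton, Submodule.mem_bot, Algebra.smul_def,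
      Ideal.Quotient.algebraMap_eq, ← map_mul, Ideal.Quotient.eq_zero_iff_mem]
  refine ⟨Q, hQ, ⟨y, fun g => ?_⟩, fun g hg => hle ((key f g).mpr hg)⟩
  rw [hy, key]

/-- the contraction of the extension of `I` to the localisation at the prime `P` -/
def locI (I P : Ideal A) [P.IsPrime] : Ideal A where
  carrier := {f | ∃ g, g ∉ P ∧ g * f ∈ I}
  add_mem' := by
    rintro a b ⟨g, hg, hga⟩ ⟨h, hh, hhb⟩
    refine ⟨g * h, fun hgh => (‹P.IsPrime›.mem_or_mem hgh).elim hg hh, ?_⟩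
    have : g * h * (a + b) = h * (g * a) + g * (h * b) := by ring
    rw [this]
    exact I.add_mem (I.mul_mem_left _ hga) (I.mul_mem_left _ hhb)
  zero_mem' := ⟨1, fun h => ‹P.IsPrime›.ne_top ((Ideal.eq_top_iff_one _).mpr h), by simp⟩
  smul_mem' := by
    rintro c a ⟨g, hg, hga⟩
    refine ⟨g, hg, ?_⟩
    have : g * (c • a) = c * (g * a) := by rw [smul_eq_mul]; ring
    rw [this]
    exact I.mul_mem_left _ hga

lemma mem_locI {I P : Ideal A} [P.IsPrime] {f : A} : f ∈ locI I P ↔ ∃ g, g ∉ P ∧ g * f ∈ I :=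
  Iff.rfl

lemma le_locI (I P : Ideal A) [P.IsPrime] : I ≤ locI I P := fun f hf =>
  ⟨1, fun h => ‹P.IsPrime›.ne_top ((Ideal.eq_top_iff_one _).mpr h), by simpa⟩

lemma locI_le {I P : Ideal A} [P.IsPrime] (h : I ≤ P) : locI I P ≤ P := by
  rintro f ⟨g, hg, hgf⟩
  exact (‹P.IsPrime›.mem_or_mem (h hgf)).resolve_left hg

lemma mem_locI_of_mul {I P : Ideal A} [P.IsPrime] {f g : A} (hf : f ∉ P)
    (h : f * g ∈ locI I P) : g ∈ locI I P := by
  obtain ⟨k, hk, hkfg⟩ := h
  exact ⟨k * f, fun h => (‹P.IsPrime›.mem_or_mem h).elim hk hf, by rwa [mul_assoc]⟩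

/-- elements of a minimal prime are nilpotent modulo the local component -/
lemma exists_pow_mem_locI {I P : Ideal A} [hP : P.IsPrime] (hmin : P ∈ I.minimalPrimes) {f : A}
    (hf : f ∈ P) : ∃ n, f ^ n ∈ locI I P := by
  by_contra hno
  push Not at hno
  -- the multiplicative set generated by `f` and the complement of `P` avoids `I`
  let S : Submonoid A := {
    carrier := {x | ∃ g, g ∉ P ∧ ∃ n : ℕ, x = g * f ^ n}
    one_mem' := ⟨1, fun h => hP.ne_top ((Ideal.eq_top_iff_one _).mpr h), 0, by simp⟩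
    mul_mem' := by
      rintro _ _ ⟨g, hg, n, rfl⟩ ⟨h, hh, m, rfl⟩
      exact ⟨g * h, fun hgh => (hP.mem_or_mem hgh).elim hg hh, n + m, by ring⟩ }
  have hdis : Disjoint (I : Set A) (S : Set A) := by
    rw [Set.disjoint_left]
    rintro _ hx ⟨g, hg, n, rfl⟩
    exact hno n ⟨g, hg, hx⟩
  obtain ⟨Q, hQ, hIQ, hQS⟩ := Ideal.exists_le_prime_disjoint I S hdis
  have hQP : Q ≤ P := by
    intro x hx
    by_contra hxP
    exact Set.disjoint_left.mp hQS hx ⟨x, hxP, 0, by simp⟩
  have hPQ : P ≤ Q := hmin.2 ⟨hQ, hIQ⟩ hQP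
  exact Set.disjoint_left.mp hQS (hPQ hf)
    ⟨1, fun h => hP.ne_top ((Ideal.eq_top_iff_one _).mpr h), 1, by simp⟩

end comm

section jjlemma

variable {F : Type*} [Field F]

/-- lower bound for the dimension of a quotient by multiplying with polynomials in one variable -/
lemma card_mul_le {ι : Type*} [Fintype ι] (f : ι → MvPolynomial (Fin 3) F)
    (W N : Submodule F (MvPolynomial (Fin 3) F)) [FiniteDimensional F W] (t : ℕ)
    (hW : ∀ i, ∀ p ∈ Polynomial.degreeLT F (t + 1), f i * jj p ∈ W) (hNW : N ≤ W)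
    (hker : ∀ p : ι → Polynomial F, ∑ i, f i * jj (p i) ∈ N → ∀ i, p i = 0) :
    Fintype.card ι * (t + 1) + Module.finrank F N ≤ Module.finrank F W := by
  classical
  let f1 : (ι → Polynomial.degreeLT F (t + 1)) →ₗ[F] MvPolynomial (Fin 3) F :=
    ∑ i, (LinearMap.mulLeft F (f i)) ∘ₗ (jj (F := F)).toLinearMap ∘ₗ
      (Polynomial.degreeLT F (t + 1)).subtype ∘ₗ (LinearMap.proj i)
  have hf1 : ∀ g, f1 g = ∑ i, f i * jj (g i : Polynomial F) := by
    intro g
    simp only [f1, LinearMap.sum_apply, LinearMap.comp_apply, LinearMap.proj_apply,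
      Submodule.subtype_apply, LinearMap.mulLeft_apply, AlgHom.toLinearMap_apply]
  let f0 : (ι → Polynomial.degreeLT F (t + 1)) →ₗ[F] W := f1.codRestrict W (fun g => by
    rw [hf1]
    exact W.sum_mem fun i _ => hW i _ (g i).2)
  have hf0 : ∀ g, ((f0 g : W) : MvPolynomial (Fin 3) F) = ∑ i, f i * jj (g i : Polynomial F) :=
    hf1
  have h1 := sum_finrank_quotient_le (fun _ : ι => (⊥ : Submodule F (Polynomial.degreeLT F (t + 1))))
    (N.comap W.subtype) f0 (by
      intro x hx i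
      rw [Submodule.mem_comap, Submodule.subtype_apply, hf0] at hx
      rw [Submodule.mem_bot]
      exact Subtype.ext (hker (fun i => x i) hx i))
  have h2 := (N.comap W.subtype).finrank_quotient_add_finrank
  rw [finrank_comap_subtype, inf_eq_left.mpr hNW] at h2
  have h3 : ∀ i : ι, Module.finrank F ((Polynomial.degreeLT F (t + 1)) ⧸
      (⊥ : Submodule F (Polynomial.degreeLT F (t + 1)))) = t + 1 := by
    intro _
    rw [LinearEquiv.finrank_eq (Submodule.quotEquivOfEqBot _ rfl), finrank_degreeLT]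
  rw [Finset.sum_congr rfl (fun i _ => h3 i), Finset.sum_const, Finset.card_univ,
    smul_eq_mul] at h1
  omega

end jjlemma

/-- an ideal over `K` whose reduction is, in large degrees, the ideal of the curve -/
structure LiftData {R K k nA nB : Type*} [CommRing R] [Field K] [Field k] (v : Red R K k)
    (X : Conf nA nB k) (N : ℕ) where
  I : Ideal (MvPolynomial (Fin 3) K)
  t0 : ℕ
  h : ∀ t ≥ t0, v.red (I.restrictScalars K ⊓ T K (Fin 3) t) =
    (X.I0 N).restrictScalars k ⊓ T k (Fin 3) t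

namespace LiftData

variable {R K k nA nB : Type*} [CommRing R] [Field K] [Field k] {v : Red R K k}
  [Fintype nA] [Fintype nB] [DecidableEq nA] [DecidableEq nB]
  {X : Conf nA nB k} {N : ℕ} (Z : LiftData v X N)

/-- the ideal as a `K`-subspace -/
noncomputable abbrev W : Submodule K (MvPolynomial (Fin 3) K) := Z.I.restrictScalars K

lemma bar_mem {f : MvPolynomial (Fin 3) R} (hf : v.lift f ∈ Z.I) : v.bar f ∈ X.I0 N := by
  have h1 : v.bar f ∈ v.red (Z.W ⊓ T K (Fin 3) (max Z.t0 f.totalDegree)) := by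
    refine ⟨f, ⟨hf, ?_⟩, rfl⟩
    rw [SetLike.mem_coe, mem_T, v.totalDegree_lift]
    exact le_max_right _ _
  rw [Z.h _ (le_max_left _ _)] at h1
  exact h1.1

lemma exists_mem {t : ℕ} (ht : Z.t0 ≤ t) {g : MvPolynomial (Fin 3) k} (hg : g ∈ X.I0 N)
    (hgT : g ∈ T k (Fin 3) t) :
    ∃ f, v.bar f = g ∧ v.lift f ∈ Z.I ∧ v.lift f ∈ T K (Fin 3) t := by
  have h1 : g ∈ v.red (Z.W ⊓ T K (Fin 3) t) := by
    rw [Z.h _ ht]
    exact ⟨hg, hgT⟩
  obtain ⟨f, hf, rfl⟩ := h1
  exact ⟨f, rfl, hf.1, hf.2⟩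

lemma D_eq {t : ℕ} (ht : Z.t0 ≤ t) : D Z.W t = D ((X.I0 N).restrictScalars k) t := by
  rw [v.D_eq, Z.h t ht]
  rfl

lemma hq_eq {t : ℕ} (ht : Z.t0 ≤ t) : hq Z.W t = hq ((X.I0 N).restrictScalars k) t := by
  have h1 := hq_add_D Z.W t
  have h2 := hq_add_D ((X.I0 N).restrictScalars k) t
  rw [Z.D_eq ht] at h1
  rw [v.finrank_T] at h1
  omega

/-- the noether normalisation condition lifts -/
lemma star : Star (MvPolynomial.X 0) Z.W := by
  refine ⟨max Z.t0 (2 * Fintype.card (nA ⊕ nB)), fun t ht => ?_⟩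
  set V := (Z.W ⊓ T K (Fin 3) (t + 1)) ⊔
    ((T K (Fin 3) t).map (LinearMap.mulLeft K (MvPolynomial.X 0))) ⊔ T K (Fin 3) t with hV
  have hVT : V ≤ T K (Fin 3) (t + 1) := by
    refine sup_le (sup_le inf_le_right ?_) (T_mono (Nat.le_succ t))
    rintro _ ⟨f, hf, rfl⟩
    exact mul_mem_T (X_mem_T 0) hf (by omega)
  have hle : T k (Fin 3) (t + 1) ≤ v.red V := by
    intro g hg
    obtain ⟨a, ha, haT, b, hb, c, hc, rfl⟩ := X.starAt_I0 N t (by omega) g hg
    obtain ⟨a, rfl, haI, haT'⟩ := Z.exists_mem (t := t + 1) (by omega) ha haT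
    obtain ⟨b, rfl, hbT⟩ := v.exists_lift hb
    obtain ⟨c, rfl, hcT⟩ := v.exists_lift hc
    refine ⟨a + MvPolynomial.X 0 * b + c, ?_, ?_⟩
    · rw [map_add, map_add, map_mul, v.lift_X]
      exact Submodule.add_mem_sup (Submodule.add_mem_sup ⟨haI, haT'⟩ ⟨_, hbT, rfl⟩) hcT
    · rw [map_add, map_add, map_mul, v.bar_X]
  have : FiniteDimensional K V := Submodule.finiteDimensional_of_le hVT
  have h1 := Submodule.finrank_mono hle
  rw [(v.finrank_red V).2, ← v.finrank_T] at h1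
  rw [Submodule.eq_of_le_of_finrank_le hVT h1]

/-- every ideal containing `I` has an eventually linear Hilbert function -/
lemma exists_slope {𝔞 : Ideal (MvPolynomial (Fin 3) K)} (h : Z.I ≤ 𝔞) :
    ∃ γ, Slope (𝔞.restrictScalars K) γ :=
  MP_c21e2e_ag.exists_slope (X_mem_T 0) (Z.star.mono h)

/-- `K[X] / I` is torsion-free over the polynomials in the first variable -/
lemma torsion_free {f : MvPolynomial (Fin 3) K} {p : Polynomial K} (hp : p ≠ 0)
    (h : f * jj p ∈ Z.I) : f ∈ Z.I := by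
  by_contra hf
  set t := max Z.t0 f.totalDegree
  have hfT : f ∈ T K (Fin 3) t := by
    rw [mem_T]; exact le_max_right _ _
  set V : Submodule K (MvPolynomial (Fin 3) K) := (Z.W ⊓ T K (Fin 3) t) ⊔ Submodule.span K {f}
  have hVT : V ≤ T K (Fin 3) t := by
    refine sup_le inf_le_right ?_
    rw [Submodule.span_singleton_le_iff_mem]
    exact hfT
  have : FiniteDimensional K V := Submodule.finiteDimensional_of_le hVT
  have hlt : Z.W ⊓ T K (Fin 3) t < V := by
    refine lt_of_le_of_ne le_sup_left fun heq => hf ?_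
    have : f ∈ V := Submodule.mem_sup_right (Submodule.mem_span_singleton_self f)
    rw [← heq] at this
    exact this.1
  have h1 := Submodule.finrank_lt_finrank_of_lt hlt
  obtain ⟨g, hg, hgI⟩ : ∃ g ∈ v.red V, g ∉ X.I0 N := by
    by_contra hno
    push Not at hno
    have h2 : v.red V ≤ v.red (Z.W ⊓ T K (Fin 3) t) := by
      rw [Z.h t (le_max_left _ _)]
      exact fun g hg => ⟨hno g hg, v.red_le_T hVT hg⟩
    have h3 := Submodule.finrank_mono h2
    rw [(v.finrank_red V).2, (v.finrank_red _).2] at h3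
    omega
  obtain ⟨g, hgV, rfl⟩ := hg
  have hgI' : v.lift g * jj p ∈ Z.I := by
    obtain ⟨a, ha, b, hb, hab⟩ := Submodule.mem_sup.mp hgV
    obtain ⟨c, rfl⟩ := Submodule.mem_span_singleton.mp hb
    rw [← hab, add_mul]
    refine Ideal.add_mem _ (Ideal.mul_mem_right _ _ ha.1) ?_
    rw [smul_mul_assoc, MvPolynomial.smul_eq_C_mul]
    exact Ideal.mul_mem_left _ _ h
  obtain ⟨c, q, hc, hq, ⟨u, hq'⟩, -⟩ := v.exists_primitive_family (fun _ : Unit => p) ⟨(), hp⟩
  have h2 : v.lift (g * Red.jR (q ())) ∈ Z.I := by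
    rw [map_mul, v.lift_jR, hq (), map_mul]
    have : v.lift g * (jj (Polynomial.C c) * jj p) = jj (Polynomial.C c) * (v.lift g * jj p) := by
      ring
    rw [this]
    exact Ideal.mul_mem_left _ _ hgI'
  have h3 := Z.bar_mem h2
  rw [map_mul, v.bar_jR] at h3
  exact hq' (X.I0_smul_jj N hgI h3)

end LiftData

end Pool.Agent.Work.MP_c21e2e_ag
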