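import Pool.Agent.Work.MP_c21e2e_ag.Lines

set_option linter.unusedSectionVars false
set_option linter.unusedSimpArgs false
set_option linter.style.setOption false

/-!
# Configurations of lines and the ideal of the associated non-reduced curve
-/

namespace Pool.Agent.Work.MP_c21e2e_ag

open MvPolynomial

variable {F : Type*} [Field F]

/-- two families of pairwise disjoint lines -/
structure Conf (nA nB : Type*) (F : Type*) [Field F] where
  M : nA → Mat F
  L : nB → Mat F
  hM : ∀ a a', a ≠ a' → (M a - M a').det ≠ 0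
  hL : ∀ j j', j ≠ j' → (L j - L j').det ≠ 0
  hML : ∀ a j, M a ≠ L j

section separate

/-- a linear equation of one line not vanishing on another line -/
lemma exists_sep {M M' : Mat F} (h : M ≠ M') : ∃ u ∈ ln M', u ∈ T F (Fin 3) 1 ∧ u ∉ ln M := by
  by_contra hno
  push Not at hno
  have h1 := hno _ (eu_mem M') (eu_mem_T M')
  have h2 := hno _ (ev_mem M') (ev_mem_T M')
  rw [mem_ln, psi_eu] at h1
  rw [mem_ln, psi_ev] at h2
  have h3 := congrArg (fun p => Polynomial.coeff p 0) h1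
  have h4 := congrArg (fun p => Polynomial.coeff p 1) h1
  have h5 := congrArg (fun p => Polynomial.coeff p 0) h2
  have h6 := congrArg (fun p => Polynomial.coeff p 1) h2
  simp [Polynomial.coeff_C, sub_eq_zero] at h3 h4 h5 h6
  apply h
  ext i j
  fin_cases i <;> fin_cases j <;> simp_all

/-- interpolation on pairwise disjoint lines -/
lemma exists_interp_line {ι : Type*} (ℓ : ι → Mat F) (s : ι) (S : Finset ι)
    (hs : ∀ s' ∈ S, (ℓ s - ℓ s').det ≠ 0) :
    ∀ t, S.card ≤ t → ∀ p ∈ Polynomial.degreeLT F (t + 1), ∃ f ∈ T F (Fin 3) t,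
      psi (ℓ s) f = p ∧ ∀ s' ∈ S, f ∈ ln (ℓ s') := by
  classical
  induction S using Finset.induction_on with
  | empty =>
    intro t _ p hp
    exact ⟨jj p, jj_mem hp, psi_jj _ _, by simp⟩
  | insert a S ha ih =>
    intro t ht p hp
    rw [Finset.card_insert_of_notMem ha] at ht
    obtain ⟨t, rfl⟩ : ∃ t', t = t' + 1 := ⟨t - 1, by omega⟩
    have ih' := ih (fun s' hs' => hs s' (Finset.mem_insert_of_mem hs')) t (by omega)
    obtain ⟨f1, hf1, hf1', hf1S⟩ := ih' (Polynomial.C (p.coeff 0)) (by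
      rw [Polynomial.mem_degreeLT]
      exact Polynomial.degree_C_le.trans_lt (by exact_mod_cast Nat.succ_pos t))
    obtain ⟨f2, hf2, hf2', hf2S⟩ := ih' p.divX (by
      rw [Polynomial.mem_degreeLT, Polynomial.degree_lt_iff_coeff_zero] at hp ⊢
      intro k hk
      rw [Polynomial.coeff_divX]
      exact hp _ (by omega))
    obtain ⟨g1, hg1, hg1T, hg1'⟩ := exists_psi_eq (hs a (Finset.mem_insert_self a S)) 1 0
    obtain ⟨g2, hg2, hg2T, hg2'⟩ := exists_psi_eq (hs a (Finset.mem_insert_self a S)) 0 1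
    refine ⟨f1 * g1 + f2 * g2, Submodule.add_mem _ (mul_mem_T hf1 hg1T (by omega))
      (mul_mem_T hf2 hg2T (by omega)), ?_, ?_⟩
    · rw [map_add, map_mul, map_mul, hf1', hf2', hg1', hg2']
      simp only [map_one, map_zero, zero_mul, add_zero, mul_one, one_mul, zero_add]
      rw [add_comm]
      exact Polynomial.divX_mul_X_add p
    · intro s' hs'
      rw [Finset.mem_insert] at hs'
      rcases hs' with rfl | hs'
      · exact Ideal.add_mem _ (Ideal.mul_mem_left _ _ hg1) (Ideal.mul_mem_left _ _ hg2)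
      · exact Ideal.add_mem _ (Ideal.mul_mem_right _ _ (hf1S s' hs'))
          (Ideal.mul_mem_right _ _ (hf2S s' hs'))

/-- Hilbert function of a union of pairwise disjoint lines -/
lemma le_hq_lines {ι : Type*} (ℓ : ι → Mat F) (S : Finset ι)
    (hs : ∀ s ∈ S, ∀ s' ∈ S, s ≠ s' → (ℓ s - ℓ s').det ≠ 0)
    (W : Submodule F (MvPolynomial (Fin 3) F)) (hW : ∀ f ∈ W, ∀ s ∈ S, f ∈ ln (ℓ s))
    (t : ℕ) (ht : S.card ≤ t) : S.card * (t + 1) ≤ hq W t := by
  classical
  let Φ : MvPolynomial (Fin 3) F →ₗ[F] (S → Polynomial F) :=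
    LinearMap.pi fun s => (psi (ℓ s)).toLinearMap
  have h0 : W ≤ LinearMap.ker Φ := by
    intro f hf
    rw [LinearMap.mem_ker]
    funext s
    exact mem_ln.mp (hW f hf s s.2)
  refine le_trans ?_ (hq_anti h0 t)
  rw [hq_ker]
  let Ψ : (S → Polynomial.degreeLT F (t + 1)) →ₗ[F] (S → Polynomial F) :=
    LinearMap.pi fun s => (Submodule.subtype _) ∘ₗ LinearMap.proj s
  have hΨ : Function.Injective Ψ := by
    intro x y hxy
    funext s
    exact Subtype.ext (congrFun hxy s)
  have h1 : LinearMap.range Ψ ≤ (T F (Fin 3) t).map Φ := by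
    rintro _ ⟨x, rfl⟩
    have hex : ∀ s : S, ∃ f ∈ T F (Fin 3) t, psi (ℓ s) f = x s ∧
        ∀ s' ∈ S.erase s, f ∈ ln (ℓ s') := by
      intro s
      apply exists_interp_line ℓ s (S.erase s) _ t _ _ (x s).2
      · intro s' hs'
        exact hs _ s.2 _ (Finset.mem_of_mem_erase hs') (Finset.ne_of_mem_erase hs').symm
      · exact (Finset.card_erase_le).trans ht
    choose f hfT hf hf' using hex
    refine ⟨∑ s, f s, Submodule.sum_mem _ fun s _ => hfT s, ?_⟩
    funext s
    change psi (ℓ s) (∑ s, f s) = x s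
    rw [map_sum, Finset.sum_eq_single s]
    · exact hf s
    · intro s' _ hne
      exact mem_ln.mp (hf' s' s (Finset.mem_erase.mpr ⟨fun h => hne (Subtype.ext h.symm), s.2⟩))
    · simp
  have h2 := Submodule.finrank_mono h1
  rw [LinearMap.finrank_range_of_inj hΨ, Module.finrank_pi_fintype] at h2
  simpa [finrank_degreeLT] using h2

end separate

section star

/-- every polynomial is a combination of variables -/
lemma exists_decomp {t : ℕ} {f : MvPolynomial (Fin 3) F} (hf : f ∈ T F (Fin 3) (t + 1)) :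
    ∃ g ∈ T F (Fin 3) t, ∃ h : Fin 3 → MvPolynomial (Fin 3) F, (∀ i, h i ∈ T F (Fin 3) t) ∧
      f = g + ∑ i, X i * h i := by
  classical
  rw [mem_T] at hf
  have key : ∀ m ∈ f.support, ∃ g ∈ T F (Fin 3) t, ∃ h : Fin 3 → MvPolynomial (Fin 3) F,
      (∀ i, h i ∈ T F (Fin 3) t) ∧ monomial m (coeff m f) = g + ∑ i, X i * h i := by
    intro m hm
    by_cases hm0 : m = 0
    · refine ⟨C (coeff m f), C_mem_T _ _, 0, fun i => Submodule.zero_mem _, ?_⟩
      subst hm0
      simp
    · obtain ⟨i, hi⟩ := Finsupp.ne_iff.mp hm0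
      rw [Finsupp.zero_apply] at hi
      have hle : Finsupp.single i 1 ≤ m := by
        rw [Finsupp.single_le_iff]; omega
      refine ⟨0, Submodule.zero_mem _, Pi.single i (monomial (m - Finsupp.single i 1) (coeff m f)),
        ?_, ?_⟩
      · intro j
        by_cases hij : j = i
        · subst hij
          rw [Pi.single_eq_same, mem_T]
          refine (totalDegree_monomial_le _ _).trans ?_
          change (m - Finsupp.single j 1).sum (fun _ e => e) ≤ t
          have h1 := (le_totalDegree hm).trans hf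
          have h2 : m = (m - Finsupp.single j 1) + Finsupp.single j 1 :=
            (tsub_add_cancel_of_le hle).symm
          rw [h2, Finsupp.sum_add_index' (fun _ => rfl) (fun _ _ _ => rfl),
            Finsupp.sum_single_index rfl] at h1
          omega
        · rw [Pi.single_eq_of_ne hij]; exact Submodule.zero_mem _
      · rw [zero_add, Finset.sum_eq_single i]
        · rw [Pi.single_eq_same]
          have h2 : monomial m (coeff m f) =
              monomial (Finsupp.single i 1 + (m - Finsupp.single i 1)) (1 * coeff m f) := by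
            rw [add_comm, tsub_add_cancel_of_le hle, one_mul]
          rw [h2, ← monomial_mul]
          rfl
        · intro j _ hij
          rw [Pi.single_eq_of_ne hij, mul_zero]
        · simp
  choose! g hg h hh hgh using key
  refine ⟨∑ m ∈ f.support, g m, Submodule.sum_mem _ fun m hm => hg m hm,
    fun i => ∑ m ∈ f.support, h m i, fun i => Submodule.sum_mem _ fun m hm => hh m hm i, ?_⟩
  conv_lhs => rw [← support_sum_monomial_coeff f, Finset.sum_congr rfl hgh]
  rw [Finset.sum_add_distrib, Finset.sum_comm]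
  simp only [Finset.mul_sum]

/-- quantitative version of `Star` -/
def StarAt (w : ℕ) (𝔞 : Ideal (MvPolynomial (Fin 3) F)) : Prop :=
  ∀ t ≥ w, ∀ f ∈ T F (Fin 3) (t + 1), ∃ a ∈ 𝔞, a ∈ T F (Fin 3) (t + 1) ∧
    ∃ b ∈ T F (Fin 3) t, ∃ c ∈ T F (Fin 3) t, f = a + X 0 * b + c

lemma StarAt.star {w : ℕ} {𝔞 : Ideal (MvPolynomial (Fin 3) F)} (h : StarAt w 𝔞) :
    Star (X 0) (𝔞.restrictScalars F) := by
  refine ⟨w, fun t ht f hf => ?_⟩
  obtain ⟨a, ha, haT, b, hb, c, hc, rfl⟩ := h t ht f hf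
  exact Submodule.add_mem_sup (Submodule.add_mem_sup ⟨ha, haT⟩ ⟨b, hb, rfl⟩) hc

lemma starAt_top : StarAt 0 (⊤ : Ideal (MvPolynomial (Fin 3) F)) :=
  fun t _ f hf => ⟨f, trivial, hf, 0, Submodule.zero_mem _, 0, Submodule.zero_mem _, by simp⟩

lemma StarAt.mono {w : ℕ} {𝔞 𝔟 : Ideal (MvPolynomial (Fin 3) F)} (h : StarAt w 𝔞) (hab : 𝔞 ≤ 𝔟) :
    StarAt w 𝔟 := by
  intro t ht f hf
  obtain ⟨a, ha, h⟩ := h t ht f hf
  exact ⟨a, hab ha, h⟩

lemma StarAt.mul_ln {w : ℕ} {𝔞 : Ideal (MvPolynomial (Fin 3) F)} (h : StarAt w 𝔞) (M : Mat F) :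
    StarAt (w + 1) (𝔞 * ln M) := by
  intro t ht f hf
  obtain ⟨t, rfl⟩ : ∃ t', t = t' + 1 := ⟨t - 1, by omega⟩
  obtain ⟨g, hg, k, hk, rfl⟩ := exists_decomp hf
  obtain ⟨a1, ha1, ha1T, b1, hb1, c1, hc1, e1⟩ := h t (by omega) (k 1) (hk 1)
  obtain ⟨a2, ha2, ha2T, b2, hb2, c2, hc2, e2⟩ := h t (by omega) (k 2) (hk 2)
  refine ⟨a1 * eu M + a2 * ev M, ?_, ?_, k 0 + C (M 0 1) * a1 + C (M 1 1) * a2 + X 1 * b1 + X 2 * b2,
    ?_, g + C (M 0 0) * a1 + C (M 1 0) * a2 + X 1 * c1 + X 2 * c2, ?_, ?_⟩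
  · exact Ideal.add_mem _ (Ideal.mul_mem_mul ha1 (eu_mem M)) (Ideal.mul_mem_mul ha2 (ev_mem M))
  · exact Submodule.add_mem _ (mul_mem_T ha1T (eu_mem_T M) le_rfl)
      (mul_mem_T ha2T (ev_mem_T M) le_rfl)
  · refine Submodule.add_mem _ (Submodule.add_mem _ (Submodule.add_mem _
      (Submodule.add_mem _ (hk 0) ?_) ?_) ?_) ?_
    · exact mul_mem_T (C_mem_T _ 0) ha1T (by omega)
    · exact mul_mem_T (C_mem_T _ 0) ha2T (by omega)
    · exact mul_mem_T (X_mem_T _) hb1 (by omega)
    · exact mul_mem_T (X_mem_T _) hb2 (by omega)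
  · refine Submodule.add_mem _ (Submodule.add_mem _ (Submodule.add_mem _
      (Submodule.add_mem _ hg ?_) ?_) ?_) ?_
    · exact mul_mem_T (C_mem_T _ 0) ha1T (by omega)
    · exact mul_mem_T (C_mem_T _ 0) ha2T (by omega)
    · exact mul_mem_T (X_mem_T _) hc1 (by omega)
    · exact mul_mem_T (X_mem_T _) hc2 (by omega)
  · rw [Fin.sum_univ_three, e1, e2]
    simp only [eu, ev]
    ring

lemma starAt_prod {ι : Type*} (ℓ : ι → Mat F) (S : Finset ι) :
    StarAt (2 * S.card) (∏ c ∈ S, (ln (ℓ c) * ln (ℓ c))) := by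
  classical
  induction S using Finset.induction_on with
  | empty => simpa [Ideal.one_eq_top] using starAt_top
  | insert a S ha ih =>
    have h1 : ∏ c ∈ insert a S, (ln (ℓ c) * ln (ℓ c)) =
        (∏ c ∈ S, (ln (ℓ c) * ln (ℓ c))) * ln (ℓ a) * ln (ℓ a) := by
      rw [Finset.prod_insert ha, mul_comm, mul_assoc]
    have h2 : 2 * (insert a S).card = 2 * S.card + 1 + 1 := by
      rw [Finset.card_insert_of_notMem ha]; ring
    rw [h1, h2]
    exact (ih.mul_ln (ℓ a)).mul_ln (ℓ a)

end star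

namespace Conf

variable {nA nB : Type*} [Fintype nA] [Fintype nB] [DecidableEq nA] [DecidableEq nB]
variable (X : Conf nA nB F) (N : ℕ)

/-- all lines -/
def l : nA ⊕ nB → Mat F := Sum.elim X.M X.L

omit [Fintype nA] [Fintype nB] [DecidableEq nA] [DecidableEq nB] in
lemma l_inj : Function.Injective X.l := by
  rintro (a | a) (b | b) h
  · by_contra hne
    have := X.hM a b (fun h => hne (by rw [h]))
    have h' : X.M a = X.M b := h
    rw [h', sub_self, Matrix.det_zero] at this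
    exact this rfl
  · exact absurd h (X.hML a b)
  · exact absurd h.symm (X.hML b a)
  · by_contra hne
    have := X.hL a b (fun h => hne (by rw [h]))
    have h' : X.L a = X.L b := h
    rw [h', sub_self, Matrix.det_zero] at this
    exact this rfl

/-- components -/
noncomputable def cmp : nA ⊕ nB → Ideal (MvPolynomial (Fin 3) F) :=
  Sum.elim (fun a => dbl (X.M a) N) (fun j => ln (X.L j))

/-- the ideal of the curve -/
noncomputable def I0 : Ideal (MvPolynomial (Fin 3) F) := ⨅ c, X.cmp N c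

omit [Fintype nA] [Fintype nB] [DecidableEq nA] [DecidableEq nB]

lemma mem_I0 {f : MvPolynomial (Fin 3) F} : f ∈ X.I0 N ↔ ∀ c, f ∈ X.cmp N c := Submodule.mem_iInf _

lemma I0_le (c) : X.I0 N ≤ X.cmp N c := iInf_le _ c

lemma cmp_le_ln (c) : X.cmp N c ≤ ln (X.l c) := by
  rcases c with a | j
  · exact dbl_le_ln _ _
  · exact le_rfl

lemma mul_mem_cmp {c} {f g : MvPolynomial (Fin 3) F} (hf : f ∈ ln (X.l c)) (hg : g ∈ ln (X.l c)) :
    f * g ∈ X.cmp N c := by
  rcases c with a | j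
  · exact mul_mem_dbl hf hg
  · exact Ideal.mul_mem_left _ _ hg

lemma mem_cmp_of_mul {c} {f g : MvPolynomial (Fin 3) F} (hf : f ∉ ln (X.l c))
    (h : f * g ∈ X.cmp N c) : g ∈ X.cmp N c := by
  rcases c with a | j
  · exact mem_dbl_of_mul hf h
  · exact ((inferInstance : (ln (X.L j)).IsPrime).mem_or_mem h).resolve_left hf

lemma I0_smul_jj {f : MvPolynomial (Fin 3) F} (hf : f ∉ X.I0 N) {p : Polynomial F}
    (h : f * jj p ∈ X.I0 N) : p = 0 := by
  by_contra hp
  apply hf
  rw [mem_I0]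
  intro c
  have h1 : jj p ∉ ln (X.l c) := by rw [mem_ln, psi_jj]; exact hp
  exact X.mem_cmp_of_mul N h1 (by rw [mul_comm]; exact X.I0_le N c h)

variable [Fintype nA] [Fintype nB] [DecidableEq nA] [DecidableEq nB]

lemma exists_separator (c : nA ⊕ nB) : ∃ e ∈ T F (Fin 3) (2 * Fintype.card (nA ⊕ nB)),
    e ∉ ln (X.l c) ∧ ∀ c', c' ≠ c → e ∈ X.cmp N c' := by
  have hex : ∀ c', ∃ u : MvPolynomial (Fin 3) F, u ∈ T F (Fin 3) 1 ∧ u ∉ ln (X.l c) ∧
      (c' ≠ c → u ∈ ln (X.l c')) := by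
    intro c'
    by_cases h : c' = c
    · refine ⟨1, ?_, ?_, fun h' => absurd h h'⟩
      · rw [mem_T]; simp
      · rw [mem_ln]; simp
    · obtain ⟨u, hu, huT, hu'⟩ := exists_sep (M := X.l c) (M' := X.l c')
        (fun h' => h (X.l_inj h').symm)
      exact ⟨u, huT, hu', fun _ => hu⟩
  choose u huT hu hu' using hex
  refine ⟨∏ c', (u c' * u c'), ?_, ?_, ?_⟩
  · rw [mem_T]
    refine (totalDegree_finsetProd _ _).trans ?_
    calc ∑ c', (u c' * u c').totalDegree ≤ ∑ c' : nA ⊕ nB, 2 := by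
          refine Finset.sum_le_sum fun c' _ => (totalDegree_mul _ _).trans ?_
          have := mem_T.mp (huT c')
          omega
      _ = 2 * Fintype.card (nA ⊕ nB) := by simp [mul_comm]
  · intro h
    rw [Ideal.IsPrime.prod_mem_iff] at h
    obtain ⟨c', -, h⟩ := h
    rcases (inferInstance : (ln (X.l c)).IsPrime).mem_or_mem h with h | h <;> exact hu c' h
  · intro c' hc'
    rw [Finset.prod_eq_mul_prod_sdiff_singleton_of_mem (Finset.mem_univ c')]
    exact Ideal.mul_mem_right _ _ (X.mul_mem_cmp N (hu' c' hc') (hu' c' hc'))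

/-- lower bound for the Hilbert function -/
lemma le_hq_I0 (t : ℕ) : ∑ c, hq ((X.cmp N c).restrictScalars F) t ≤
    hq ((X.I0 N).restrictScalars F) (t + 2 * Fintype.card (nA ⊕ nB)) := by
  choose e heT he he' using X.exists_separator N
  have h := sum_hq_le_hq (fun c => (X.cmp N c).restrictScalars F) e
    ((X.I0 N).restrictScalars F) ⊤ le_top t (2 * Fintype.card (nA ⊕ nB)) heT
    (fun _ _ => Submodule.mem_top) (by
      intro g hg c
      have h1 : ∑ c, e c * g c ∈ X.cmp N c := X.I0_le N c hg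
      rw [← Finset.add_sum_erase _ _ (Finset.mem_univ c)] at h1
      have h2 : ∑ x ∈ Finset.univ.erase c, e x * g x ∈ X.cmp N c :=
        Ideal.sum_mem _ fun x hx => Ideal.mul_mem_right _ _
          (he' x c (Finset.ne_of_mem_erase hx).symm)
      exact X.mem_cmp_of_mul N (he c) ((Ideal.add_mem_iff_left _ h2).mp h1))
  omega

lemma le_hq_I0' (t : ℕ) (ht : N ≤ t) :
    Fintype.card nA * (2 * t + 1 + N) + Fintype.card nB * (t + 1) ≤
    hq ((X.I0 N).restrictScalars F) (t + 2 * Fintype.card (nA ⊕ nB)) := by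
  refine le_trans ?_ (X.le_hq_I0 N t)
  rw [Fintype.sum_sum_type]
  apply Nat.add_le_add
  · calc Fintype.card nA * (2 * t + 1 + N) = ∑ _a : nA, (2 * t + 1 + N) := by simp
      _ ≤ _ := Finset.sum_le_sum fun a _ => le_hq_dbl (X.M a) N t ht
  · calc Fintype.card nB * (t + 1) = ∑ _a : nB, (t + 1) := by simp
      _ ≤ _ := Finset.sum_le_sum fun a _ => (hq_ln (X.L a) t).ge

lemma hq_I0_le (t : ℕ) : hq ((X.I0 N).restrictScalars F) t ≤
    Fintype.card nA * (2 * t + 1 + N) + Fintype.card nB * (t + 1) := by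
  have h := hq_iInf_le (fun c => (X.cmp N c).restrictScalars F) t
  have h0 : (⨅ c, (X.cmp N c).restrictScalars F) = (X.I0 N).restrictScalars F := by
    ext f
    simp [Submodule.mem_iInf, mem_I0]
  rw [h0] at h
  refine h.trans ?_
  rw [Fintype.sum_sum_type]
  apply Nat.add_le_add
  · calc _ ≤ ∑ _a : nA, (2 * t + 1 + N) :=
          Finset.sum_le_sum fun a _ => hq_dbl_le (X.M a) N t
      _ = _ := by simp
  · calc _ ≤ ∑ _a : nB, (t + 1) := Finset.sum_le_sum fun a _ => (hq_ln (X.L a) t).le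
      _ = _ := by simp

lemma starAt_I0 : StarAt (2 * Fintype.card (nA ⊕ nB)) (X.I0 N) := by
  refine (starAt_prod X.l Finset.univ).mono ?_
  refine le_iInf fun c => ?_
  rw [← Finset.mul_prod_erase _ _ (Finset.mem_univ c)]
  refine Ideal.mul_le_left.trans ?_
  rw [Ideal.mul_le]
  exact fun f hf g hg => X.mul_mem_cmp N hf hg

end Conf

end Pool.Agent.Work.MP_c21e2e_ag
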