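import Mathlib
import Pool.Agent.Work.MP_c21e2e_ag.Conf

set_option linter.unusedSectionVars false
set_option linter.unusedSimpArgs false
set_option linter.style.setOption false

/-!
# Field extensions
-/

namespace Pool.Agent.Work.MP_c21e2e_ag

open MvPolynomial

section

variable {k κ : Type*} [Field k] [Field κ] [Algebra k κ] {σ : Type*}

/-- apply a linear functional to the coefficients -/
noncomputable def cf (ℓ : κ →ₗ[k] k) (f : MvPolynomial σ κ) : MvPolynomial σ k :=
  ∑ m ∈ f.support, monomial m (ℓ (coeff m f))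

@[simp] lemma coeff_cf (ℓ : κ →ₗ[k] k) (f : MvPolynomial σ κ) (m : σ →₀ ℕ) :
    coeff m (cf ℓ f) = ℓ (coeff m f) := by
  classical
  rw [cf, coeff_sum]
  simp only [coeff_monomial]
  rw [Finset.sum_ite_eq']
  split_ifs with h
  · rfl
  · rw [notMem_support_iff] at h
    rw [h, map_zero]

lemma cf_add (ℓ : κ →ₗ[k] k) (f g : MvPolynomial σ κ) : cf ℓ (f + g) = cf ℓ f + cf ℓ g := by
  ext m
  simp

lemma cf_zero (ℓ : κ →ₗ[k] k) : cf ℓ (0 : MvPolynomial σ κ) = 0 := by
  ext m
  simp

lemma cf_sum (ℓ : κ →ₗ[k] k) {ι : Type*} (s : Finset ι) (f : ι → MvPolynomial σ κ) :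
    cf ℓ (∑ i ∈ s, f i) = ∑ i ∈ s, cf ℓ (f i) := by
  ext m
  simp [coeff_sum]

lemma cf_mul (ℓ : κ →ₗ[k] k) (f : MvPolynomial σ κ) (g : MvPolynomial σ k) :
    cf ℓ (f * MvPolynomial.map (algebraMap k κ) g) = cf ℓ f * g := by
  classical
  ext m
  rw [coeff_cf, coeff_mul, coeff_mul, map_sum]
  refine Finset.sum_congr rfl fun x _ => ?_
  rw [coeff_map, coeff_cf, mul_comm, ← Algebra.smul_def, map_smul, smul_eq_mul, mul_comm]

/-- decomposition along a basis -/
lemma exists_decomp_basis (f : MvPolynomial σ κ) {ι : Type*} (b : Module.Basis ι k κ) :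
    ∃ S : Finset ι, f = ∑ s ∈ S, b s • MvPolynomial.map (algebraMap k κ) (cf (b.coord s) f) := by
  classical
  refine ⟨f.support.biUnion fun m => (b.repr (coeff m f)).support, ?_⟩
  ext m
  rw [coeff_sum]
  simp only [coeff_smul, coeff_map, coeff_cf, Module.Basis.coord_apply, smul_eq_mul]
  by_cases hm : m ∈ f.support
  · have h1 := b.linearCombination_repr (coeff m f)
    conv_lhs => rw [← h1]
    rw [Finsupp.linearCombination_apply, Finsupp.sum_of_support_subset _ (s :=
      f.support.biUnion fun m => (b.repr (coeff m f)).support)]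
    · refine Finset.sum_congr rfl fun s _ => ?_
      rw [Algebra.smul_def, mul_comm]
    · intro s hs
      exact Finset.mem_biUnion.2 ⟨m, hm, hs⟩
    · simp
  · rw [notMem_support_iff] at hm
    simp [hm]

/-- membership in an extended ideal can be tested on coordinates -/
lemma cf_mem_of_mem_map {I : Ideal (MvPolynomial σ k)} {f : MvPolynomial σ κ}
    (hf : f ∈ I.map (MvPolynomial.map (algebraMap k κ))) (ℓ : κ →ₗ[k] k) : cf ℓ f ∈ I := by
  have key : ∀ a : MvPolynomial σ κ, cf ℓ (a * f) ∈ I := by
    refine Submodule.span_induction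
      (p := fun f _ => ∀ a : MvPolynomial σ κ, cf ℓ (a * f) ∈ I) ?_ ?_ ?_ ?_ hf
    · rintro _ ⟨g, hg, rfl⟩ a
      rw [cf_mul]
      exact I.mul_mem_left _ hg
    · intro a
      rw [mul_zero, cf_zero]; exact I.zero_mem
    · intro f g _ _ hf hg a
      rw [mul_add, cf_add]; exact I.add_mem (hf a) (hg a)
    · intro b f _ hf a
      rw [smul_eq_mul, ← mul_assoc]
      exact hf _
  simpa using key 1

lemma smul_map_mem {I : Ideal (MvPolynomial σ k)} {g : MvPolynomial σ k} (hg : g ∈ I) (c : κ) :
    c • MvPolynomial.map (algebraMap k κ) g ∈ I.map (MvPolynomial.map (algebraMap k κ)) := by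
  rw [MvPolynomial.smul_eq_C_mul]
  exact Ideal.mul_mem_left _ _ (Ideal.mem_map_of_mem _ hg)

/-- an element lies in the extended ideal iff all its coordinates lie in the ideal -/
lemma mem_map_iff {I : Ideal (MvPolynomial σ k)} {f : MvPolynomial σ κ} :
    f ∈ I.map (MvPolynomial.map (algebraMap k κ)) ↔ ∀ ℓ : κ →ₗ[k] k, cf ℓ f ∈ I := by
  refine ⟨cf_mem_of_mem_map, fun h => ?_⟩
  obtain ⟨S, hS⟩ := exists_decomp_basis f (Module.Basis.ofVectorSpace k κ)
  rw [hS]
  exact Submodule.sum_mem _ fun s _ => smul_map_mem (h _) _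

lemma totalDegree_cf_le (ℓ : κ →ₗ[k] k) (f : MvPolynomial σ κ) :
    (cf ℓ f).totalDegree ≤ f.totalDegree := by
  refine Finset.sup_mono fun m hm => ?_
  rw [mem_support_iff, coeff_cf] at hm
  rw [mem_support_iff]
  intro h0
  exact hm (by rw [h0, map_zero])

lemma cf_smul_map (ℓ : κ →ₗ[k] k) (c : κ) (g : MvPolynomial σ k) :
    cf ℓ (c • MvPolynomial.map (algebraMap k κ) g) = ℓ c • g := by
  ext m
  rw [coeff_cf, coeff_smul, coeff_smul, coeff_map, smul_eq_mul, smul_eq_mul, mul_comm c,
    ← Algebra.smul_def, map_smul, smul_eq_mul, mul_comm]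

/-- linear independence is preserved by field extension -/
lemma linearIndependent_map {ι : Type*} [Fintype ι] {g : ι → MvPolynomial σ k}
    (hg : LinearIndependent k g) :
    LinearIndependent κ fun i => MvPolynomial.map (algebraMap k κ) (g i) := by
  rw [Fintype.linearIndependent_iff] at hg ⊢
  intro c hc i
  let b := Module.Basis.ofVectorSpace k κ
  have h1 : ∀ s, b.coord s (c i) = 0 := by
    intro s
    refine hg (fun i => b.coord s (c i)) ?_ i
    have h2 := congrArg (cf (b.coord s)) hc
    rw [cf_sum, cf_zero] at h2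
    rw [← h2]
    exact Finset.sum_congr rfl fun i _ => (cf_smul_map _ _ _).symm
  refine b.ext_elem fun s => ?_
  simpa using h1 s

/-- the degree-bounded part of the extended ideal has the same dimension -/
lemma D_map [Finite σ] (I : Ideal (MvPolynomial σ k)) (n : ℕ) :
    D ((I.map (MvPolynomial.map (algebraMap k κ))).restrictScalars κ) n =
      D (I.restrictScalars k) n := by
  classical
  let V : Submodule k (MvPolynomial σ k) := I.restrictScalars k ⊓ T k σ n
  let g := Module.finBasis k V
  have h1 : (I.map (MvPolynomial.map (algebraMap k κ))).restrictScalars κ ⊓ T κ σ n =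
      Submodule.span κ (Set.range fun i => MvPolynomial.map (algebraMap k κ) (g i).1) := by
    apply le_antisymm
    · rintro f ⟨hf, hfn⟩
      obtain ⟨S, hS⟩ := exists_decomp_basis f (Module.Basis.ofVectorSpace k κ)
      rw [hS]
      refine Submodule.sum_mem _ fun s _ => Submodule.smul_mem _ _ ?_
      have h2 : cf ((Module.Basis.ofVectorSpace k κ).coord s) f ∈ V :=
        ⟨cf_mem_of_mem_map hf _, by
          rw [SetLike.mem_coe, mem_T] at *
          exact (totalDegree_cf_le _ _).trans hfn⟩
      have h3 := g.sum_repr ⟨_, h2⟩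
      have h4 := congrArg Subtype.val h3
      rw [Submodule.coe_sum] at h4
      simp only [Submodule.coe_smul] at h4
      rw [← h4, map_sum]
      refine Submodule.sum_mem _ fun i _ => ?_
      rw [MvPolynomial.smul_eq_C_mul, map_mul, map_C, ← MvPolynomial.smul_eq_C_mul]
      exact Submodule.smul_mem _ _ (Submodule.subset_span ⟨i, rfl⟩)
    · rw [Submodule.span_le]
      rintro _ ⟨i, rfl⟩
      refine ⟨Ideal.mem_map_of_mem _ (g i).2.1, ?_⟩
      have h2 := (g i).2.2
      rw [SetLike.mem_coe, mem_T] at h2 ⊢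
      exact (Finset.sup_mono (support_map_subset _ _)).trans h2
  have hli : LinearIndependent k fun i => (g i).1 :=
    g.linearIndependent.map' V.subtype (Submodule.ker_subtype _)
  unfold D
  rw [h1, finrank_span_eq_card (linearIndependent_map hli), Fintype.card_fin]

lemma T_eq_top_inf (F : Type*) [Field F] (σ : Type*) [Finite σ] (n : ℕ) :
    Module.finrank F (T F σ n) = D ((⊤ : Ideal (MvPolynomial σ F)).restrictScalars F) n := by
  unfold D
  rw [Submodule.restrictScalars_top, top_inf_eq]

lemma finrank_T_ext [Finite σ] (n : ℕ) :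
    Module.finrank κ (T κ σ n) = Module.finrank k (T k σ n) := by
  rw [T_eq_top_inf, T_eq_top_inf, ← D_map (κ := κ) (⊤ : Ideal (MvPolynomial σ k)) n, Ideal.map_top]

/-- invariance of the Hilbert function under field extensions -/
lemma hq_map [Finite σ] (I : Ideal (MvPolynomial σ k)) (n : ℕ) :
    hq ((I.map (MvPolynomial.map (algebraMap k κ))).restrictScalars κ) n =
      hq (I.restrictScalars k) n := by
  have h1 := hq_add_D ((I.map (MvPolynomial.map (algebraMap k κ))).restrictScalars κ) n
  have h2 := hq_add_D (I.restrictScalars k) n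
  rw [D_map] at h1
  rw [finrank_T_ext (k := k) (κ := κ)] at h1
  omega

end

/-- base change of a configuration -/
def Conf.map {nA nB k κ : Type*} [Field k] [Field κ] (X : Conf nA nB k) (j : k →+* κ) :
    Conf nA nB κ where
  M a := (X.M a).map j
  L a := (X.L a).map j
  hM a a' h := by
    have h1 := X.hM a a' h
    have h2 : (X.M a).map j - (X.M a').map j = (X.M a - X.M a').map j := by
      ext; simp
    rw [h2]
    change (j.mapMatrix (X.M a - X.M a')).det ≠ 0
    rw [← RingHom.map_det]
    exact (map_ne_zero j).2 h1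
  hL a a' h := by
    have h1 := X.hL a a' h
    have h2 : (X.L a).map j - (X.L a').map j = (X.L a - X.L a').map j := by
      ext; simp
    rw [h2]
    change (j.mapMatrix (X.L a - X.L a')).det ≠ 0
    rw [← RingHom.map_det]
    exact (map_ne_zero j).2 h1
  hML a b h := X.hML a b (by
    ext i l
    have := congrFun (congrFun h i) l
    exact j.injective (by simpa using this))

section

variable {k κ : Type*} [Field k] [Field κ] [Algebra k κ]

lemma psi_map (M : Mat k) (g : MvPolynomial (Fin 3) k) :
    psi (M.map (algebraMap k κ)) (MvPolynomial.map (algebraMap k κ) g) =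
      (psi M g).map (algebraMap k κ) := by
  induction g using MvPolynomial.induction_on with
  | C a => simp
  | add p q hp hq => simp [hp, hq]
  | mul_X p i hp =>
    rw [map_mul, map_mul, hp, map_mul, Polynomial.map_mul, MvPolynomial.map_X]
    congr 1
    fin_cases i <;> simp [psi]

lemma del_map (M : Mat k) (N : ℕ) (g : MvPolynomial (Fin 3) k) :
    del (M.map (algebraMap k κ)) N (MvPolynomial.map (algebraMap k κ) g) =
      (del M N g).map (algebraMap k κ) := by
  rw [del_apply, del_apply, MvPolynomial.pderiv_map, MvPolynomial.pderiv_map, psi_map, psi_map]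
  simp

/-- functionals commute with linear operators defined over the small field -/
lemma coeff_functional {Φ : MvPolynomial (Fin 3) k →ₗ[k] Polynomial k}
    {Ψ : MvPolynomial (Fin 3) κ →ₗ[κ] Polynomial κ}
    (h : ∀ g, Ψ (MvPolynomial.map (algebraMap k κ) g) = (Φ g).map (algebraMap k κ))
    (ℓ : κ →ₗ[k] k) (f : MvPolynomial (Fin 3) κ) (n : ℕ) :
    (Φ (cf ℓ f)).coeff n = ℓ ((Ψ f).coeff n) := by
  obtain ⟨S, hS⟩ := exists_decomp_basis f (Module.Basis.ofVectorSpace k κ)
  rw [hS, cf_sum, map_sum, map_sum, Polynomial.finsetSum_coeff, Polynomial.finsetSum_coeff,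
    map_sum]
  refine Finset.sum_congr rfl fun s _ => ?_
  rw [cf_smul_map, map_smul, map_smul, h, Polynomial.coeff_smul, Polynomial.coeff_smul,
    Polynomial.coeff_map, smul_eq_mul, smul_eq_mul, mul_comm (Module.Basis.ofVectorSpace k κ s),
    ← Algebra.smul_def, map_smul, smul_eq_mul, mul_comm]

lemma functional_zero {Φ : MvPolynomial (Fin 3) k →ₗ[k] Polynomial k}
    {Ψ : MvPolynomial (Fin 3) κ →ₗ[κ] Polynomial κ}
    (h : ∀ g, Ψ (MvPolynomial.map (algebraMap k κ) g) = (Φ g).map (algebraMap k κ))
    (ℓ : κ →ₗ[k] k) {f : MvPolynomial (Fin 3) κ} (hf : Ψ f = 0) : Φ (cf ℓ f) = 0 := by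
  ext n
  rw [coeff_functional h, hf]
  simp

variable {nA nB : Type*}

/-- base change of the ideal of the curve -/
theorem I0_map (X : Conf nA nB k) (N : ℕ) :
    (X.I0 N).map (MvPolynomial.map (algebraMap k κ)) = (X.map (algebraMap k κ)).I0 N := by
  apply le_antisymm
  · rw [Ideal.map_le_iff_le_comap]
    intro g hg
    rw [Ideal.mem_comap, Conf.mem_I0]
    rw [Conf.mem_I0] at hg
    rintro (a | b)
    · have h := mem_dbl.1 (hg (Sum.inl a))
      refine mem_dbl.2 ⟨?_, ?_⟩
      · change psi ((X.M a).map _) _ = 0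
        rw [psi_map, h.1, Polynomial.map_zero]
      · change del ((X.M a).map _) _ _ = 0
        rw [del_map, h.2, Polynomial.map_zero]
    · have h := mem_ln.1 (hg (Sum.inr b))
      refine mem_ln.2 ?_
      change psi ((X.L b).map _) _ = 0
      rw [psi_map, h, Polynomial.map_zero]
  · intro f hf
    rw [Conf.mem_I0] at hf
    rw [mem_map_iff]
    intro ℓ
    rw [Conf.mem_I0]
    rintro (a | b)
    · have h := mem_dbl.1 (hf (Sum.inl a))
      refine mem_dbl.2 ⟨?_, ?_⟩
      · exact functional_zero (Φ := (psi (X.M a)).toLinearMap)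
          (Ψ := (psi ((X.M a).map (algebraMap k κ))).toLinearMap) (fun g => psi_map _ g) ℓ h.1
      · exact functional_zero (Φ := del (X.M a) N)
          (Ψ := del ((X.M a).map (algebraMap k κ)) N) (fun g => del_map _ _ g) ℓ h.2
    · have h := mem_ln.1 (hf (Sum.inr b))
      exact mem_ln.2 (functional_zero (Φ := (psi (X.L b)).toLinearMap)
        (Ψ := (psi ((X.L b).map (algebraMap k κ))).toLinearMap) (fun g => psi_map _ g) ℓ h)

end

end Pool.Agent.Work.MP_c21e2e_ag
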