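import Mathlib
import Pool.Agent.Work.MP_c21e2e_ag.Irrelevant

/-!
# Families of curves in projective three-space and the Hilbert scheme

Definitions used in the statement of the result on MP_c21e2e_ag.
-/

open CategoryTheory CategoryTheory.Limits AlgebraicGeometry

noncomputable section

namespace HilbChar

attribute [local instance] MvPolynomial.gradedAlgebra

/-- Projective three-space `Proj A[X₀, X₁, X₂, X₃]` over the ring `A`. -/
def P3 (A : Type) [CommRing A] : Scheme.{0} := Proj (gr A)

/-- The ring of forms of degree zero. -/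
def grZero (A : Type) [CommRing A] : CommRingCat.{0} := CommRingCat.of (gr A 0)

/-- The canonical map from `A` to the ring of forms of degree zero. -/
def toGrZero (A : Type) [CommRing A] : CommRingCat.of A ⟶ grZero A :=
  CommRingCat.ofHom (algebraMap A (gr A 0))

/-- The canonical morphism from projective three-space to `Spec` of the ring of forms of
degree zero. -/
def P3.toSpecZero (A : Type) [CommRing A] : P3 A ⟶ Spec (grZero A) := Proj.toSpecZero (gr A)

/-- The structure morphism `P3 A ⟶ Spec A`. -/
def P3.toSpec (A : Type) [CommRing A] : P3 A ⟶ Spec (CommRingCat.of A) :=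
  P3.toSpecZero A ≫ Spec.map (toGrZero A)

/-- The base change morphism `P3 B ⟶ P3 A` induced by `φ : A → B`. -/
def P3.map {A B : Type} [CommRing A] [CommRing B] (φ : A →+* B) : P3 B ⟶ P3 A :=
  Proj.map (grMap φ) (irrelevant_le_map φ)

/-- The ring `A[X₀, …, X₃]_(Xᵢ)` of homogeneous fractions of degree zero with denominators the
powers of `Xᵢ`. -/
abbrev AwR (A : Type) [CommRing A] (i : Fin 4) : CommRingCat.{0} :=
  CommRingCat.of (HomogeneousLocalization.Away (gr A) (MvPolynomial.X i : MvPolynomial (Fin 4) A))

/-- The standard affine chart `Spec A[X₀, …, X₃]_(Xᵢ) ⟶ P3 A`. -/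
def chart (A : Type) [CommRing A] (i : Fin 4) : Spec (AwR A i) ⟶ P3 A :=
  Proj.awayι (gr A) (MvPolynomial.X i) (MvPolynomial.isHomogeneous_X A i) one_pos

/-- The preimage of an ideal under a ring homomorphism. -/
def preimageIdeal {R S : CommRingCat.{0}} (f : R ⟶ S) (I : Ideal S) : Ideal R :=
  I.comap f.hom

/-- The ideal of the ring `R` which corresponds to an ideal sheaf on `Spec R`, under the
identification of `R` with the ring of global sections of `Spec R`. -/
def topIdeal {R : CommRingCat.{0}} (I : (Spec R).IdealSheafData) : Ideal R :=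
  preimageIdeal (Scheme.ΓSpecIso R).inv (I.ideal ⟨⊤, isAffineOpen_top _⟩)

/-- The ideal of `A[X₀, …, X₃]_(Xᵢ)` defining the closed subscheme `Z` of `P3 A` in the
`i`-th standard affine chart. -/
def chartIdeal {A : Type} [CommRing A] (Z : (P3 A).IdealSheafData) (i : Fin 4) :
    Ideal (AwR A i) :=
  topIdeal (Z.comap (chart A i))

/-- The element `F / Xᵢⁿ` of `A[X₀, …, X₃]_(Xᵢ)`, for a form `F` of degree `n`. -/
def formDiv {A : Type} [CommRing A] (i : Fin 4) (n : ℕ) (F : gr A n) : AwR A i :=
  HomogeneousLocalization.Away.mk (gr A) (MvPolynomial.isHomogeneous_X A i) n F.1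
    (by simp only [smul_eq_mul, mul_one]; exact F.2)

theorem formDiv_val {A : Type} [CommRing A] (i : Fin 4) (n : ℕ) (F : gr A n) :
    (formDiv i n F).val = Localization.mk F.1
      (⟨MvPolynomial.X i ^ n, n, rfl⟩ : Submonoid.powers (MvPolynomial.X i)) :=
  HomogeneousLocalization.Away.val_mk (gr A) n _ _ _

theorem formDiv_zero {A : Type} [CommRing A] (i : Fin 4) (n : ℕ) :
    formDiv i n (0 : gr A n) = 0 := by
  apply HomogeneousLocalization.val_injective
  rw [formDiv_val, HomogeneousLocalization.val_zero]
  exact Localization.mk_zero _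

theorem formDiv_add {A : Type} [CommRing A] (i : Fin 4) (n : ℕ) (F G : gr A n) :
    formDiv i n (F + G) = formDiv i n F + formDiv i n G := by
  apply HomogeneousLocalization.val_injective
  rw [HomogeneousLocalization.val_add, formDiv_val, formDiv_val, formDiv_val,
    Localization.add_mk_self]
  rfl

theorem formDiv_mul {A : Type} [CommRing A] (i : Fin 4) (n m : ℕ) (F : gr A n) (G : gr A m) :
    formDiv i n F * formDiv i m G =
      formDiv i (n + m) ⟨F.1 * G.1, MvPolynomial.IsHomogeneous.mul F.2 G.2⟩ := by
  apply HomogeneousLocalization.val_injective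
  rw [HomogeneousLocalization.val_mul, formDiv_val, formDiv_val, formDiv_val,
    Localization.mk_mul]
  congr 1
  ext
  simp [pow_add]

theorem formDiv_smul {A : Type} [CommRing A] (i : Fin 4) (n : ℕ) (c : A) (F : gr A n) :
    formDiv i n (c • F) =
      formDiv i 0 ⟨MvPolynomial.C c, MvPolynomial.isHomogeneous_C _ c⟩ * formDiv i n F := by
  apply HomogeneousLocalization.val_injective
  rw [HomogeneousLocalization.val_mul, formDiv_val, formDiv_val, formDiv_val,
    Localization.mk_mul]
  congr 1
  · rw [← MvPolynomial.smul_eq_C_mul]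
    rfl
  · ext
    simp

/-- The form `F` of degree `n` vanishes on the closed subscheme `Z` of `P3 A`: for all `i`, the
fraction `F / Xᵢⁿ` lies in the ideal of `Z` in the `i`-th standard affine chart. -/
def Vanishes {A : Type} [CommRing A] (Z : (P3 A).IdealSheafData) (n : ℕ) (F : gr A n) : Prop :=
  ∀ i, formDiv i n F ∈ chartIdeal Z i

theorem vanishes_zero {A : Type} [CommRing A] (Z : (P3 A).IdealSheafData) (n : ℕ) :
    Vanishes Z n 0 := by
  intro i
  rw [formDiv_zero]
  exact zero_mem _

theorem vanishes_add {A : Type} [CommRing A] (Z : (P3 A).IdealSheafData) (n : ℕ) (F G : gr A n)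
    (hF : Vanishes Z n F) (hG : Vanishes Z n G) : Vanishes Z n (F + G) := by
  intro i
  rw [formDiv_add]
  exact add_mem (hF i) (hG i)

theorem vanishes_smul {A : Type} [CommRing A] (Z : (P3 A).IdealSheafData) (n : ℕ) (c : A)
    (F : gr A n) (hF : Vanishes Z n F) : Vanishes Z n (c • F) := by
  intro i
  rw [formDiv_smul]
  exact Ideal.mul_mem_left _ _ (hF i)

/-- The submodule of all elements with a property which is stable under addition and scalar
multiplication. -/
def subOf {A M : Type} [CommRing A] [AddCommGroup M] [Module A M] (P : M → Prop) (h0 : P 0)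
    (hadd : ∀ x y, P x → P y → P (x + y)) (hsmul : ∀ (c : A) x, P x → P (c • x)) :
    Submodule A M where
  carrier := {x | P x}
  zero_mem' := h0
  add_mem' {x y} := hadd x y
  smul_mem' c x := hsmul c x

/-- The forms of degree `n` which vanish on the closed subscheme `Z` of `P3 A`. -/
def forms {A : Type} [CommRing A] (Z : (P3 A).IdealSheafData) (n : ℕ) :
    Submodule A (gr A n) :=
  subOf (Vanishes Z n) (vanishes_zero Z n) (vanishes_add Z n) (vanishes_smul Z n)

/-- The dimension of a quotient vector space. -/
def codim {F M : Type} [Field F] [AddCommGroup M] [Module F M] (V : Submodule F M) : ℕ :=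
  Module.finrank F (M ⧸ V)

/-- The closed subscheme `Z` of projective three-space over the field `F` has Hilbert polynomial
`d t + 1 - g`: the space of forms of degree `n` modulo those vanishing on `Z` has dimension
`d n + 1 - g` for all large `n`. -/
def HasHilbPoly {F : Type} [Field F] (Z : (P3 F).IdealSheafData) (d : ℕ) (g : ℤ) : Prop :=
  ∃ n₀ : ℕ, ∀ n ≥ n₀, (codim (forms Z n) : ℤ) = d * n + 1 - g

/-- The set `Hilb_{d,g}(A)` of flat families of curves in `P3 A`: closed subschemes of `P3 A`,
flat and of finite presentation over `Spec A`, all of whose fibres over field-valued points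
of `Spec A` have Hilbert polynomial `d t + 1 - g`. -/
def Hilb (d : ℕ) (g : ℤ) (A : Type) [CommRing A] : Set (P3 A).IdealSheafData :=
  {Z | Flat (Z.subschemeι ≫ P3.toSpec A) ∧
    LocallyOfFinitePresentation (Z.subschemeι ≫ P3.toSpec A) ∧
    ∀ (F : Type) [Field F] (φ : A →+* F), HasHilbPoly (Z.comap (P3.map φ)) d g}

/-- The closed subscheme `X` of `P3 K` specialises, as a member of `Hilb_{d,g}`, to the closed
subscheme `X'` of `P3 L`, for fields `K` and `L`: there are a local ring `A` contained in `K`, whose
residue field contains `L`, and a member of `Hilb_{d,g}(A)` which is `X` over `K` and `X'` over the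
residue field of `A`. -/
def SpecialisesTo (d : ℕ) (g : ℤ) {K L : Type} [Field K] [Field L] (X : (P3 K).IdealSheafData)
    (X' : (P3 L).IdealSheafData) : Prop :=
  ∃ (A : Type) (_ : CommRing A) (_ : IsLocalRing A) (f : A →+* K)
    (j : L →+* IsLocalRing.ResidueField A), Function.Injective f ∧
      ∃ Y ∈ Hilb d g A, Y.comap (P3.map f) = X ∧
        Y.comap (P3.map (IsLocalRing.residue A)) = X'.comap (P3.map j)

/-- A Hilbert scheme of curves of degree `d` and arithmetic genus `g` in projective three-space:
a scheme whose `A`-valued points are, naturally in the ring `A`, the members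
of `Hilb_{d,g}(A)`. -/
structure HilbertScheme (d : ℕ) (g : ℤ) where
  /-- the underlying scheme -/
  H : Scheme.{0}
  /-- its `A`-valued points -/
  points : ∀ A : CommRingCat.{0}, (Spec A ⟶ H) ≃ Hilb d g A
  /-- compatibility with base change -/
  natural : ∀ {A B : CommRingCat.{0}} (φ : A ⟶ B) (s : Spec A ⟶ H),
    (points B (Spec.map φ ≫ s) : (P3 B).IdealSheafData) =
      (points A s : (P3 A).IdealSheafData).comap (P3.map φ.hom)

/-- The base change `H × Spec A` of a scheme `H` (over `Spec ℤ`). -/
def baseCh (H : Scheme.{0}) (A : Type) [CommRing A] : Scheme.{0} :=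
  pullback (specZIsTerminal.from H) (specZIsTerminal.from (Spec (CommRingCat.of A)))

/-- The morphism `H × Spec B ⟶ H × Spec A` induced by `φ : A → B`. -/
def baseCh.map (H : Scheme.{0}) {A B : Type} [CommRing A] [CommRing B] (φ : A →+* B) :
    baseCh H B ⟶ baseCh H A :=
  pullback.map _ _ _ _ (𝟙 H) (Spec.map (CommRingCat.ofHom φ)) (𝟙 _)
    (specZIsTerminal.hom_ext _ _) (specZIsTerminal.hom_ext _ _)

/-- `Fbar p` is an algebraic closure of the field with `p` elements. -/
abbrev Fbar (p : ℕ) [Fact p.Prime] : Type := AlgebraicClosure (ZMod p)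

/-- `Wbar p` is the ring of Witt vectors of `Fbar p`. -/
abbrev Wbar (p : ℕ) [Fact p.Prime] : Type := WittVector p (Fbar p)

/-- The inclusion of the special fibre `H ⊗ Fbar p` into `H ⊗ Wbar p`. -/
def specialFibre (p : ℕ) [Fact p.Prime] (H : Scheme.{0}) :
    baseCh H (Fbar p) ⟶ baseCh H (Wbar p) :=
  baseCh.map H (WittVector.constantCoeff : Wbar p →+* Fbar p)

/-- The inclusion of the characteristic zero fibre `H ⊗ Frac (Wbar p)` into `H ⊗ Wbar p`. -/
def genericFibre (p : ℕ) [Fact p.Prime] (H : Scheme.{0}) :
    baseCh H (FractionRing (Wbar p)) ⟶ baseCh H (Wbar p) :=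
  baseCh.map H (algebraMap (Wbar p) (FractionRing (Wbar p)))

/-- The set `Z` has a generic point, whose image under `a` is not in the closure of the image
of `b`. -/
def GenericPointOutside {X Y T : Scheme.{0}} (a : X ⟶ T) (b : Y ⟶ T) (Z : Set X) : Prop :=
  ∃ η : X, IsGenericPoint η Z ∧ a η ∉ closure (Set.range b)

/-- An irreducible component `Z` of `H ⊗ Fbar p` exists only in characteristic `p` if its generic
point does not lie in the closure, inside `H ⊗ Wbar p`, of the characteristic zero
fibre `H ⊗ Frac (Wbar p)`. -/
def ExistsOnlyInChar (p : ℕ) [Fact p.Prime] (H : Scheme.{0}) (Z : Set (baseCh H (Fbar p))) :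
    Prop :=
  GenericPointOutside (specialFibre p H) (genericFibre p H) Z

end HilbChar
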