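import Mathlib
import Pool.Agent.Work.MP_c21e2e_ag.Defs

/-!
# Ideal sheaves on affine schemes
-/

open CategoryTheory CategoryTheory.Limits AlgebraicGeometry

noncomputable section

namespace HilbChar

theorem topIdeal_def {R : CommRingCat.{0}} (I : (Spec R).IdealSheafData) : topIdeal I =
    (I.ideal ⟨⊤, isAffineOpen_top _⟩).comap (Scheme.ΓSpecIso R).inv.hom := rfl

/-- The ideal sheaf on `Spec R` attached to an ideal of `R`. -/
def ofIdeal {R : CommRingCat.{0}} (I : Ideal R) : (Spec R).IdealSheafData :=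
  Scheme.IdealSheafData.ofIdealTop (I.comap (Scheme.ΓSpecIso R).hom.hom)

theorem comap_hom_topIdeal {R : CommRingCat.{0}} (I : (Spec R).IdealSheafData) :
    (topIdeal I).comap (Scheme.ΓSpecIso R).hom.hom = I.ideal ⟨⊤, isAffineOpen_top _⟩ := by
  rw [topIdeal_def, Ideal.comap_comap, ← CommRingCat.hom_comp, Iso.hom_inv_id, CommRingCat.hom_id,
    Ideal.comap_id]

theorem topIdeal_ofIdeal {R : CommRingCat.{0}} (I : Ideal R) : topIdeal (ofIdeal I) = I := by
  rw [topIdeal_def, ofIdeal, Scheme.IdealSheafData.ofIdealTop_ideal]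
  have : (Spec R).presheaf.map (homOfLE (le_top : (⊤ : (Spec R).Opens) ≤ ⊤)).op = 𝟙 _ := by
    rw [← (Spec R).presheaf.map_id]; rfl
  rw [this, CommRingCat.hom_id, Ideal.map_id, Ideal.comap_comap, ← CommRingCat.hom_comp,
    Iso.inv_hom_id, CommRingCat.hom_id, Ideal.comap_id]

theorem topIdeal_le_iff {R : CommRingCat.{0}} {I J : (Spec R).IdealSheafData} :
    topIdeal I ≤ topIdeal J ↔ I ≤ J := by
  constructor
  · intro h
    apply Scheme.IdealSheafData.le_of_isAffine
    rw [← comap_hom_topIdeal, ← comap_hom_topIdeal]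
    exact Ideal.comap_mono h
  · intro h
    exact Ideal.comap_mono (h _)

theorem topIdeal_injective {R : CommRingCat.{0}} {I J : (Spec R).IdealSheafData}
    (h : topIdeal I = topIdeal J) : I = J :=
  le_antisymm (topIdeal_le_iff.1 h.le) (topIdeal_le_iff.1 h.ge)

theorem ofIdeal_topIdeal {R : CommRingCat.{0}} (I : (Spec R).IdealSheafData) :
    ofIdeal (topIdeal I) = I :=
  topIdeal_injective (topIdeal_ofIdeal _)

theorem topIdeal_map {R S : CommRingCat.{0}} (ψ : R ⟶ S) (J : (Spec S).IdealSheafData) :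
    topIdeal (J.map (Spec.map ψ)) = (topIdeal J).comap ψ.hom := by
  rw [topIdeal_def, Scheme.IdealSheafData.ideal_map_of_isAffineHom, topIdeal_def, Ideal.comap_comap,
    Ideal.comap_comap]
  have h := Scheme.ΓSpecIso_inv_naturality ψ
  have h2 : ((Spec.map ψ).app ⊤).hom.comp (Scheme.ΓSpecIso R).inv.hom
      = (Scheme.ΓSpecIso S).inv.hom.comp ψ.hom := by
    rw [← CommRingCat.hom_comp, ← CommRingCat.hom_comp, h]
    rfl
  erw [h2]
  rfl

theorem topIdeal_comap {R S : CommRingCat.{0}} (ψ : R ⟶ S) (I : (Spec R).IdealSheafData) :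
    topIdeal (I.comap (Spec.map ψ)) = (topIdeal I).map ψ.hom := by
  apply le_antisymm
  · rw [← topIdeal_ofIdeal ((topIdeal I).map ψ.hom), topIdeal_le_iff,
      ← Scheme.IdealSheafData.le_map_iff_comap_le, ← topIdeal_le_iff, topIdeal_map,
      topIdeal_ofIdeal]
    exact Ideal.le_comap_map
  · rw [Ideal.map_le_iff_le_comap, ← topIdeal_map, topIdeal_le_iff,
      Scheme.IdealSheafData.le_map_iff_comap_le]

end HilbChar
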