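import Mathlib
import Pool.Agent.Work.MP_c21e2e_ag.Geo1

/-!
# Chart ideals: base change and overlaps
-/

open CategoryTheory CategoryTheory.Limits AlgebraicGeometry HomogeneousLocalization

noncomputable section

namespace HilbChar

attribute [local instance] MvPolynomial.gradedAlgebra

theorem chartIdeal_eq {A : Type} [CommRing A] (Z : (P3 A).IdealSheafData) (i : Fin 4) :
    chartIdeal Z i = topIdeal (Z.comap (chart A i)) := rfl

/-- The map between the rings of the `i`-th standard charts induced by `φ : A → B`. -/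
def aw {A B : Type} [CommRing A] [CommRing B] (φ : A →+* B) (i : Fin 4) :
    Away (gr A) (MvPolynomial.X i : MvPolynomial (Fin 4) A) →+*
      Away (gr B) (MvPolynomial.X i : MvPolynomial (Fin 4) B) :=
  HomogeneousLocalization.map (grMap φ) (by
    rintro _ ⟨n, rfl⟩
    exact ⟨n, by
      change _ = MvPolynomial.map φ _
      simp⟩)

theorem awayι_comp_map' {A B : Type} [CommRing A] [CommRing B] (φ : A →+* B)
    (s : MvPolynomial (Fin 4) A) (hs : s ∈ gr A 1) (s' : MvPolynomial (Fin 4) B)
    (h : grMap φ s = s') (hs' : s' ∈ gr B 1)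
    (hc : Submonoid.powers s ≤ (Submonoid.powers s').comap (grMap φ)) :
    Proj.awayι (gr B) s' hs' one_pos ≫ Proj.map (grMap φ) (irrelevant_le_map φ) =
    Spec.map (CommRingCat.ofHom (HomogeneousLocalization.map (grMap φ) hc)) ≫
      Proj.awayι (gr A) s hs one_pos := by
  subst h
  exact Proj.awayι_comp_map (grMap φ) (irrelevant_le_map φ) one_pos s hs

theorem chart_comp_map {A B : Type} [CommRing A] [CommRing B] (φ : A →+* B) (i : Fin 4) :
    chart B i ≫ P3.map φ = Spec.map (CommRingCat.ofHom (aw φ i)) ≫ chart A i :=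
  awayι_comp_map' φ _ (MvPolynomial.isHomogeneous_X A i) _ (MvPolynomial.map_X φ i)
    (MvPolynomial.isHomogeneous_X B i) _

/-- Chart ideals commute with base change. -/
theorem chartIdeal_comap {A B : Type} [CommRing A] [CommRing B] (φ : A →+* B)
    (Z : (P3 A).IdealSheafData) (i : Fin 4) :
    chartIdeal (Z.comap (P3.map φ)) i = (chartIdeal Z i).map (aw φ i) := by
  rw [chartIdeal_eq, ← Scheme.IdealSheafData.comap_comp, chart_comp_map,
    Scheme.IdealSheafData.comap_comp, topIdeal_comap]
  rfl

theorem aw_formDiv {A B : Type} [CommRing A] [CommRing B] (φ : A →+* B) (i : Fin 4) (n : ℕ)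
    (F : gr A n) : aw φ i (formDiv i n F) =
      formDiv i n ⟨MvPolynomial.map φ F.1, MvPolynomial.IsHomogeneous.map F.2 φ⟩ := by
  apply HomogeneousLocalization.val_injective
  rw [formDiv_val]
  rw [aw, formDiv, Away.mk, HomogeneousLocalization.map_mk, HomogeneousLocalization.val_mk]
  congr 1
  refine Subtype.ext ?_
  change MvPolynomial.map φ (MvPolynomial.X i ^ n) = MvPolynomial.X i ^ n
  simp

theorem formDiv_surj {A : Type} [CommRing A] (i : Fin 4)
    (a : Away (gr A) (MvPolynomial.X i : MvPolynomial (Fin 4) A)) :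
    ∃ n F, formDiv i n F = a := by
  obtain ⟨n, F, hF, rfl⟩ := Away.mk_surjective (gr A) (MvPolynomial.isHomogeneous_X A i) a
  exact ⟨n, ⟨F, by simpa using hF⟩, rfl⟩

/-- Equality of fractions. -/
theorem formDiv_eq_iff {A : Type} [CommRing A] (i : Fin 4) {n m : ℕ} (F : gr A n) (G : gr A m) :
    formDiv i n F = formDiv i m G ↔
      MvPolynomial.X i ^ m * F.1 = MvPolynomial.X i ^ n * G.1 := by
  rw [← HomogeneousLocalization.val_injective _ |>.eq_iff, formDiv_val, formDiv_val,
    Localization.mk_eq_mk_iff, Localization.r_iff_exists]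
  constructor
  · rintro ⟨⟨_, k, rfl⟩, h⟩
    have hreg : IsLeftRegular (MvPolynomial.X i ^ k : MvPolynomial (Fin 4) A) := by
      have := (MvPolynomial.isRegular_X (R := A) (n := i)).left
      exact this.pow k
    exact hreg h
  · intro h
    exact ⟨1, by simpa using h⟩

/-- Multiplication by a power of `X_i` in the numerator. -/
def mulX {A : Type} [CommRing A] (i : Fin 4) (m : ℕ) {n : ℕ} (F : gr A n) : gr A (n + m) :=
  ⟨F.1 * MvPolynomial.X i ^ m, by
    have := MvPolynomial.IsHomogeneous.mul F.2 ((MvPolynomial.isHomogeneous_X A i).pow m)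
    simpa using this⟩

theorem formDiv_mulX_self {A : Type} [CommRing A] (i : Fin 4) (m : ℕ) {n : ℕ} (F : gr A n) :
    formDiv i (n + m) (mulX i m F) = formDiv i n F := by
  rw [formDiv_eq_iff]
  simp only [mulX, pow_add]
  ring

/-- The morphism of the chart of `X_i X_j` into `P3 A`. -/
def chart₂ (A : Type) [CommRing A] (i j : Fin 4) :
    Spec (CommRingCat.of (Away (gr A) (MvPolynomial.X i * MvPolynomial.X j))) ⟶ P3 A :=
  Proj.awayι (gr A) (MvPolynomial.X i * MvPolynomial.X j)
    ((MvPolynomial.isHomogeneous_X A i).mul (MvPolynomial.isHomogeneous_X A j)) (by norm_num)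

/-- Restriction from the chart of `X_i` to that of `X_i X_j`. -/
abbrev res₁ (A : Type) [CommRing A] (i j : Fin 4) :
    Away (gr A) (MvPolynomial.X i : MvPolynomial (Fin 4) A) →+*
      Away (gr A) (MvPolynomial.X i * MvPolynomial.X j : MvPolynomial (Fin 4) A) :=
  awayMap (gr A) (MvPolynomial.isHomogeneous_X A j) rfl

/-- Restriction from the chart of `X_j` to that of `X_i X_j`. -/
abbrev res₂ (A : Type) [CommRing A] (i j : Fin 4) :
    Away (gr A) (MvPolynomial.X j : MvPolynomial (Fin 4) A) →+*
      Away (gr A) (MvPolynomial.X i * MvPolynomial.X j : MvPolynomial (Fin 4) A) :=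
  awayMap (gr A) (MvPolynomial.isHomogeneous_X A i) (mul_comm _ _)

theorem overlap₁ {A : Type} [CommRing A] (Z : (P3 A).IdealSheafData) (i j : Fin 4) :
    topIdeal (Z.comap (chart₂ A i j)) = (chartIdeal Z i).map (res₁ A i j) := by
  have h : Spec.map (CommRingCat.ofHom (res₁ A i j)) ≫ chart A i = chart₂ A i j :=
    Proj.SpecMap_awayMap_awayι (gr A) (MvPolynomial.isHomogeneous_X A i) one_pos
      (MvPolynomial.isHomogeneous_X A j) rfl
  rw [← h, Scheme.IdealSheafData.comap_comp, topIdeal_comap]
  rfl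

theorem overlap₂ {A : Type} [CommRing A] (Z : (P3 A).IdealSheafData) (i j : Fin 4) :
    topIdeal (Z.comap (chart₂ A i j)) = (chartIdeal Z j).map (res₂ A i j) := by
  have h : Spec.map (CommRingCat.ofHom (res₂ A i j)) ≫ chart A j = chart₂ A i j :=
    Proj.SpecMap_awayMap_awayι (gr A) (MvPolynomial.isHomogeneous_X A j) one_pos
      (MvPolynomial.isHomogeneous_X A i) (mul_comm _ _)
  rw [← h, Scheme.IdealSheafData.comap_comp, topIdeal_comap]
  rfl

/-- The fraction `X_i / X_j` in the chart of `X_j`. -/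
def tt (A : Type) [CommRing A] (i j : Fin 4) :
    Away (gr A) (MvPolynomial.X j : MvPolynomial (Fin 4) A) :=
  Away.isLocalizationElem (MvPolynomial.isHomogeneous_X A j) (MvPolynomial.isHomogeneous_X A i)

theorem formDiv_mulX {A : Type} [CommRing A] (i j : Fin 4) (m : ℕ) {n : ℕ} (F : gr A n) :
    formDiv j (n + m) (mulX i m F) = formDiv j n F * tt A i j ^ m := by
  apply HomogeneousLocalization.val_injective
  rw [HomogeneousLocalization.val_mul, HomogeneousLocalization.val_pow, formDiv_val, formDiv_val,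
    tt, Away.val_mk, Localization.mk_pow, Localization.mk_mul]
  congr 1
  · simp [mulX]
  · ext
    simp [pow_add]

theorem res_formDiv {A : Type} [CommRing A] (i j : Fin 4) {n : ℕ} (F : gr A n) :
    res₂ A i j (formDiv j n F) = res₁ A i j (formDiv i n F) * (res₂ A i j (tt A i j)) ^ n := by
  apply HomogeneousLocalization.val_injective
  rw [HomogeneousLocalization.val_mul, HomogeneousLocalization.val_pow, tt, formDiv, formDiv,
    awayMap_mk, awayMap_mk, awayMap_mk, Away.val_mk, Away.val_mk, Away.val_mk,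
    Localization.mk_pow, Localization.mk_mul, Localization.mk_eq_mk_iff,
    Localization.r_iff_exists]
  refine ⟨1, ?_⟩
  simp
  ring

/-- If `F / X_i^n` lies in the ideal of the `i`-th chart, then `X_i^m F` has the same property for
the `j`-th chart when `m` is large. -/
theorem exists_mulX_mem {A : Type} [CommRing A] (Z : (P3 A).IdealSheafData) (i j : Fin 4)
    {n : ℕ} (F : gr A n) (hF : formDiv i n F ∈ chartIdeal Z i) :
    ∃ m, ∀ m' ≥ m, formDiv j (n + m') (mulX i m' F) ∈ chartIdeal Z j := by
  have h1 : res₁ A i j (formDiv i n F) ∈ (chartIdeal Z j).map (res₂ A i j) := by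
    rw [← overlap₂, overlap₁]
    exact Ideal.mem_map_of_mem _ hF
  let := (res₂ A i j).toAlgebra
  have : IsLocalization.Away (tt A i j)
      (Away (gr A) (MvPolynomial.X i * MvPolynomial.X j : MvPolynomial (Fin 4) A)) :=
    Away.isLocalization_mul (MvPolynomial.isHomogeneous_X A j)
      (MvPolynomial.isHomogeneous_X A i) (mul_comm _ _) one_ne_zero
  have h2 : res₁ A i j (formDiv i n F) ∈ (chartIdeal Z j).map (algebraMap
      (Away (gr A) (MvPolynomial.X j : MvPolynomial (Fin 4) A))
      (Away (gr A) (MvPolynomial.X i * MvPolynomial.X j : MvPolynomial (Fin 4) A))) := h1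
  rw [IsLocalization.mem_map_algebraMap_iff (Submonoid.powers (tt A i j))] at h2
  obtain ⟨⟨⟨b, hb⟩, ⟨_, m, rfl⟩⟩, h3⟩ := h2
  have h4 : res₂ A i j (formDiv j n F * tt A i j ^ m) = res₂ A i j (tt A i j ^ n * b) := by
    have h3' : res₁ A i j (formDiv i n F) * res₂ A i j (tt A i j ^ m) = res₂ A i j b := h3
    rw [map_mul, map_mul, res_formDiv, ← h3', map_pow, map_pow]
    ring
  obtain ⟨⟨_, m', rfl⟩, h5⟩ := (IsLocalization.eq_iff_exists (Submonoid.powers (tt A i j))
    (Away (gr A) (MvPolynomial.X i * MvPolynomial.X j : MvPolynomial (Fin 4) A))).1 h4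
  refine ⟨m + m', fun m'' hm'' ↦ ?_⟩
  rw [formDiv_mulX]
  obtain ⟨k, rfl⟩ := Nat.exists_eq_add_of_le hm''
  have : formDiv j n F * tt A i j ^ (m + m' + k) = tt A i j ^ k * tt A i j ^ m' *
      tt A i j ^ n * b := by
    have h5' : tt A i j ^ m' * (formDiv j n F * tt A i j ^ m) =
      tt A i j ^ m' * (tt A i j ^ n * b) := h5
    calc formDiv j n F * tt A i j ^ (m + m' + k)
        = tt A i j ^ k * (tt A i j ^ m' * (formDiv j n F * tt A i j ^ m)) := by ring
      _ = _ := by rw [h5']; ring
  rw [this]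
  exact Ideal.mul_mem_left _ _ hb

end HilbChar
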