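import Mathlib
import Pool.Agent.Work.MP_c21e2e_ag.Geo2

/-!
# Scheme-theoretic closure of an affine curve
-/

open CategoryTheory CategoryTheory.Limits AlgebraicGeometry HomogeneousLocalization

noncomputable section

namespace HilbChar

attribute [local instance] MvPolynomial.gradedAlgebra

theorem comap_ker {X Y V : Scheme.{0}} (f : X ⟶ Y) [QuasiCompact f] (g : V ⟶ Y)
    [IsOpenImmersion g] : f.ker.comap g = (pullback.snd f g).ker := by
  apply Scheme.IdealSheafData.ext
  funext W
  rw [Scheme.IdealSheafData.ideal_comap_of_isOpenImmersion,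
    Scheme.ker_ideal_of_isPullback_of_isOpenImmersion f (pullback.snd f g) (pullback.fst f g) g
      (IsPullback.of_hasPullback f g).flip]

theorem mem_topIdeal_ker {W : Scheme.{0}} {R : CommRingCat.{0}} (g : W ⟶ Spec R) (a : R) :
    a ∈ topIdeal g.ker ↔ g.appTop ((Scheme.ΓSpecIso R).inv a) = 0 := by
  rw [Scheme.ker_of_isAffine, topIdeal_def, Scheme.IdealSheafData.ofIdealTop_ideal]
  have : (Spec R).presheaf.map (homOfLE (le_top : (⊤ : (Spec R).Opens) ≤ ⊤)).op = 𝟙 _ := by
    rw [← (Spec R).presheaf.map_id]; rfl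
  rw [this, CommRingCat.hom_id, Ideal.map_id]
  rfl

/-- The pullback of a function along a composite. -/
theorem appTop_comp_inv {W : Scheme.{0}} {R S : CommRingCat.{0}} (g : W ⟶ Spec S) (ψ : R ⟶ S)
    (a : R) : (g ≫ Spec.map ψ).appTop ((Scheme.ΓSpecIso R).inv a) =
      g.appTop ((Scheme.ΓSpecIso S).inv (ψ a)) := by
  have h := Scheme.ΓSpecIso_inv_naturality ψ
  have h2 := congr($h a)
  simp only [CommRingCat.comp_apply] at h2
  rw [h2, Scheme.Hom.comp_appTop]
  rfl

instance (A : Type) [CommRing A] (i : Fin 4) : IsOpenImmersion (chart A i) :=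
  inferInstanceAs (IsOpenImmersion (Proj.awayι (gr A) (MvPolynomial.X i)
    (MvPolynomial.isHomogeneous_X A i) one_pos))

instance (A : Type) [CommRing A] : Scheme.IsSeparated (P3 A) :=
  inferInstanceAs (Scheme.IsSeparated (Proj (gr A)))

/-- The intersection of two charts. -/
def pbIso (A : Type) [CommRing A] (i j : Fin 4) : pullback (chart A i) (chart A j) ≅
    Spec (CommRingCat.of (Away (gr A)
      (MvPolynomial.X i * MvPolynomial.X j : MvPolynomial (Fin 4) A))) :=
  Proj.pullbackAwayιIso (gr A) (MvPolynomial.isHomogeneous_X A i) one_pos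
    (MvPolynomial.isHomogeneous_X A j) one_pos
    (rfl : MvPolynomial.X i * MvPolynomial.X j = MvPolynomial.X i * MvPolynomial.X j)

theorem pbIso_fst (A : Type) [CommRing A] (i j : Fin 4) :
    (pbIso A i j).hom ≫ Spec.map (CommRingCat.ofHom (res₁ A i j)) =
      pullback.fst (chart A i) (chart A j) :=
  Proj.pullbackAwayιIso_hom_SpecMap_awayMap_left (gr A) _ _ _ _ _

theorem pbIso_snd (A : Type) [CommRing A] (i j : Fin 4) :
    (pbIso A i j).hom ≫ Spec.map (CommRingCat.ofHom (res₂ A i j)) =
      pullback.snd (chart A i) (chart A j) :=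
  Proj.pullbackAwayιIso_hom_SpecMap_awayMap_right (gr A) _ _ _ _ _

theorem formDiv_mem_chartIdeal_ker {A : Type} [CommRing A] {W : Scheme.{0}} (i : Fin 4)
    (r : W ⟶ Spec (CommRingCat.of (Away (gr A) (MvPolynomial.X i : MvPolynomial (Fin 4) A))))
    [QuasiCompact (r ≫ chart A i)] {n : ℕ} (F : gr A n)
    (hF : r.appTop ((Scheme.ΓSpecIso _).inv (formDiv i n F)) = 0) (j : Fin 4) :
    formDiv j n F ∈ chartIdeal (r ≫ chart A i).ker j := by
  rw [chartIdeal_eq, comap_ker, mem_topIdeal_ker]
  let l : pullback (r ≫ chart A i) (chart A j) ⟶ pullback (chart A i) (chart A j) :=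
    pullback.lift (pullback.fst _ _ ≫ r) (pullback.snd _ _) (by
      rw [Category.assoc]; exact pullback.condition)
  let u : pullback (r ≫ chart A i) (chart A j) ⟶
      Spec (CommRingCat.of (Away (gr A)
        (MvPolynomial.X i * MvPolynomial.X j : MvPolynomial (Fin 4) A))) := l ≫ (pbIso A i j).hom
  have hu1 : u ≫ Spec.map (CommRingCat.ofHom (res₁ A i j)) = pullback.fst _ _ ≫ r := by
    rw [Category.assoc, pbIso_fst]
    exact pullback.lift_fst _ _ _
  have hu2 : u ≫ Spec.map (CommRingCat.ofHom (res₂ A i j)) = pullback.snd _ _ := by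
    rw [Category.assoc, pbIso_snd]
    exact pullback.lift_snd _ _ _
  rw [← hu2, appTop_comp_inv]
  have h3 : (CommRingCat.ofHom (res₂ A i j)) (formDiv j n F) =
      (CommRingCat.ofHom (res₁ A i j)) (formDiv i n F) *
        ((CommRingCat.ofHom (res₂ A i j)) (tt A i j)) ^ n := res_formDiv i j F
  rw [h3, map_mul, map_mul]
  have h4 : u.appTop ((Scheme.ΓSpecIso _).inv ((CommRingCat.ofHom (res₁ A i j))
      (formDiv i n F))) = 0 := by
    rw [← appTop_comp_inv, hu1, Scheme.Hom.comp_appTop, CommRingCat.comp_apply, hF, map_zero]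
  rw [h4, zero_mul]

/-- The scheme-theoretic closure in `P3 A` of a closed subscheme of the `0`-th chart. -/
def clos {A : Type} [CommRing A]
    (I : Ideal (Away (gr A) (MvPolynomial.X 0 : MvPolynomial (Fin 4) A))) :
    (P3 A).IdealSheafData :=
  Scheme.IdealSheafData.map (ofIdeal (R := AwR A 0) I) (chart A 0)

theorem chartIdeal_clos_le {A : Type} [CommRing A]
    (I : Ideal (Away (gr A) (MvPolynomial.X 0 : MvPolynomial (Fin 4) A))) :
    chartIdeal (clos I) 0 ≤ I := by
  have h := Scheme.IdealSheafData.comap_map_le (ofIdeal (R := AwR A 0) I) (chart A 0)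
  have := topIdeal_le_iff.2 h
  rwa [topIdeal_ofIdeal] at this

/-- A form vanishes on the closure if and only if it vanishes on the affine part. -/
theorem mem_forms_clos {A : Type} [CommRing A]
    (I : Ideal (Away (gr A) (MvPolynomial.X 0 : MvPolynomial (Fin 4) A))) {n : ℕ} (F : gr A n) :
    F ∈ forms (clos I) n ↔ formDiv 0 n F ∈ I := by
  constructor
  · intro h
    exact chartIdeal_clos_le I (h 0)
  · intro h j
    refine formDiv_mem_chartIdeal_ker 0
      (Scheme.IdealSheafData.subschemeι (ofIdeal (R := AwR A 0) I)) F ?_ j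
    rw [← mem_topIdeal_ker, Scheme.IdealSheafData.ker_subschemeι, topIdeal_ofIdeal]
    exact h

theorem chartIdeal_clos {A : Type} [CommRing A]
    (I : Ideal (Away (gr A) (MvPolynomial.X 0 : MvPolynomial (Fin 4) A))) :
    chartIdeal (clos I) 0 = I := by
  refine le_antisymm (chartIdeal_clos_le I) fun a ha ↦ ?_
  obtain ⟨n, F, rfl⟩ := formDiv_surj 0 a
  exact (mem_forms_clos I F).2 ha 0

end HilbChar
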