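import Mathlib
import Pool.Agent.Work.MP_c21e2e_ag.Geo3

/-!
# Dehomogenisation
-/

open CategoryTheory CategoryTheory.Limits AlgebraicGeometry HomogeneousLocalization

noncomputable section

namespace HilbChar

attribute [local instance] MvPolynomial.gradedAlgebra

/-- Dehomogenisation with respect to `X₀`. -/
def dh (A : Type) [CommRing A] : MvPolynomial (Fin 4) A →ₐ[A] MvPolynomial (Fin 3) A :=
  MvPolynomial.aeval (Fin.cons 1 MvPolynomial.X : Fin 4 → MvPolynomial (Fin 3) A)

@[simp] theorem dh_X0 (A : Type) [CommRing A] : dh A (MvPolynomial.X 0) = 1 := by simp [dh]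

@[simp] theorem dh_Xsucc (A : Type) [CommRing A] (j : Fin 3) :
    dh A (MvPolynomial.X j.succ) = MvPolynomial.X j := by simp [dh]

theorem dh_monomial {A : Type} [CommRing A] (M : Fin 4 →₀ ℕ) (c : A) :
    dh A (MvPolynomial.monomial M c) = MvPolynomial.monomial M.tail c := by
  rw [MvPolynomial.monomial_eq, MvPolynomial.monomial_eq, map_mul, Finsupp.prod_fintype _ _ (by simp),
    Finsupp.prod_fintype _ _ (by simp), map_prod, Fin.prod_univ_succ]
  simp [MvPolynomial.algebraMap_eq, Finsupp.tail_apply, dh]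

theorem dh_eq {A : Type} [CommRing A] (F : MvPolynomial (Fin 4) A) :
    dh A F = ∑ M ∈ F.support, MvPolynomial.monomial M.tail (MvPolynomial.coeff M F) := by
  conv_lhs => rw [F.as_sum]
  rw [map_sum]
  exact Finset.sum_congr rfl fun M _ ↦ dh_monomial M _

theorem cons_tail_of_mem {A : Type} [CommRing A] {n : ℕ} {F : MvPolynomial (Fin 4) A}
    (hF : F ∈ gr A n) {M : Fin 4 →₀ ℕ} (hM : M ∈ F.support) :
    M = Finsupp.cons (n - M.tail.degree) M.tail ∧ M.tail.degree ≤ n := by
  have h1 : M.degree = n := by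
    have := hF (MvPolynomial.mem_support_iff.1 hM)
    rw [← this, Finsupp.degree_eq_weight_one]
    rfl
  have h2 : M.degree = M 0 + M.tail.degree := by
    rw [Finsupp.degree_eq_sum, Finsupp.degree_eq_sum, Fin.sum_univ_succ]
    rfl
  constructor
  · conv_lhs => rw [← Finsupp.cons_tail M]
    congr 1
    omega
  · omega

/-- Coefficients of the dehomogenisation of a form. -/
theorem coeff_dh {A : Type} [CommRing A] {n : ℕ} {F : MvPolynomial (Fin 4) A}
    (hF : F ∈ gr A n) (m : Fin 3 →₀ ℕ) : MvPolynomial.coeff m (dh A F) =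
      if m.degree ≤ n then MvPolynomial.coeff (Finsupp.cons (n - m.degree) m) F else 0 := by
  classical
  rw [dh_eq, MvPolynomial.coeff_sum]
  simp only [MvPolynomial.coeff_monomial]
  split_ifs with h
  · rw [Finset.sum_eq_single (Finsupp.cons (n - m.degree) m)]
    · rw [Finsupp.tail_cons, if_pos rfl]
    · intro M hM hne
      rw [if_neg]
      rintro rfl
      exact hne (cons_tail_of_mem hF hM).1
    · intro hM
      rw [Finsupp.tail_cons, if_pos rfl]
      simpa using hM
  · refine Finset.sum_eq_zero fun M hM ↦ ?_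
    rw [if_neg]
    rintro rfl
    exact h (cons_tail_of_mem hF hM).2

theorem dh_inj {A : Type} [CommRing A] {n : ℕ} {F : MvPolynomial (Fin 4) A}
    (hF : F ∈ gr A n) (h : dh A F = 0) : F = 0 := by
  ext M
  rw [MvPolynomial.coeff_zero]
  by_contra hM
  have hM' : M ∈ F.support := MvPolynomial.mem_support_iff.2 hM
  obtain ⟨h1, h2⟩ := cons_tail_of_mem hF hM'
  have := coeff_dh hF M.tail
  rw [if_pos h2, ← h1, h, MvPolynomial.coeff_zero] at this
  exact hM this.symm

/-- The degree filtration. -/
def TT (A : Type) [CommRing A] (n : ℕ) : Submodule A (MvPolynomial (Fin 3) A) :=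
  MvPolynomial.restrictTotalDegree (Fin 3) A n

theorem dh_mem {A : Type} [CommRing A] {n : ℕ} {F : MvPolynomial (Fin 4) A}
    (hF : F ∈ gr A n) : dh A F ∈ TT A n := by
  rw [TT, MvPolynomial.mem_restrictTotalDegree, MvPolynomial.totalDegree, Finset.sup_le_iff]
  intro m hm
  rw [MvPolynomial.mem_support_iff, coeff_dh hF] at hm
  by_contra hcon
  rw [if_neg] at hm
  · exact hm rfl
  · rw [Finsupp.degree_eq_sum]
    rw [Finsupp.sum_fintype _ _ (by simp)] at hcon
    exact hcon

theorem exists_homog {A : Type} [CommRing A] {n : ℕ} {f : MvPolynomial (Fin 3) A}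
    (hf : f ∈ TT A n) : ∃ F ∈ gr A n, dh A F = f := by
  refine ⟨∑ m ∈ f.support, MvPolynomial.monomial (Finsupp.cons (n - m.degree) m)
    (MvPolynomial.coeff m f), ?_, ?_⟩
  · refine Submodule.sum_mem _ fun m hm ↦ ?_
    have hm' : m.degree ≤ n := by
      rw [TT, MvPolynomial.mem_restrictTotalDegree, MvPolynomial.totalDegree,
        Finset.sup_le_iff] at hf
      have := hf m hm
      rw [Finsupp.degree_eq_sum]
      rwa [Finsupp.sum_fintype _ _ (by simp)] at this
    refine MvPolynomial.isHomogeneous_monomial _ ?_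
    rw [Finsupp.degree_eq_sum, Fin.sum_univ_succ]
    simp only [Finsupp.cons_zero, Finsupp.cons_succ]
    rw [Finsupp.degree_eq_sum] at *
    omega
  · rw [map_sum]
    conv_rhs => rw [f.as_sum]
    refine Finset.sum_congr rfl fun m _ ↦ ?_
    rw [dh_monomial, Finsupp.tail_cons]

end HilbChar
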