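import Mathlib
import Pool.Agent.Work.MP_c21e2e_ag.Geo4

/-!
# The affine ideal of a closed subscheme
-/

open CategoryTheory CategoryTheory.Limits AlgebraicGeometry HomogeneousLocalization

noncomputable section

namespace HilbChar

attribute [local instance] MvPolynomial.gradedAlgebra

/-- Evaluation of fractions at `X₀ = 1`. -/
def dAw (A : Type) [CommRing A] :
    Away (gr A) (MvPolynomial.X 0 : MvPolynomial (Fin 4) A) →+* MvPolynomial (Fin 3) A :=
  (Localization.awayLift (dh A).toRingHom (MvPolynomial.X 0) (by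
    change IsUnit (dh A (MvPolynomial.X 0))
    rw [dh_X0]; exact isUnit_one)).comp (algebraMap _ _)

theorem dAw_formDiv {A : Type} [CommRing A] {n : ℕ} (F : gr A n) :
    dAw A (formDiv 0 n F) = dh A F.1 := by
  rw [dAw, RingHom.comp_apply, HomogeneousLocalization.algebraMap_apply, formDiv_val,
    Localization.awayLift_mk (v := 1)]
  · simp
  · simp

theorem dAw_bijective (A : Type) [CommRing A] : Function.Bijective (dAw A) := by
  constructor
  · rw [injective_iff_map_eq_zero]
    intro a ha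
    obtain ⟨n, F, rfl⟩ := formDiv_surj 0 a
    rw [dAw_formDiv] at ha
    have h := dh_inj F.2 ha
    have : F = 0 := Subtype.ext h
    rw [this, formDiv_zero]
  · intro f
    have hf : f ∈ TT A f.totalDegree := by
      rw [TT, MvPolynomial.mem_restrictTotalDegree]
    obtain ⟨F, hF, rfl⟩ := exists_homog hf
    exact ⟨formDiv 0 _ ⟨F, hF⟩, dAw_formDiv _⟩

/-- `A[X₀, …, X₃]_(X₀) ≃ A[x, y, z]`. -/
def dEq (A : Type) [CommRing A] :
    Away (gr A) (MvPolynomial.X 0 : MvPolynomial (Fin 4) A) ≃+* MvPolynomial (Fin 3) A :=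
  RingEquiv.ofBijective (dAw A) (dAw_bijective A)

/-- The ideal in `A[x, y, z]` of the part of a closed subscheme in the chart `X₀ ≠ 0`. -/
def aff {A : Type} [CommRing A] (Z : (P3 A).IdealSheafData) : Ideal (MvPolynomial (Fin 3) A) :=
  (chartIdeal Z 0).map (dAw A)

theorem mem_aff {A : Type} [CommRing A] (Z : (P3 A).IdealSheafData)
    (a : Away (gr A) (MvPolynomial.X 0 : MvPolynomial (Fin 4) A)) :
    dAw A a ∈ aff Z ↔ a ∈ chartIdeal Z 0 := by
  rw [aff, Ideal.mem_map_iff_of_surjective _ (dAw_bijective A).2]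
  constructor
  · rintro ⟨b, hb, hab⟩
    rwa [← (dAw_bijective A).1 hab]
  · intro h
    exact ⟨a, h, rfl⟩

theorem dh_mem_aff {A : Type} [CommRing A] (Z : (P3 A).IdealSheafData) {n : ℕ} (F : gr A n) :
    dh A F.1 ∈ aff Z ↔ formDiv 0 n F ∈ chartIdeal Z 0 := by
  rw [← dAw_formDiv, mem_aff]

theorem dh_map {A B : Type} [CommRing A] [CommRing B] (φ : A →+* B) (F : MvPolynomial (Fin 4) A) :
    dh B (MvPolynomial.map φ F) = MvPolynomial.map φ (dh A F) := by
  induction F using MvPolynomial.induction_on with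
  | C a => simp [dh, MvPolynomial.algebraMap_eq]
  | add p q hp hq => simp [hp, hq]
  | mul_X p i hp =>
    rw [map_mul, map_mul, map_mul, map_mul, hp, MvPolynomial.map_X]
    congr 1
    refine Fin.cases ?_ (fun j ↦ ?_) i
    · simp
    · simp

theorem dAw_aw {A B : Type} [CommRing A] [CommRing B] (φ : A →+* B)
    (a : Away (gr A) (MvPolynomial.X 0 : MvPolynomial (Fin 4) A)) :
    dAw B (aw φ 0 a) = MvPolynomial.map φ (dAw A a) := by
  obtain ⟨n, F, rfl⟩ := formDiv_surj 0 a
  rw [aw_formDiv, dAw_formDiv, dAw_formDiv, dh_map]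

/-- The affine ideal commutes with base change. -/
theorem aff_comap {A B : Type} [CommRing A] [CommRing B] (φ : A →+* B)
    (Z : (P3 A).IdealSheafData) : aff (Z.comap (P3.map φ)) = (aff Z).map (MvPolynomial.map φ) := by
  rw [aff, aff, chartIdeal_comap, Ideal.map_map, Ideal.map_map]
  congr 1
  ext1 a
  exact dAw_aw φ a

/-- The closure in `P3 A` of the closed subscheme of affine three-space defined by `I`. -/
def closA {A : Type} [CommRing A] (I : Ideal (MvPolynomial (Fin 3) A)) :
    (P3 A).IdealSheafData :=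
  clos (I.comap (dAw A))

theorem mem_forms_closA {A : Type} [CommRing A] (I : Ideal (MvPolynomial (Fin 3) A)) {n : ℕ}
    (F : gr A n) : F ∈ forms (closA I) n ↔ dh A F.1 ∈ I := by
  rw [closA, mem_forms_clos, Ideal.mem_comap, dAw_formDiv]

theorem aff_closA {A : Type} [CommRing A] (I : Ideal (MvPolynomial (Fin 3) A)) :
    aff (closA I) = I := by
  rw [aff, closA, chartIdeal_clos, Ideal.map_comap_of_surjective _ (dAw_bijective A).2]

/-- Vanishing forms dehomogenise into the affine ideal. -/
theorem dh_mem_of_forms {A : Type} [CommRing A] {Z : (P3 A).IdealSheafData} {n : ℕ} {F : gr A n}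
    (hF : F ∈ forms Z n) : dh A F.1 ∈ aff Z :=
  (dh_mem_aff Z F).2 (hF 0)

/-- If `F / X_i^n` vanishes on `Z` in the `i`-th chart, then `X_i^m F` vanishes on `Z` for
large `m`. -/
theorem exists_mulX_forms {A : Type} [CommRing A] (Z : (P3 A).IdealSheafData) (i : Fin 4)
    {n : ℕ} (F : gr A n) (hF : formDiv i n F ∈ chartIdeal Z i) :
    ∃ m, ∀ m' ≥ m, mulX i m' F ∈ forms Z (n + m') := by
  choose m hm using fun j ↦ exists_mulX_mem Z i j F hF
  refine ⟨Finset.univ.sup m, fun m' hm' j ↦ ?_⟩
  exact hm j m' ((Finset.le_sup (Finset.mem_univ j)).trans hm')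

end HilbChar
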