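import Mathlib
import Pool.Agent.Work.MP_c21e2e_ag.Geo5

/-!
# Vanishing forms lift along surjections in large degrees
-/

open CategoryTheory CategoryTheory.Limits AlgebraicGeometry HomogeneousLocalization

noncomputable section

namespace HilbChar

attribute [local instance] MvPolynomial.gradedAlgebra

theorem forms_mul_mem {A : Type} [CommRing A] {Z : (P3 A).IdealSheafData} {n m : ℕ} {F : gr A n}
    (hF : F ∈ forms Z n) (G : gr A m) :
    (⟨F.1 * G.1, MvPolynomial.IsHomogeneous.mul F.2 G.2⟩ : gr A (n + m)) ∈ forms Z (n + m) := by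
  intro i
  rw [← formDiv_mul]
  exact Ideal.mul_mem_right _ _ (hF i)

theorem exists_lift_form {R k : Type} [CommRing R] [CommRing k] {π : R →+* k}
    (hπ : Function.Surjective π) {m : ℕ} (G : gr k m) :
    ∃ G' : gr R m, MvPolynomial.map π G'.1 = G.1 := by
  choose s hs using hπ
  refine ⟨⟨∑ M ∈ G.1.support, MvPolynomial.monomial M (s (MvPolynomial.coeff M G.1)),
    Submodule.sum_mem _ fun M hM ↦ MvPolynomial.isHomogeneous_monomial _ ?_⟩, ?_⟩
  · have := G.2 (MvPolynomial.mem_support_iff.1 hM)
    rw [← this, Finsupp.degree_eq_weight_one]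
    rfl
  · conv_rhs => rw [G.1.as_sum]
    rw [map_sum]
    refine Finset.sum_congr rfl fun M _ ↦ ?_
    rw [MvPolynomial.map_monomial, hs]

/-- `H` is the reduction of a form of degree `n` vanishing on `Z`. -/
def PP {R k : Type} [CommRing R] [CommRing k] (π : R →+* k) (Z : (P3 R).IdealSheafData) (n : ℕ)
    (H : MvPolynomial (Fin 4) k) : Prop :=
  ∃ F : gr R n, F ∈ forms Z n ∧ MvPolynomial.map π F.1 = H

section

variable {R k : Type} [CommRing R] [CommRing k] {π : R →+* k} {Z : (P3 R).IdealSheafData}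

theorem PP.zero (n : ℕ) : PP π Z n 0 := ⟨0, zero_mem _, by simp⟩

theorem PP.add {n : ℕ} {H G : MvPolynomial (Fin 4) k} (h : PP π Z n H) (h' : PP π Z n G) :
    PP π Z n (H + G) := by
  obtain ⟨F, hF, rfl⟩ := h
  obtain ⟨F', hF', rfl⟩ := h'
  exact ⟨F + F', add_mem hF hF', by simp⟩

theorem PP.sum {ι : Type*} (s : Finset ι) {n : ℕ} {H : ι → MvPolynomial (Fin 4) k}
    (h : ∀ i ∈ s, PP π Z n (H i)) : PP π Z n (∑ i ∈ s, H i) := by
  classical
  induction s using Finset.induction_on with
  | empty => simpa using PP.zero n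
  | insert a s ha ih =>
    rw [Finset.sum_insert ha]
    exact (h a (by simp)).add (ih fun i hi ↦ h i (by simp [hi]))

theorem PP.mul (hπ : Function.Surjective π) {n m : ℕ} {H : MvPolynomial (Fin 4) k}
    (h : PP π Z n H) {G : MvPolynomial (Fin 4) k} (hG : G ∈ gr k m) : PP π Z (n + m) (H * G) := by
  obtain ⟨F, hF, rfl⟩ := h
  obtain ⟨G', hG'⟩ := exists_lift_form hπ ⟨G, hG⟩
  refine ⟨_, forms_mul_mem hF G', ?_⟩
  simp [hG']

/-- The key local statement. -/
theorem PP.exists_X (hπ : Function.Surjective π) {d : ℕ} {s : gr k d}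
    (hs : s ∈ forms (Z.comap (P3.map π)) d) (i : Fin 4) :
    ∃ M, ∀ m ≥ M, PP π Z (d + m) (s.1 * MvPolynomial.X i ^ m) := by
  have h1 := hs i
  have hsurj : Function.Surjective (aw π i) := by
    intro a
    obtain ⟨n, G, rfl⟩ := formDiv_surj i a
    obtain ⟨G', hG'⟩ := exists_lift_form hπ G
    refine ⟨formDiv i n G', ?_⟩
    rw [aw_formDiv]
    congr 1
    exact Subtype.ext hG'
  rw [chartIdeal_comap, Ideal.mem_map_iff_of_surjective _ hsurj] at h1
  obtain ⟨a, ha, has⟩ := h1
  obtain ⟨n, F, rfl⟩ := formDiv_surj i a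
  rw [aw_formDiv, formDiv_eq_iff] at has
  obtain ⟨M, hM⟩ := exists_mulX_forms Z i F ha
  refine ⟨n + M, fun m hm ↦ ?_⟩
  obtain ⟨l, rfl⟩ := Nat.exists_eq_add_of_le hm
  have h2 := hM (d + M + l) (by omega)
  have hdeg : n + (d + M + l) = d + (n + M + l) := by omega
  have key : ∀ (e : ℕ) (G : gr R e), G ∈ forms Z e → e = d + (n + M + l) →
      PP π Z (d + (n + M + l)) (MvPolynomial.map π G.1) := by
    rintro e G hG rfl
    exact ⟨G, hG, rfl⟩
  have h3 := key _ _ h2 hdeg
  have h4 : MvPolynomial.map π (mulX i (d + M + l) F).1 =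
      s.1 * MvPolynomial.X i ^ (n + M + l) := by
    have : MvPolynomial.map π (mulX i (d + M + l) F).1 =
        (MvPolynomial.X i ^ d * MvPolynomial.map π F.1) * MvPolynomial.X i ^ (M + l) := by
      simp only [mulX, map_mul, map_pow, MvPolynomial.map_X]
      ring
    rw [this]
    change MvPolynomial.X i ^ d * MvPolynomial.map π F.1 = _ at has
    rw [has]
    ring
  rwa [h4] at h3

end

theorem homogeneousComponent_mul_form {k : Type} [CommRing k] (a s : MvPolynomial (Fin 4) k)
    {d t : ℕ} (hs : s ∈ gr k d) (ht : d ≤ t) :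
    MvPolynomial.homogeneousComponent t (a * s) =
      MvPolynomial.homogeneousComponent (t - d) a * s := by
  have h := MvPolynomial.sum_homogeneousComponent a
  conv_lhs => rw [← h, Finset.sum_mul, map_sum]
  have h2 : ∀ i ∈ Finset.range (a.totalDegree + 1), MvPolynomial.homogeneousComponent t
      (MvPolynomial.homogeneousComponent i a * s) =
        if i = t - d then MvPolynomial.homogeneousComponent (t - d) a * s else 0 := by
    intro i _
    have h3 : (MvPolynomial.homogeneousComponent i a * s).IsHomogeneous (i + d) :=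
      (MvPolynomial.homogeneousComponent_isHomogeneous i a).mul hs
    split_ifs with hi
    · subst hi
      rw [Nat.sub_add_cancel ht] at h3
      exact (MvPolynomial.homogeneousComponent_of_mem h3).trans (if_pos rfl)
    · rw [MvPolynomial.homogeneousComponent_of_mem h3, if_neg]
      omega
  rw [Finset.sum_congr rfl h2, Finset.sum_ite_eq']
  split_ifs with hr
  · rfl
  · rw [Finset.mem_range, not_lt] at hr
    rw [MvPolynomial.homogeneousComponent_eq_zero _ _ (by omega), zero_mul]

/-- Vanishing forms lift along surjections of the base in large degrees. -/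
theorem exists_lift_forms {R k : Type} [CommRing R] [Field k] {π : R →+* k}
    (hπ : Function.Surjective π) (Z : (P3 R).IdealSheafData) :
    ∃ t₀, ∀ t ≥ t₀, ∀ H : gr k t, H ∈ forms (Z.comap (P3.map π)) t →
      ∃ F : gr R t, F ∈ forms Z t ∧ MvPolynomial.map π F.1 = H.1 := by
  classical
  let S : Set (MvPolynomial (Fin 4) k) :=
    {H | ∃ n, ∃ hH : H ∈ gr k n, (⟨H, hH⟩ : gr k n) ∈ forms (Z.comap (P3.map π)) n}
  obtain ⟨S', hS'S, hS'⟩ := (Submodule.fg_span_iff_fg_span_finset_subset S).1
    (IsNoetherian.noetherian (Ideal.span S))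
  have h1 : ∀ s : S', ∃ n, ∃ hH : s.1 ∈ gr k n,
      (⟨s.1, hH⟩ : gr k n) ∈ forms (Z.comap (P3.map π)) n := fun s ↦ hS'S s.2
  choose e he hf using h1
  choose M hM using fun (s : S') (i : Fin 4) ↦ PP.exists_X hπ (hf s) i
  obtain ⟨N, hN⟩ : ∃ N, ∀ s i, M s i ≤ N :=
    ⟨Finset.univ.sup fun s ↦ Finset.univ.sup fun i ↦ M s i, fun s i ↦
      (Finset.le_sup (f := fun i ↦ M s i) (Finset.mem_univ i)).trans
        (Finset.le_sup (f := fun s ↦ Finset.univ.sup fun i ↦ M s i) (Finset.mem_univ s))⟩
  obtain ⟨E, hE⟩ : ∃ E, ∀ s, e s ≤ E :=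
    ⟨Finset.univ.sup e, fun s ↦ Finset.le_sup (Finset.mem_univ s)⟩
  -- monomial multiples
  have hmono : ∀ (s : S') (m : Fin 4 →₀ ℕ) (c : k), 4 * N ≤ m.degree →
      PP π Z (e s + m.degree) (s.1 * MvPolynomial.monomial m c) := by
    intro s m c hm
    obtain ⟨i, hi⟩ : ∃ i, N ≤ m i := by
      by_contra hcon
      push Not at hcon
      have : m.degree < 4 * N := by
        rw [Finsupp.degree_eq_sum, Fin.sum_univ_four]
        have h0 := hcon 0
        have h1 := hcon 1
        have h2 := hcon 2
        have h3 := hcon 3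
        omega
      omega
    have h2 := hM s i (m i) ((hN s i).trans hi)
    have h3 : MvPolynomial.monomial m c = MvPolynomial.X i ^ (m i) *
        MvPolynomial.monomial (m.erase i) c := by
      rw [MvPolynomial.X_pow_eq_monomial, MvPolynomial.monomial_mul, one_mul,
        Finsupp.single_add_erase]
    have h4 : m.degree = m i + (m.erase i).degree := by
      conv_lhs => rw [← Finsupp.single_add_erase i m]
      rw [map_add, Finsupp.degree_single]
    rw [h3, ← mul_assoc, h4, ← add_assoc]
    exact h2.mul hπ (MvPolynomial.isHomogeneous_monomial _ rfl)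
  refine ⟨E + 4 * N, fun t ht H hH ↦ ?_⟩
  have hHS : H.1 ∈ Ideal.span (S' : Set (MvPolynomial (Fin 4) k)) := by
    have : H.1 ∈ Ideal.span S := Ideal.subset_span ⟨t, H.2, hH⟩
    have h5 : Ideal.span S = Ideal.span (S' : Set (MvPolynomial (Fin 4) k)) := hS'
    rwa [h5] at this
  obtain ⟨a, ha⟩ := (Submodule.mem_span_finset' (s := S')).1 hHS
  have hH' : H.1 = ∑ s : S', s.1 * MvPolynomial.homogeneousComponent (t - e s) (a s) := by
    have h6 : MvPolynomial.homogeneousComponent t H.1 = H.1 :=
      (MvPolynomial.homogeneousComponent_of_mem H.2).trans (if_pos rfl)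
    rw [← h6, ← ha, map_sum]
    refine Finset.sum_congr rfl fun s _ ↦ ?_
    rw [smul_eq_mul, homogeneousComponent_mul_form _ _ (he s) (by have := hE s; omega), mul_comm]
  change PP π Z t H.1
  rw [hH']
  refine PP.sum _ fun s _ ↦ ?_
  have hes := hE s
  have h7 : MvPolynomial.homogeneousComponent (t - e s) (a s) = ∑ m ∈
      (MvPolynomial.homogeneousComponent (t - e s) (a s)).support,
        MvPolynomial.monomial m
          (MvPolynomial.coeff m (MvPolynomial.homogeneousComponent (t - e s) (a s))) :=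
    MvPolynomial.as_sum _
  rw [h7, Finset.mul_sum]
  refine PP.sum _ fun m hm ↦ ?_
  have hmd : m.degree = t - e s := by
    have := MvPolynomial.homogeneousComponent_isHomogeneous (t - e s) (a s)
      (MvPolynomial.mem_support_iff.1 hm)
    rw [← this, Finsupp.degree_eq_weight_one]
    rfl
  have h8 := hmono s m (MvPolynomial.coeff m (MvPolynomial.homogeneousComponent (t - e s) (a s)))
    (by omega)
  have h9 : e s + m.degree = t := by omega
  rwa [h9] at h8

end HilbChar
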