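import Mathlib
import Pool.Agent.Work.MP_c21e2e_ag.Geo6
import Pool.Agent.Work.MP_c21e2e_ag.Ext
import Pool.Agent.Work.MP_c21e2e_ag.Core2

/-!
# From families of closed subschemes to lifts of ideals
-/

open CategoryTheory CategoryTheory.Limits AlgebraicGeometry HomogeneousLocalization
open Pool.Agent.Work.MP_c21e2e_ag

noncomputable section

namespace HilbChar

attribute [local instance] MvPolynomial.gradedAlgebra

/-- Base change of vanishing forms. -/
theorem map_mem_forms {A B : Type} [CommRing A] [CommRing B] (φ : A →+* B)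
    {Z : (P3 A).IdealSheafData} {n : ℕ} {F : gr A n} (hF : F ∈ forms Z n) :
    (⟨MvPolynomial.map φ F.1, MvPolynomial.IsHomogeneous.map F.2 φ⟩ : gr B n) ∈
      forms (Z.comap (P3.map φ)) n := by
  intro i
  rw [chartIdeal_comap, ← aw_formDiv]
  exact Ideal.mem_map_of_mem _ (hF i)

theorem mem_TT {A : Type} [CommRing A] {n : ℕ} {f : MvPolynomial (Fin 3) A} :
    f ∈ TT A n ↔ f.totalDegree ≤ n := by
  rw [TT, MvPolynomial.mem_restrictTotalDegree]

theorem dh_totalDegree_le {A : Type} [CommRing A] {n : ℕ} (F : gr A n) :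
    (dh A F.1).totalDegree ≤ n := mem_TT.1 (dh_mem F.2)

/-- Vanishing forms on the base change of the closure of an affine curve. -/
theorem forms_closA_comap {k κ : Type} [Field k] [Field κ] (j : k →+* κ)
    (I : Ideal (MvPolynomial (Fin 3) k)) {n : ℕ} (F : gr κ n) :
    F ∈ forms ((closA I).comap (P3.map j)) n ↔ dh κ F.1 ∈ I.map (MvPolynomial.map j) := by
  constructor
  · intro h
    have := dh_mem_of_forms h
    rwa [aff_comap, aff_closA] at this
  · intro h
    algebraize [j]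
    have hj : algebraMap k κ = j := rfl
    rw [← hj] at h ⊢
    obtain ⟨S, hS⟩ := exists_decomp_basis (dh κ F.1) (Module.Basis.ofVectorSpace k κ)
    have h1 : ∀ s, ∃ G : gr k n, dh k G.1 =
        cf ((Module.Basis.ofVectorSpace k κ).coord s) (dh κ F.1) := by
      intro s
      obtain ⟨G, hG, hG'⟩ := exists_homog (n := n)
        (f := cf ((Module.Basis.ofVectorSpace k κ).coord s) (dh κ F.1))
        (mem_TT.2 ((totalDegree_cf_le _ _).trans (dh_totalDegree_le F)))
      exact ⟨⟨G, hG⟩, hG'⟩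
    choose G hG using h1
    have h2 : ∀ s, G s ∈ forms (closA I) n := by
      intro s
      rw [mem_forms_closA, hG]
      exact cf_mem_of_mem_map h _
    have h3 : F = ∑ s ∈ S, (Module.Basis.ofVectorSpace k κ s) •
        (⟨MvPolynomial.map (algebraMap k κ) (G s).1,
          MvPolynomial.IsHomogeneous.map (G s).2 _⟩ : gr κ n) := by
      rw [← sub_eq_zero]
      refine Subtype.ext (dh_inj (Submodule.coe_mem _) ?_)
      rw [Submodule.coe_sub, map_sub, sub_eq_zero, Submodule.coe_sum, map_sum]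
      conv_lhs => rw [hS]
      refine Finset.sum_congr rfl fun s _ ↦ ?_
      rw [Submodule.coe_smul, map_smul, dh_map, hG]
    rw [h3]
    exact Submodule.sum_mem _ fun s _ ↦ Submodule.smul_mem _ _ (map_mem_forms _ (h2 s))

section

variable {R K κ : Type} [CommRing R] [Field K] [Field κ] (v : Red R K κ)

include v in
theorem Red.exists_scale (c : K) (hc : c ≠ 0) : ∃ r s : R, v.ι s ≠ 0 ∧ v.ι r * c = v.ι s := by
  rcases v.val c with ⟨r, hr⟩ | ⟨s, -, hs⟩
  · exact ⟨1, r, by rwa [hr], by rw [map_one, one_mul, hr]⟩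
  · exact ⟨s, 1, by rw [map_one]; exact one_ne_zero, by rw [map_one, hs]⟩

/-- The generic fibre of an ideal of `R[x, y, z]`. -/
def genIdeal (J : Ideal (MvPolynomial (Fin 3) R)) : Ideal (MvPolynomial (Fin 3) K) where
  carrier := {h | ∃ r : R, v.ι r ≠ 0 ∧ ∃ g ∈ J, v.ι r • h = v.lift g}
  zero_mem' := ⟨1, by simp, 0, J.zero_mem, by simp⟩
  add_mem' := by
    rintro h h' ⟨r, hr, g, hg, e⟩ ⟨r', hr', g', hg', e'⟩
    refine ⟨r * r', by rw [map_mul]; exact mul_ne_zero hr hr',
      MvPolynomial.C r' * g + MvPolynomial.C r * g', ?_, ?_⟩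
    · exact J.add_mem (J.mul_mem_left _ hg) (J.mul_mem_left _ hg')
    · rw [map_add, map_mul v.lift, map_mul v.lift, Red.lift_C, Red.lift_C, ← e, ← e',
        map_mul v.ι,
        MvPolynomial.smul_eq_C_mul, MvPolynomial.smul_eq_C_mul, MvPolynomial.smul_eq_C_mul,
        map_mul]
      ring
  smul_mem' := by
    rintro f h ⟨r, hr, g, hg, e⟩
    by_cases hf : f = 0
    · exact ⟨1, by simp, 0, J.zero_mem, by simp [hf]⟩
    obtain ⟨c, f', m, hc, hf', -⟩ := v.exists_primitive f hf
    obtain ⟨a, b, hb, hab⟩ := Red.exists_scale v c hc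
    refine ⟨b * r, by rw [map_mul]; exact mul_ne_zero hb hr, MvPolynomial.C a * f' * g,
      J.mul_mem_left _ hg, ?_⟩
    rw [map_mul v.lift, map_mul v.lift, Red.lift_C, ← e, hf', smul_eq_mul, map_mul v.ι, ← hab,
      MvPolynomial.smul_eq_C_mul, MvPolynomial.smul_eq_C_mul, MvPolynomial.smul_eq_C_mul]
    simp only [map_mul]
    ring

theorem lift_mem_genIdeal {J : Ideal (MvPolynomial (Fin 3) R)}
    (hJ : ∀ r : R, r ≠ 0 → ∀ g, MvPolynomial.C r * g ∈ J → g ∈ J) {f : MvPolynomial (Fin 3) R} :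
    v.lift f ∈ genIdeal v J ↔ f ∈ J := by
  constructor
  · rintro ⟨r, hr, g, hg, e⟩
    refine hJ r (fun h0 ↦ hr (by rw [h0, map_zero])) f ?_
    have : MvPolynomial.C r * f = g := by
      apply v.lift_inj
      rw [map_mul, Red.lift_C, ← MvPolynomial.smul_eq_C_mul, e]
    rwa [this]
  · intro h
    exact ⟨1, by simp, f, h, by simp⟩

/-- A family over a valuation ring, torsion free in the chart `X₀ ≠ 0`, whose special fibre is
the closure of the curve attached to a configuration, gives a lift of the ideal. -/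
def mkLift {nA nB : Type} (X : Conf nA nB κ) (N : ℕ) (Z : (P3 R).IdealSheafData)
    (hJ : ∀ r : R, r ≠ 0 → ∀ g, MvPolynomial.C r * g ∈ aff Z → g ∈ aff Z)
    (hZ : ∀ (n : ℕ) (F : gr κ n), F ∈ forms (Z.comap (P3.map v.ρ)) n ↔ dh κ F.1 ∈ X.I0 N)
    (hZ' : aff (Z.comap (P3.map v.ρ)) = X.I0 N) :
    LiftData v X N where
  I := genIdeal v (aff Z)
  t0 := (exists_lift_forms v.surj Z).choose
  h := by
    intro t ht
    have hlift := (exists_lift_forms v.surj Z).choose_spec t ht
    apply le_antisymm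
    · rintro _ ⟨f, ⟨hf, hft⟩, rfl⟩
      refine ⟨?_, v.bar_mem_T hft⟩
      have h1 : f ∈ aff Z := (lift_mem_genIdeal v hJ).1 hf
      have h2 : v.bar f ∈ (aff Z).map (MvPolynomial.map v.ρ) := Ideal.mem_map_of_mem _ h1
      rw [← aff_comap, hZ'] at h2
      exact h2
    · rintro g ⟨hg, hgt⟩
      obtain ⟨H, hH, rfl⟩ := exists_homog (n := t) (f := g) hgt
      have h1 : (⟨H, hH⟩ : gr κ t) ∈ forms (Z.comap (P3.map v.ρ)) t := (hZ t ⟨H, hH⟩).2 hg
      obtain ⟨F, hF, hFH⟩ := hlift ⟨H, hH⟩ h1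
      refine ⟨dh R F.1, ⟨?_, ?_⟩, ?_⟩
      · exact (lift_mem_genIdeal v hJ).2 (dh_mem_of_forms hF)
      · rw [SetLike.mem_coe, mem_T, Red.totalDegree_lift]
        exact dh_totalDegree_le F
      · change MvPolynomial.map v.ρ _ = _
        rw [← dh_map, hFH]

end

end HilbChar
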