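import Mathlib
import Pool.Agent.Work.MP_c21e2e_ag.Geo7

/-!
# Flatness in the chart `X₀ ≠ 0`
-/

open CategoryTheory CategoryTheory.Limits AlgebraicGeometry HomogeneousLocalization
open Pool.Agent.Work.MP_c21e2e_ag

noncomputable section

namespace HilbChar

attribute [local instance] MvPolynomial.gradedAlgebra

/-- The quotient map of rings as a closed immersion. -/
abbrev quot {S : CommRingCat.{0}} (I : Ideal S) : Spec (CommRingCat.of (S ⧸ I)) ⟶ Spec S :=
  Spec.map (CommRingCat.ofHom (Ideal.Quotient.mk I))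

theorem ker_quot {S : CommRingCat.{0}} (I : Ideal S) : (quot I).ker = ofIdeal I := by
  apply topIdeal_injective
  rw [topIdeal_ofIdeal]
  ext a
  rw [mem_topIdeal_ker]
  let ψ : S ⟶ CommRingCat.of (S ⧸ I) := CommRingCat.ofHom (Ideal.Quotient.mk I)
  have h := appTop_comp_inv (R := S) (𝟙 _) ψ a
  rw [Category.id_comp] at h
  change (Spec.map ψ).appTop _ = 0 ↔ _
  rw [h, Scheme.Hom.id_appTop, CommRingCat.id_apply]
  have hinj : Function.Injective (Scheme.ΓSpecIso (CommRingCat.of (S ⧸ I))).inv := by
    have := ConcreteCategory.bijective_of_isIso (Scheme.ΓSpecIso (CommRingCat.of (S ⧸ I))).inv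
    exact this.1
  rw [← Ideal.Quotient.eq_zero_iff_mem]
  constructor
  · intro h2
    apply hinj
    rw [map_zero]
    exact h2
  · intro h2
    have : ψ a = 0 := h2
    rw [this, map_zero]

instance {S : CommRingCat.{0}} (I : Ideal S) : IsClosedImmersion (quot I) :=
  IsClosedImmersion.spec_of_surjective _ Ideal.Quotient.mk_surjective

/-- Flatness of a closed subscheme of an affine scheme in terms of the quotient ring. -/
theorem flat_quot_comp {S : CommRingCat.{0}} {Y : Scheme.{0}} (J : (Spec S).IdealSheafData)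
    (g : Spec S ⟶ Y) (h : Flat (J.subschemeι ≫ g)) : Flat (quot (topIdeal J) ≫ g) := by
  have h1 : (quot (topIdeal J)).ker = J := by rw [ker_quot, ofIdeal_topIdeal]
  have h2 : Flat ((quot (topIdeal J)).toImage ≫ (quot (topIdeal J)).imageι ≫ g) := by
    have key : ∀ J' : (Spec S).IdealSheafData, J' = J → Flat (J'.subschemeι ≫ g) := by
      rintro _ rfl
      exact h
    have h3 : Flat ((quot (topIdeal J)).imageι ≫ g) := key _ h1
    infer_instance
  rwa [← Category.assoc, Scheme.Hom.toImage_imageι] at h2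

/-- Flatness restricts to charts. -/
theorem flat_chart {A : Type} [CommRing A] (Z : (P3 A).IdealSheafData)
    (h : Flat (Z.subschemeι ≫ P3.toSpec A)) (i : Fin 4) :
    Flat ((Z.comap (chart A i)).subschemeι ≫ chart A i ≫ P3.toSpec A) := by
  have h1 : (Z.comap (chart A i)).subschemeι ≫ chart A i ≫ P3.toSpec A =
      (Z.comapIso (chart A i)).hom ≫ pullback.snd _ _ ≫ (Z.subschemeι ≫ P3.toSpec A) := by
    rw [← Scheme.IdealSheafData.comapIso_hom_fst]
    simp only [Category.assoc]
    rw [pullback.condition_assoc]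
  rw [h1]
  infer_instance

/-- The structure morphism on a chart. -/
theorem chart_toSpec (A : Type) [CommRing A] (i : Fin 4) :
    chart A i ≫ P3.toSpec A = Spec.map (CommRingCat.ofHom
      ((fromZeroRingHom (gr A) (Submonoid.powers (MvPolynomial.X i))).comp
        (algebraMap A (gr A 0)))) := by
  have h := Proj.awayι_toSpecZero (gr A) (MvPolynomial.X i) (MvPolynomial.isHomogeneous_X A i)
    one_pos
  have h2 : chart A i ≫ P3.toSpec A = (Proj.awayι (gr A) (MvPolynomial.X i)
    (MvPolynomial.isHomogeneous_X A i) one_pos ≫ Proj.toSpecZero (gr A)) ≫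
      Spec.map (CommRingCat.ofHom (algebraMap A (gr A 0))) := (Category.assoc _ _ _).symm
  rw [h2, h, ← Spec.map_comp, ← CommRingCat.ofHom_comp]

theorem dAw_fromZero (A : Type) [CommRing A] (a : A) :
    dAw A (fromZeroRingHom (gr A) (Submonoid.powers (MvPolynomial.X 0))
      (algebraMap A (gr A 0) a)) = MvPolynomial.C a := by
  have h : fromZeroRingHom (gr A) (Submonoid.powers (MvPolynomial.X 0))
      (algebraMap A (gr A 0) a) =
      formDiv 0 0 ⟨MvPolynomial.C a, MvPolynomial.isHomogeneous_C _ a⟩ := by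
    apply HomogeneousLocalization.val_injective
    rw [formDiv_val]
    rfl
  rw [h, dAw_formDiv]
  simp [dh, MvPolynomial.algebraMap_eq]

/-- A flat family is flat in the chart `X₀ ≠ 0`. -/
theorem flat_aff {A : Type} [CommRing A] (Z : (P3 A).IdealSheafData)
    (h : Flat (Z.subschemeι ≫ P3.toSpec A)) :
    Module.Flat A (MvPolynomial (Fin 3) A ⧸ aff Z) := by
  have h1 := flat_quot_comp _ _ (flat_chart Z h 0)
  rw [chart_toSpec, ← Spec.map_comp, ← CommRingCat.ofHom_comp] at h1
  have h2 := Flat.SpecMap_iff.1 h1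
  have h3 : aff Z = (chartIdeal Z 0).map (dEq A : _ →+* MvPolynomial (Fin 3) A) := rfl
  let e := Ideal.quotientEquiv (chartIdeal Z 0) (aff Z) (dEq A) h3
  have h4 : e.toRingHom.Flat := RingHom.Flat.of_bijective (f := e.toRingHom) e.bijective
  have h5 : RingHom.Flat (e.toRingHom.comp ((Ideal.Quotient.mk (chartIdeal Z 0)).comp
      ((fromZeroRingHom (gr A) (Submonoid.powers (MvPolynomial.X 0))).comp
        (algebraMap A (gr A 0))))) := RingHom.Flat.comp h2 h4
  have h6 : algebraMap A (MvPolynomial (Fin 3) A ⧸ aff Z) =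
      (e.toRingHom.comp ((Ideal.Quotient.mk (chartIdeal Z 0)).comp
      ((fromZeroRingHom (gr A) (Submonoid.powers (MvPolynomial.X 0))).comp
        (algebraMap A (gr A 0))))) := by
    refine RingHom.ext fun a ↦ ?_
    change Ideal.Quotient.mk (aff Z) (MvPolynomial.C a) = e (Ideal.Quotient.mk (chartIdeal Z 0) _)
    rw [Ideal.quotientEquiv_mk]
    congr 1
    exact (dAw_fromZero A a).symm
  rw [← RingHom.flat_algebraMap_iff, h6]
  exact h5

/-- Flatness of the affine part is preserved under base change. -/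
theorem flat_map {A B : Type} [CommRing A] [CommRing B] (φ : A →+* B)
    (I : Ideal (MvPolynomial (Fin 3) A)) (h : Module.Flat A (MvPolynomial (Fin 3) A ⧸ I)) :
    Module.Flat B (MvPolynomial (Fin 3) B ⧸ I.map (MvPolynomial.map φ)) := by
  algebraize [φ]
  let : Algebra (MvPolynomial (Fin 3) A) (MvPolynomial (Fin 3) B) := MvPolynomial.algebraMvPolynomial
  have e1 := (Algebra.TensorProduct.quotIdealMapEquivTensorQuot (MvPolynomial (Fin 3) B) I)
  have e2 := Algebra.IsPushout.cancelBaseChange A B (MvPolynomial (Fin 3) A)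
    (MvPolynomial (Fin 3) B) (MvPolynomial (Fin 3) A ⧸ I)
  have h3 : Module.Flat B (TensorProduct A B (MvPolynomial (Fin 3) A ⧸ I)) := inferInstance
  exact Module.Flat.of_linearEquiv ((e1.toLinearEquiv.restrictScalars B).trans e2)

end HilbChar
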