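import Mathlib
import Pool.Agent.Work.MP_c21e2e_ag.Geo8
import Pool.Agent.Work.MP_c21e2e_ag.Final

/-!
# No family over a local domain of characteristic zero has the given special fibre
-/

open CategoryTheory CategoryTheory.Limits AlgebraicGeometry HomogeneousLocalization

noncomputable section

namespace Pool.Agent.Work.MP_c21e2e_ag

/-- base change of the parameters -/
def FData.map {k κ : Type*} [Field k] [Field κ] (d : FData k) (j : k →+* κ) : FData κ where
  θ := j d.θ
  lam := j d.lam
  two_eq := by rw [← map_ofNat j 2, d.two_eq, map_zero]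
  hθ := by rw [← map_pow, d.hθ, map_add, map_one]
  hl0 := (map_ne_zero j).2 d.hl0
  hE i := by
    have := (map_ne_zero j).2 (d.hE i)
    simpa using this
  hD i := by
    have := (map_ne_zero j).2 (d.hD i)
    simpa using this

lemma FData.map_MA {k κ : Type*} [Field k] [Field κ] (d : FData k) (j : k →+* κ) (a) :
    (d.map j).MA a = (d.MA a).map j := by
  ext r s
  rcases a with _ | a <;> fin_cases r <;> fin_cases s <;>
    simp [FData.MA, FData.map, FData.E, FData.pt]

lemma FData.map_MB {k κ : Type*} [Field k] [Field κ] (d : FData k) (j : k →+* κ) (a) :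
    (d.map j).MB a = (d.MB a).map j := by
  ext r s
  rcases a with _ | _ | a <;> fin_cases r <;> fin_cases s <;>
    simp [FData.MB, FData.map, FData.DD, FData.pt]

lemma map_shear {k κ : Type*} [Field k] [Field κ] (j : k →+* κ) (τ : k) (M : Mat k) :
    (shear τ M).map j = shear (j τ) (M.map j) := by
  ext r s
  fin_cases r <;> fin_cases s <;> simp [shear]

lemma FData.map_conf {k κ : Type*} [Field k] [Field κ] (d : FData k) (j : k →+* κ) (τ : k) :
    (d.conf.shear τ).map j = (d.map j).conf.shear (j τ) := by
  have h1 : ((d.conf.shear τ).map j).M = ((d.map j).conf.shear (j τ)).M := by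
    funext a
    change (MP_c21e2e_ag.shear τ (d.MA a)).map j = MP_c21e2e_ag.shear (j τ) ((d.map j).MA a)
    rw [map_shear, d.map_MA]
  have h2 : ((d.conf.shear τ).map j).L = ((d.map j).conf.shear (j τ)).L := by
    funext a
    change (MP_c21e2e_ag.shear τ (d.MB a)).map j = MP_c21e2e_ag.shear (j τ) ((d.map j).MB a)
    rw [map_shear, d.map_MB]
  cases h3 : (d.conf.shear τ).map j
  cases h4 : (d.map j).conf.shear (j τ)
  rw [h3, h4] at h1 h2
  simp only at h1 h2
  subst h1 h2
  rfl

lemma exists_FData (k : Type*) [Field k] [IsAlgClosed k] (h2 : (2 : k) = 0) :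
    Nonempty (FData k) := by
  classical
  have : Infinite k := IsAlgClosed.instInfinite
  obtain ⟨θ, hθ⟩ := IsAlgClosed.exists_root (Polynomial.X ^ 3 - Polynomial.X - 1 : Polynomial k)
    (by
      have : (Polynomial.X ^ 3 - Polynomial.X - 1 : Polynomial k).degree = 3 := by
        compute_degree!
      rw [this]
      norm_num)
  have hθ' : θ ^ 3 = θ + 1 := by
    simp only [Polynomial.IsRoot, Polynomial.eval_sub, Polynomial.eval_pow, Polynomial.eval_X,
      Polynomial.eval_one] at hθ
    linear_combination hθ
  let bad : Finset k := insert 0 ((Finset.univ.image fun i : Fin 7 => (θ ^ (i : ℕ)) ^ 4) ∪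
    (Finset.univ.image fun i : Fin 7 => θ ^ 2 - (θ ^ (i : ℕ)) ^ 2 * θ ^ 6))
  obtain ⟨l, hl⟩ := Infinite.exists_notMem_finset bad
  simp only [bad, Finset.mem_insert, Finset.mem_union, Finset.mem_image, Finset.mem_univ,
    true_and, not_or, not_exists] at hl
  exact ⟨{
    θ := θ
    lam := l
    two_eq := h2
    hθ := hθ'
    hl0 := hl.1
    hE := fun i h => hl.2.1 i (by linear_combination -h)
    hD := fun i h => hl.2.2 i (by linear_combination -h) }⟩

end Pool.Agent.Work.MP_c21e2e_ag

namespace HilbChar

open Pool.Agent.Work.MP_c21e2e_ag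

attribute [local instance] MvPolynomial.gradedAlgebra

theorem P3.map_comp {A B C : Type} [CommRing A] [CommRing B] [CommRing C] (φ : A →+* B)
    (ψ : B →+* C) : P3.map (ψ.comp φ) = P3.map ψ ≫ P3.map φ := by
  have h : grMap (ψ.comp φ) = (grMap ψ).comp (grMap φ) := by
    ext f
    exact congrArg (MvPolynomial.coeff _) (MvPolynomial.map_map φ ψ f).symm
  have h2 := Proj.map_comp (grMap φ) (grMap ψ) (irrelevant_le_map φ) (irrelevant_le_map ψ)
  have key : ∀ (g : GradedRingHom (gr A) (gr C)) (hg : g = (grMap ψ).comp (grMap φ))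
      (hg' : HomogeneousIdeal.irrelevant (gr C) ≤ (HomogeneousIdeal.irrelevant (gr A)).map g),
      Proj.map g hg' = Proj.map (grMap ψ) (irrelevant_le_map ψ) ≫
        Proj.map (grMap φ) (irrelevant_le_map φ) := by
    rintro _ rfl hg'
    exact h2
  exact key _ h (irrelevant_le_map (ψ.comp φ))

end HilbChar
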