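import Mathlib
import Pool.Agent.Work.MP_c21e2e_ag.Geo9

/-!
# No family over a local domain of characteristic zero has the given special fibre
-/

open CategoryTheory CategoryTheory.Limits AlgebraicGeometry HomogeneousLocalization

noncomputable section

namespace HilbChar

open Pool.Agent.Work.MP_c21e2e_ag

attribute [local instance] MvPolynomial.gradedAlgebra

/-- The valuation data attached to a valuation subring. -/
def redOf {K : Type} [Field K] (V : ValuationSubring K) :
    Red V K (IsLocalRing.ResidueField V) where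
  ι := V.subtype
  ρ := IsLocalRing.residue V
  inj := Subtype.val_injective
  surj := IsLocalRing.residue_surjective
  val x := by
    by_cases hx : x ∈ V
    · exact Or.inl ⟨⟨x, hx⟩, rfl⟩
    · right
      have hx' : x⁻¹ ∈ V := (V.mem_or_inv_mem x).resolve_left hx
      have hx0 : x ≠ 0 := by
        rintro rfl
        exact hx V.zero_mem
      refine ⟨⟨x⁻¹, hx'⟩, ?_, ?_⟩
      · rw [IsLocalRing.residue_eq_zero_iff, IsLocalRing.mem_maximalIdeal, mem_nonunits_iff]
        intro hu
        obtain ⟨u, hu⟩ := hu
        apply hx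
        have h1 : (u : V).1 * ((u⁻¹ : Vˣ) : V).1 = 1 := by
          have := u.mul_inv
          exact congrArg Subtype.val this
        rw [hu] at h1
        have h2 : x = ((u⁻¹ : Vˣ) : V).1 := by
          change x⁻¹ * _ = 1 at h1
          field_simp at h1
          exact h1.symm
        rw [h2]
        exact Subtype.mem _
      · exact inv_mul_cancel₀ hx0

theorem torsionFree {V : Type} [CommRing V] [IsDomain V] {J : Ideal (MvPolynomial (Fin 3) V)}
    (h : Module.Flat V (MvPolynomial (Fin 3) V ⧸ J)) (r : V) (hr : r ≠ 0)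
    (g : MvPolynomial (Fin 3) V) (hg : MvPolynomial.C r * g ∈ J) : g ∈ J := by
  have h1 := Module.Flat.isSMulRegular_of_nonZeroDivisors (M := MvPolynomial (Fin 3) V ⧸ J)
    (mem_nonZeroDivisors_of_ne_zero hr)
  rw [← Ideal.Quotient.eq_zero_iff_mem] at hg ⊢
  apply h1
  change r • _ = r • _
  rw [smul_zero, ← hg, ← MvPolynomial.smul_eq_C_mul]
  rfl

/-- The curve. -/
def curve {k : Type} [Field k] (d : FData k) (τ : k) (N : ℕ) : (P3 k).IdealSheafData :=
  closA ((d.conf.shear τ).I0 N)

theorem no_family {k : Type} [Field k] (d : FData k) (τ : k)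
    (hτ : ∀ a b, (d.MA a - d.MB b).det = 0 →
      ∃ s, MeetAt ((d.conf.shear τ).M a) ((d.conf.shear τ).L b) s) (N : ℕ) (hN : 875 < N)
    (A : Type) [CommRing A] [IsDomain A] [IsLocalRing A] (h2 : (2 : A) ≠ 0)
    (j : k →+* IsLocalRing.ResidueField A) (Z : (P3 A).IdealSheafData)
    (hflat : Flat (Z.subschemeι ≫ P3.toSpec A))
    (hZ : Z.comap (P3.map (IsLocalRing.residue A)) = (curve d τ N).comap (P3.map j)) :
    False := by
  let K := AlgebraicClosure (FractionRing A)
  let f : A →+* K := (algebraMap (FractionRing A) K).comp (algebraMap A (FractionRing A))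
  have hf : Function.Injective f :=
    (algebraMap (FractionRing A) K).injective.comp (IsFractionRing.injective A (FractionRing A))
  obtain ⟨V, hV, hloc⟩ := IsLocalRing.exists_factor_valuationRing f
  let φ : A →+* V := f.codRestrict V.toSubring hV
  have : IsLocalHom φ := hloc
  let v := redOf V
  have hK : (2 : K) ≠ 0 := by
    intro h
    apply h2
    apply hf
    rw [map_ofNat, h, map_zero]
  let j' : k →+* IsLocalRing.ResidueField V := (IsLocalRing.ResidueField.map φ).comp j
  let ZV := Z.comap (P3.map φ)
  have hZV : ZV.comap (P3.map (IsLocalRing.residue V)) = (curve d τ N).comap (P3.map j') := by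
    change (Z.comap (P3.map φ)).comap _ = _
    rw [← Scheme.IdealSheafData.comap_comp, ← P3.map_comp, ← IsLocalRing.ResidueField.map_comp_residue,
      P3.map_comp, Scheme.IdealSheafData.comap_comp, hZ, ← Scheme.IdealSheafData.comap_comp,
      ← P3.map_comp]
  have hJ : ∀ r : V, r ≠ 0 → ∀ g, MvPolynomial.C r * g ∈ aff ZV → g ∈ aff ZV := by
    have h3 : Module.Flat V (MvPolynomial (Fin 3) V ⧸ aff ZV) := by
      have h4 : aff ZV = (aff Z).map (MvPolynomial.map φ) := aff_comap φ Z
      rw [h4]
      exact flat_map φ (aff Z) (flat_aff Z hflat)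
    intro r hr g hg
    exact torsionFree h3 r hr g hg
  have hI : ((d.conf.shear τ).I0 N).map (MvPolynomial.map j') =
      ((d.map j').conf.shear (j' τ)).I0 N := by
    rw [← d.map_conf j' τ]
    algebraize [j']
    exact I0_map (d.conf.shear τ) N
  have hLD : LiftData v ((d.map j').conf.shear (j' τ)) N := by
    refine mkLift v _ N ZV hJ ?_ ?_
    · intro n F
      change F ∈ forms (ZV.comap (P3.map (IsLocalRing.residue V))) n ↔ _
      rw [hZV, curve, forms_closA_comap, hI]
    · change aff (ZV.comap (P3.map (IsLocalRing.residue V))) = _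
      rw [hZV, aff_comap, curve, aff_closA, hI]
  have hN' : LiftData.deg (Option (Fin 7)) (Option (Option (Fin 7))) *
      (2 * Fintype.card (Option (Fin 7) ⊕ Option (Option (Fin 7))) + 1) < N := by
    simpa [LiftData.deg] using hN
  obtain ⟨MA, MB, hMA, hMB, hinc⟩ := hLD.incidence hN'
  refine no_lift v hK (d.map j') (j' τ) MA MB hMA hMB fun a b hab ↦ ?_
  have hab' : (d.MA a - d.MB b).det = 0 := by
    rw [d.map_MA, d.map_MB] at hab
    have h5 : (d.MA a).map j' - (d.MB b).map j' = j'.mapMatrix (d.MA a - d.MB b) := by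
      ext; simp
    rw [h5, ← RingHom.map_det] at hab
    exact (map_eq_zero j').1 hab
  obtain ⟨s, hs⟩ := hτ a b hab'
  refine hinc a b (j' s) fun i ↦ ?_
  have h6 := congrArg j' (hs i)
  have h7 : ((d.map j').conf.shear (j' τ)).M a = ((d.conf.shear τ).M a).map j' := by
    rw [← d.map_conf j' τ]; rfl
  have h8 : ((d.map j').conf.shear (j' τ)).L b = ((d.conf.shear τ).L b).map j' := by
    rw [← d.map_conf j' τ]; rfl
  rw [h7, h8]
  simpa using h6

end HilbChar
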