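import Mathlib
import Pool.Agent.Work.MP_c21e2e_ag.Geo10

/-!
# The curve is a point of the Hilbert functor
-/

open CategoryTheory CategoryTheory.Limits AlgebraicGeometry HomogeneousLocalization

noncomputable section

namespace Pool.Agent.Work.MP_c21e2e_ag

lemma Conf.slope_I0 {nA nB F : Type*} [Field F] [Fintype nA] [Fintype nB] [DecidableEq nA]
    [DecidableEq nB] (X : Conf nA nB F) (N : ℕ) :
    Slope ((X.I0 N).restrictScalars F) (2 * Fintype.card nA + Fintype.card nB) := by
  obtain ⟨γ, hγ⟩ := MP_c21e2e_ag.exists_slope (X_mem_T 0) (X.starAt_I0 N).star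
  have hγ' := hγ
  obtain ⟨c, n, hn⟩ := hγ
  suffices γ = 2 * Fintype.card nA + Fintype.card nB by rwa [← this]
  apply le_antisymm
  · refine slope_le_of (c := c) (d := Fintype.card nA * (1 + N) + Fintype.card nB) n
      fun t ht => ?_
    rw [← hn t (by omega)]
    have h := X.hq_I0_le N t
    have h' : ((hq ((X.I0 N).restrictScalars F) t : ℕ) : ℤ) ≤
      ((Fintype.card nA * (2 * t + 1 + N) + Fintype.card nB * (t + 1) : ℕ) : ℤ) := by
      exact_mod_cast h
    refine h'.trans (le_of_eq ?_)
    push_cast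
    ring
  · refine slope_le_of (c := 0) (d := c + γ * (2 * Fintype.card (nA ⊕ nB)))
      (n + N) fun t ht => ?_
    have h := X.le_hq_I0' N t (by omega)
    have h2 := hn (t + 2 * Fintype.card (nA ⊕ nB)) (by omega)
    have h3 : ((Fintype.card nA * (2 * t + 1 + N) + Fintype.card nB * (t + 1) : ℕ) : ℤ) ≤
      hq ((X.I0 N).restrictScalars F) (t + 2 * Fintype.card (nA ⊕ nB)) := by exact_mod_cast h
    rw [h2] at h3
    have h4 : (((2 * Fintype.card nA + Fintype.card nB : ℕ) : ℤ) * t + 0) ≤
      ((Fintype.card nA * (2 * t + 1 + N) + Fintype.card nB * (t + 1) : ℕ) : ℤ) := by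
      push_cast
      have a1 : (0 : ℤ) ≤ Fintype.card nA := by positivity
      have a2 : (0 : ℤ) ≤ Fintype.card nB := by positivity
      have a3 : (0 : ℤ) ≤ N := by positivity
      nlinarith [mul_nonneg a1 a3]
    push_cast at h3 h4 ⊢
    linarith

end Pool.Agent.Work.MP_c21e2e_ag

namespace HilbChar

open Pool.Agent.Work.MP_c21e2e_ag

attribute [local instance] MvPolynomial.gradedAlgebra

/-- Dehomogenisation is an isomorphism in each degree. -/
def dhEquiv (F : Type) [Field F] (n : ℕ) : gr F n ≃ₗ[F] T F (Fin 3) n :=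
  LinearEquiv.ofBijective
    { toFun := fun G ↦ ⟨dh F G.1, dh_mem G.2⟩
      map_add' := fun G H ↦ Subtype.ext (by simp)
      map_smul' := fun c G ↦ Subtype.ext (map_smul (dh F) c G.1) }
    ⟨by
      rw [← LinearMap.ker_eq_bot, LinearMap.ker_eq_bot']
      intro G hG
      exact Subtype.ext (dh_inj G.2 (congrArg Subtype.val hG)), by
      rintro ⟨f, hf⟩
      obtain ⟨G, hG, rfl⟩ := exists_homog (n := n) (f := f) hf
      exact ⟨⟨G, hG⟩, rfl⟩⟩

theorem finrank_forms {k F : Type} [Field k] [Field F] (j : k →+* F)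
    (I : Ideal (MvPolynomial (Fin 3) k)) (n : ℕ) :
    Module.finrank F (gr F n ⧸ forms ((closA I).comap (P3.map j)) n) =
      hq (I.restrictScalars k) n := by
  algebraize [j]
  rw [← hq_map (κ := F)]
  refine LinearEquiv.finrank_eq (Submodule.Quotient.equiv _ _ (dhEquiv F n) ?_)
  ext f
  rw [Submodule.mem_map, Submodule.mem_comap]
  constructor
  · rintro ⟨G, hG, rfl⟩
    exact (forms_closA_comap j I G).1 hG
  · intro hf
    obtain ⟨G, rfl⟩ := (dhEquiv F n).surjective f
    exact ⟨G, (forms_closA_comap j I G).2 hf, rfl⟩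

theorem lft_toSpec (A : Type) [CommRing A] : LocallyOfFiniteType (P3.toSpec A) := by
  have h0 : IsScalarTower A (gr A 0) (MvPolynomial (Fin 4) A) := ⟨fun a x y ↦ by
    change (a • x.1) * y = a • (x.1 * y)
    exact smul_mul_assoc a x.1 y⟩
  have h1 : Algebra.FiniteType (gr A 0) (MvPolynomial (Fin 4) A) :=
    Algebra.FiniteType.of_restrictScalars_finiteType A (gr A 0) (MvPolynomial (Fin 4) A)
  have h2 : LocallyOfFiniteType (Proj.toSpecZero (gr A)) := inferInstance
  have h3 : LocallyOfFiniteType (Spec.map (CommRingCat.ofHom (algebraMap A (gr A 0)))) := by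
    rw [HasRingHomProperty.Spec_iff (P := @LocallyOfFiniteType)]
    refine RingHom.FiniteType.of_surjective _ ?_
    intro x
    obtain ⟨a, ha⟩ : ∃ a, MvPolynomial.C a = x.1 := by
      have := x.2
      have h4 : x.1.totalDegree = 0 := by
        have := MvPolynomial.IsHomogeneous.totalDegree_le (x.2 : x.1.IsHomogeneous 0)
        omega
      exact ⟨_, (MvPolynomial.totalDegree_eq_zero_iff_eq_C.1 h4).symm⟩
    exact ⟨a, Subtype.ext ha⟩
  exact MorphismProperty.comp_mem _ _ _ h2 h3

theorem lfp {k : Type} [Field k] (Z : (P3 k).IdealSheafData) :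
    LocallyOfFinitePresentation (Z.subschemeι ≫ P3.toSpec k) := by
  rw [LocallyOfFinitePresentation.iff_locallyOfFiniteType]
  have := lft_toSpec k
  infer_instance

/-- The curve attached to the configuration is a point of the Hilbert functor. -/
theorem curve_mem_Hilb {k : Type} [Field k] (d : FData k) (τ : k) (N : ℕ) :
    ∃ g : ℤ, curve d τ N ∈ Hilb 25 g k := by
  obtain ⟨c, n, hn⟩ := (d.conf.shear τ).slope_I0 N
  refine ⟨1 - c, inferInstance, lfp _, fun F _ j ↦ ⟨n, fun t ht ↦ ?_⟩⟩
  rw [curve, codim, finrank_forms, hn t ht]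
  simp
  ring

end HilbChar
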