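import Mathlib
import Pool.Agent.Work.MP_c21e2e_ag.Geo11

/-!
# Components of a representing scheme which exist only in characteristic `p`
-/

open CategoryTheory CategoryTheory.Limits AlgebraicGeometry HomogeneousLocalization

noncomputable section

namespace HilbChar

section baseCh

variable (H : Scheme.{0}) (A : Type) [CommRing A] {B : Type} [CommRing B]

/-- first projection -/
def baseCh.fst : baseCh H A ⟶ H := pullback.fst _ _

/-- second projection -/
def baseCh.snd : baseCh H A ⟶ Spec (CommRingCat.of A) := pullback.snd _ _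

variable {A}

/-- morphisms to the product -/
def baseCh.lift {T : Scheme.{0}} (a : T ⟶ H) (b : T ⟶ Spec (CommRingCat.of A)) :
    T ⟶ baseCh H A := pullback.lift a b (specZIsTerminal.hom_ext _ _)

theorem baseCh.lift_fst {T : Scheme.{0}} (a : T ⟶ H) (b : T ⟶ Spec (CommRingCat.of A)) :
    baseCh.lift H a b ≫ baseCh.fst H A = a := pullback.lift_fst _ _ _

theorem baseCh.lift_snd {T : Scheme.{0}} (a : T ⟶ H) (b : T ⟶ Spec (CommRingCat.of A)) :
    baseCh.lift H a b ≫ baseCh.snd H A = b := pullback.lift_snd _ _ _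

theorem baseCh.map_fst (φ : A →+* B) : baseCh.map H φ ≫ baseCh.fst H A = baseCh.fst H B :=
  (pullback.lift_fst _ _ _).trans (Category.comp_id _)

theorem baseCh.map_snd (φ : A →+* B) : baseCh.map H φ ≫ baseCh.snd H A =
    baseCh.snd H B ≫ Spec.map (CommRingCat.ofHom φ) := pullback.lift_snd _ _ _

end baseCh

/-- If `p` is invertible on `X'` and nilpotent in the stalk of `X` at `y`, then `y` is not in the
closure of the image of `X'`. -/
theorem not_isNilpotent_stalk' (p : ℕ) {X X' : Scheme.{0}} (h : X' ⟶ X) {F : Type} [Field F]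
    (hp : (p : F) ≠ 0) (q : X' ⟶ Spec (CommRingCat.of F)) (y : X)
    (hy : y ∈ closure (Set.range h)) : ¬ IsNilpotent (p : X.presheaf.stalk y) := by
  rintro ⟨n, hn⟩
  have hyt : y ∈ (⊤ : X.Opens) := trivial
  have h1 : X.presheaf.germ ⊤ y hyt ((p : Γ(X, ⊤)) ^ n) =
      X.presheaf.germ ⊤ y hyt 0 := by
    rw [map_pow, map_natCast, hn, map_zero]
  obtain ⟨V, hyV, iU, iV, h2⟩ := X.presheaf.germ_eq y hyt hyt _ _ h1
  have h3 : (p : Γ(X, V)) ^ n = 0 := by
    have : X.presheaf.map iU.op ((p : Γ(X, ⊤)) ^ n) = (p : Γ(X, V)) ^ n := by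
      rw [map_pow, map_natCast]
    rw [← this, h2, map_zero]
  obtain ⟨_, hcV, w, rfl⟩ := mem_closure_iff.1 hy V V.isOpen hyV
  have h4 : (p : X'.presheaf.stalk w) ^ n = 0 := by
    have h5 := congrArg (fun z ↦ X'.presheaf.germ (h ⁻¹ᵁ V) w hcV (h.app V z)) h3
    simp only [map_pow, map_natCast, map_zero] at h5
    exact h5
  let β : CommRingCat.of F ⟶ X'.presheaf.stalk w := Spec.preimage (X'.fromSpecStalk w ≫ q)
  have h6 : Function.Injective β.hom := β.hom.injective
  have h7 : (p : F) ^ n = 0 := by
    apply h6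
    rw [map_pow, map_natCast, map_zero]
    exact h4
  exact hp (pow_eq_zero_iff (n := n) (by
    rintro rfl
    simp at h7) |>.1 h7)

theorem exists_component (p : ℕ) [Fact p.Prime] (H : Scheme.{0})
    (s : Spec (CommRingCat.of (Fbar p)) ⟶ H)
    (hs : ∀ (A : Type) [CommRing A] [IsDomain A] [IsLocalRing A], (p : A) ≠ 0 →
      ∀ (j : Fbar p →+* IsLocalRing.ResidueField A) (t : Spec (CommRingCat.of A) ⟶ H),
      Spec.map (CommRingCat.ofHom (IsLocalRing.residue A)) ≫ t ≠
        Spec.map (CommRingCat.ofHom j) ≫ s) :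
    ∃ Z ∈ irreducibleComponents (baseCh H (Fbar p)), ExistsOnlyInChar p H Z := by
  let sk : Spec (CommRingCat.of (Fbar p)) ⟶ baseCh H (Fbar p) := baseCh.lift H s (𝟙 _)
  let y₁ : baseCh H (Fbar p) := sk (IsLocalRing.closedPoint (Fbar p))
  refine ⟨irreducibleComponent y₁, irreducibleComponent_mem_irreducibleComponents y₁,
    isIrreducible_irreducibleComponent.genericPoint,
    isIrreducible_irreducibleComponent.isGenericPoint_genericPoint
      isClosed_irreducibleComponent, fun hη ↦ ?_⟩
  set η := (isIrreducible_irreducibleComponent (x := y₁)).genericPoint with hηdef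
  set f := baseCh.map H (WittVector.constantCoeff : WittVector p (Fbar p) →+* Fbar p) with hf
  have hsp : η ⤳ y₁ :=
    (isIrreducible_irreducibleComponent.isGenericPoint_genericPoint
      isClosed_irreducibleComponent).specializes mem_irreducibleComponent
  let u : Spec (CommRingCat.of (Fbar p)) ⟶ baseCh H (WittVector p (Fbar p)) := sk ≫ f
  have hy : u (IsLocalRing.closedPoint (Fbar p)) ∈
      closure (Set.range (baseCh.map H (algebraMap (WittVector p (Fbar p))
        (FractionRing (WittVector p (Fbar p)))))) := by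
    have h1 := hsp.map f.continuous
    exact h1.mem_closed isClosed_closure hη
  have hnil := not_isNilpotent_stalk' p _ (WittVector.FractionRing.p_nonzero p (Fbar p))
    (baseCh.snd H (FractionRing (WittVector p (Fbar p)))) _ hy
  let α := Scheme.stalkClosedPointTo u
  let β := Spec.preimage ((baseCh H (WittVector p (Fbar p))).fromSpecStalk
    (u (IsLocalRing.closedPoint (Fbar p))) ≫ baseCh.snd H (WittVector p (Fbar p)))
  have hu : Spec.map α ≫ (baseCh H (WittVector p (Fbar p))).fromSpecStalk
    (u (IsLocalRing.closedPoint (Fbar p))) = u := Scheme.Spec_stalkClosedPointTo_fromSpecStalk u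
  have husnd : u ≫ baseCh.snd H (WittVector p (Fbar p)) = Spec.map (CommRingCat.ofHom
      (WittVector.constantCoeff : WittVector p (Fbar p) →+* Fbar p)) := by
    change (sk ≫ f) ≫ _ = _
    rw [Category.assoc, hf, baseCh.map_snd, ← Category.assoc]
    change (baseCh.lift H s (𝟙 _) ≫ _) ≫ _ = _
    rw [baseCh.lift_snd, Category.id_comp]
  have hufst : u ≫ baseCh.fst H (WittVector p (Fbar p)) = s := by
    change (sk ≫ f) ≫ _ = _
    rw [Category.assoc, hf, baseCh.map_fst]
    exact baseCh.lift_fst H s _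
  have hβα : β ≫ α = CommRingCat.ofHom
      (WittVector.constantCoeff : WittVector p (Fbar p) →+* Fbar p) := by
    apply Spec.map_injective
    rw [Spec.map_comp, Spec.map_preimage, ← Category.assoc, hu, husnd]
  have hαsurj : Function.Surjective α.hom := by
    intro x
    obtain ⟨w, hw⟩ := WittVector.constantCoeff_surjective (p := p) x
    refine ⟨β.hom w, ?_⟩
    have := congrArg (fun z ↦ z.hom w) hβα
    simpa [hw] using this
  have hex : ∃ J : Ideal ((baseCh H (WittVector p (Fbar p))).presheaf.stalk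
      (u (IsLocalRing.closedPoint (Fbar p)))), J.IsPrime ∧ (p : (baseCh H
        (WittVector p (Fbar p))).presheaf.stalk (u (IsLocalRing.closedPoint (Fbar p)))) ∉ J := by
    by_contra hcon
    push Not at hcon
    exact hnil (nilpotent_iff_mem_prime.2 hcon)
  obtain ⟨J, hJ, hpJ⟩ := hex
  let O := (baseCh H (WittVector p (Fbar p))).presheaf.stalk
      (u (IsLocalRing.closedPoint (Fbar p)))
  let m : O →+* (O ⧸ J) := Ideal.Quotient.mk J
  have : IsLocalRing (O ⧸ J) := IsLocalRing.of_surjective' m Ideal.Quotient.mk_surjective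
  have hloc : IsLocalHom m := IsLocalHom.of_surjective m Ideal.Quotient.mk_surjective
  have hker : RingHom.ker α.hom ≤ RingHom.ker ((IsLocalRing.residue (O ⧸ J)).comp m) := by
    intro x hx
    rw [RingHom.mem_ker] at hx ⊢
    rw [RingHom.comp_apply, IsLocalRing.residue_eq_zero_iff, IsLocalRing.mem_maximalIdeal,
      mem_nonunits_iff]
    intro hunit
    have h1 : IsUnit x := isUnit_of_map_unit m x hunit
    have h2 := h1.map α.hom
    rw [hx] at h2
    exact not_isUnit_zero h2
  let j : Fbar p →+* IsLocalRing.ResidueField (O ⧸ J) :=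
    RingHom.liftOfSurjective α.hom hαsurj ⟨_, hker⟩
  have hj : j.comp α.hom = (IsLocalRing.residue (O ⧸ J)).comp m :=
    RingHom.liftOfRightInverse_comp _ _ _ _
  let t : Spec (CommRingCat.of (O ⧸ J)) ⟶ H := Spec.map (CommRingCat.ofHom m) ≫
    (baseCh H (WittVector p (Fbar p))).fromSpecStalk (u (IsLocalRing.closedPoint (Fbar p))) ≫
      baseCh.fst H (WittVector p (Fbar p))
  have hpA : (p : O ⧸ J) ≠ 0 := by
    intro h
    apply hpJ
    rw [← Ideal.Quotient.eq_zero_iff_mem, map_natCast]
    exact h
  refine hs (O ⧸ J) hpA j t ?_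
  have h3 : CommRingCat.ofHom m ≫ CommRingCat.ofHom (IsLocalRing.residue (O ⧸ J)) =
      α ≫ CommRingCat.ofHom j := by
    ext x
    exact (congrArg (fun z : O →+* _ ↦ z x) hj).symm
  change Spec.map (CommRingCat.ofHom (IsLocalRing.residue (O ⧸ J))) ≫
    Spec.map (CommRingCat.ofHom m) ≫ _ ≫ _ = _
  rw [← Spec.map_comp_assoc, h3, Spec.map_comp_assoc, ← hufst]
  congr 1
  rw [← Category.assoc, hu]

end HilbChar
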