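import Mathlib
import Pool.Agent.Work.MP_c21e2e_ag.Geo10

/-!
# No generisation of the curve lifts to characteristic zero
-/

open CategoryTheory CategoryTheory.Limits AlgebraicGeometry HomogeneousLocalization

noncomputable section

namespace HilbChar

open Pool.Agent.Work.MP_c21e2e_ag

attribute [local instance] MvPolynomial.gradedAlgebra

section composite

variable {K : Type} [Field K] (V : ValuationSubring K)
  (U : ValuationSubring (IsLocalRing.ResidueField V))

/-- The elements of `V` whose residue lies in `U`: the composite valuation ring. -/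
def compRing : Subring V := U.toSubring.comap (IsLocalRing.residue V)

/-- The projection of the composite valuation ring to `U`. -/
def compProj : compRing V U →+* U :=
  ((IsLocalRing.residue V).comp (compRing V U).subtype).codRestrict U.toSubring
    (fun x ↦ x.2)

theorem compProj_val (x : compRing V U) :
    ((compProj V U x : U) : IsLocalRing.ResidueField V) = IsLocalRing.residue V x.1 := rfl

/-- The composite valuation. -/
def compRed : Red (compRing V U) K (IsLocalRing.ResidueField U) where
  ι := V.subtype.comp (compRing V U).subtype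
  ρ := (IsLocalRing.residue U).comp (compProj V U)
  inj := Subtype.val_injective.comp Subtype.val_injective
  surj y := by
    obtain ⟨u, rfl⟩ := IsLocalRing.residue_surjective y
    obtain ⟨v, hv⟩ := IsLocalRing.residue_surjective (u : IsLocalRing.ResidueField V)
    refine ⟨⟨v, ?_⟩, ?_⟩
    · change IsLocalRing.residue V v ∈ U
      rw [hv]
      exact u.2
    · change IsLocalRing.residue U _ = _
      congr 1
      exact Subtype.ext hv
  val x := by
    rcases (redOf V).val x with ⟨r, hr⟩ | ⟨r, hr, hrx⟩
    · rcases (redOf U).val (IsLocalRing.residue V r) with ⟨u, hu⟩ | ⟨u, hu, hux⟩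
      · left
        refine ⟨⟨r, ?_⟩, hr⟩
        change IsLocalRing.residue V r ∈ U
        rw [← hu]
        exact u.2
      · right
        have hux' : (u : IsLocalRing.ResidueField V) * IsLocalRing.residue V r = 1 := hux
        obtain ⟨s, hs⟩ := IsLocalRing.residue_surjective (u : IsLocalRing.ResidueField V)
        have h1 : IsLocalRing.residue V (s * r) = 1 := by rw [map_mul, hs, hux']
        have h2 : IsUnit (s * r) := by
          rw [← IsLocalRing.residue_ne_zero_iff_isUnit, h1]
          exact one_ne_zero
        obtain ⟨w, hw⟩ := h2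
        have h3 : IsLocalRing.residue V ((w⁻¹ : Vˣ) : V) = 1 := by
          have h4 : IsLocalRing.residue V ((w : V) * ((w⁻¹ : Vˣ) : V)) = 1 := by
            rw [Units.mul_inv, map_one]
          rwa [map_mul, hw, h1, one_mul] at h4
        have h5 : IsLocalRing.residue V (s * ((w⁻¹ : Vˣ) : V)) = u := by
          rw [map_mul, h3, hs, mul_one]
        refine ⟨⟨s * ((w⁻¹ : Vˣ) : V), ?_⟩, ?_, ?_⟩
        · change IsLocalRing.residue V (s * ((w⁻¹ : Vˣ) : V)) ∈ U
          rw [h5]
          exact u.2
        · change IsLocalRing.residue U _ = 0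
          have h6 : compProj V U ⟨s * ((w⁻¹ : Vˣ) : V), by
            change IsLocalRing.residue V (s * ((w⁻¹ : Vˣ) : V)) ∈ U
            rw [h5]
            exact u.2⟩ = u := Subtype.ext h5
          rw [h6]
          exact hu
        · have hr' : (r : K) = x := hr
          have h7 : s * ((w⁻¹ : Vˣ) : V) * r = 1 := by
            calc s * ((w⁻¹ : Vˣ) : V) * r = (s * r) * ((w⁻¹ : Vˣ) : V) := by ring
              _ = 1 := by rw [← hw, Units.mul_inv]
          rw [← hr']
          exact congrArg Subtype.val h7
    · right
      have hr0 : IsLocalRing.residue V r = 0 := hr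
      have hmem : r ∈ compRing V U := by
        change IsLocalRing.residue V r ∈ U
        rw [hr0]
        exact U.zero_mem
      refine ⟨⟨r, hmem⟩, ?_, hrx⟩
      change IsLocalRing.residue U _ = 0
      have h6 : compProj V U ⟨r, hmem⟩ = 0 := Subtype.ext hr0
      rw [h6, map_zero]

theorem mem_aff_of_map {K : Type} [Field K] (U : ValuationSubring K) (Z : (P3 U).IdealSheafData)
    (hJ : ∀ r : U, r ≠ 0 → ∀ g, MvPolynomial.C r * g ∈ aff Z → g ∈ aff Z)
    {f : MvPolynomial (Fin 3) U}
    (hf : MvPolynomial.map U.subtype f ∈ (aff Z).map (MvPolynomial.map U.subtype)) :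
    f ∈ aff Z := by
  refine (lift_mem_genIdeal (redOf U) hJ).1 ?_
  have h1 : (aff Z).map (MvPolynomial.map U.subtype) ≤ genIdeal (redOf U) (aff Z) := by
    rw [Ideal.map_le_iff_le_comap]
    intro g hg
    exact (lift_mem_genIdeal (redOf U) hJ).2 hg
  exact h1 hf

/-- A family over `V` and a family over `U` which agree over the residue field of `V` give a lift
of the special fibre of the second along the composite valuation. -/
def mkLift2 {nA nB : Type} (X : Conf nA nB (IsLocalRing.ResidueField U)) (N : ℕ)
    (ZA : (P3 V).IdealSheafData) (ZB : (P3 U).IdealSheafData)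
    (hJA : ∀ r : V, r ≠ 0 → ∀ g, MvPolynomial.C r * g ∈ aff ZA → g ∈ aff ZA)
    (hJB : ∀ r : U, r ≠ 0 → ∀ g, MvPolynomial.C r * g ∈ aff ZB → g ∈ aff ZB)
    (hAB : ZA.comap (P3.map (IsLocalRing.residue V)) = ZB.comap (P3.map U.subtype))
    (hZ : ∀ (n : ℕ) (F : gr (IsLocalRing.ResidueField U) n),
      F ∈ forms (ZB.comap (P3.map (IsLocalRing.residue U))) n ↔ dh _ F.1 ∈ X.I0 N)
    (hZ' : aff (ZB.comap (P3.map (IsLocalRing.residue U))) = X.I0 N) :
    LiftData (compRed V U) X N where
  I := genIdeal (redOf V) (aff ZA)
  t0 := max (exists_lift_forms (IsLocalRing.residue_surjective (R := V)) ZA).choose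
    (exists_lift_forms (IsLocalRing.residue_surjective (R := U)) ZB).choose
  h := by
    intro t ht
    have hliftA := (exists_lift_forms (IsLocalRing.residue_surjective (R := V)) ZA).choose_spec t
      ((le_max_left _ _).trans ht)
    have hliftB := (exists_lift_forms (IsLocalRing.residue_surjective (R := U)) ZB).choose_spec t
      ((le_max_right _ _).trans ht)
    apply le_antisymm
    · rintro _ ⟨f, ⟨hf, hft⟩, rfl⟩
      refine ⟨?_, (compRed V U).bar_mem_T hft⟩
      have h1 : MvPolynomial.map (compRing V U).subtype f ∈ aff ZA := by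
        refine (lift_mem_genIdeal (redOf V) hJA).1 ?_
        have : (redOf V).lift (MvPolynomial.map (compRing V U).subtype f) =
            (compRed V U).lift f := MvPolynomial.map_map _ _ _
        rw [this]
        exact hf
      have h2 : MvPolynomial.map (IsLocalRing.residue V)
          (MvPolynomial.map (compRing V U).subtype f) ∈
          aff (ZA.comap (P3.map (IsLocalRing.residue V))) := by
        rw [aff_comap]
        exact Ideal.mem_map_of_mem _ h1
      rw [hAB, aff_comap] at h2
      have h3 : MvPolynomial.map (IsLocalRing.residue V)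
          (MvPolynomial.map (compRing V U).subtype f) =
            MvPolynomial.map U.subtype (MvPolynomial.map (compProj V U) f) := by
        rw [MvPolynomial.map_map, MvPolynomial.map_map]
        rfl
      rw [h3] at h2
      have h4 := mem_aff_of_map U ZB hJB h2
      have h5 : (compRed V U).bar f = MvPolynomial.map (IsLocalRing.residue U)
          (MvPolynomial.map (compProj V U) f) := (MvPolynomial.map_map _ _ _).symm
      change (compRed V U).bar f ∈ X.I0 N
      rw [h5, ← hZ', aff_comap]
      exact Ideal.mem_map_of_mem _ h4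
    · rintro g ⟨hg, hgt⟩
      obtain ⟨H, hH, rfl⟩ := exists_homog (n := t) (f := g) hgt
      have h1 : (⟨H, hH⟩ : gr (IsLocalRing.ResidueField U) t) ∈
        forms (ZB.comap (P3.map (IsLocalRing.residue U))) t := (hZ t ⟨H, hH⟩).2 hg
      obtain ⟨G, hG, hGH⟩ := hliftB ⟨H, hH⟩ h1
      have h2 := map_mem_forms U.subtype hG
      rw [← hAB] at h2
      obtain ⟨F, hF, hFG⟩ := hliftA _ h2
      simp only at hFG hGH
      have h3 : ∀ m, MvPolynomial.coeff m F.1 ∈ compRing V U := by
        intro m
        change IsLocalRing.residue V (MvPolynomial.coeff m F.1) ∈ U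
        have h4 := congrArg (MvPolynomial.coeff m) hFG
        rw [MvPolynomial.coeff_map, MvPolynomial.coeff_map] at h4
        rw [h4]
        exact (MvPolynomial.coeff m G.1).2
      obtain ⟨F', hF'⟩ : ∃ F' : MvPolynomial (Fin 4) (compRing V U),
          MvPolynomial.map (compRing V U).subtype F' = F.1 := by
        refine ⟨∑ m ∈ F.1.support, MvPolynomial.monomial m ⟨MvPolynomial.coeff m F.1, h3 m⟩, ?_⟩
        conv_rhs => rw [F.1.as_sum]
        rw [map_sum]
        exact Finset.sum_congr rfl fun m _ ↦ MvPolynomial.map_monomial _ _ _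
      have hF'G : MvPolynomial.map (compProj V U) F' = G.1 := by
        apply MvPolynomial.map_injective U.subtype Subtype.val_injective
        rw [← hFG, ← hF', MvPolynomial.map_map, MvPolynomial.map_map]
        rfl
      refine ⟨dh _ F', ⟨?_, ?_⟩, ?_⟩
      · have h5 : (compRed V U).lift (dh _ F') = (redOf V).lift (dh _ F.1) := by
          change MvPolynomial.map _ _ = MvPolynomial.map _ _
          rw [← dh_map, ← dh_map, ← hF']
          congr 1
          exact (MvPolynomial.map_map _ _ _).symm
        change (compRed V U).lift (dh _ F') ∈ genIdeal (redOf V) (aff ZA)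
        rw [h5]
        exact (lift_mem_genIdeal (redOf V) hJA).2 (dh_mem_of_forms hF)
      · rw [SetLike.mem_coe, mem_T]
        have h5 : (compRed V U).lift (dh _ F') = (redOf V).lift (dh _ F.1) := by
          change MvPolynomial.map _ _ = MvPolynomial.map _ _
          rw [← dh_map, ← dh_map, ← hF']
          congr 1
          exact (MvPolynomial.map_map _ _ _).symm
        rw [h5, Red.totalDegree_lift]
        exact dh_totalDegree_le F
      · have h6 : (compRed V U).bar (dh _ F') = MvPolynomial.map (IsLocalRing.residue U)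
            (MvPolynomial.map (compProj V U) (dh _ F')) := (MvPolynomial.map_map _ _ _).symm
        change (compRed V U).bar (dh _ F') = _
        rw [h6, ← dh_map, hF'G, ← dh_map, hGH]

end composite

/-- No generisation of the curve lifts to a field in which two is not zero. -/
theorem no_chain {k : Type} [Field k] (d : FData k) (τ : k)
    (hτ : ∀ a b, (d.MA a - d.MB b).det = 0 →
      ∃ s, MeetAt ((d.conf.shear τ).M a) ((d.conf.shear τ).L b) s) (N : ℕ) (hN : 875 < N)
    {B K₁ : Type} [CommRing B] [IsLocalRing B] [Field K₁] (f : B →+* K₁)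
    (hf : Function.Injective f) (j : k →+* IsLocalRing.ResidueField B)
    (Y : (P3 B).IdealSheafData) (hY : Module.Flat B (MvPolynomial (Fin 3) B ⧸ aff Y))
    (hYX : Y.comap (P3.map (IsLocalRing.residue B)) = (curve d τ N).comap (P3.map j))
    {A K₀ : Type} [CommRing A] [IsLocalRing A] [Field K₀] (h2 : (2 : K₀) ≠ 0) (f₀ : A →+* K₀)
    (hf₀ : Function.Injective f₀) (j₀ : K₁ →+* IsLocalRing.ResidueField A)
    (Y₀ : (P3 A).IdealSheafData) (hY₀ : Module.Flat A (MvPolynomial (Fin 3) A ⧸ aff Y₀))
    (hY₀Y : Y₀.comap (P3.map (IsLocalRing.residue A)) =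
      (Y.comap (P3.map f)).comap (P3.map j₀)) : False := by
  let K := AlgebraicClosure K₀
  let f' : A →+* K := (algebraMap K₀ K).comp f₀
  have hf' : Function.Injective f' := (algebraMap K₀ K).injective.comp hf₀
  obtain ⟨V, hV, hlocV⟩ := IsLocalRing.exists_factor_valuationRing f'
  let φ : A →+* V := f'.codRestrict V.toSubring hV
  have : IsLocalHom φ := hlocV
  let j₁ : K₁ →+* IsLocalRing.ResidueField V := (IsLocalRing.ResidueField.map φ).comp j₀
  let ZA := Y₀.comap (P3.map φ)
  have hZA : ZA.comap (P3.map (IsLocalRing.residue V)) = Y.comap (P3.map (j₁.comp f)) := by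
    change (Y₀.comap (P3.map φ)).comap _ = _
    rw [← Scheme.IdealSheafData.comap_comp, ← P3.map_comp,
      ← IsLocalRing.ResidueField.map_comp_residue,
      P3.map_comp, Scheme.IdealSheafData.comap_comp, hY₀Y, ← Scheme.IdealSheafData.comap_comp,
      ← Scheme.IdealSheafData.comap_comp, ← P3.map_comp, ← P3.map_comp]
  have hg : Function.Injective (j₁.comp f) := j₁.injective.comp hf
  obtain ⟨U, hU, hlocU⟩ := IsLocalRing.exists_factor_valuationRing (j₁.comp f)
  let ψ : B →+* U := (j₁.comp f).codRestrict U.toSubring hU
  have : IsLocalHom ψ := hlocU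
  let j' : k →+* IsLocalRing.ResidueField U := (IsLocalRing.ResidueField.map ψ).comp j
  let ZB := Y.comap (P3.map ψ)
  have hAB : ZA.comap (P3.map (IsLocalRing.residue V)) = ZB.comap (P3.map U.subtype) := by
    rw [hZA]
    change _ = (Y.comap (P3.map ψ)).comap _
    rw [← Scheme.IdealSheafData.comap_comp, ← P3.map_comp]
    rfl
  have hZB : ZB.comap (P3.map (IsLocalRing.residue U)) = (curve d τ N).comap (P3.map j') := by
    change (Y.comap (P3.map ψ)).comap _ = _
    rw [← Scheme.IdealSheafData.comap_comp, ← P3.map_comp,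
      ← IsLocalRing.ResidueField.map_comp_residue,
      P3.map_comp, Scheme.IdealSheafData.comap_comp, hYX, ← Scheme.IdealSheafData.comap_comp,
      ← P3.map_comp]
  have hJA : ∀ r : V, r ≠ 0 → ∀ g, MvPolynomial.C r * g ∈ aff ZA → g ∈ aff ZA := by
    have h3 : Module.Flat V (MvPolynomial (Fin 3) V ⧸ aff ZA) := by
      have h4 : aff ZA = (aff Y₀).map (MvPolynomial.map φ) := aff_comap φ Y₀
      rw [h4]
      exact flat_map φ (aff Y₀) hY₀
    intro r hr g hg
    exact torsionFree h3 r hr g hg
  have hJB : ∀ r : U, r ≠ 0 → ∀ g, MvPolynomial.C r * g ∈ aff ZB → g ∈ aff ZB := by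
    have h3 : Module.Flat U (MvPolynomial (Fin 3) U ⧸ aff ZB) := by
      have h4 : aff ZB = (aff Y).map (MvPolynomial.map ψ) := aff_comap ψ Y
      rw [h4]
      exact flat_map ψ (aff Y) hY
    intro r hr g hg
    exact torsionFree h3 r hr g hg
  have hK : (2 : K) ≠ 0 := by
    intro h
    apply h2
    apply (algebraMap K₀ K).injective
    rw [map_ofNat, h, map_zero]
  have hI : ((d.conf.shear τ).I0 N).map (MvPolynomial.map j') =
      ((d.map j').conf.shear (j' τ)).I0 N := by
    rw [← d.map_conf j' τ]
    algebraize [j']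
    exact I0_map (d.conf.shear τ) N
  have hLD : LiftData (compRed V U) ((d.map j').conf.shear (j' τ)) N := by
    refine mkLift2 V U _ N ZA ZB hJA hJB hAB ?_ ?_
    · intro n F
      rw [hZB, curve, forms_closA_comap, hI]
    · rw [hZB, aff_comap, curve, aff_closA, hI]
  have hN' : LiftData.deg (Option (Fin 7)) (Option (Option (Fin 7))) *
      (2 * Fintype.card (Option (Fin 7) ⊕ Option (Option (Fin 7))) + 1) < N := by
    simpa [LiftData.deg] using hN
  obtain ⟨MA, MB, hMA, hMB, hinc⟩ := hLD.incidence hN'
  refine no_lift (compRed V U) hK (d.map j') (j' τ) MA MB hMA hMB fun a b hab ↦ ?_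
  have hab' : (d.MA a - d.MB b).det = 0 := by
    rw [d.map_MA, d.map_MB] at hab
    have h5 : (d.MA a).map j' - (d.MB b).map j' = j'.mapMatrix (d.MA a - d.MB b) := by
      ext; simp
    rw [h5, ← RingHom.map_det] at hab
    exact (map_eq_zero j').1 hab
  obtain ⟨s, hs⟩ := hτ a b hab'
  refine hinc a b (j' s) fun i ↦ ?_
  have h6 := congrArg j' (hs i)
  have h7 : ((d.map j').conf.shear (j' τ)).M a = ((d.conf.shear τ).M a).map j' := by
    rw [← d.map_conf j' τ]; rfl
  have h8 : ((d.map j').conf.shear (j' τ)).L b = ((d.conf.shear τ).L b).map j' := by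
    rw [← d.map_conf j' τ]; rfl
  rw [h7, h8]
  simpa using h6

end HilbChar
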