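import Mathlib
import Pool.Agent.Work.MP_c21e2e_ag.Geo12
import Pool.Agent.Work.MP_c21e2e_ag.Geo13
import Pool.Agent.Work.MP_c21e2e_ag.Curves

/-!
# Comparison of the definitions in `Defs` and in `Curves`
-/

open CategoryTheory CategoryTheory.Limits AlgebraicGeometry

noncomputable section

namespace SpaceCurve

open Pool.Agent.Work.MP_c21e2e_ag HilbChar

attribute [local instance] MvPolynomial.gradedAlgebra

theorem vanishing_eq {A : CommRingCat.{0}} (Z : (SpaceCurve.P3 A).IdealSheafData) (n : ℕ) :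
    vanishing Z n = HilbChar.forms (A := A) Z n :=
  le_antisymm (Submodule.span_le.2 fun _ h ↦ h) fun _ h ↦ Submodule.subset_span h

theorem hasHilbPoly_iff {F : Type} [Field F]
    (Z : (SpaceCurve.P3 (CommRingCat.of F)).IdealSheafData)
    (d : ℕ) (g : ℤ) : SpaceCurve.HasHilbPoly Z d g ↔ HilbChar.HasHilbPoly (F := F) Z d g := by
  have h : ∀ n, Module.finrank F (MvPolynomial.homogeneousSubmodule (Fin 4) F n ⧸ vanishing Z n) =
      HilbChar.codim (HilbChar.forms (A := F) Z n) := fun n ↦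
    congrArg (fun V : Submodule F (HilbChar.gr F n) ↦ Module.finrank F (HilbChar.gr F n ⧸ V))
      (vanishing_eq (A := CommRingCat.of F) Z n)
  refine exists_congr fun n₀ ↦ forall_congr' fun n ↦ imp_congr_right fun _ ↦ ?_
  rw [← h n]
  rfl

theorem mem_Hilb_of {d : ℕ} {g : ℤ} {A : CommRingCat.{0}}
    {Z : (SpaceCurve.P3 A).IdealSheafData}
    (h : Z ∈ SpaceCurve.Hilb d g A) :
    (Z : (HilbChar.P3 A).IdealSheafData) ∈ HilbChar.Hilb d g A := by
  refine ⟨h.1, h.2.1, fun F _ φ ↦ ?_⟩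
  exact (hasHilbPoly_iff _ d g).1 (h.2.2 (CommRingCat.of F) (CommRingCat.ofHom φ)
    (Field.toIsField F))

theorem of_mem_Hilb {d : ℕ} {g : ℤ} {A : CommRingCat.{0}}
    {Z : (SpaceCurve.P3 A).IdealSheafData}
    (h : (Z : (HilbChar.P3 A).IdealSheafData) ∈ HilbChar.Hilb d g A) :
    Z ∈ SpaceCurve.Hilb d g A := by
  refine ⟨h.1, h.2.1, fun F φ hF ↦ ?_⟩
  rcases F with @⟨F, inst⟩
  obtain ⟨f, hf⟩ : ∃ f : Field F, f.toCommRing = inst := ⟨hF.toField, rfl⟩
  subst hf
  exact (hasHilbPoly_iff _ d g).2 (h.2.2 F φ.hom)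

/-- Localisation of a specialisation. -/
theorem exists_local {A F K : Type} [CommRing A] [Field F] [Field K] (f : A →+* K)
    (q : A →+* F) (hf : Function.Injective f) (hq : Function.Surjective q) :
    ∃ (B : Type) (_ : CommRing B) (_ : IsLocalRing B) (i : A →+* B) (f' : B →+* K)
      (e : F →+* IsLocalRing.ResidueField B), Function.Injective f' ∧ f'.comp i = f ∧
      (IsLocalRing.residue B).comp i = e.comp q := by
  have hP : (RingHom.ker q).IsPrime := RingHom.ker_isPrime q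
  have hu : ∀ y : (RingHom.ker q).primeCompl, IsUnit (f y) := fun y ↦
    isUnit_iff_ne_zero.2 fun h ↦ y.2 (by
      have : (y : A) = 0 := hf (h.trans (map_zero f).symm)
      rw [this]
      exact zero_mem _)
  let B := Localization.AtPrime (RingHom.ker q)
  let f' : B →+* K := IsLocalization.lift (M := (RingHom.ker q).primeCompl) hu
  have hf' : f'.comp (algebraMap A B) = f := IsLocalization.lift_comp hu
  have hk : RingHom.ker q ≤ RingHom.ker ((IsLocalRing.residue B).comp (algebraMap A B)) := by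
    intro x hx
    rw [RingHom.mem_ker, RingHom.comp_apply, IsLocalRing.residue_eq_zero_iff]
    exact (IsLocalization.AtPrime.to_map_mem_maximal_iff B (RingHom.ker q) x).2 hx
  refine ⟨B, inferInstance, inferInstance, algebraMap A B, f',
    RingHom.liftOfSurjective q hq ⟨_, hk⟩, ?_, hf', ?_⟩
  · rw [injective_iff_map_eq_zero]
    intro z hz
    obtain ⟨a, s, rfl⟩ := IsLocalization.exists_mk'_eq (RingHom.ker q).primeCompl z
    have h1 : f a = 0 := by
      have h3 : f a = f s * 0 := (IsLocalization.lift_mk'_spec hu a 0 s).1 hz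
      rw [h3, mul_zero]
    have h2 : a = 0 := hf (h1.trans (map_zero f).symm)
    rw [h2, IsLocalization.mk'_zero]
  · ext x
    exact (RingHom.liftOfRightInverse_comp_apply _ _ (Function.rightInverse_surjInv hq)
      ⟨_, hk⟩ x).symm

/-- No generisation of the curve lifts to a field in which two is not zero: version with a
residue field. -/
theorem no_chain_quot {k : Type} [Field k] (d : FData k) (τ : k)
    (hτ : ∀ a b, (d.MA a - d.MB b).det = 0 →
      ∃ s, MeetAt ((d.conf.shear τ).M a) ((d.conf.shear τ).L b) s) (N : ℕ) (hN : 875 < N)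
    {A F K₁ A' F' K₀ : Type} [CommRing A] [Field F] [Field K₁] [CommRing A'] [Field F'] [Field K₀]
    (h2 : (2 : K₀) ≠ 0)
    (f : A →+* K₁) (q : A →+* F) (j : k →+* F)
    (hf : Function.Injective f) (hq : Function.Surjective q)
    (f' : A' →+* K₀) (q' : A' →+* F') (j' : K₁ →+* F')
    (hf' : Function.Injective f') (hq' : Function.Surjective q')
    (Y : (HilbChar.P3 A).IdealSheafData) (hY : Flat (Y.subschemeι ≫ HilbChar.P3.toSpec A))
    (hYX : Y.comap (HilbChar.P3.map q) = (curve d τ N).comap (HilbChar.P3.map j))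
    (Y' : (HilbChar.P3 A').IdealSheafData) (hY' : Flat (Y'.subschemeι ≫ HilbChar.P3.toSpec A'))
    (hYX' : Y'.comap (HilbChar.P3.map q') =
      (Y.comap (HilbChar.P3.map f)).comap (HilbChar.P3.map j')) : False := by
  obtain ⟨B, _, _, i, fB, e, hfB, hfBi, hqi⟩ := exists_local f q hf hq
  obtain ⟨B', _, _, i', fB', e', hfB', hfBi', hqi'⟩ := exists_local f' q' hf' hq'
  have hfl : Module.Flat A (MvPolynomial (Fin 3) A ⧸ aff Y) := flat_aff Y hY
  have hfl' : Module.Flat A' (MvPolynomial (Fin 3) A' ⧸ aff Y') := flat_aff Y' hY'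
  refine no_chain d τ hτ N hN fB hfB (e.comp j) (Y.comap (HilbChar.P3.map i)) ?_ ?_ h2 fB'
    hfB' (e'.comp j') (Y'.comap (HilbChar.P3.map i')) ?_ ?_
  · rw [aff_comap]
    exact flat_map i _ hfl
  · rw [← Scheme.IdealSheafData.comap_comp, ← HilbChar.P3.map_comp, hqi, HilbChar.P3.map_comp,
      Scheme.IdealSheafData.comap_comp, HilbChar.P3.map_comp, Scheme.IdealSheafData.comap_comp, hYX]
  · rw [aff_comap]
    exact flat_map i' _ hfl'
  · rw [← Scheme.IdealSheafData.comap_comp, ← HilbChar.P3.map_comp, hqi', HilbChar.P3.map_comp,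
      Scheme.IdealSheafData.comap_comp, hYX', HilbChar.P3.map_comp, Scheme.IdealSheafData.comap_comp,
      ← hfBi, HilbChar.P3.map_comp, Scheme.IdealSheafData.comap_comp]

/-- No generisation of the curve lifts to characteristic zero. -/
theorem no_generisation {k : Type} [Field k] (d : FData k) (τ : k)
    (hτ : ∀ a b, (d.MA a - d.MB b).det = 0 →
      ∃ s, MeetAt ((d.conf.shear τ).M a) ((d.conf.shear τ).L b) s) (N : ℕ) (hN : 875 < N) (g : ℤ)
    (K₁ K₀ : CommRingCat.{0}) (hK₁ : IsField K₁) (hK₀ : IsField K₀) [CharZero K₀]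
    (X₁ : (SpaceCurve.P3 K₁).IdealSheafData) (X₀ : (SpaceCurve.P3 K₀).IdealSheafData)
    (h₁ : SpaceCurve.SpecialisesTo 25 g X₁
      (X' := (curve d τ N : (SpaceCurve.P3 (CommRingCat.of k)).IdealSheafData)))
    (h₀ : SpaceCurve.SpecialisesTo 25 g X₀ X₁) : False := by
  rcases K₁ with @⟨K₁, inst₁⟩
  rcases K₀ with @⟨K₀, inst₀⟩
  obtain ⟨I₁, rfl⟩ : ∃ f : Field K₁, f.toCommRing = inst₁ := ⟨hK₁.toField, rfl⟩
  obtain ⟨I₀, rfl⟩ : ∃ f : Field K₀, f.toCommRing = inst₀ := ⟨hK₀.toField, rfl⟩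
  obtain ⟨@⟨A, instA⟩, @⟨F, instF⟩, f, q, j, hf, hq, hF, Y, hY, hYX₁, hYX⟩ := h₁
  obtain ⟨IF, rfl⟩ : ∃ f : Field F, f.toCommRing = instF := ⟨hF.toField, rfl⟩
  obtain ⟨@⟨A', instA'⟩, @⟨F', instF'⟩, f', q', j', hf', hq', hF', Y', hY', -, hYX'⟩ := h₀
  obtain ⟨IF', rfl⟩ : ∃ f : Field F', f.toCommRing = instF' := ⟨hF'.toField, rfl⟩
  subst hYX₁
  have h2 : (2 : K₀) ≠ 0 := two_ne_zero
  exact no_chain_quot d τ hτ N hN h2 f.hom q.hom j.hom hf hq f'.hom q'.hom j'.hom hf' hq'
    Y hY.1 hYX Y' hY'.1 hYX'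

/-- `exists_component` for products. -/
theorem hasComponentOnlyInChar (p : ℕ) [Fact p.Prime] (H : Scheme.{0})
    (s : Spec (CommRingCat.of (Fbar p)) ⟶ H)
    (hs : ∀ (A : Type) [CommRing A] [IsDomain A] [IsLocalRing A], (p : A) ≠ 0 →
      ∀ (j : Fbar p →+* IsLocalRing.ResidueField A) (t : Spec (CommRingCat.of A) ⟶ H),
      Spec.map (CommRingCat.ofHom (IsLocalRing.residue A)) ≫ t ≠
        Spec.map (CommRingCat.ofHom j) ≫ s) :
    HasComponentOnlyInChar p H := by
  let sk : Spec (CommRingCat.of (Fbar p)) ⟶ H ⨯ Spec (CommRingCat.of (Fbar p)) :=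
    prod.lift s (𝟙 _)
  let y₁ : ↥(H ⨯ Spec (CommRingCat.of (Fbar p))) := sk (IsLocalRing.closedPoint (Fbar p))
  let η : ↥(H ⨯ Spec (CommRingCat.of (Fbar p))) :=
    (isIrreducible_irreducibleComponent (x := y₁)).genericPoint
  have hgen : IsGenericPoint η (irreducibleComponent y₁) :=
    isIrreducible_irreducibleComponent.isGenericPoint_genericPoint isClosed_irreducibleComponent
  refine ⟨irreducibleComponent y₁, irreducibleComponent_mem_irreducibleComponents y₁, η, hgen,
    fun hη ↦ ?_⟩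
  let f : (H ⨯ Spec (CommRingCat.of (Fbar p))) ⟶ (H ⨯ Spec (CommRingCat.of (WittVector p (Fbar p))))
    := prod.map (𝟙 H) (Spec.map (CommRingCat.ofHom
      (WittVector.constantCoeff : WittVector p (Fbar p) →+* Fbar p)))
  have hsp : η ⤳ y₁ := hgen.specializes mem_irreducibleComponent
  let O' : Scheme.{0} := H ⨯ Spec (CommRingCat.of (WittVector p (Fbar p)))
  let u : Spec (CommRingCat.of (Fbar p)) ⟶ O' := sk ≫ f
  have hy : u (IsLocalRing.closedPoint (Fbar p)) ∈
      closure (Set.range (prod.map (𝟙 H) (Spec.map (CommRingCat.ofHom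
        (algebraMap (WittVector p (Fbar p)) (FractionRing (WittVector p (Fbar p)))))))) := by
    have h1 := hsp.map f.continuous
    exact h1.mem_closed isClosed_closure hη
  have hnil := not_isNilpotent_stalk' p _ (WittVector.FractionRing.p_nonzero p (Fbar p))
    (prod.snd : (H ⨯ Spec (CommRingCat.of (FractionRing (WittVector p (Fbar p))))) ⟶ _) _ hy
  let α := Scheme.stalkClosedPointTo u
  let β := Spec.preimage (O'.fromSpecStalk
    (u (IsLocalRing.closedPoint (Fbar p))) ≫ (prod.snd : O' ⟶ _))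
  have hu : Spec.map α ≫ O'.fromSpecStalk
    (u (IsLocalRing.closedPoint (Fbar p))) = u := Scheme.Spec_stalkClosedPointTo_fromSpecStalk u
  have husnd : u ≫ (prod.snd : O' ⟶ _) = Spec.map (CommRingCat.ofHom
      (WittVector.constantCoeff : WittVector p (Fbar p) →+* Fbar p)) := by
    change (sk ≫ f) ≫ _ = _
    rw [Category.assoc]
    change prod.lift s (𝟙 _) ≫ prod.map _ _ ≫ prod.snd = _
    rw [prod.map_snd, ← Category.assoc, prod.lift_snd, Category.id_comp]
  have hufst : u ≫ (prod.fst : O' ⟶ H) = s := by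
    change (sk ≫ f) ≫ _ = _
    rw [Category.assoc]
    change prod.lift s (𝟙 _) ≫ prod.map _ _ ≫ prod.fst = _
    rw [prod.map_fst, ← Category.assoc, prod.lift_fst, Category.comp_id]
  have hβα : β ≫ α = CommRingCat.ofHom
      (WittVector.constantCoeff : WittVector p (Fbar p) →+* Fbar p) := by
    apply Spec.map_injective
    rw [Spec.map_comp, Spec.map_preimage, ← Category.assoc, hu, husnd]
  have hαsurj : Function.Surjective α.hom := by
    intro x
    obtain ⟨w, hw⟩ := WittVector.constantCoeff_surjective (p := p) x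
    refine ⟨β.hom w, ?_⟩
    have := congrArg (fun z ↦ z.hom w) hβα
    simpa [hw] using this
  have hex : ∃ J : Ideal (O'.presheaf.stalk
      (u (IsLocalRing.closedPoint (Fbar p)))), J.IsPrime ∧ (p : O'.presheaf.stalk
        (u (IsLocalRing.closedPoint (Fbar p)))) ∉ J := by
    by_contra hcon
    push Not at hcon
    exact hnil (nilpotent_iff_mem_prime.2 hcon)
  obtain ⟨J, hJ, hpJ⟩ := hex
  let O := O'.presheaf.stalk (u (IsLocalRing.closedPoint (Fbar p)))
  let m : O →+* (O ⧸ J) := Ideal.Quotient.mk J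
  have : IsLocalRing (O ⧸ J) := IsLocalRing.of_surjective' m Ideal.Quotient.mk_surjective
  have hloc : IsLocalHom m := IsLocalHom.of_surjective m Ideal.Quotient.mk_surjective
  have hker : RingHom.ker α.hom ≤ RingHom.ker ((IsLocalRing.residue (O ⧸ J)).comp m) := by
    intro x hx
    rw [RingHom.mem_ker] at hx ⊢
    rw [RingHom.comp_apply, IsLocalRing.residue_eq_zero_iff, IsLocalRing.mem_maximalIdeal,
      mem_nonunits_iff]
    intro hunit
    have h1 : IsUnit x := isUnit_of_map_unit m x hunit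
    have h2 := h1.map α.hom
    rw [hx] at h2
    exact not_isUnit_zero h2
  let j : Fbar p →+* IsLocalRing.ResidueField (O ⧸ J) :=
    RingHom.liftOfSurjective α.hom hαsurj ⟨_, hker⟩
  have hj : j.comp α.hom = (IsLocalRing.residue (O ⧸ J)).comp m :=
    RingHom.liftOfRightInverse_comp _ _ _ _
  let t : Spec (CommRingCat.of (O ⧸ J)) ⟶ H := Spec.map (CommRingCat.ofHom m) ≫
    O'.fromSpecStalk (u (IsLocalRing.closedPoint (Fbar p))) ≫ prod.fst
  have hpA : (p : O ⧸ J) ≠ 0 := by
    intro h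
    apply hpJ
    rw [← Ideal.Quotient.eq_zero_iff_mem, map_natCast]
    exact h
  refine hs (O ⧸ J) hpA j t ?_
  have h3 : CommRingCat.ofHom m ≫ CommRingCat.ofHom (IsLocalRing.residue (O ⧸ J)) =
      α ≫ CommRingCat.ofHom j := by
    ext x
    exact (congrArg (fun z : O →+* _ ↦ z x) hj).symm
  change Spec.map (CommRingCat.ofHom (IsLocalRing.residue (O ⧸ J))) ≫
    Spec.map (CommRingCat.ofHom m) ≫ _ ≫ _ = _
  rw [← Spec.map_comp_assoc, h3, Spec.map_comp_assoc, ← hufst]
  congr 1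
  rw [← Category.assoc, hu]

/-- The result. -/
theorem main : ∃ g : ℤ,
    (∃ X ∈ Hilb 25 g (CommRingCat.of (AlgebraicClosure (ZMod 2))),
      ∀ (K₁ K₀ : CommRingCat.{0}) (X₁ : (P3 K₁).IdealSheafData) (X₀ : (P3 K₀).IdealSheafData),
        IsField K₁ → IsField K₀ → CharZero K₀ →
          SpecialisesTo 25 g X₁ X → ¬ SpecialisesTo 25 g X₀ X₁) ∧
    ∀ S : HilbertScheme 25 g, HasComponentOnlyInChar 2 S.H := by
  have h2 : (2 : Fbar 2) = 0 := CharTwo.two_eq_zero
  obtain ⟨e⟩ := exists_FData (Fbar 2) h2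
  have : Infinite (Fbar 2) := IsAlgClosed.instInfinite
  obtain ⟨τ, hτ⟩ := exists_shear e.conf
  obtain ⟨g, hg⟩ := curve_mem_Hilb e τ 876
  have hg' : (curve e τ 876 : (SpaceCurve.P3 (CommRingCat.of (Fbar 2))).IdealSheafData) ∈
    SpaceCurve.Hilb 25 g (CommRingCat.of (Fbar 2)) := of_mem_Hilb hg
  refine ⟨g, ⟨curve e τ 876, hg', ?_⟩, fun S ↦ ?_⟩
  · intro K₁ K₀ X₁ X₀ hK₁ hK₀ _ h₁ h₀
    exact no_generisation e τ hτ 876 (by norm_num) g K₁ K₀ hK₁ hK₀ X₁ X₀ h₁ h₀
  · obtain ⟨s, -, hs⟩ := (S.bijOn (CommRingCat.of (Fbar 2))).surjOn hg'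
    refine hasComponentOnlyInChar 2 S.H s ?_
    intro A _ _ _ hA j t ht
    have hY := mem_Hilb_of ((S.bijOn (CommRingCat.of A)).mapsTo (Set.mem_univ t))
    refine no_family e τ hτ 876 (by norm_num) A (by simpa using hA) j (S.family t) hY.1 ?_
    have h3 := S.natural (CommRingCat.ofHom (IsLocalRing.residue A)) t
    have h4 := S.natural (CommRingCat.ofHom j) s
    rw [ht, h4, hs] at h3
    exact h3.symm

end SpaceCurve
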