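import Pool.Agent.Work.MP_c21e2e_ag.Fano

set_option linter.unusedSectionVars false
set_option linter.unusedSimpArgs false
set_option linter.style.setOption false

/-!
# The explicit configuration of lines in characteristic two
-/

namespace Pool.Agent.Work.MP_c21e2e_ag

open Matrix

/-- parameters for the configuration -/
structure FData (k : Type*) [Field k] where
  θ : k
  lam : k
  two_eq : (2 : k) = 0
  hθ : θ ^ 3 = θ + 1
  hl0 : lam ≠ 0
  hE : ∀ i : Fin 7, lam - (θ ^ (i : ℕ)) ^ 4 ≠ 0
  hD : ∀ i : Fin 7, lam + (θ ^ (i : ℕ)) ^ 2 * θ ^ 6 - θ ^ 2 ≠ 0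

namespace FData

variable {k : Type*} [Field k] (d : FData k)

lemma θ_ne_zero : d.θ ≠ 0 := by
  intro h
  have := d.hθ
  rw [h] at this
  simp at this

lemma θ_pow_seven : d.θ ^ 7 = 1 := by
  have h := d.hθ
  have h2 := d.two_eq
  linear_combination (d.θ ^ 4 + d.θ ^ 2 + d.θ + 1) * h + (d.θ ^ 2 + d.θ) * h2

lemma θ_ne_one : d.θ ≠ 1 := by
  intro h
  have := d.hθ
  rw [h] at this
  have h2 := d.two_eq
  have : (1 : k) = 0 := by linear_combination this + h2
  exact one_ne_zero this

lemma θ3_ne_one : d.θ ^ 3 ≠ 1 := by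
  intro h
  have := d.hθ
  rw [h] at this
  exact d.θ_ne_zero (by linear_combination -this)

lemma pow_inj {x : k} (h7 : x ^ 7 = 1) (h1 : x ≠ 1) (i j : Fin 7)
    (h : x ^ (i : ℕ) = x ^ (j : ℕ)) : i = j := by
  have : Fact (Nat.Prime 7) := ⟨by norm_num⟩
  have ho : orderOf x = 7 := orderOf_eq_prime h7 h1
  have := pow_injOn_Iio_orderOf (x := x) (by simp [ho, i.2]) (by simp [ho, j.2]) h
  exact Fin.ext this

/-- nonzero elements of the field with eight elements -/
def pt (i : Fin 7) : k := d.θ ^ (i : ℕ)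

lemma pt_ne (i : Fin 7) : d.pt i ≠ 0 := pow_ne_zero _ d.θ_ne_zero

lemma pt_inj {i j : Fin 7} (h : d.pt i = d.pt j) : i = j := pow_inj d.θ_pow_seven d.θ_ne_one i j h

lemma pt3_inj {i j : Fin 7} (h : d.pt i ^ 3 = d.pt j ^ 3) : i = j := by
  apply pow_inj (x := d.θ ^ 3) _ d.θ3_ne_one i j
  · unfold pt at h
    rw [← pow_mul, ← pow_mul, mul_comm, mul_comm (j : ℕ)] at h
    rwa [← pow_mul, ← pow_mul]
  · rw [← pow_mul, mul_comm, pow_mul, d.θ_pow_seven, one_pow]

def E (i : Fin 7) : k := d.lam - d.pt i ^ 4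
def DD (i : Fin 7) : k := d.lam + d.pt i ^ 2 * d.θ ^ 6 - d.θ ^ 2

lemma E_ne (i : Fin 7) : d.E i ≠ 0 := d.hE i
lemma DD_ne (i : Fin 7) : d.DD i ≠ 0 := d.hD i

/-- the double lines -/
def MA : Option (Fin 7) → Mat k
  | none => !![0, 1; 0, 0]
  | some i => !![d.pt i / d.E i, - d.pt i ^ 4 / d.E i; 1 / d.E i, - d.pt i ^ 3 / d.E i]

/-- the simple lines -/
def MB : Option (Option (Fin 7)) → Mat k
  | none => !![0, 0; 0, 0]
  | some none => !![0, 1; 1 / d.lam, 0]
  | some (some i) => !![-(d.θ ^ 2) / (d.pt i * d.DD i), 1 + d.θ ^ 2 / d.DD i;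
      1 / d.DD i, - d.pt i / d.DD i]

lemma detA (a : Option (Fin 7)) : (d.MA a).det = 0 := by
  rcases a with _ | i
  · simp [MA, Matrix.det_fin_two]
  · have := d.E_ne i
    simp only [MA, Matrix.det_fin_two, Matrix.of_apply, Matrix.cons_val', Matrix.cons_val_zero,
      Matrix.cons_val_one, Matrix.cons_val_fin_one]
    field_simp
    ring

lemma hM (a a' : Option (Fin 7)) (h : a ≠ a') : (d.MA a - d.MA a').det ≠ 0 := by
  rcases a with _ | i <;> rcases a' with _ | j
  · exact absurd rfl h
  · have := d.E_ne j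
    have e : (d.MA none - d.MA (some j)).det = (d.lam / d.E j - d.pt j ^ 4 / d.E j) / d.E j := by
      simp only [MA, Matrix.det_fin_two, Matrix.of_apply, Matrix.cons_val', Matrix.cons_val_zero,
        Matrix.cons_val_one, Matrix.cons_val_fin_one, Matrix.sub_apply]
      field_simp
      unfold E
      ring
    rw [e, ← sub_div]
    exact div_ne_zero (div_ne_zero this this) this
  · have := d.E_ne i
    have e : (d.MA (some i) - d.MA none).det = (d.lam / d.E i - d.pt i ^ 4 / d.E i) / d.E i := by
      simp only [MA, Matrix.det_fin_two, Matrix.of_apply, Matrix.cons_val', Matrix.cons_val_zero,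
        Matrix.cons_val_one, Matrix.cons_val_fin_one, Matrix.sub_apply]
      field_simp
      unfold E
      ring
    rw [e, ← sub_div]
    exact div_ne_zero (div_ne_zero this this) this
  · have hij : i ≠ j := fun h' => h (by rw [h'])
    have h1 := d.E_ne i
    have h2 := d.E_ne j
    have e : (d.MA (some i) - d.MA (some j)).det =
        (d.pt i - d.pt j) * (d.pt j ^ 3 - d.pt i ^ 3) / (d.E i * d.E j) := by
      simp only [MA, Matrix.det_fin_two, Matrix.of_apply, Matrix.cons_val', Matrix.cons_val_zero,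
        Matrix.cons_val_one, Matrix.cons_val_fin_one, Matrix.sub_apply]
      field_simp
      ring
    rw [e]
    refine div_ne_zero (mul_ne_zero (sub_ne_zero.mpr fun h => hij (d.pt_inj h))
      (sub_ne_zero.mpr fun h => hij (d.pt3_inj h).symm)) (mul_ne_zero h1 h2)

lemma detB_some (j : Option (Fin 7)) : (d.MB (some j)).det ≠ 0 := by
  rcases j with _ | i
  · simp [MB, Matrix.det_fin_two, d.hl0]
  · have h1 := d.DD_ne i
    have h2 := d.pt_ne i
    have e : (d.MB (some (some i))).det = - 1 / d.DD i := by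
      simp only [MB, Matrix.det_fin_two, Matrix.of_apply, Matrix.cons_val', Matrix.cons_val_zero,
        Matrix.cons_val_one, Matrix.cons_val_fin_one]
      field_simp
      ring
    rw [e]
    exact div_ne_zero (by simp) h1

lemma hL (a a' : Option (Option (Fin 7))) (h : a ≠ a') : (d.MB a - d.MB a').det ≠ 0 := by
  have hneg : ∀ P Q : Mat k, (P - Q).det = (Q - P).det := by
    intro P Q
    simp only [Matrix.det_fin_two, Matrix.sub_apply]
    ring
  have hnone : ∀ j : Option (Fin 7), (d.MB (some j) - d.MB none).det ≠ 0 := by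
    intro j
    have : d.MB none = 0 := by
      ext i j; fin_cases i <;> fin_cases j <;> rfl
    rw [this, sub_zero]
    exact d.detB_some j
  have hsn : ∀ i : Fin 7, (d.MB (some (some i)) - d.MB (some none)).det ≠ 0 := by
    intro i
    have h1 := d.DD_ne i
    have h2 := d.pt_ne i
    have h3 := d.hl0
    have e : (d.MB (some (some i)) - d.MB (some none)).det = d.θ ^ 2 / (d.DD i * d.lam) := by
      simp only [MB, Matrix.det_fin_two, Matrix.of_apply, Matrix.cons_val', Matrix.cons_val_zero,
        Matrix.cons_val_one, Matrix.cons_val_fin_one, Matrix.sub_apply]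
      field_simp
      ring
    rw [e]
    exact div_ne_zero (pow_ne_zero _ d.θ_ne_zero) (mul_ne_zero h1 h3)
  rcases a with _ | a <;> rcases a' with _ | a'
  · exact absurd rfl h
  · rw [hneg]; exact hnone a'
  · exact hnone a
  · rcases a with _ | i <;> rcases a' with _ | j
    · exact absurd rfl h
    · rw [hneg]; exact hsn j
    · exact hsn i
    · have hij : i ≠ j := fun h' => h (by rw [h'])
      have h1 := d.DD_ne i
      have h2 := d.DD_ne j
      have h3 := d.pt_ne i
      have h4 := d.pt_ne j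
      have e : (d.MB (some (some i)) - d.MB (some (some j))).det =
          - d.θ ^ 2 * (d.pt i - d.pt j) ^ 2 / (d.pt i * d.pt j * (d.DD i * d.DD j)) := by
        simp only [MB, Matrix.det_fin_two, Matrix.of_apply, Matrix.cons_val', Matrix.cons_val_zero,
          Matrix.cons_val_one, Matrix.cons_val_fin_one, Matrix.sub_apply]
        field_simp
        ring
      rw [e]
      refine div_ne_zero (mul_ne_zero (neg_ne_zero.mpr (pow_ne_zero _ d.θ_ne_zero))
        (pow_ne_zero _ (sub_ne_zero.mpr fun h => hij (d.pt_inj h))))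
        (mul_ne_zero (mul_ne_zero h3 h4) (mul_ne_zero h1 h2))

lemma hML (a : Option (Fin 7)) (j : Option (Option (Fin 7))) : d.MA a ≠ d.MB j := by
  intro h
  rcases j with _ | j
  · rcases a with _ | i
    · have := congrFun (congrFun h 0) 1
      simp [MA, MB] at this
    · have := congrFun (congrFun h 1) 0
      simp [MA, MB] at this
      exact d.E_ne i this
  · have := d.detA a
    rw [h] at this
    exact d.detB_some j this

/-- the configuration before the change of coordinates -/
def conf : Conf (Option (Fin 7)) (Option (Option (Fin 7))) k where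
  M := d.MA
  L := d.MB
  hM := d.hM
  hL := d.hL
  hML := d.hML

/-- incidences -/
lemma inc_none (a : Option (Fin 7)) : (d.MA a - d.MB none).det = 0 := by
  have : d.MB none = 0 := by
    ext i j; fin_cases i <;> fin_cases j <;> rfl
  rw [this, sub_zero, d.detA]

lemma inc_zero (a : Option (Fin 7)) : (d.MA a - d.MB (some none)).det = 0 := by
  have h3 := d.hl0
  rcases a with _ | i
  · simp [MA, MB, Matrix.det_fin_two]
  · have := d.E_ne i
    simp only [MA, MB, Matrix.det_fin_two, Matrix.of_apply, Matrix.cons_val', Matrix.cons_val_zero,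
      Matrix.cons_val_one, Matrix.cons_val_fin_one, Matrix.sub_apply]
    field_simp
    unfold E
    ring

lemma inc_inf (j : Fin 7) : (d.MA none - d.MB (some (some j))).det = 0 := by
  have h1 := d.DD_ne j
  have h3 := d.pt_ne j
  simp only [MA, MB, Matrix.det_fin_two, Matrix.of_apply, Matrix.cons_val', Matrix.cons_val_zero,
    Matrix.cons_val_one, Matrix.cons_val_fin_one, Matrix.sub_apply]
  field_simp
  ring

lemma inc_aux (i j : Fin 7) (u : k) (hv : d.pt i = d.pt j * u)
    (hu : u ^ 3 + d.θ ^ 5 * u + d.θ ^ 4 = 0) :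
    (d.MA (some i) - d.MB (some (some j))).det = 0 := by
  have h1 := d.DD_ne j
  have h3 := d.pt_ne j
  have h4 := d.E_ne i
  have e : (d.MA (some i) - d.MB (some (some j))).det =
      d.pt j ^ 2 * (u + d.θ ^ 6 - d.θ ^ 2 * u ^ 3) / (d.DD j * d.E i) := by
    simp only [MA, MB, Matrix.det_fin_two, Matrix.of_apply, Matrix.cons_val',
      Matrix.cons_val_zero, Matrix.cons_val_one, Matrix.cons_val_fin_one, Matrix.sub_apply]
    field_simp
    unfold DD E
    rw [hv]
    ring
  have h7 := d.θ_pow_seven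
  have h2 := d.two_eq
  have z : u + d.θ ^ 6 - d.θ ^ 2 * u ^ 3 = 0 := by
    linear_combination (-d.θ ^ 2) * hu + u * h7 + (u + d.θ ^ 6) * h2
  rw [e, z]
  simp

lemma pt_add (i j : Fin 7) : d.pt (i + j) = d.pt i * d.pt j := by
  unfold pt
  rw [← pow_add, Fin.val_add]
  have h := d.θ_pow_seven
  conv_rhs => rw [← Nat.div_add_mod (i + j : ℕ) 7, pow_add, pow_mul, h, one_pow, one_mul]

lemma inc0 (j : Fin 7) : (d.MA (some j) - d.MB (some (some j))).det = 0 := by
  apply d.inc_aux j j 1 (by simp)
  have h := d.hθ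
  have h2 := d.two_eq
  linear_combination (d.θ ^ 2 + d.θ + 1) * h + (d.θ ^ 2 + d.θ + 1) * h2

lemma inc1 (j : Fin 7) : (d.MA (some (j + 1)) - d.MB (some (some j))).det = 0 := by
  apply d.inc_aux (j + 1) j d.θ
  · rw [d.pt_add]
    congr 1
    simp [pt]
  have h := d.hθ
  have h2 := d.two_eq
  linear_combination (d.θ ^ 3 + 2 * d.θ + 2) * h + (d.θ ^ 2 + 2 * d.θ + 1) * h2

lemma inc3 (j : Fin 7) : (d.MA (some (j + 3)) - d.MB (some (some j))).det = 0 := by
  apply d.inc_aux (j + 3) j (d.θ ^ 3)
  · rw [d.pt_add]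
    congr 1
  have h := d.hθ
  have h2 := d.two_eq
  have h7 := d.θ_pow_seven
  linear_combination (d.θ ^ 2 + d.θ) * h7 + d.θ * h + (d.θ ^ 2 + d.θ) * h2

end FData

end Pool.Agent.Work.MP_c21e2e_ag
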