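import Pool.Agent.Work.MP_c21e2e_ag.Lin
import Pool.Agent.Work.MP_c21e2e_ag.Conf

set_option linter.unusedSectionVars false
set_option linter.unusedSimpArgs false
set_option linter.style.setOption false

/-!
# Lifts of the curve: torsion-freeness and purity
-/

namespace Pool.Agent.Work.MP_c21e2e_ag

open MvPolynomial

namespace Red

variable {R K k : Type*} [CommRing R] [Field K] [Field k] (v : Red R K k)
variable {σ : Type*} [Finite σ]

/-- lifting polynomials with degree control -/
lemma exists_lift {t : ℕ} {g : MvPolynomial σ k} (hg : g ∈ T k σ t) :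
    ∃ f : MvPolynomial σ R, v.bar f = g ∧ v.lift f ∈ T K σ t := by
  classical
  choose r hr using v.surj
  refine ⟨∑ m ∈ g.support, monomial m (r (coeff m g)), ?_, ?_⟩
  · rw [map_sum]
    conv_rhs => rw [← support_sum_monomial_coeff g]
    refine Finset.sum_congr rfl fun m _ => ?_
    simp only [bar, map_monomial, hr]
  · rw [mem_T, totalDegree_lift]
    refine (totalDegree_finsetSum _ _).trans ?_
    rw [Finset.sup_le_iff]
    intro m hm
    refine (totalDegree_monomial_le _ _).trans ?_
    exact (le_totalDegree hm).trans (mem_T.mp hg)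

lemma bar_mem_T {t : ℕ} {f : MvPolynomial σ R} (hf : v.lift f ∈ T K σ t) : v.bar f ∈ T k σ t := by
  rw [mem_T, totalDegree_lift] at hf
  rw [mem_T]
  exact (v.totalDegree_bar_le f).trans hf

lemma red_le_T {W : Submodule K (MvPolynomial σ K)} {t : ℕ} (hW : W ≤ T K σ t) :
    v.red W ≤ T k σ t := by
  rintro _ ⟨f, hf, rfl⟩
  exact v.bar_mem_T (hW hf)

lemma red_T (t : ℕ) : v.red (T K σ t) = T k σ t := by
  apply le_antisymm
  · exact v.red_le_T le_rfl
  · intro g hg
    obtain ⟨f, rfl, hf⟩ := v.exists_lift hg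
    exact ⟨f, hf, rfl⟩

include v in
lemma finrank_T (t : ℕ) : Module.finrank K (T K σ t) = Module.finrank k (T k σ t) := by
  rw [← (v.finrank_red (T K σ t)).2, red_T]

instance finRed (W : Submodule K (MvPolynomial σ K)) [FiniteDimensional K W] :
    FiniteDimensional k (v.red W) := (v.finrank_red W).1

lemma D_eq (W : Submodule K (MvPolynomial σ K)) (t : ℕ) :
    D W t = Module.finrank k (v.red (W ⊓ T K σ t)) := ((v.finrank_red _).2).symm

/-- semicontinuity of Hilbert functions -/
lemma hq_red_le (W : Submodule K (MvPolynomial σ K)) (t : ℕ) : hq (v.red W) t ≤ hq W t := by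
  have h1 := hq_add_D W t
  have h2 := hq_add_D (v.red W) t
  have h3 : D W t ≤ D (v.red W) t := by
    rw [v.D_eq]
    exact Submodule.finrank_mono (le_inf (v.red_mono inf_le_left) (v.red_le_T inf_le_right))
  rw [v.finrank_T] at h1
  omega

/-- simultaneous primitive scaling of finitely many polynomials -/
lemma exists_primitive_family {ι : Type*} [Fintype ι] (p : ι → Polynomial K)
    (hp : ∃ i, p i ≠ 0) : ∃ (c : K) (q : ι → Polynomial R), c ≠ 0 ∧
      (∀ i, (q i).map v.ι = Polynomial.C c * p i) ∧ (∃ i, (q i).map v.ρ ≠ 0) ∧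
      ∀ i, (q i).natDegree ≤ (p i).natDegree := by
  classical
  obtain ⟨i0, hi0⟩ := hp
  obtain ⟨n0, hn0⟩ : ∃ n, (p i0).coeff n ≠ 0 := by
    by_contra h
    push Not at h
    exact hi0 (Polynomial.ext (by simpa using h))
  let S : Finset K := Finset.univ.biUnion fun i => (Finset.range ((p i).natDegree + 1)).image
    fun n => (p i).coeff n
  have hmem : ∀ i n, (p i).coeff n ≠ 0 → (p i).coeff n ∈ S := by
    intro i n hn
    rw [Finset.mem_biUnion]
    refine ⟨i, Finset.mem_univ _, Finset.mem_image.mpr ⟨n, ?_, rfl⟩⟩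
    rw [Finset.mem_range]
    have := Polynomial.le_natDegree_of_ne_zero hn
    omega
  obtain ⟨a, ha, hdiv⟩ := v.exists_dvd S ⟨_, hmem i0 n0 hn0⟩
  have ha0 : a ≠ 0 := by
    intro h
    obtain ⟨r, hr⟩ := hdiv _ (hmem i0 n0 hn0)
    rw [h, mul_zero] at hr
    exact hn0 hr.symm
  have hex : ∀ i n, ∃ r : R, v.ι r = a⁻¹ * (p i).coeff n := by
    intro i n
    by_cases hn : (p i).coeff n = 0
    · exact ⟨0, by simp [hn]⟩
    · obtain ⟨r, hr⟩ := hdiv _ (hmem i n hn)
      exact ⟨r, by rw [← hr]; field_simp⟩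
  choose r hr using hex
  have hr0 : ∀ i n, (p i).coeff n = 0 → r i n = 0 := by
    intro i n h
    have := hr i n
    rw [h, mul_zero] at this
    exact v.inj (by simpa using this)
  have hcoeff : ∀ i n, (∑ k ∈ Finset.range ((p i).natDegree + 1),
      Polynomial.monomial k (r i k)).coeff n = r i n := by
    intro i n
    rw [Polynomial.finsetSum_coeff]
    simp only [Polynomial.coeff_monomial]
    rw [Finset.sum_ite_eq']
    split_ifs with h
    · rfl
    · rw [Finset.mem_range, not_lt] at h
      exact (hr0 i n (Polynomial.coeff_eq_zero_of_natDegree_lt (by omega))).symm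
  refine ⟨a⁻¹, fun i => ∑ k ∈ Finset.range ((p i).natDegree + 1), Polynomial.monomial k (r i k),
    inv_ne_zero ha0, ?_, ?_, ?_⟩
  · intro i
    ext n
    rw [Polynomial.coeff_map, hcoeff, hr, Polynomial.coeff_C_mul]
  · rw [Finset.mem_biUnion] at ha
    obtain ⟨i, -, hi⟩ := ha
    rw [Finset.mem_image] at hi
    obtain ⟨n, -, hn⟩ := hi
    refine ⟨i, fun h => ?_⟩
    have h1 := congrArg (fun q => Polynomial.coeff q n) h
    simp only [Polynomial.coeff_map, hcoeff, Polynomial.coeff_zero] at h1
    have h2 : r i n = 1 := by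
      apply v.inj
      rw [hr, hn, map_one]
      field_simp
    rw [h2, map_one] at h1
    exact one_ne_zero h1
  · intro i
    refine Polynomial.natDegree_le_iff_coeff_eq_zero.mpr fun n hn => ?_
    rw [hcoeff]
    exact hr0 i n (Polynomial.coeff_eq_zero_of_natDegree_lt hn)

/-- integral version of `jj` -/
noncomputable def jR : Polynomial R →+* MvPolynomial (Fin 3) R :=
  Polynomial.eval₂RingHom C (X 0)

lemma lift_jR (p : Polynomial R) : v.lift (jR p) = jj (p.map v.ι) := by
  unfold jR jj
  rw [Polynomial.coe_eval₂RingHom, Polynomial.hom_eval₂, Polynomial.aeval_def,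
    Polynomial.eval₂_map, lift_X]
  congr 1
  ext r
  simp

lemma bar_jR (p : Polynomial R) : v.bar (jR p) = jj (p.map v.ρ) := by
  unfold jR jj
  rw [Polynomial.coe_eval₂RingHom, Polynomial.hom_eval₂, Polynomial.aeval_def,
    Polynomial.eval₂_map, bar_X]
  congr 1
  ext r
  simp

end Red

end Pool.Agent.Work.MP_c21e2e_ag
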