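import Pool.Agent.Work.MP_c21e2e_ag.Core2

set_option linter.unusedSectionVars false
set_option linter.unusedSimpArgs false
set_option linter.style.setOption false

/-!
# Lifts of the curve: primes, slopes and the unmixedness of the lift
-/

namespace Pool.Agent.Work.MP_c21e2e_ag

open MvPolynomial

lemma succ_le_hq {F : Type*} [Field F] {Q : Ideal (MvPolynomial (Fin 3) F)}
    (h : ∀ p : Polynomial F, jj p ∈ Q → p = 0) (t : ℕ) : t + 1 ≤ hq (Q.restrictScalars F) t := by
  have h1 := card_mul_le (fun _ : Unit => (1 : MvPolynomial (Fin 3) F)) (T F (Fin 3) t)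
    (Q.restrictScalars F ⊓ T F (Fin 3) t) t (by
      intro _ p hp
      rw [one_mul]
      exact jj_mem hp) inf_le_right (by
      intro p hp i
      apply h
      have := hp.1
      simpa using this)
  have h2 := hq_add_D (Q.restrictScalars F) t
  unfold D at h2
  simp only [Fintype.card_unit, one_mul] at h1
  omega

lemma one_le_slope {F : Type*} [Field F] {Q : Ideal (MvPolynomial (Fin 3) F)} {γ : ℕ}
    (hγ : Slope (Q.restrictScalars F) γ) (h : ∀ p : Polynomial F, jj p ∈ Q → p = 0) : 1 ≤ γ := by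
  obtain ⟨c, n, hn⟩ := hγ
  refine slope_le_of (c := 1) (d := c) n fun t ht => ?_
  have h1 := succ_le_hq h t
  have h2 := hn t ht
  rw [← h2]
  push_cast
  have : ((t + 1 : ℕ) : ℤ) ≤ hq (Q.restrictScalars F) t := by exact_mod_cast h1
  push_cast at this
  linarith

/-- strictly larger primes have bounded Hilbert function -/
lemma slope_zero_of_lt {F : Type*} [Field F] {P Q : Ideal (MvPolynomial (Fin 3) F)} [P.IsPrime]
    {γ δ : ℕ} (hγ : Slope (P.restrictScalars F) γ) (hδ : Slope (Q.restrictScalars F) δ)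
    (hPQ : P < Q) : δ = 0 := by
  obtain ⟨hle, f, hfQ, hfP⟩ := SetLike.lt_iff_le_and_exists.mp hPQ
  set e := f.totalDegree
  obtain ⟨c, n, hn⟩ := hγ
  obtain ⟨c', n', hn'⟩ := hδ
  suffices δ ≤ 0 by omega
  refine slope_le_of (c := δ * e + c') (d := γ * e) (max n n') fun t ht => ?_
  have h := sum_hq_le_hq (ι := Unit) (fun _ => P.restrictScalars F) (fun _ => f)
    (P.restrictScalars F) (Q.restrictScalars F) hle t e (fun _ => mem_T.mpr le_rfl)
    (fun _ g => Q.mul_mem_right g hfQ) (by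
      intro g hg i
      have hg' : f * g i ∈ P := by simpa using hg
      exact (‹P.IsPrime›.mem_or_mem hg').resolve_left hfP)
  rw [Fintype.sum_unique] at h
  have h1 := hn t (le_trans (le_max_left _ _) ht)
  have h2 := hn (t + e) (by have := le_max_left n n'; omega)
  have h3 := hn' (t + e) (by have := le_max_right n n'; omega)
  have h4 : ((hq (P.restrictScalars F) t : ℕ) : ℤ) + hq (Q.restrictScalars F) (t + e) ≤
    hq (P.restrictScalars F) (t + e) := by exact_mod_cast h
  rw [h1, h2, h3] at h4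
  push_cast at h4 ⊢
  linarith

namespace LiftData

variable {R K k nA nB : Type*} [CommRing R] [Field K] [Field k] {v : Red R K k}
  [Fintype nA] [Fintype nB] [DecidableEq nA] [DecidableEq nB]
  {X : Conf nA nB k} {N : ℕ} (Z : LiftData v X N)

lemma jj_notMem_minimal {P : Ideal (MvPolynomial (Fin 3) K)} (hP : P ∈ Z.I.minimalPrimes)
    (p : Polynomial K) (hp : jj p ∈ P) : p = 0 := by
  have : P.IsPrime := hP.1.1
  by_contra h0
  obtain ⟨n, g, hg, hgn⟩ := exists_pow_mem_locI hP hp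
  rw [← map_pow] at hgn
  exact hg (hP.1.2 (Z.torsion_free (pow_ne_zero n h0) hgn))

lemma jj_notMem_assoc {Q : Ideal (MvPolynomial (Fin 3) K)} (hQ : Q.IsPrime)
    (hy : ∃ y, ∀ g, g ∈ Q ↔ g * y ∈ Z.I) (p : Polynomial K) (hp : jj p ∈ Q) : p = 0 := by
  obtain ⟨y, hy⟩ := hy
  by_contra h0
  have h1 := (hy _).mp hp
  rw [mul_comm] at h1
  have h2 := Z.torsion_free h0 h1
  exact hQ.ne_top ((Ideal.eq_top_iff_one _).mpr ((hy 1).mpr (by rwa [one_mul])))

/-- there are no embedded primes -/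
lemma assoc_minimal {Q : Ideal (MvPolynomial (Fin 3) K)} (hQ : Q.IsPrime)
    (hy : ∃ y, ∀ g, g ∈ Q ↔ g * y ∈ Z.I) : Q ∈ Z.I.minimalPrimes := by
  have hIQ : Z.I ≤ Q := by
    obtain ⟨y, hy⟩ := hy
    intro g hg
    exact (hy g).mpr (Z.I.mul_mem_right _ hg)
  obtain ⟨P, hP, hPQ⟩ := Ideal.exists_minimalPrimes_le hIQ
  have hPprime : P.IsPrime := hP.1.1
  rcases eq_or_lt_of_le hPQ with rfl | hlt
  · exact hP
  · exfalso
    obtain ⟨γ, hγ⟩ := Z.exists_slope hP.1.2
    obtain ⟨δ, hδ⟩ := Z.exists_slope hIQ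
    have h1 := slope_zero_of_lt hγ hδ hlt
    have h2 := one_le_slope hδ (Z.jj_notMem_assoc hQ hy)
    omega

/-- the minimal primes of the lift -/
abbrev Pr := {P : Ideal (MvPolynomial (Fin 3) K) // P ∈ Z.I.minimalPrimes}

instance (P : Z.Pr) : P.1.IsPrime := P.2.1.1

noncomputable instance : Fintype Z.Pr :=
  (Ideal.finite_minimalPrimes_of_isNoetherianRing _ Z.I).fintype

noncomputable instance : DecidableEq Z.Pr := Classical.decEq _

lemma I_le (P : Z.Pr) : Z.I ≤ P.1 := P.2.1.2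

/-- the lift is the intersection of its components at the minimal primes -/
lemma mem_I_of_forall {f : MvPolynomial (Fin 3) K}
    (h : ∀ P : Z.Pr, f ∈ locI Z.I P.1) : f ∈ Z.I := by
  by_contra hf
  obtain ⟨Q, hQ, hy, hQf⟩ := exists_assoc Z.I hf
  obtain ⟨g, hg, hgf⟩ := h ⟨Q, Z.assoc_minimal hQ hy⟩
  exact hg (hQf g hgf)

/-- slope of a minimal prime -/
noncomputable def γ (P : Z.Pr) : ℕ := (Z.exists_slope (Z.I_le P)).choose

lemma γ_spec (P : Z.Pr) : Slope (P.1.restrictScalars K) (Z.γ P) :=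
  (Z.exists_slope (Z.I_le P)).choose_spec

lemma one_le_γ (P : Z.Pr) : 1 ≤ Z.γ P := one_le_slope (Z.γ_spec P) (Z.jj_notMem_minimal P.2)

lemma Pr_le {P Q : Z.Pr} (h : P.1 ≤ Q.1) : P = Q :=
  Subtype.ext (le_antisymm h (Q.2.2 P.2.1 h))

/-- separating elements -/
lemma exists_e (P : Z.Pr) : ∃ e, e ∉ P.1 ∧ ∀ P' : Z.Pr, P' ≠ P → e ∈ locI Z.I P'.1 := by
  have hex : ∀ P' : Z.Pr, ∃ u, u ∉ P.1 ∧ (P' ≠ P → u ∈ locI Z.I P'.1) := by
    intro P'
    by_cases h : P' = P
    · exact ⟨1, fun h1 => P.2.1.1.ne_top ((Ideal.eq_top_iff_one _).mpr h1), fun h' => absurd h h'⟩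
    · obtain ⟨u, hu, hu'⟩ := SetLike.not_le_iff_exists.mp (fun hle => h (Z.Pr_le hle))
      obtain ⟨n, hn⟩ := exists_pow_mem_locI P'.2 hu
      exact ⟨u ^ n, fun h1 => hu' (P.2.1.1.mem_of_pow_mem n h1), fun _ => hn⟩
  choose u hu hu' using hex
  refine ⟨∏ P', u P', ?_, ?_⟩
  · intro h
    rw [Ideal.IsPrime.prod_mem_iff] at h
    obtain ⟨P', -, h⟩ := h
    exact hu P' h
  · intro P' hP'
    rw [← Finset.mul_prod_erase _ _ (Finset.mem_univ P')]
    exact Ideal.mul_mem_right _ _ (hu' P' hP')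

/-- the radical -/
noncomputable def J : Ideal (MvPolynomial (Fin 3) K) := Z.I.radical

lemma mem_J {f} : f ∈ Z.J ↔ ∀ P : Z.Pr, f ∈ P.1 := by
  unfold J
  rw [← Ideal.sInf_minimalPrimes, Submodule.mem_sInf]
  constructor
  · intro h P; exact h P.1 P.2
  · intro h P hP; exact h ⟨P, hP⟩

lemma I_le_J : Z.I ≤ Z.J := Ideal.le_radical

noncomputable def γJ : ℕ := (Z.exists_slope Z.I_le_J).choose

lemma γJ_spec : Slope (Z.J.restrictScalars K) Z.γJ := (Z.exists_slope Z.I_le_J).choose_spec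

end LiftData

/-- from an inequality between sums of shifted Hilbert functions to one between slopes -/
lemma slope_sum_le {F : Type*} [Field F] {σ : Type*} [Finite σ] {ι : Type*} [Fintype ι]
    {P : ι → Submodule F (MvPolynomial σ F)}
    {V W : Submodule F (MvPolynomial σ F)} {γ : ι → ℕ} {δ ε : ℕ} (hγ : ∀ i, Slope (P i) (γ i))
    (hδ : Slope V δ) (hε : Slope W ε) (d e : ℕ)
    (h : ∀ t, ∑ i, hq (P i) t + hq V (t + d) ≤ hq W (t + e)) : ∑ i, γ i + δ ≤ ε := by
  choose c n hn using hγ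
  obtain ⟨c', n', hn'⟩ := hδ
  obtain ⟨c'', n'', hn''⟩ := hε
  refine slope_le_of (c := ∑ i, c i + c' + δ * d) (d := c'' + ε * e) (∑ i, n i + n' + n'')
    fun t ht => ?_
  have h1 : ∀ i, (hq (P i) t : ℤ) = γ i * t + c i := fun i => hn i t (by
    have := Finset.single_le_sum (f := n) (fun _ _ => Nat.zero_le _) (Finset.mem_univ i)
    omega)
  have h2 := hn' (t + d) (by omega)
  have h3 := hn'' (t + e) (by omega)
  have h4 : (∑ i, (hq (P i) t : ℤ)) + hq V (t + d) ≤ hq W (t + e) := by exact_mod_cast h t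
  rw [Finset.sum_congr rfl (fun i _ => h1 i), h2, h3, Finset.sum_add_distrib,
    ← Finset.sum_mul] at h4
  push_cast at h4 ⊢
  linarith

lemma slope_le_sum {F : Type*} [Field F] {σ : Type*} [Finite σ] {ι : Type*} [Fintype ι]
    {P : ι → Submodule F (MvPolynomial σ F)}
    {W : Submodule F (MvPolynomial σ F)} {γ : ι → ℕ} {ε : ℕ} (hγ : ∀ i, Slope (P i) (γ i))
    (hε : Slope W ε) (h : ∀ t, hq W t ≤ ∑ i, hq (P i) t) : ε ≤ ∑ i, γ i := by
  choose c n hn using hγ
  obtain ⟨c'', n'', hn''⟩ := hε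
  refine slope_le_of (c := c'') (d := ∑ i, c i) (∑ i, n i + n'')
    fun t ht => ?_
  have h1 : ∀ i, (hq (P i) t : ℤ) = γ i * t + c i := fun i => hn i t (by
    have := Finset.single_le_sum (f := n) (fun _ _ => Nat.zero_le _) (Finset.mem_univ i)
    omega)
  have h3 := hn'' t (by omega)
  have h4 : (hq W t : ℤ) ≤ (∑ i, (hq (P i) t : ℤ)) := by exact_mod_cast h t
  rw [Finset.sum_congr rfl (fun i _ => h1 i), h3, Finset.sum_add_distrib,
    ← Finset.sum_mul] at h4
  push_cast at h4 ⊢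
  linarith

lemma slope_top {F : Type*} [Field F] {σ : Type*} [Finite σ] :
    Slope (⊤ : Submodule F (MvPolynomial σ F)) 0 := by
  refine ⟨0, 0, fun t _ => ?_⟩
  have h := hq_add_D (⊤ : Submodule F (MvPolynomial σ F)) t
  have h2 : D (⊤ : Submodule F (MvPolynomial σ F)) t = Module.finrank F (T F σ t) := by
    unfold D; rw [top_inf_eq]
  have : hq (⊤ : Submodule F (MvPolynomial σ F)) t = 0 := by omega
  rw [this]; simp

namespace LiftData

variable {R K k nA nB : Type*} [CommRing R] [Field K] [Field k] {v : Red R K k}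
  [Fintype nA] [Fintype nB] [DecidableEq nA] [DecidableEq nB]
  {X : Conf nA nB k} {N : ℕ} (Z : LiftData v X N)

lemma hq_J_le (t : ℕ) : hq (Z.J.restrictScalars K) t ≤ ∑ P : Z.Pr, hq (P.1.restrictScalars K) t := by
  have h := hq_iInf_le (fun P : Z.Pr => P.1.restrictScalars K) t
  have h0 : (⨅ P : Z.Pr, P.1.restrictScalars K) = Z.J.restrictScalars K := by
    ext f
    rw [Submodule.mem_iInf, Submodule.restrictScalars_mem, mem_J]
    rfl
  rwa [h0] at h

lemma sum_γ : ∑ P, Z.γ P = Z.γJ := by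
  apply le_antisymm
  · choose e he he' using Z.exists_e
    have := slope_sum_le (P := fun P : Z.Pr => P.1.restrictScalars K) (V := ⊤)
      (W := Z.J.restrictScalars K) Z.γ_spec slope_top Z.γJ_spec
      (∑ P, (e P).totalDegree) (∑ P, (e P).totalDegree) (fun t => by
        refine sum_hq_le_hq _ e _ _ le_top t _ ?_ (fun _ _ => Submodule.mem_top) ?_
        · intro P
          rw [mem_T]
          exact Finset.single_le_sum (f := fun P => (e P).totalDegree) (fun _ _ => Nat.zero_le _)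
            (Finset.mem_univ P)
        · intro g hg P
          have h1 : ∑ P, e P * g P ∈ P.1 := (Z.mem_J.mp hg) P
          rw [← Finset.add_sum_erase _ _ (Finset.mem_univ P)] at h1
          have h2 : ∑ x ∈ Finset.univ.erase P, e x * g x ∈ P.1 :=
            Ideal.sum_mem _ fun x hx => Ideal.mul_mem_right _ _
              (locI_le (Z.I_le P) (he' x P (Finset.ne_of_mem_erase hx).symm))
          exact (P.2.1.1.mem_or_mem ((Ideal.add_mem_iff_left _ h2).mp h1)).resolve_left (he P))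
    simpa using this
  · exact slope_le_sum Z.γ_spec Z.γJ_spec Z.hq_J_le

lemma card_Pr_le : Fintype.card Z.Pr ≤ Z.γJ := by
  rw [← Z.sum_γ]
  calc Fintype.card Z.Pr = ∑ _P : Z.Pr, 1 := by simp
    _ ≤ _ := Finset.sum_le_sum fun P _ => Z.one_le_γ P

/-- the reduced lift has small Hilbert function -/
lemma hq_J_le' [IsAlgClosed K] (t : ℕ) : hq (Z.J.restrictScalars K) t ≤ Z.γJ * t + Z.γJ := by
  refine (Z.hq_J_le t).trans ?_
  calc _ ≤ ∑ P : Z.Pr, (Z.γ P * t + 1) :=
        Finset.sum_le_sum fun P _ => prime_bound (Z.γ_spec P) (Z.one_le_γ P) t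
    _ = Z.γJ * t + Fintype.card Z.Pr := by
        rw [Finset.sum_add_distrib, ← Finset.sum_mul, Z.sum_γ]; simp
    _ ≤ _ := Nat.add_le_add_left Z.card_Pr_le _

/-- degree of the curve -/
def deg (nA nB : Type*) [Fintype nA] [Fintype nB] : ℕ := 2 * Fintype.card nA + Fintype.card nB

lemma slope_I : Slope Z.W (deg nA nB) := by
  obtain ⟨γ, hγ⟩ := Z.exists_slope le_rfl
  have hγ' := hγ
  obtain ⟨c, n, hn⟩ := hγ
  suffices γ = deg nA nB by rwa [← this]
  apply le_antisymm
  · refine slope_le_of (c := c) (d := Fintype.card nA * (1 + N) + Fintype.card nB) (n + Z.t0)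
      fun t ht => ?_
    rw [← hn t (by omega), Z.hq_eq (by omega)]
    have h := X.hq_I0_le N t
    have h' : ((hq ((X.I0 N).restrictScalars k) t : ℕ) : ℤ) ≤
      ((Fintype.card nA * (2 * t + 1 + N) + Fintype.card nB * (t + 1) : ℕ) : ℤ) := by
      exact_mod_cast h
    refine h'.trans (le_of_eq ?_)
    unfold deg
    push_cast
    ring
  · refine slope_le_of (c := 0) (d := c + γ * (2 * Fintype.card (nA ⊕ nB)))
      (n + Z.t0 + N) fun t ht => ?_
    have h := X.le_hq_I0' N t (by omega)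
    rw [← Z.hq_eq (by omega)] at h
    have h2 := hn (t + 2 * Fintype.card (nA ⊕ nB)) (by omega)
    have h3 : ((Fintype.card nA * (2 * t + 1 + N) + Fintype.card nB * (t + 1) : ℕ) : ℤ) ≤
      hq Z.W (t + 2 * Fintype.card (nA ⊕ nB)) := by exact_mod_cast h
    rw [h2] at h3
    have h4 : (((deg nA nB : ℕ) : ℤ) * t + 0) ≤
      ((Fintype.card nA * (2 * t + 1 + N) + Fintype.card nB * (t + 1) : ℕ) : ℤ) := by
      unfold deg
      push_cast
      have a1 : (0 : ℤ) ≤ Fintype.card nA := by positivity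
      have a2 : (0 : ℤ) ≤ Fintype.card nB := by positivity
      have a3 : (0 : ℤ) ≤ N := by positivity
      nlinarith [mul_nonneg a1 a3]
    push_cast at h3 h4 ⊢
    linarith

end LiftData

end Pool.Agent.Work.MP_c21e2e_ag
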