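import Pool.Agent.Work.MP_c21e2e_ag.Core3

set_option linter.unusedSectionVars false
set_option linter.unusedSimpArgs false
set_option linter.style.setOption false

/-!
# Lifts of the curve: the nilradical of the lift sees all double lines
-/

namespace Pool.Agent.Work.MP_c21e2e_ag

open MvPolynomial

namespace LiftData

variable {R K k nA nB : Type*} [CommRing R] [Field K] [Field k] {v : Red R K k}
  [Fintype nA] [Fintype nB] [DecidableEq nA] [DecidableEq nB]
  {X : Conf nA nB k} {N : ℕ} (Z : LiftData v X N)

/-- the double lines on which the reduction of the radical is not contained in the curve -/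
def Hit (a : nA) : Prop := ∃ f : MvPolynomial (Fin 3) R, v.lift f ∈ Z.J ∧ v.bar f ∉ dbl (X.M a) N

lemma bar_mem_ln {f : MvPolynomial (Fin 3) R} (hf : v.lift f ∈ Z.J) (c : nA ⊕ nB) :
    v.bar f ∈ ln (X.l c) := by
  obtain ⟨n, hn⟩ := hf
  rw [← map_pow] at hn
  have h1 := X.cmp_le_ln N c (X.I0_le N c (Z.bar_mem hn))
  rw [map_pow] at h1
  exact (inferInstance : (ln (X.l c)).IsPrime).mem_of_pow_mem n h1

open Classical in
/-- the set of hit lines -/
noncomputable def hits : Finset nA := Finset.univ.filter Z.Hit

lemma mem_hits {a : nA} : a ∈ Z.hits ↔ Z.Hit a := by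
  classical
  simp [hits]

lemma hits_add_le : Z.hits.card + Z.γJ ≤ deg nA nB := by
  classical
  have hH : ∀ a : Z.hits, Z.Hit a := fun a => Z.mem_hits.mp a.2
  choose f hfJ hfd using hH
  choose e heT he he' using fun a : Z.hits => X.exists_separator N (Sum.inl a.1)
  choose e' he'' heT' using fun a => v.exists_lift (heT a)
  set d := ∑ a, (e' a * f a).totalDegree with hd
  have key : ∀ t, Z.hits.card * (t + 1) + hq (Z.J.restrictScalars K) (t + d) ≤
      hq Z.W (t + d) := by
    intro t
    have h1 := card_mul_le (fun a : Z.hits => v.lift (e' a * f a))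
      (Z.J.restrictScalars K ⊓ T K (Fin 3) (t + d)) (Z.W ⊓ T K (Fin 3) (t + d)) t (by
        intro a p hp
        refine ⟨?_, ?_⟩
        · exact Ideal.mul_mem_right _ _ (by
            rw [map_mul]; exact Ideal.mul_mem_left _ _ (hfJ a))
        · have h2 : v.lift (e' a * f a) ∈ T K (Fin 3) d := by
            rw [mem_T, v.totalDegree_lift, hd]
            exact Finset.single_le_sum (f := fun a => (e' a * f a).totalDegree)
              (fun _ _ => Nat.zero_le _) (Finset.mem_univ a)
          exact mul_mem_T h2 (jj_mem hp) (by omega))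
      (inf_le_inf_right _ (fun g hg => Z.I_le_J hg)) (by
        intro p hp
        by_contra hno
        push Not at hno
        obtain ⟨c, q, hc, hq, ⟨a, ha⟩, -⟩ := v.exists_primitive_family p hno
        have h2 : v.lift (∑ a, e' a * f a * Red.jR (q a)) ∈ Z.I := by
          rw [map_sum]
          have h3 : ∑ a, v.lift (e' a * f a * Red.jR (q a)) =
              jj (Polynomial.C c) * ∑ a, v.lift (e' a * f a) * jj (p a) := by
            rw [Finset.mul_sum]
            refine Finset.sum_congr rfl fun a _ => ?_
            simp only [map_mul, v.lift_jR, hq]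
            ring
          rw [h3]
          exact Ideal.mul_mem_left _ _ hp.1
        have h3 := X.I0_le N (Sum.inl a.1) (Z.bar_mem h2)
        rw [map_sum, ← Finset.add_sum_erase _ _ (Finset.mem_univ a)] at h3
        have h4 : ∑ x ∈ Finset.univ.erase a, v.bar (e' x * f x * Red.jR (q x)) ∈
            X.cmp N (Sum.inl a.1) := by
          refine Ideal.sum_mem _ fun x hx => ?_
          rw [map_mul, map_mul, he'']
          refine Ideal.mul_mem_right _ _ (Ideal.mul_mem_right _ _ (he' x _ ?_))
          intro h
          exact (Finset.ne_of_mem_erase hx) (Subtype.ext (Sum.inl_injective h)).symm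
        have h5 := (Ideal.add_mem_iff_left _ h4).mp h3
        rw [map_mul, map_mul, he'', v.bar_jR, mul_assoc] at h5
        have h6 := X.mem_cmp_of_mul N (he a) h5
        rw [mul_comm] at h6
        refine hfd a (mem_dbl_of_mul ?_ h6)
        rw [mem_ln, psi_jj]
        exact ha)
    have h2 := hq_add_D (Z.J.restrictScalars K) (t + d)
    have h3 := hq_add_D Z.W (t + d)
    unfold D at h2 h3
    rw [Fintype.card_coe] at h1
    omega
  obtain ⟨c, n, hn⟩ := Z.γJ_spec
  obtain ⟨c', n', hn'⟩ := Z.slope_I
  refine slope_le_of (c := Z.hits.card + Z.γJ * d + c) (d := deg nA nB * d + c') (n + n')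
    fun t ht => ?_
  have h1 := hn (t + d) (by omega)
  have h2 := hn' (t + d) (by omega)
  have h3 : ((Z.hits.card * (t + 1) : ℕ) : ℤ) + hq (Z.J.restrictScalars K) (t + d) ≤
      hq Z.W (t + d) := by exact_mod_cast key t
  rw [h1, h2] at h3
  push_cast at h3 ⊢
  linarith

/-- upper bound for the dimension of the nilradical -/
lemma hq_W_le (t : ℕ) (ht : Z.t0 ≤ t) :
    hq Z.W t ≤ hq (Z.J.restrictScalars K) t + Z.hits.card * (t + N) := by
  classical
  have h1 := hq_add_D (Z.J.restrictScalars K) t
  have h2 := hq_add_D Z.W t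
  suffices D (Z.J.restrictScalars K) t ≤ D Z.W t + Z.hits.card * (t + N) by omega
  rw [v.D_eq, v.D_eq, Z.h t ht]
  set V := v.red (Z.J.restrictScalars K ⊓ T K (Fin 3) t) with hV
  have hdel : ∀ g : V, ∀ a, del (X.M a) N g ∈ Polynomial.degreeLT k (t + N) := by
    intro g a
    exact del_mem (v.red_le_T inf_le_right g.2)
  let Φ : V →ₗ[k] (Z.hits → Polynomial.degreeLT k (t + N)) :=
    LinearMap.pi fun a => LinearMap.codRestrict _ ((del (X.M a) N).domRestrict V)
      (fun g => hdel g a)
  have h3 := LinearMap.finrank_range_add_finrank_ker Φ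
  have h4 : Module.finrank k (LinearMap.range Φ) ≤ Z.hits.card * (t + N) := by
    refine (Submodule.finrank_le _).trans ?_
    rw [Module.finrank_pi_fintype]
    simp [finrank_degreeLT]
  have h5 : Module.finrank k (LinearMap.ker Φ) ≤
      Module.finrank k ↥((X.I0 N).restrictScalars k ⊓ T k (Fin 3) t) := by
    rw [(Submodule.equivMapOfInjective V.subtype V.injective_subtype
      (LinearMap.ker Φ)).finrank_eq]
    apply Submodule.finrank_mono
    rintro _ ⟨g, hg, rfl⟩
    refine ⟨?_, v.red_le_T inf_le_right g.2⟩
    have hg' : Φ g = 0 := hg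
    obtain ⟨f, hf, hfg⟩ := g.2
    change (g : MvPolynomial (Fin 3) k) ∈ X.I0 N
    rw [X.mem_I0]
    rintro (a | j)
    · by_cases ha : a ∈ Z.hits
      · refine ⟨?_, ?_⟩
        · have := Z.bar_mem_ln hf.1 (Sum.inl a)
          rw [hfg] at this
          exact mem_ln.mp this
        · have := congrFun hg' ⟨a, ha⟩
          exact congrArg Subtype.val this
      · rw [Z.mem_hits] at ha
        unfold Hit at ha
        push Not at ha
        have := ha f hf.1
        rw [hfg] at this
        exact this
    · have := Z.bar_mem_ln hf.1 (Sum.inr j)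
      rw [hfg] at this
      exact this
  omega

variable [IsAlgClosed K]

/-- all double lines are hit when `N` is large -/
theorem hits_eq (hN : deg nA nB * (2 * Fintype.card (nA ⊕ nB) + 1) < N) :
    Z.hits.card = Fintype.card nA := by
  have hle : Z.hits.card ≤ Fintype.card nA := Finset.card_le_univ _
  by_contra hne
  have hlt : Z.hits.card + 1 ≤ Fintype.card nA := by omega
  set c := 2 * Fintype.card (nA ⊕ nB) with hc
  set t := N + Z.t0
  have h1 := X.le_hq_I0' N t (by omega)
  rw [← Z.hq_eq (by omega)] at h1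
  have h2 := Z.hq_W_le (t + c) (by omega)
  have h3 := Z.hq_J_le' (t + c)
  have h4 := Z.hits_add_le
  have h5 : Fintype.card nA * (2 * t + 1 + N) + Fintype.card nB * (t + 1) ≤
      Z.γJ * (t + c) + Z.γJ + Z.hits.card * (t + c + N) :=
    h1.trans (h2.trans (Nat.add_le_add_right h3 _))
  have h6 : Z.γJ * (t + c) + Z.γJ + Z.hits.card * (t + c + N) ≤
      deg nA nB * (t + c + 1) + Z.hits.card * N := by
    nlinarith
  have h7 : deg nA nB * t + Fintype.card nA * N ≤ deg nA nB * (t + c + 1) + Z.hits.card * N := by
    refine le_trans ?_ (h5.trans h6)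
    unfold deg
    nlinarith
  have h8 : Fintype.card nA * N ≤ deg nA nB * (c + 1) + Z.hits.card * N := by nlinarith
  have h9 : Fintype.card nA * N ≥ Z.hits.card * N + N := by nlinarith
  omega

theorem γJ_eq (hN : deg nA nB * (2 * Fintype.card (nA ⊕ nB) + 1) < N) :
    Z.γJ = Fintype.card nA + Fintype.card nB := by
  have h1 := Z.hits_add_le
  have h2 := Z.hits_eq hN
  apply le_antisymm
  · unfold deg at h1; omega
  · suffices deg nA nB ≤ Z.γJ + Z.hits.card by unfold deg at this; omega
    obtain ⟨c, n, hn⟩ := Z.slope_I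
    refine slope_le_of (c := c) (d := Z.γJ + Z.hits.card * N) (n + Z.t0) fun t ht => ?_
    rw [← hn t (by omega)]
    have h3 := (Z.hq_W_le t (by omega)).trans (Nat.add_le_add_right (Z.hq_J_le' t) _)
    have h4 : (hq Z.W t : ℤ) ≤ ((Z.γJ * t + Z.γJ + Z.hits.card * (t + N) : ℕ) : ℤ) := by
      exact_mod_cast h3
    push_cast at h4 ⊢
    linarith

end LiftData

end Pool.Agent.Work.MP_c21e2e_ag
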