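import Pool.Agent.Work.MP_c21e2e_ag.Core4

set_option linter.unusedSectionVars false
set_option linter.unusedSimpArgs false
set_option linter.style.setOption false

/-!
# Lifts of the curve: classification of the minimal primes
-/

namespace Pool.Agent.Work.MP_c21e2e_ag

open MvPolynomial

section linear

/-- polynomials of degree at most one -/
lemma eq_linear {R : Type*} [CommRing R] {f : MvPolynomial (Fin 3) R} (hf : f.totalDegree ≤ 1) :
    f = C (coeff 0 f) + ∑ i, C (coeff (Finsupp.single i 1) f) * X i := by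
  ext m
  rw [coeff_add, coeff_sum, coeff_C]
  simp only [coeff_C_mul, coeff_X]
  by_cases hm : m = 0
  · subst hm
    simp
  · rw [if_neg (Ne.symm hm), zero_add]
    by_cases h1 : ∃ i, m = Finsupp.single i 1
    · obtain ⟨i, rfl⟩ := h1
      rw [Finset.sum_eq_single i]
      · simp
      · intro j _ hji
        rw [if_neg, mul_zero]
        intro h
        exact hji (Finsupp.single_left_injective one_ne_zero h)
      · simp
    · rw [Finset.sum_eq_zero]
      · by_contra hc
        have h2 : (m.sum fun _ e => e) ≤ 1 :=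
          (le_totalDegree (mem_support_iff.mpr hc)).trans hf
        rw [Finsupp.sum_fintype _ _ (fun _ => rfl)] at h2
        obtain ⟨i, hi⟩ := Finsupp.ne_iff.mp hm
        rw [Finsupp.zero_apply] at hi
        apply h1
        refine ⟨i, ?_⟩
        rw [← Finset.add_sum_erase _ _ (Finset.mem_univ i)] at h2
        have h3 : ∑ x ∈ Finset.univ.erase i, m x = 0 := by omega
        rw [Finset.sum_eq_zero_iff] at h3
        ext j
        by_cases hji : j = i
        · subst hji; rw [Finsupp.single_eq_same]; omega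
        · rw [Finsupp.single_eq_of_ne hji]
          exact h3 j (Finset.mem_erase.mpr ⟨hji, Finset.mem_univ _⟩)
      · intro i _
        rw [if_neg, mul_zero]
        exact fun h => h1 ⟨i, h.symm⟩

variable {F : Type*} [Field F]

/-- every polynomial is congruent to its restriction modulo the equations of the line -/
lemma sub_jj_mem (M : Mat F) (f : MvPolynomial (Fin 3) F) :
    f - jj (psi M f) ∈ Ideal.span {eu M, ev M} := by
  rw [← Ideal.Quotient.eq_zero_iff_mem, map_sub, sub_eq_zero]
  have h : (Ideal.Quotient.mkₐ F (Ideal.span {eu M, ev M})) =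
      ((Ideal.Quotient.mkₐ F (Ideal.span {eu M, ev M})).comp (jj (F := F))).comp (psi M) := by
    apply MvPolynomial.algHom_ext
    intro i
    simp only [AlgHom.comp_apply, Ideal.Quotient.mkₐ_eq_mk]
    rw [← sub_eq_zero, ← map_sub, Ideal.Quotient.eq_zero_iff_mem]
    fin_cases i
    · simp [jj]
    · have : (X 1 : MvPolynomial (Fin 3) F) - jj (psi M (X 1)) = eu M := by
        rw [psi_X1]
        simp only [jj, map_add, map_mul, Polynomial.aeval_C, Polynomial.aeval_X, eu,
          MvPolynomial.algebraMap_eq]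
        ring
      simp only [Fin.mk_one, Fin.isValue]
      rw [this]
      exact Ideal.subset_span (by simp)
    · have : (X 2 : MvPolynomial (Fin 3) F) - jj (psi M (X 2)) = ev M := by
        rw [psi_X2]
        simp only [jj, map_add, map_mul, Polynomial.aeval_C, Polynomial.aeval_X, ev,
          MvPolynomial.algebraMap_eq]
        ring
      simp only [Fin.reduceFinMk]
      rw [this]
      exact Ideal.subset_span (by simp)
  exact congrArg (fun φ => φ f) h

lemma ln_le_of_mem {M : Mat F} {P : Ideal (MvPolynomial (Fin 3) F)} (h1 : eu M ∈ P)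
    (h2 : ev M ∈ P) : ln M ≤ P := by
  intro f hf
  have h3 := sub_jj_mem M f
  rw [mem_ln.mp hf, map_zero, sub_zero] at h3
  refine (Ideal.span_le.mpr ?_) h3
  intro g hg
  rcases hg with rfl | rfl
  · exact h1
  · exact h2

lemma ln_eq_of_mem {M : Mat F} {P : Ideal (MvPolynomial (Fin 3) F)} (h1 : eu M ∈ P)
    (h2 : ev M ∈ P) (hP : ∀ p : Polynomial F, jj p ∈ P → p = 0) : P = ln M := by
  refine le_antisymm (fun f hf => ?_) (ln_le_of_mem h1 h2)
  rw [mem_ln]
  apply hP
  have h3 : f - jj (psi M f) ∈ P := by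
    apply ln_le_of_mem h1 h2
    rw [mem_ln, map_sub, psi_jj, sub_self]
  have h4 : jj (psi M f) = f - (f - jj (psi M f)) := by ring
  rw [h4]
  exact P.sub_mem hf h3

lemma eq_of_ln_le {M M' : Mat F} (h1 : eu M ∈ ln M') (h2 : ev M ∈ ln M') : M = M' := by
  by_contra hne
  rw [mem_ln, psi_eu] at h1
  rw [mem_ln, psi_ev] at h2
  have h3 := congrArg (fun p => Polynomial.coeff p 0) h1
  have h4 := congrArg (fun p => Polynomial.coeff p 1) h1
  have h5 := congrArg (fun p => Polynomial.coeff p 0) h2
  have h6 := congrArg (fun p => Polynomial.coeff p 1) h2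
  simp [Polynomial.coeff_C, sub_eq_zero] at h3 h4 h5 h6
  apply hne
  ext i j
  fin_cases i <;> fin_cases j <;> simp_all

end linear

variable {R K k nA nB : Type*} [CommRing R] [Field K] [Field k] {v : Red R K k}

/-- a prime of slope one reducing into a line is a line lifting it -/
lemma exists_line [IsAlgClosed K] {P : Ideal (MvPolynomial (Fin 3) K)} [P.IsPrime]
    (hP : Slope (P.restrictScalars K) 1) (hj : ∀ p : Polynomial K, jj p ∈ P → p = 0)
    {M : Mat k} (hM : ∀ f : MvPolynomial (Fin 3) R, v.lift f ∈ P → v.bar f ∈ ln M) :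
    ∃ M' : Mat R, M'.map v.ρ = M ∧ P = ln (M'.map v.ι) := by
  have h1 := prime_bound hP le_rfl 1
  have h2 := hq_add_D (P.restrictScalars K) 1
  have h3 := hq_add_D ((ln M).restrictScalars k) 1
  rw [hq_ln] at h3
  rw [v.finrank_T] at h2
  have h4 : D ((ln M).restrictScalars k) 1 ≤ D (P.restrictScalars K) 1 := by omega
  rw [v.D_eq] at h4
  have hle : v.red (P.restrictScalars K ⊓ T K (Fin 3) 1) ≤
      (ln M).restrictScalars k ⊓ T k (Fin 3) 1 := by
    refine le_inf ?_ (v.red_le_T inf_le_right)
    rintro _ ⟨f, hf, rfl⟩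
    exact hM f hf.1
  have heq := Submodule.eq_of_le_of_finrank_le hle h4
  obtain ⟨U, ⟨hUP, hUT⟩, hU⟩ : eu M ∈ v.red (P.restrictScalars K ⊓ T K (Fin 3) 1) := by
    rw [heq]; exact ⟨eu_mem M, eu_mem_T M⟩
  obtain ⟨V, ⟨hVP, hVT⟩, hV⟩ : ev M ∈ v.red (P.restrictScalars K ⊓ T K (Fin 3) 1) := by
    rw [heq]; exact ⟨ev_mem M, ev_mem_T M⟩
  rw [SetLike.mem_coe, mem_T, v.totalDegree_lift] at hUT hVT
  have eU := eq_linear hUT
  have eV := eq_linear hVT
  rw [Fin.sum_univ_three] at eU eV
  have cU := congrArg (fun f => coeff (Finsupp.single 1 1) f) hU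
  have cU2 := congrArg (fun f => coeff (Finsupp.single 2 1) f) hU
  have cU0 := congrArg (fun f => coeff (Finsupp.single 0 1) f) hU
  have cUc := congrArg (fun f => coeff 0 f) hU
  have cV := congrArg (fun f => coeff (Finsupp.single 1 1) f) hV
  have cV2 := congrArg (fun f => coeff (Finsupp.single 2 1) f) hV
  have cV0 := congrArg (fun f => coeff (Finsupp.single 0 1) f) hV
  have cVc := congrArg (fun f => coeff 0 f) hV
  simp only [v.coeff_bar, eu, ev, coeff_sub, coeff_C_mul, coeff_X, coeff_C,
    Finsupp.single_left_inj one_ne_zero] at cU cU2 cU0 cUc cV cV2 cV0 cVc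
  have z : ∀ i : Fin 3, (Finsupp.single i 1 : Fin 3 →₀ ℕ) ≠ 0 := by
    intro i h
    simpa using congrFun (congrArg (fun g : Fin 3 →₀ ℕ => (g : Fin 3 → ℕ)) h) i
  simp [z, (z _).symm] at cU cU2 cU0 cUc cV cV2 cV0 cVc
  set u1 := coeff (Finsupp.single 1 1) U
  set u2 := coeff (Finsupp.single 2 1) U
  set u0 := coeff (Finsupp.single 0 1) U
  set uc := coeff 0 U
  set v1 := coeff (Finsupp.single 1 1) V
  set v2 := coeff (Finsupp.single 2 1) V
  set v0 := coeff (Finsupp.single 0 1) V
  set vc := coeff 0 V
  have hdet : v.ρ (u1 * v2 - u2 * v1) ≠ 0 := by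
    rw [map_sub, map_mul, map_mul, cU, cU2, cV2]
    simp
  obtain ⟨s, hs⟩ := v.isUnit_of_ne hdet
  have hs' : v.ρ s = 1 := by
    have := congrArg v.ρ hs
    rw [map_mul, map_sub, map_mul, map_mul, cU, cU2, cV2] at this
    simpa using this
  refine ⟨!![-(s * (v2 * uc - u2 * vc)), -(s * (v2 * u0 - u2 * v0));
    -(s * (u1 * vc - v1 * uc)), -(s * (u1 * v0 - v1 * u0))], ?_, ?_⟩
  · ext i j
    fin_cases i <;> fin_cases j <;> simp [hs', cU, cU2, cU0, cUc, cV, cV2, cV0, cVc]
  · refine ln_eq_of_mem ?_ ?_ hj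
    · have : eu (Matrix.map !![-(s * (v2 * uc - u2 * vc)), -(s * (v2 * u0 - u2 * v0));
        -(s * (u1 * vc - v1 * uc)), -(s * (u1 * v0 - v1 * u0))] v.ι) =
          v.lift (C (s * v2) * U - C (s * u2) * V) := by
        rw [eU, eV]
        simp only [map_sub, map_mul, map_add, v.lift_C, v.lift_X, eu, Matrix.map_apply,
          Matrix.of_apply, Matrix.cons_val', Matrix.cons_val_zero, Matrix.cons_val_one,
          Matrix.cons_val_fin_one, map_neg]
        have hs2 := congrArg (fun r => (C (v.ι r) : MvPolynomial (Fin 3) K)) hs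
        simp only [map_mul, map_sub, map_one] at hs2
        linear_combination (-X 1 : MvPolynomial (Fin 3) K) * hs2
      rw [this, map_sub]
      refine P.sub_mem ?_ ?_
      · rw [map_mul]; exact P.mul_mem_left _ hUP
      · rw [map_mul]; exact P.mul_mem_left _ hVP
    · have : ev (Matrix.map !![-(s * (v2 * uc - u2 * vc)), -(s * (v2 * u0 - u2 * v0));
        -(s * (u1 * vc - v1 * uc)), -(s * (u1 * v0 - v1 * u0))] v.ι) =
          v.lift (C (s * u1) * V - C (s * v1) * U) := by
        rw [eU, eV]
        simp only [map_sub, map_mul, map_add, v.lift_C, v.lift_X, ev, Matrix.map_apply,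
          Matrix.of_apply, Matrix.cons_val', Matrix.cons_val_zero, Matrix.cons_val_one,
          Matrix.cons_val_fin_one, map_neg]
        have hs2 := congrArg (fun r => (C (v.ι r) : MvPolynomial (Fin 3) K)) hs
        simp only [map_mul, map_sub, map_one] at hs2
        linear_combination (-X 2 : MvPolynomial (Fin 3) K) * hs2
      rw [this, map_sub]
      refine P.sub_mem ?_ ?_
      · rw [map_mul]; exact P.mul_mem_left _ hVP
      · rw [map_mul]; exact P.mul_mem_left _ hUP

end Pool.Agent.Work.MP_c21e2e_ag
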