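import Pool.Agent.Work.MP_c21e2e_ag.Core5

set_option linter.unusedSectionVars false
set_option linter.unusedSimpArgs false
set_option linter.style.setOption false

/-!
# Lifts of the curve: all components are lines
-/

namespace Pool.Agent.Work.MP_c21e2e_ag

open MvPolynomial

namespace LiftData

variable {R K k nA nB : Type*} [CommRing R] [Field K] [Field k] {v : Red R K k}
  [Fintype nA] [Fintype nB] [DecidableEq nA] [DecidableEq nB]
  {X : Conf nA nB k} {N : ℕ} (Z : LiftData v X N)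

/-- the prime `P` reduces into the line `M` -/
def Into (P : Z.Pr) (M : Mat k) : Prop := ∀ f : MvPolynomial (Fin 3) R, v.lift f ∈ P.1 → v.bar f ∈ ln M

/-- the lift is not reduced along `P` -/
def two (P : Z.Pr) : Prop := ¬ Z.J ≤ locI Z.I P.1

noncomputable instance : DecidablePred Z.two := Classical.decPred _

open Classical in
noncomputable def setA (P : Z.Pr) : Finset nA := Finset.univ.filter fun a => Z.Into P (X.M a)

open Classical in
noncomputable def setB (P : Z.Pr) : Finset nB := Finset.univ.filter fun j => Z.Into P (X.L j)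

lemma mem_setA {P : Z.Pr} {a : nA} : a ∈ Z.setA P ↔ Z.Into P (X.M a) := by
  classical
  simp [setA]

lemma mem_setB {P : Z.Pr} {a : nB} : a ∈ Z.setB P ↔ Z.Into P (X.L a) := by
  classical
  simp [setB]

/-- the number of disjoint lines into which a prime can reduce is bounded by its slope -/
lemma card_bound [IsAlgClosed K] (P : Z.Pr) {ι : Type*} (ℓ : ι → Mat k) (S : Finset ι)
    (hs : ∀ s ∈ S, ∀ s' ∈ S, s ≠ s' → (ℓ s - ℓ s').det ≠ 0) (hS : ∀ s ∈ S, Z.Into P (ℓ s)) :
    S.card ≤ Z.γ P ∧ (S.card = Z.γ P → Z.γ P = 1) := by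
  have h1 := le_hq_lines ℓ S hs (v.red (P.1.restrictScalars K)) (by
    rintro _ ⟨f, hf, rfl⟩ s hs
    exact hS s hs f hf) (S.card + 1) (by omega)
  have h2 := h1.trans ((v.hq_red_le _ _).trans (prime_bound (Z.γ_spec P) (Z.one_le_γ P) _))
  have h3 := Z.one_le_γ P
  constructor
  · by_contra hlt
    push Not at hlt
    nlinarith
  · intro heq
    rw [heq] at h2
    by_contra hne
    have : 2 ≤ Z.γ P := by omega
    nlinarith

lemma card_setA_le [IsAlgClosed K] (P : Z.Pr) :
    (Z.setA P).card ≤ Z.γ P ∧ ((Z.setA P).card = Z.γ P → Z.γ P = 1) :=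
  Z.card_bound P X.M _ (fun _ _ _ _ hne => X.hM _ _ hne) (fun _ hs => Z.mem_setA.mp hs)

lemma card_setB_le [IsAlgClosed K] (P : Z.Pr) :
    (Z.setB P).card ≤ Z.γ P ∧ ((Z.setB P).card = Z.γ P → Z.γ P = 1) :=
  Z.card_bound P X.L _ (fun _ _ _ _ hne => X.hL _ _ hne) (fun _ hs => Z.mem_setB.mp hs)

/-- the nonreduced primes have total slope at most `deg - γJ` -/
lemma sum_two_le : ∑ P : {P : Z.Pr // Z.two P}, Z.γ P.1 + Z.γJ ≤ deg nA nB := by
  choose e he he' using Z.exists_e
  have hf : ∀ P : {P : Z.Pr // Z.two P}, ∃ f, f ∈ Z.J ∧ f ∉ locI Z.I P.1.1 := fun P =>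
    SetLike.not_le_iff_exists.mp P.2
  choose f hfJ hfP using hf
  set d := ∑ P : {P : Z.Pr // Z.two P}, (e P.1 * f P).totalDegree with hd
  refine slope_sum_le (P := fun P : {P : Z.Pr // Z.two P} => P.1.1.restrictScalars K)
    (V := Z.J.restrictScalars K) (W := Z.W) (fun P => Z.γ_spec P.1) Z.γJ_spec Z.slope_I d d
    (fun t => ?_)
  refine sum_hq_le_hq _ (fun P => e P.1 * f P) _ _ (fun g hg => Z.I_le_J hg) t _ ?_ ?_ ?_
  · intro P
    rw [mem_T]
    exact Finset.single_le_sum (f := fun P : {P : Z.Pr // Z.two P} => (e P.1 * f P).totalDegree)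
      (fun _ _ => Nat.zero_le _) (Finset.mem_univ P)
  · intro P g
    exact Z.J.mul_mem_right _ (Z.J.mul_mem_left _ (hfJ P))
  · intro g hg P
    by_contra hgP
    have h1 : ∑ P : {P : Z.Pr // Z.two P}, e P.1 * f P * g P ∈ locI Z.I P.1.1 := le_locI _ _ hg
    rw [← Finset.add_sum_erase _ _ (Finset.mem_univ P)] at h1
    have h2 : ∑ x ∈ Finset.univ.erase P, e x.1 * f x * g x ∈ locI Z.I P.1.1 := by
      refine Ideal.sum_mem _ fun x hx => ?_
      refine Ideal.mul_mem_right _ _ (Ideal.mul_mem_right _ _ (he' x.1 P.1 ?_))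
      exact fun h => (Finset.ne_of_mem_erase hx) (Subtype.ext h).symm
    have h3 := (Ideal.add_mem_iff_left _ h2).mp h1
    rw [mul_assoc] at h3
    have h4 := mem_locI_of_mul (he P.1) h3
    rw [mul_comm] at h4
    exact hfP P (mem_locI_of_mul hgP h4)

/-- every hit line contains the reduction of a nonreduced prime -/
lemma exists_two {a : nA} (ha : Z.Hit a) : ∃ P, Z.two P ∧ a ∈ Z.setA P := by
  by_contra hno
  push Not at hno
  have hex : ∀ P : {P : Z.Pr // Z.two P}, ∃ g : MvPolynomial (Fin 3) R, v.lift g ∈ locI Z.I P.1.1 ∧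
      v.bar g ∉ ln (X.M a) := by
    intro P
    have h1 := hno P.1 P.2
    rw [mem_setA] at h1
    unfold Into at h1
    push Not at h1
    obtain ⟨g, hg, hg'⟩ := h1
    obtain ⟨n, hn⟩ := exists_pow_mem_locI P.1.2 hg
    refine ⟨g ^ n, by rw [map_pow]; exact hn, fun h => hg' ?_⟩
    rw [map_pow] at h
    exact (inferInstance : (ln (X.M a)).IsPrime).mem_of_pow_mem n h
  choose g hg hg' using hex
  obtain ⟨f, hfJ, hf⟩ := ha
  have h1 : v.lift ((∏ P, g P) * f) ∈ Z.I := by
    apply Z.mem_I_of_forall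
    intro P
    rw [map_mul]
    by_cases hP : Z.two P
    · refine Ideal.mul_mem_right _ _ ?_
      rw [map_prod, ← Finset.mul_prod_erase _ _ (Finset.mem_univ (⟨P, hP⟩ : {P : Z.Pr // Z.two P}))]
      exact Ideal.mul_mem_right _ _ (hg ⟨P, hP⟩)
    · refine Ideal.mul_mem_left _ _ ?_
      unfold two at hP
      push Not at hP
      exact hP hfJ
  have h2 := X.I0_le N (Sum.inl a) (Z.bar_mem h1)
  rw [map_mul] at h2
  refine hf (mem_dbl_of_mul ?_ h2)
  intro h3
  rw [map_prod, Ideal.IsPrime.prod_mem_iff] at h3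
  obtain ⟨P, -, h3⟩ := h3
  exact hg' P h3

/-- every line of the curve contains the reduction of a prime -/
lemma exists_into (c : nA ⊕ nB) : ∃ P, Z.Into P (X.l c) := by
  by_contra hno
  push Not at hno
  have hex : ∀ P : Z.Pr, ∃ g : MvPolynomial (Fin 3) R, v.lift g ∈ locI Z.I P.1 ∧
      v.bar g ∉ ln (X.l c) := by
    intro P
    have h1 := hno P
    unfold Into at h1
    push Not at h1
    obtain ⟨g, hg, hg'⟩ := h1
    obtain ⟨n, hn⟩ := exists_pow_mem_locI P.2 hg
    refine ⟨g ^ n, by rw [map_pow]; exact hn, fun h => hg' ?_⟩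
    rw [map_pow] at h
    exact (inferInstance : (ln (X.l c)).IsPrime).mem_of_pow_mem n h
  choose g hg hg' using hex
  have h1 : v.lift (∏ P, g P) ∈ Z.I := by
    apply Z.mem_I_of_forall
    intro P
    rw [map_prod, ← Finset.mul_prod_erase _ _ (Finset.mem_univ P)]
    exact Ideal.mul_mem_right _ _ (hg P)
  have h2 := X.cmp_le_ln N c (X.I0_le N c (Z.bar_mem h1))
  rw [map_prod, Ideal.IsPrime.prod_mem_iff] at h2
  obtain ⟨P, -, h3⟩ := h2
  exact hg' P h3

variable [IsAlgClosed K]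

lemma line_of_into {P : Z.Pr} (hP : Z.γ P = 1) {M : Mat k} (hM : Z.Into P M) :
    ∃ M' : Mat R, M'.map v.ρ = M ∧ P.1 = ln (M'.map v.ι) := by
  have h := Z.γ_spec P
  rw [hP] at h
  exact exists_line h (Z.jj_notMem_minimal P.2) hM

/-- a line reduces into exactly one line -/
lemma into_unique {P : Z.Pr} (hP : Z.γ P = 1) {M M' : Mat k} (hM : Z.Into P M)
    (hM' : Z.Into P M') : M = M' := by
  obtain ⟨L, hL, hPL⟩ := Z.line_of_into hP hM
  apply eq_of_ln_le
  · have h1 := hM' (MvPolynomial.X 1 - C (L 0 0) - C (L 0 1) * MvPolynomial.X 0) (by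
      rw [hPL]
      have : v.lift (MvPolynomial.X 1 - C (L 0 0) - C (L 0 1) * MvPolynomial.X 0) =
        eu (L.map v.ι) := by simp [eu]
      rw [this]
      exact eu_mem _)
    have : v.bar (MvPolynomial.X 1 - C (L 0 0) - C (L 0 1) * MvPolynomial.X 0) = eu M := by
      rw [← hL]; simp [eu]
    rwa [this] at h1
  · have h1 := hM' (MvPolynomial.X 2 - C (L 1 0) - C (L 1 1) * MvPolynomial.X 0) (by
      rw [hPL]
      have : v.lift (MvPolynomial.X 2 - C (L 1 0) - C (L 1 1) * MvPolynomial.X 0) =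
        ev (L.map v.ι) := by simp [ev]
      rw [this]
      exact ev_mem _)
    have : v.bar (MvPolynomial.X 2 - C (L 1 0) - C (L 1 1) * MvPolynomial.X 0) = ev M := by
      rw [← hL]; simp [ev]
    rwa [this] at h1

/-- the nonreduced primes correspond to the double lines -/
lemma two_structure (hN : deg nA nB * (2 * Fintype.card (nA ⊕ nB) + 1) < N) :
    (∀ P, Z.two P → Z.γ P = 1) ∧ Fintype.card {P : Z.Pr // Z.two P} = Fintype.card nA ∧
    ∃ PA : nA → Z.Pr, (∀ a, Z.two (PA a)) ∧ (∀ a, Z.Into (PA a) (X.M a)) ∧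
      ∀ P, Z.two P → ∃ a, P = PA a := by
  have hall : ∀ a, Z.Hit a := by
    intro a
    have h1 : Z.hits = Finset.univ := by
      rw [← Finset.card_eq_iff_eq_univ]
      exact Z.hits_eq hN
    rw [← Z.mem_hits, h1]
    exact Finset.mem_univ _
  choose PA hPA hPA' using fun a => Z.exists_two (hall a)
  have h1 := Z.sum_two_le
  rw [Z.γJ_eq hN] at h1
  have h2 : ∑ P : {P : Z.Pr // Z.two P}, Z.γ P.1 ≤ Fintype.card nA := by
    unfold deg at h1; omega
  have h3 : Fintype.card nA ≤ ∑ P : {P : Z.Pr // Z.two P}, (Z.setA P.1).card := by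
    have : (Finset.univ : Finset nA) ⊆
        Finset.univ.biUnion fun P : {P : Z.Pr // Z.two P} => Z.setA P.1 := by
      intro a _
      rw [Finset.mem_biUnion]
      exact ⟨⟨PA a, hPA a⟩, Finset.mem_univ _, hPA' a⟩
    exact (Finset.card_le_card this).trans Finset.card_biUnion_le
  have h4 : ∀ P : {P : Z.Pr // Z.two P}, (Z.setA P.1).card = Z.γ P.1 := by
    have h5 : ∑ P : {P : Z.Pr // Z.two P}, (Z.setA P.1).card =
        ∑ P : {P : Z.Pr // Z.two P}, Z.γ P.1 := by
      apply le_antisymm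
      · exact Finset.sum_le_sum fun P _ => (Z.card_setA_le P.1).1
      · omega
    intro P
    exact (Finset.sum_eq_sum_iff_of_le (fun P _ => (Z.card_setA_le P.1).1)).mp h5 P
      (Finset.mem_univ P)
  have h6 : ∀ P, Z.two P → Z.γ P = 1 := fun P hP => (Z.card_setA_le P).2 (h4 ⟨P, hP⟩)
  have h7 : Fintype.card {P : Z.Pr // Z.two P} ≤ Fintype.card nA := by
    refine le_trans ?_ h2
    calc Fintype.card {P : Z.Pr // Z.two P} = ∑ _P : {P : Z.Pr // Z.two P}, 1 := by simp
      _ ≤ _ := Finset.sum_le_sum fun P _ => Z.one_le_γ P.1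
  have hinj : Function.Injective (fun a => (⟨PA a, hPA a⟩ : {P : Z.Pr // Z.two P})) := by
    intro a b hab
    have hab' : PA a = PA b := congrArg Subtype.val hab
    by_contra hne
    have h8 := Z.into_unique (h6 _ (hPA a)) (Z.mem_setA.mp (hPA' a))
      (by rw [hab']; exact Z.mem_setA.mp (hPA' b))
    have h9 := X.hM a b hne
    rw [h8, sub_self] at h9
    exact h9 (by simp)
  have h8 : Fintype.card {P : Z.Pr // Z.two P} = Fintype.card nA :=
    le_antisymm h7 (Fintype.card_le_of_injective _ hinj)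
  refine ⟨h6, h8, PA, hPA, fun a => Z.mem_setA.mp (hPA' a), fun P hP => ?_⟩
  have hbij := (Fintype.bijective_iff_injective_and_card _).mpr ⟨hinj, h8.symm⟩
  obtain ⟨a, ha⟩ := hbij.2 ⟨P, hP⟩
  exact ⟨a, (congrArg Subtype.val ha).symm⟩

/-- the reduced primes correspond to the simple lines -/
lemma one_structure (hN : deg nA nB * (2 * Fintype.card (nA ⊕ nB) + 1) < N) :
    (∀ P, Z.γ P = 1) ∧ 
    ∃ PB : nB → Z.Pr, (∀ j, ¬ Z.two (PB j)) ∧ (∀ j, Z.Into (PB j) (X.L j)) ∧
      ∀ P, ¬ Z.two P → ∃ j, P = PB j := by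
  obtain ⟨htwo, hcard, PA, hPA, hPA', hPA''⟩ := Z.two_structure hN
  choose PB hPB using fun j => Z.exists_into (Sum.inr j : nA ⊕ nB)
  have hPBtwo : ∀ j, ¬ Z.two (PB j) := by
    intro j hj
    obtain ⟨a, ha⟩ := hPA'' _ hj
    have h1 := Z.into_unique (htwo _ hj) (hPB j) (by rw [ha]; exact hPA' a)
    exact X.hML a j h1.symm
  have h1 : ∑ P : {P : Z.Pr // Z.two P}, Z.γ P.1 = Fintype.card nA := by
    rw [← hcard, Finset.sum_congr rfl (fun P _ => htwo P.1 P.2)]
    simp
  have h2 : ∑ P : {P : Z.Pr // ¬ Z.two P}, Z.γ P.1 = Fintype.card nB := by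
    have h3 := Fintype.sum_subtype_add_sum_subtype Z.two Z.γ
    rw [Z.sum_γ, Z.γJ_eq hN, h1] at h3
    omega
  have h3 : Fintype.card nB ≤ ∑ P : {P : Z.Pr // ¬ Z.two P}, (Z.setB P.1).card := by
    have : (Finset.univ : Finset nB) ⊆
        Finset.univ.biUnion fun P : {P : Z.Pr // ¬ Z.two P} => Z.setB P.1 := by
      intro a _
      rw [Finset.mem_biUnion]
      exact ⟨⟨PB a, hPBtwo a⟩, Finset.mem_univ _, Z.mem_setB.mpr (hPB a)⟩
    exact (Finset.card_le_card this).trans Finset.card_biUnion_le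
  have h4 : ∀ P : {P : Z.Pr // ¬ Z.two P}, (Z.setB P.1).card = Z.γ P.1 := by
    have h5 : ∑ P : {P : Z.Pr // ¬ Z.two P}, (Z.setB P.1).card =
        ∑ P : {P : Z.Pr // ¬ Z.two P}, Z.γ P.1 := by
      apply le_antisymm
      · exact Finset.sum_le_sum fun P _ => (Z.card_setB_le P.1).1
      · omega
    intro P
    exact (Finset.sum_eq_sum_iff_of_le (fun P _ => (Z.card_setB_le P.1).1)).mp h5 P
      (Finset.mem_univ P)
  have h6 : ∀ P, Z.γ P = 1 := by
    intro P
    by_cases hP : Z.two P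
    · exact htwo P hP
    · exact (Z.card_setB_le P).2 (h4 ⟨P, hP⟩)
  have h7 : Fintype.card {P : Z.Pr // ¬ Z.two P} = Fintype.card nB := by
    rw [← h2, Finset.sum_congr rfl (fun P _ => h6 P.1)]
    simp
  have hinj : Function.Injective (fun a => (⟨PB a, hPBtwo a⟩ : {P : Z.Pr // ¬ Z.two P})) := by
    intro a b hab
    have hab' : PB a = PB b := congrArg Subtype.val hab
    by_contra hne
    have h8 : X.L a = X.L b := Z.into_unique (h6 (PB a)) (hPB a) (by rw [hab']; exact hPB b)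
    have h9 := X.hL a b hne
    rw [h8, sub_self] at h9
    exact h9 (by simp)
  refine ⟨h6, PB, hPBtwo, hPB, fun P hP => ?_⟩
  have hbij := (Fintype.bijective_iff_injective_and_card _).mpr ⟨hinj, h7.symm⟩
  obtain ⟨a, ha⟩ := hbij.2 ⟨P, hP⟩
  exact ⟨a, (congrArg Subtype.val ha).symm⟩

end LiftData

end Pool.Agent.Work.MP_c21e2e_ag
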