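import Pool.Agent.Work.MP_c21e2e_ag.Core6

set_option linter.unusedSectionVars false
set_option linter.unusedSimpArgs false
set_option linter.style.setOption false

/-!
# Lifts of the curve: incidences lift
-/

namespace Pool.Agent.Work.MP_c21e2e_ag

open MvPolynomial

section comm

variable {A : Type*} [CommRing A]

lemma prod_mem_sup {ι : Type*} (S : Finset ι) (Q : Ideal A) (P : ι → Ideal A) (h : ι → A)
    (hh : ∀ i ∈ S, h i ∈ Q ⊔ P i) : ∏ i ∈ S, h i ∈ Q ⊔ ⨅ i ∈ S, P i := by
  classical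
  induction S using Finset.induction_on with
  | empty => simp
  | insert a S ha ih =>
    have ih' := ih fun i hi => hh i (Finset.mem_insert_of_mem hi)
    rw [Finset.prod_insert ha]
    obtain ⟨q, hq, p, hp, h1⟩ := Submodule.mem_sup.mp (hh a (Finset.mem_insert_self a S))
    obtain ⟨q', hq', p', hp', h2⟩ := Submodule.mem_sup.mp ih'
    rw [← h1, ← h2]
    have : (q + p) * (q' + p') = (q * (q' + p') + p * q') + p * p' := by ring
    rw [this]
    refine Submodule.add_mem_sup (Q.add_mem (Q.mul_mem_right _ hq) (Q.mul_mem_left _ hq')) ?_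
    rw [Finset.iInf_insert]
    refine ⟨(P a).mul_mem_right _ hp, ?_⟩
    exact Ideal.mul_mem_left _ _ hp'

end comm

/-- evaluation at a point of a line -/
noncomputable def evl {F : Type*} [Field F] (M : Mat F) (s : F) : MvPolynomial (Fin 3) F →+* F :=
  (Polynomial.evalRingHom s).comp (psi M).toRingHom

lemma evl_apply {F : Type*} [Field F] (M : Mat F) (s : F) (f : MvPolynomial (Fin 3) F) :
    evl M s f = (psi M f).eval s := rfl

/-- two lines meet at the point with first coordinate `s` -/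
def MeetAt {F : Type*} [Field F] (M L : Mat F) (s : F) : Prop :=
  ∀ i, M i 0 + M i 1 * s = L i 0 + L i 1 * s

lemma evl_eq {F : Type*} [Field F] {M L : Mat F} {s : F} (h : MeetAt M L s) :
    evl M s = evl L s := by
  apply MvPolynomial.ringHom_ext
  · intro r; simp [evl_apply]
  · intro i
    have h0 := h 0
    have h1 := h 1
    fin_cases i
    · simp [evl_apply]
    · simp only [Fin.mk_one, Fin.isValue, evl_apply, psi_X1, Polynomial.eval_add,
        Polynomial.eval_C, Polynomial.eval_mul, Polynomial.eval_X]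
      exact h0
    · simp only [Fin.reduceFinMk, evl_apply, psi_X2, Polynomial.eval_add,
        Polynomial.eval_C, Polynomial.eval_mul, Polynomial.eval_X]
      exact h1

lemma det_zero_of_meet {F : Type*} [Field F] {M L : Mat F} {s : F} (h : MeetAt M L s) :
    (M - L).det = 0 := by
  have h0 := h 0
  have h1 := h 1
  rw [Matrix.det_fin_two]
  simp only [Matrix.sub_apply]
  linear_combination (M 1 1 - L 1 1) * h0 - (M 0 1 - L 0 1) * h1

lemma evl_zero_of_mem {F : Type*} [Field F] {M : Mat F} {s : F} {f : MvPolynomial (Fin 3) F}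
    (h : f ∈ ln M) : evl M s f = 0 := by
  rw [evl_apply, mem_ln.mp h]; simp

/-- a point of one line is not on a disjoint line -/
lemma exists_eq_ne {F : Type*} [Field F] {M M' : Mat F} {s : F} (h : (M - M').det ≠ 0) :
    evl M s (eu M') ≠ 0 ∨ evl M s (ev M') ≠ 0 := by
  by_contra hno
  push Not at hno
  apply h
  apply det_zero_of_meet (s := s)
  obtain ⟨h1, h2⟩ := hno
  rw [evl_apply, psi_eu] at h1
  rw [evl_apply, psi_ev] at h2
  simp only [Polynomial.eval_add, Polynomial.eval_C, Polynomial.eval_mul, Polynomial.eval_X] at h1 h2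
  intro i
  fin_cases i
  · simp only [Fin.zero_eta, Fin.isValue]
    linear_combination h1
  · simp only [Fin.mk_one, Fin.isValue]
    linear_combination h2

namespace LiftData

variable {R K k nA nB : Type*} [CommRing R] [Field K] [Field k] {v : Red R K k}
  [Fintype nA] [Fintype nB] [DecidableEq nA] [DecidableEq nB]
  {X : Conf nA nB k} {N : ℕ} (Z : LiftData v X N)

/-- integral equations of a line -/
lemma exists_integral_eq (M : Mat R) {P : Ideal (MvPolynomial (Fin 3) K)}
    (hP : P = ln (M.map v.ι)) {L : Mat k} {s : k} (h : (L - M.map v.ρ).det ≠ 0) :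
    ∃ u : MvPolynomial (Fin 3) R, v.lift u ∈ P ∧ evl L s (v.bar u) ≠ 0 := by
  rcases exists_eq_ne (s := s) h with h1 | h1
  · refine ⟨MvPolynomial.X 1 - C (M 0 0) - C (M 0 1) * MvPolynomial.X 0, ?_, ?_⟩
    · have : v.lift (MvPolynomial.X 1 - C (M 0 0) - C (M 0 1) * MvPolynomial.X 0) =
        eu (M.map v.ι) := by simp [eu]
      rw [this, hP]
      exact eu_mem _
    · have : v.bar (MvPolynomial.X 1 - C (M 0 0) - C (M 0 1) * MvPolynomial.X 0) =
        eu (M.map v.ρ) := by simp [eu]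
      rwa [this]
  · refine ⟨MvPolynomial.X 2 - C (M 1 0) - C (M 1 1) * MvPolynomial.X 0, ?_, ?_⟩
    · have : v.lift (MvPolynomial.X 2 - C (M 1 0) - C (M 1 1) * MvPolynomial.X 0) =
        ev (M.map v.ι) := by simp [ev]
      rw [this, hP]
      exact ev_mem _
    · have : v.bar (MvPolynomial.X 2 - C (M 1 0) - C (M 1 1) * MvPolynomial.X 0) =
        ev (M.map v.ρ) := by simp [ev]
      rwa [this]

/-- disjoint lines generate the unit ideal -/
lemma one_mem_sup {F : Type*} [Field F] {M M' : Mat F} (h : (M - M').det ≠ 0) :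
    ∃ u ∈ ln M, ∃ w ∈ ln M', u + w = 1 := by
  obtain ⟨f, hf, -, hf'⟩ := exists_psi_eq h 1 0
  refine ⟨1 - f, ?_, f, hf, by ring⟩
  rw [mem_ln, map_sub, hf']
  simp

variable [IsAlgClosed K]

include Z in
theorem incidence (hN : deg nA nB * (2 * Fintype.card (nA ⊕ nB) + 1) < N) :
    ∃ (MA : nA → Mat R) (MB : nB → Mat R), (∀ a, (MA a).map v.ρ = X.M a) ∧
      (∀ j, (MB j).map v.ρ = X.L j) ∧
      ∀ a j s, MeetAt (X.M a) (X.L j) s → (MA a - MB j).det = 0 := by
  obtain ⟨hγ, PB, hPBt, hPB, hPB'⟩ := Z.one_structure hN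
  obtain ⟨-, -, PA, hPAt, hPA, hPA'⟩ := Z.two_structure hN
  choose MA hMA hMA' using fun a => Z.line_of_into (hγ (PA a)) (hPA a)
  choose MB hMB hMB' using fun j => Z.line_of_into (hγ (PB j)) (hPB j)
  refine ⟨MA, MB, hMA, hMB, ?_⟩
  -- the two parts of the lift
  set 𝒜 : Ideal (MvPolynomial (Fin 3) K) := ⨅ a ∈ (Finset.univ : Finset nA), locI Z.I (PA a).1
    with h𝒜
  set ℬ : Ideal (MvPolynomial (Fin 3) K) := ⨅ j ∈ (Finset.univ : Finset nB), (PB j).1 with hℬ
  have mem𝒜 : ∀ f, f ∈ 𝒜 ↔ ∀ a, f ∈ locI Z.I (PA a).1 := by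
    intro f; rw [h𝒜]; simp [Submodule.mem_iInf]
  have memℬ : ∀ f, f ∈ ℬ ↔ ∀ j, f ∈ (PB j).1 := by
    intro f; rw [hℬ]; simp [Submodule.mem_iInf]
  have hI : ∀ f, f ∈ 𝒜 → f ∈ ℬ → f ∈ Z.I := by
    intro f hfA hfB
    apply Z.mem_I_of_forall
    intro P
    by_cases hP : Z.two P
    · obtain ⟨a, rfl⟩ := hPA' P hP
      exact (mem𝒜 f).mp hfA a
    · obtain ⟨j, rfl⟩ := hPB' P hP
      have h1 := (memℬ f).mp hfB j
      obtain ⟨e, he, he'⟩ := Z.exists_e (PB j)
      unfold two at hP
      push Not at hP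
      refine mem_locI_of_mul he (hP ?_)
      rw [Z.mem_J]
      intro P'
      by_cases hPP : P' = PB j
      · rw [hPP]; exact Ideal.mul_mem_left _ _ h1
      · exact Ideal.mul_mem_right _ _ (locI_le (Z.I_le P') (he' P' hPP))
  have hIA : ∀ f, f ∈ Z.I → f ∈ 𝒜 := fun f hf => (mem𝒜 f).mpr fun a => le_locI _ _ hf
  have hIB : ∀ f, f ∈ Z.I → f ∈ ℬ := fun f hf => (memℬ f).mpr fun j => Z.I_le _ hf
  -- reductions
  have hredA : ∀ a, ∀ f : MvPolynomial (Fin 3) R, v.lift f ∈ locI Z.I (PA a).1 →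
      v.bar f ∈ dbl (X.M a) N := by
    intro a f hf
    have hex : ∀ P : Z.Pr, ∃ g : MvPolynomial (Fin 3) R, (P ≠ PA a → v.lift g ∈ locI Z.I P.1) ∧
        v.bar g ∉ ln (X.M a) := by
      intro P
      by_cases hPa : P = PA a
      · refine ⟨1, fun h => absurd hPa h, ?_⟩
        rw [map_one, mem_ln, map_one]
        exact one_ne_zero
      have h1 : ¬ Z.Into P (X.M a) := by
        intro hinto
        by_cases hP : Z.two P
        · obtain ⟨a', rfl⟩ := hPA' P hP
          have h2 := Z.into_unique (hγ _) hinto (hPA a')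
          have h3 : a ≠ a' := fun h => hPa (by rw [h])
          have h4 := X.hM a a' h3
          rw [h2, sub_self] at h4
          exact h4 (by simp)
        · obtain ⟨j, rfl⟩ := hPB' P hP
          exact X.hML a j (Z.into_unique (hγ _) hinto (hPB j))
      unfold Into at h1
      push Not at h1
      obtain ⟨g, hg, hg'⟩ := h1
      obtain ⟨n, hn⟩ := exists_pow_mem_locI P.2 hg
      refine ⟨g ^ n, fun _ => by rw [map_pow]; exact hn, fun h => hg' ?_⟩
      rw [map_pow] at h
      exact (inferInstance : (ln (X.M a)).IsPrime).mem_of_pow_mem n h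
    choose g hg hg' using hex
    have h1 : v.lift ((∏ P, g P) * f) ∈ Z.I := by
      apply Z.mem_I_of_forall
      intro P
      rw [map_mul]
      by_cases hP : P = PA a
      · rw [hP]; exact Ideal.mul_mem_left _ _ hf
      · refine Ideal.mul_mem_right _ _ ?_
        rw [map_prod, ← Finset.mul_prod_erase _ _ (Finset.mem_univ P)]
        exact Ideal.mul_mem_right _ _ (hg P hP)
    have h2 := X.I0_le N (Sum.inl a) (Z.bar_mem h1)
    rw [map_mul] at h2
    refine mem_dbl_of_mul ?_ h2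
    intro h3
    rw [map_prod, Ideal.IsPrime.prod_mem_iff] at h3
    obtain ⟨P, -, h3⟩ := h3
    exact hg' P h3
  have hredB : ∀ j, ∀ f : MvPolynomial (Fin 3) R, v.lift f ∈ (PB j).1 → v.bar f ∈ ln (X.L j) :=
    fun j => hPB j
  -- the sum of the two parts
  have hsum : ∀ h : MvPolynomial (Fin 3) R, v.lift h ∈ 𝒜 ⊔ ℬ →
      ∃ f g, f + g = v.bar h ∧ (∀ a, f ∈ dbl (X.M a) N) ∧ (∀ j, g ∈ ln (X.L j)) := by
    intro h hh
    obtain ⟨f, hf, g, hg, hfg⟩ := Submodule.mem_sup.mp hh
    set t := Z.t0 + f.totalDegree + g.totalDegree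
    set VA := 𝒜.restrictScalars K ⊓ T K (Fin 3) t with hVA
    set VB := ℬ.restrictScalars K ⊓ T K (Fin 3) t with hVB
    have hVW : VA ⊓ VB = Z.W ⊓ T K (Fin 3) t := by
      ext x
      constructor
      · rintro ⟨⟨h1, h2⟩, ⟨h3, -⟩⟩
        exact ⟨hI x h1 h3, h2⟩
      · rintro ⟨h1, h2⟩
        exact ⟨⟨hIA x h1, h2⟩, ⟨hIB x h1, h2⟩⟩
    have hrA : ∀ x ∈ v.red VA, ∀ a, x ∈ dbl (X.M a) N := by
      rintro _ ⟨y, hy, rfl⟩ a
      exact hredA a y ((mem𝒜 _).mp hy.1 a)
    have hrB : ∀ x ∈ v.red VB, ∀ j, x ∈ ln (X.L j) := by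
      rintro _ ⟨y, hy, rfl⟩ j
      exact hredB j y ((memℬ _).mp hy.1 j)
    have hinf : v.red VA ⊓ v.red VB ≤ v.red (VA ⊓ VB) := by
      rw [hVW, Z.h t (by omega)]
      rintro x ⟨h1, h2⟩
      refine ⟨?_, v.red_le_T inf_le_right h1⟩
      change x ∈ X.I0 N
      rw [X.mem_I0]
      rintro (a | j)
      · exact hrA x h1 a
      · exact hrB x h2 j
    have e1 := Submodule.finrank_sup_add_finrank_inf_eq VA VB
    have e2 := Submodule.finrank_sup_add_finrank_inf_eq (v.red VA) (v.red VB)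
    have e3 := Submodule.finrank_mono hinf
    rw [(v.finrank_red _).2] at e3
    rw [(v.finrank_red _).2, (v.finrank_red _).2] at e2
    have hle : v.red VA ⊔ v.red VB ≤ v.red (VA ⊔ VB) :=
      sup_le (v.red_mono le_sup_left) (v.red_mono le_sup_right)
    have heq : v.red VA ⊔ v.red VB = v.red (VA ⊔ VB) := by
      apply Submodule.eq_of_le_of_finrank_le hle
      rw [(v.finrank_red _).2]
      omega
    have hmem : v.bar h ∈ v.red (VA ⊔ VB) := by
      refine ⟨h, ?_, rfl⟩
      rw [← hfg]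
      refine Submodule.add_mem_sup ⟨hf, ?_⟩ ⟨hg, ?_⟩
      · rw [SetLike.mem_coe, mem_T]; omega
      · rw [SetLike.mem_coe, mem_T]; omega
    rw [← heq] at hmem
    obtain ⟨x, hx, y, hy, hxy⟩ := Submodule.mem_sup.mp hmem
    exact ⟨x, y, hxy, hrA x hx, hrB y hy⟩
  -- incidences
  intro a j s hmeet
  by_contra hdet
  have hdetK : ((MA a).map v.ι - (MB j).map v.ι).det ≠ 0 := by
    rw [Matrix.det_fin_two] at hdet ⊢
    intro h
    apply hdet
    apply v.inj
    rw [map_zero, ← h]
    simp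
  have hex : ∀ a' : nA, ∀ j' : nB, ∃ h : MvPolynomial (Fin 3) R,
      v.lift h ∈ locI Z.I (PA a').1 ⊔ (PB j').1 ∧ evl (X.M a) s (v.bar h) ≠ 0 := by
    intro a' j'
    by_cases ha : a' = a
    · by_cases hj : j' = j
      · subst ha; subst hj
        refine ⟨1, ?_, by simp⟩
        rw [map_one]
        obtain ⟨u, hu, w, hw, huw⟩ := one_mem_sup hdetK
        rw [← hMA'] at hu
        rw [← hMB'] at hw
        obtain ⟨n, hn⟩ := exists_pow_mem_locI (PA a').2 hu
        have h1 : (1 : MvPolynomial (Fin 3) K) = u ^ n + (1 - u ^ n) := by ring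
        rw [h1]
        refine Submodule.add_mem_sup hn ?_
        have h2 : (1 - u) ∣ (1 - u ^ n) := by
          simpa using sub_dvd_pow_sub_pow 1 u n
        have h3 : 1 - u = w := by rw [← huw]; ring
        rw [h3] at h2
        exact Ideal.mem_of_dvd _ h2 hw
      · obtain ⟨u, hu, hu'⟩ := exists_integral_eq (MB j') (hMB' j') (L := X.L j) (s := s) (by
          rw [hMB]; exact X.hL _ _ (Ne.symm hj))
        refine ⟨u, Submodule.mem_sup_right hu, ?_⟩
        rw [evl_eq hmeet]
        exact hu'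
    · obtain ⟨u, hu, hu'⟩ := exists_integral_eq (MA a') (hMA' a') (L := X.M a) (s := s) (by
        rw [hMA]; exact X.hM _ _ (Ne.symm ha))
      obtain ⟨n, hn⟩ := exists_pow_mem_locI (PA a').2 hu
      refine ⟨u ^ n, Submodule.mem_sup_left (by rw [map_pow]; exact hn), ?_⟩
      rw [map_pow, map_pow]
      exact pow_ne_zero n hu'
  choose h hh hh' using hex
  have h1 : v.lift (∏ a', ∏ j', h a' j') ∈ 𝒜 ⊔ ℬ := by
    rw [map_prod, sup_comm]
    apply prod_mem_sup
    intro a' _
    rw [map_prod, sup_comm]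
    apply prod_mem_sup
    intro j' _
    exact hh a' j'
  obtain ⟨f, g, hfg, hf, hg⟩ := hsum _ h1
  have h2 : evl (X.M a) s (v.bar (∏ a', ∏ j', h a' j')) ≠ 0 := by
    rw [map_prod, map_prod, Finset.prod_ne_zero_iff]
    intro a' _
    rw [map_prod, map_prod, Finset.prod_ne_zero_iff]
    exact fun j' _ => hh' a' j'
  apply h2
  rw [← hfg, map_add, evl_zero_of_mem (dbl_le_ln _ _ (hf a)), evl_eq hmeet,
    evl_zero_of_mem (hg j), add_zero]

end LiftData

end Pool.Agent.Work.MP_c21e2e_ag
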