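import Pool.Agent.Work.MP_c21e2e_ag.Core7

set_option linter.unusedSectionVars false
set_option linter.unusedSimpArgs false
set_option linter.style.setOption false

/-!
# The Fano configuration forces characteristic two
-/

namespace Pool.Agent.Work.MP_c21e2e_ag

open Matrix

/-- bracket of three vectors -/
def br {K : Type*} [CommRing K] (x y z : Fin 3 → K) : K :=
  x 0 * (y 1 * z 2 - y 2 * z 1) - x 1 * (y 0 * z 2 - y 2 * z 0) + x 2 * (y 0 * z 1 - y 1 * z 0)

lemma br_eq_det {K : Type*} [CommRing K] (x y z : Fin 3 → K) :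
    br x y z = (Matrix.of ![x, y, z]).det := by
  rw [Matrix.det_fin_three]
  simp [br]
  ring

/-- a nonzero functional killing three vectors makes their bracket zero -/
lemma br_zero_of_dot {K : Type*} [Field K] {g x y z : Fin 3 → K} (hg : g ≠ 0) (hx : g ⬝ᵥ x = 0)
    (hy : g ⬝ᵥ y = 0) (hz : g ⬝ᵥ z = 0) : br x y z = 0 := by
  rw [br_eq_det]
  rw [← Matrix.exists_mulVec_eq_zero_iff]
  refine ⟨g, hg, ?_⟩
  funext i
  fin_cases i
  · simpa [Matrix.mulVec, dotProduct_comm] using hx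
  · simpa [Matrix.mulVec, dotProduct_comm] using hy
  · simpa [Matrix.mulVec, dotProduct_comm] using hz

/-- expansion in a basis -/
lemma br_expand {K : Type*} [CommRing K] (p q r x y z : Fin 3 → K) :
    br p q r ^ 2 * br x y z =
      br x q r * (br p y r * br p q z - br p q y * br p z r) -
      br p x r * (br y q r * br p q z - br p q y * br z q r) +
      br p q x * (br y q r * br p z r - br p y r * br z q r) := by
  simp only [br]
  ring

/-- **The Fano configuration** is only realisable in characteristic two. -/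
theorem fano {K : Type*} [Field K] (q : Fin 7 → (Fin 3 → K))
    (h0 : br (q 0) (q 1) (q 3) = 0) (h1 : br (q 1) (q 2) (q 4) = 0)
    (h2 : br (q 2) (q 3) (q 5) = 0) (h3 : br (q 3) (q 4) (q 6) = 0)
    (h4 : br (q 4) (q 5) (q 0) = 0) (h5 : br (q 5) (q 6) (q 1) = 0)
    (h6 : br (q 6) (q 0) (q 2) = 0)
    (n : br (q 0) (q 1) (q 2) ≠ 0) (n1 : br (q 5) (q 1) (q 2) ≠ 0)
    (n2 : br (q 0) (q 5) (q 2) ≠ 0) (n3 : br (q 0) (q 1) (q 5) ≠ 0)
    (n4 : br (q 3) (q 1) (q 2) ≠ 0) (n5 : br (q 0) (q 4) (q 2) ≠ 0)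
    (n6 : br (q 0) (q 1) (q 6) ≠ 0) : (2 : K) = 0 := by
  set D := br (q 0) (q 1) (q 2) with hD
  set F0 := br (q 5) (q 1) (q 2)
  set F1 := br (q 0) (q 5) (q 2)
  set F2 := br (q 0) (q 1) (q 5)
  set A0 := br (q 3) (q 1) (q 2)
  set A1 := br (q 0) (q 3) (q 2)
  set B1 := br (q 0) (q 4) (q 2)
  set B2 := br (q 0) (q 1) (q 4)
  set C0 := br (q 6) (q 1) (q 2)
  set C2 := br (q 0) (q 1) (q 6)
  have z4 : br (q 4) (q 1) (q 2) = 0 := by
    have : br (q 4) (q 1) (q 2) = br (q 1) (q 2) (q 4) := by simp only [br]; ring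
    rw [this, h1]
  have z6 : br (q 0) (q 6) (q 2) = 0 := by
    have : br (q 0) (q 6) (q 2) = - br (q 6) (q 0) (q 2) := by simp only [br]; ring
    rw [this, h6, neg_zero]
  have e3 := br_expand (q 0) (q 1) (q 2) (q 3) (q 4) (q 6)
  have e2 := br_expand (q 0) (q 1) (q 2) (q 2) (q 3) (q 5)
  have e4 := br_expand (q 0) (q 1) (q 2) (q 4) (q 5) (q 0)
  have e5 := br_expand (q 0) (q 1) (q 2) (q 5) (q 6) (q 1)
  have r1 : br (q 2) (q 1) (q 2) = 0 := by simp only [br]; ring
  have r2 : br (q 0) (q 2) (q 2) = 0 := by simp only [br]; ring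
  have r3 : br (q 0) (q 0) (q 2) = 0 := by simp only [br]; ring
  have r4 : br (q 0) (q 1) (q 0) = 0 := by simp only [br]; ring
  have r5 : br (q 1) (q 1) (q 2) = 0 := by simp only [br]; ring
  have r6 : br (q 0) (q 1) (q 1) = 0 := by simp only [br]; ring
  rw [h3, mul_zero, h0, z4, z6] at e3
  rw [h2, mul_zero, r1, r2, h0] at e2
  rw [h4, mul_zero, z4, r3, r4] at e4
  rw [h5, mul_zero, z6, r5, r6] at e5
  -- the three concurrency relations and the last collinearity
  have k2 : A0 * F1 = A1 * F0 := by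
    have : D * (A0 * F1 - A1 * F0) = 0 := by linear_combination (-1 : K) * e2
    exact sub_eq_zero.mp ((mul_eq_zero.mp this).resolve_left n)
  have k4 : B1 * F2 = B2 * F1 := by
    have : D * (B1 * F2 - B2 * F1) = 0 := by linear_combination (-1 : K) * e4
    exact sub_eq_zero.mp ((mul_eq_zero.mp this).resolve_left n)
  have k5 : F0 * C2 = F2 * C0 := by
    have : D * (F0 * C2 - F2 * C0) = 0 := by linear_combination (1 : K) * e5
    exact sub_eq_zero.mp ((mul_eq_zero.mp this).resolve_left n)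
  have k3 : A0 * B1 * C2 + A1 * B2 * C0 = 0 := by linear_combination (-1 : K) * e3
  have k6 : (A0 * B1 * C2 - A1 * B2 * C0) * (F0 * F1 * F2) = 0 := by
    linear_combination (B1 * C2 * F0 * F2) * k2 + (A1 * F0 * F0 * C2) * k4 +
      (A1 * B2 * F0 * F1) * k5
  have k7 : A0 * B1 * C2 - A1 * B2 * C0 = 0 :=
    (mul_eq_zero.mp k6).resolve_right (mul_ne_zero (mul_ne_zero n1 n2) n3)
  have k8 : (2 : K) * (A0 * B1 * C2) = 0 := by linear_combination k3 + k7
  exact (mul_eq_zero.mp k8).resolve_right (mul_ne_zero (mul_ne_zero n4 n5) n6)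

end Pool.Agent.Work.MP_c21e2e_ag
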