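import Mathlib

set_option linter.unusedSectionVars false
set_option linter.unusedSimpArgs false

/-!
# Hilbert functions of subspaces of a polynomial ring with respect to total degree
-/

namespace Pool.Agent.Work.MP_c21e2e_ag

open MvPolynomial

section lin

variable {F : Type*} [Field F] {U X Y : Type*} [AddCommGroup U] [Module F U] [AddCommGroup X]
  [Module F X] [AddCommGroup Y] [Module F Y]

lemma finrank_le_of_ker_le [FiniteDimensional F U] [FiniteDimensional F X] (f : U →ₗ[F] X)
    (g : U →ₗ[F] Y) (hg : Function.Surjective g) (h : LinearMap.ker f ≤ LinearMap.ker g) :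
    Module.finrank F Y ≤ Module.finrank F X := by
  have h1 := LinearMap.finrank_range_add_finrank_ker f
  have h2 := LinearMap.finrank_range_add_finrank_ker g
  have h3 : Module.finrank F (LinearMap.range g) = Module.finrank F Y := by
    rw [LinearMap.range_eq_top.mpr hg]; exact finrank_top F Y
  have h4 := Submodule.finrank_mono h
  have h5 : Module.finrank F (LinearMap.range f) ≤ Module.finrank F X :=
    Submodule.finrank_le _
  omega

lemma sum_finrank_quotient_le {ι V W : Type*} [Fintype ι] [AddCommGroup V] [Module F V]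
    [FiniteDimensional F V] [AddCommGroup W] [Module F W] [FiniteDimensional F W]
    (Q : ι → Submodule F V) (N : Submodule F W) (f0 : (ι → V) →ₗ[F] W)
    (hker : ∀ x, f0 x ∈ N → ∀ i, x i ∈ Q i) :
    ∑ i, Module.finrank F (V ⧸ Q i) ≤ Module.finrank F (W ⧸ N) := by
  classical
  let g : (ι → V) →ₗ[F] (∀ i, V ⧸ Q i) := LinearMap.pi fun i => (Q i).mkQ ∘ₗ LinearMap.proj i
  have hg : Function.Surjective g := by
    intro y
    choose x hx using fun i => Submodule.mkQ_surjective (Q i) (y i)
    exact ⟨x, funext fun i => hx i⟩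
  have hk : LinearMap.ker (N.mkQ ∘ₗ f0) ≤ LinearMap.ker g := by
    intro x hx
    rw [LinearMap.mem_ker, LinearMap.comp_apply, Submodule.mkQ_apply,
      Submodule.Quotient.mk_eq_zero] at hx
    rw [LinearMap.mem_ker]
    funext i
    change (Q i).mkQ (x i) = 0
    rw [Submodule.mkQ_apply, Submodule.Quotient.mk_eq_zero]
    exact hker x hx i
  have h1 := finrank_le_of_ker_le (N.mkQ ∘ₗ f0) g hg hk
  rw [Module.finrank_pi_fintype] at h1
  exact h1

lemma finrank_quotient_iInf_le {ι V : Type*} [Fintype ι] [AddCommGroup V] [Module F V]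
    [FiniteDimensional F V] (Q : ι → Submodule F V) (Q' : Submodule F V)
    (h : ∀ x, (∀ i, x ∈ Q i) → x ∈ Q') :
    Module.finrank F (V ⧸ Q') ≤ ∑ i, Module.finrank F (V ⧸ Q i) := by
  classical
  let f : V →ₗ[F] (∀ i, V ⧸ Q i) := LinearMap.pi fun i => (Q i).mkQ
  have hk : LinearMap.ker f ≤ LinearMap.ker Q'.mkQ := by
    intro x hx
    rw [LinearMap.mem_ker] at hx ⊢
    rw [Submodule.mkQ_apply, Submodule.Quotient.mk_eq_zero]
    refine h x fun i => ?_
    have h2 : (Q i).mkQ x = 0 := congrFun hx i
    rwa [Submodule.mkQ_apply, Submodule.Quotient.mk_eq_zero] at h2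
  have h1 := finrank_le_of_ker_le f Q'.mkQ (Submodule.mkQ_surjective _) hk
  rw [Module.finrank_pi_fintype] at h1
  exact h1

end lin

variable {F : Type*} [Field F] {σ : Type*} [Finite σ]

/-- polynomials of total degree at most `t` -/
noncomputable abbrev T (F : Type*) [Field F] (σ : Type*) (t : ℕ) :
    Submodule F (MvPolynomial σ F) := restrictTotalDegree σ F t

lemma mem_T {t : ℕ} {f : MvPolynomial σ F} : f ∈ T F σ t ↔ f.totalDegree ≤ t :=
  mem_restrictTotalDegree _ _ _

lemma T_mono {s t : ℕ} (h : s ≤ t) : T F σ s ≤ T F σ t := by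
  intro f hf
  rw [mem_T] at *
  omega

lemma mul_mem_T {s t u : ℕ} {f g : MvPolynomial σ F} (hf : f ∈ T F σ s) (hg : g ∈ T F σ t)
    (h : s + t ≤ u) : f * g ∈ T F σ u := by
  rw [mem_T] at *
  exact (totalDegree_mul f g).trans (by omega)

noncomputable instance instFDInf (W : Submodule F (MvPolynomial σ F)) (t : ℕ) :
    FiniteDimensional F ↥(W ⊓ T F σ t) := Submodule.finiteDimensional_inf_right _ _

/-- dimension of the part of degree at most `t` -/
noncomputable def D (W : Submodule F (MvPolynomial σ F)) (t : ℕ) : ℕ :=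
  Module.finrank F ↥(W ⊓ T F σ t)

/-- Hilbert function -/
noncomputable def hq (W : Submodule F (MvPolynomial σ F)) (t : ℕ) : ℕ :=
  Module.finrank F (T F σ t ⧸ W.comap (T F σ t).subtype)

lemma finrank_comap_subtype (V W : Submodule F (MvPolynomial σ F)) :
    Module.finrank F (W.comap V.subtype) = Module.finrank F ↥(W ⊓ V) := by
  have h : (W.comap V.subtype).map V.subtype = W ⊓ V := by
    rw [Submodule.map_comap_subtype, inf_comm]
  rw [← h]
  exact (LinearEquiv.finrank_eq (Submodule.equivMapOfInjective _ V.injective_subtype _))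

lemma hq_add_D (W : Submodule F (MvPolynomial σ F)) (t : ℕ) :
    hq W t + D W t = Module.finrank F (T F σ t) := by
  have h := (W.comap (T F σ t).subtype).finrank_quotient_add_finrank
  rw [finrank_comap_subtype] at h
  exact h

lemma D_mono {V W : Submodule F (MvPolynomial σ F)} (h : V ≤ W) (t : ℕ) : D V t ≤ D W t :=
  Submodule.finrank_mono (inf_le_inf_right _ h)

lemma hq_anti {V W : Submodule F (MvPolynomial σ F)} (h : V ≤ W) (t : ℕ) : hq W t ≤ hq V t := by
  have h1 := hq_add_D V t
  have h2 := hq_add_D W t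
  have h3 := D_mono h t
  omega

/-- The Hilbert function of the kernel of a linear map is the dimension of the image. -/
lemma hq_ker {B : Type*} [AddCommGroup B] [Module F B] (L : MvPolynomial σ F →ₗ[F] B) (t : ℕ) :
    hq (LinearMap.ker L) t = Module.finrank F ((T F σ t).map L) := by
  have h1 := LinearMap.finrank_range_add_finrank_ker (L.domRestrict (T F σ t))
  have h2 : LinearMap.ker (L.domRestrict (T F σ t)) =
      (LinearMap.ker L).comap (T F σ t).subtype := by
    ext x
    simp [LinearMap.mem_ker]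
  have h3 : LinearMap.range (L.domRestrict (T F σ t)) = (T F σ t).map L := by
    ext x
    simp [LinearMap.mem_range]
  rw [h2, h3, finrank_comap_subtype] at h1
  have h4 := hq_add_D (LinearMap.ker L) t
  unfold D at h4
  omega

/-- Lower bound for the dimension of a quotient (`W / 𝔞_{≤ s}`). -/
lemma sum_hq_le {ι : Type*} [Fintype ι] (P : ι → Submodule F (MvPolynomial σ F))
    (e : ι → MvPolynomial σ F) (W N : Submodule F (MvPolynomial σ F)) [FiniteDimensional F W]
    (t : ℕ) (hW : ∀ i, ∀ g ∈ T F σ t, e i * g ∈ W) (hNW : N ≤ W)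
    (hker : ∀ g : ι → MvPolynomial σ F, (∀ i, g i ∈ T F σ t) → ∑ i, e i * g i ∈ N →
      ∀ i, g i ∈ P i) :
    ∑ i, hq (P i) t + Module.finrank F N ≤ Module.finrank F W := by
  classical
  let f1 : (ι → T F σ t) →ₗ[F] MvPolynomial σ F :=
    ∑ i, (LinearMap.mulLeft F (e i)) ∘ₗ (T F σ t).subtype ∘ₗ (LinearMap.proj i)
  have hf1 : ∀ g, f1 g = ∑ i, e i * (g i : MvPolynomial σ F) := by
    intro g
    simp only [f1, LinearMap.sum_apply, LinearMap.comp_apply, LinearMap.proj_apply,
      Submodule.subtype_apply, LinearMap.mulLeft_apply]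
  let f0 : (ι → T F σ t) →ₗ[F] W := f1.codRestrict W (fun g => by
    rw [hf1]
    exact W.sum_mem fun i _ => hW i _ (g i).2)
  have hf0 : ∀ g, ((f0 g : W) : MvPolynomial σ F) = ∑ i, e i * (g i : MvPolynomial σ F) :=
    hf1
  have h1 := sum_finrank_quotient_le (fun i => (P i).comap (T F σ t).subtype)
    (N.comap W.subtype) f0 (by
      intro x hx i
      rw [Submodule.mem_comap, Submodule.subtype_apply] at hx ⊢
      rw [hf0] at hx
      exact hker (fun i => x i) (fun i => (x i).2) hx i)
  have h2 := (N.comap W.subtype).finrank_quotient_add_finrank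
  rw [finrank_comap_subtype, inf_eq_left.mpr hNW] at h2
  unfold hq
  omega

lemma sum_hq_le_hq {ι : Type*} [Fintype ι] (P : ι → Submodule F (MvPolynomial σ F))
    (e : ι → MvPolynomial σ F) (N W : Submodule F (MvPolynomial σ F)) (hNW : N ≤ W)
    (t d : ℕ) (he : ∀ i, e i ∈ T F σ d) (hW : ∀ i, ∀ g, e i * g ∈ W)
    (hker : ∀ g : ι → MvPolynomial σ F, ∑ i, e i * g i ∈ N → ∀ i, g i ∈ P i) :
    ∑ i, hq (P i) t + hq W (t + d) ≤ hq N (t + d) := by
  have h := sum_hq_le P e (W ⊓ T F σ (t + d)) (N ⊓ T F σ (t + d)) t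
    (fun i g hg => ⟨hW i g, mul_mem_T (he i) hg (by omega)⟩) (inf_le_inf_right _ hNW)
    (fun g _ h => hker g h.1)
  have h1 := hq_add_D N (t + d)
  have h2 := hq_add_D W (t + d)
  unfold D at h1 h2
  omega

/-- Upper bound for the Hilbert function of an intersection -/
lemma hq_iInf_le {ι : Type*} [Fintype ι] (P : ι → Submodule F (MvPolynomial σ F)) (t : ℕ) :
    hq (⨅ i, P i) t ≤ ∑ i, hq (P i) t := by
  refine finrank_quotient_iInf_le (fun i => (P i).comap (T F σ t).subtype) _ ?_
  intro x hx
  rw [Submodule.mem_comap, Submodule.mem_iInf]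
  exact hx

end Pool.Agent.Work.MP_c21e2e_ag
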