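import Mathlib

/-!
# Reduction of subspaces of polynomial spaces

`Red R K k` : a valuation ring `R` with fraction field `K` and residue field `k`, presented by the
inclusion `ι : R → K` and the reduction `ρ : R → k`.
-/

namespace Pool.Agent.Work.MP_c21e2e_ag

open MvPolynomial

/-- A valuation ring `R` with fraction field `K` and residue field `k`, given by two ring
homomorphisms. -/
structure Red (R K k : Type*) [CommRing R] [Field K] [Field k] where
  ι : R →+* K
  ρ : R →+* k
  inj : Function.Injective ι
  surj : Function.Surjective ρ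
  val : ∀ x : K, (∃ r, ι r = x) ∨ (∃ r, ρ r = 0 ∧ ι r * x = 1)

namespace Red

variable {R K k : Type*} [CommRing R] [Field K] [Field k] (v : Red R K k)
variable {σ : Type*}

include v in
lemma isUnit_of_ne {r : R} (h : v.ρ r ≠ 0) : ∃ s, r * s = 1 := by
  have hr : v.ι r ≠ 0 := by
    intro h0
    have : r = 0 := v.inj (by simpa using h0)
    simp [this] at h
  rcases v.val (v.ι r)⁻¹ with ⟨s, hs⟩ | ⟨s, hs, hs'⟩
  · refine ⟨s, v.inj ?_⟩
    simp [hs, hr]
  · exfalso
    have : s = r := v.inj (by field_simp at hs'; exact hs')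
    rw [this] at hs
    exact h hs

/-- integral polynomials inside `K[x]` -/
noncomputable def lift : MvPolynomial σ R →+* MvPolynomial σ K := MvPolynomial.map v.ι

/-- reduction of polynomials -/
noncomputable def bar : MvPolynomial σ R →+* MvPolynomial σ k := MvPolynomial.map v.ρ

lemma lift_inj : Function.Injective (v.lift (σ := σ)) := MvPolynomial.map_injective _ v.inj

lemma bar_surj : Function.Surjective (v.bar (σ := σ)) := MvPolynomial.map_surjective _ v.surj

@[simp] lemma coeff_lift (m : σ →₀ ℕ) (f : MvPolynomial σ R) :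
    coeff m (v.lift f) = v.ι (coeff m f) := by simp [lift, coeff_map]

@[simp] lemma coeff_bar (m : σ →₀ ℕ) (f : MvPolynomial σ R) :
    coeff m (v.bar f) = v.ρ (coeff m f) := by simp [bar, coeff_map]

@[simp] lemma lift_C (r : R) : v.lift (C r : MvPolynomial σ R) = C (v.ι r) := by simp [lift]
@[simp] lemma bar_C (r : R) : v.bar (C r : MvPolynomial σ R) = C (v.ρ r) := by simp [bar]
@[simp] lemma lift_X (i : σ) : v.lift (X i : MvPolynomial σ R) = X i := by simp [lift]
@[simp] lemma bar_X (i : σ) : v.bar (X i : MvPolynomial σ R) = X i := by simp [bar]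

lemma totalDegree_lift (f : MvPolynomial σ R) : (v.lift f).totalDegree = f.totalDegree := by
  unfold lift MvPolynomial.totalDegree
  rw [support_map_of_injective _ v.inj]

lemma totalDegree_bar_le (f : MvPolynomial σ R) : (v.bar f).totalDegree ≤ f.totalDegree := by
  unfold bar MvPolynomial.totalDegree
  exact Finset.sup_mono (support_map_subset _ _)

/-- divisibility in `K` with respect to `R` is total -/
lemma exists_dvd (s : Finset K) (hs : s.Nonempty) :
    ∃ a ∈ s, ∀ b ∈ s, ∃ r : R, v.ι r * a = b := by
  classical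
  induction hs using Finset.Nonempty.cons_induction with
  | singleton a => exact ⟨a, by simp, fun b hb => ⟨1, by simp at hb; simp [hb]⟩⟩
  | cons a s ha hs ih =>
    obtain ⟨c, hc, hcs⟩ := ih
    by_cases hc0 : c = 0
    · refine ⟨a, by simp, fun b hb => ?_⟩
      rw [Finset.mem_cons] at hb
      rcases hb with rfl | hb
      · exact ⟨1, by simp⟩
      · obtain ⟨r, hr⟩ := hcs b hb
        exact ⟨0, by rw [← hr, hc0]; simp⟩
    · rcases v.val (a / c) with ⟨r, hr⟩ | ⟨r, -, hr⟩
      · refine ⟨c, by simp [hc], fun b hb => ?_⟩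
        rw [Finset.mem_cons] at hb
        rcases hb with rfl | hb
        · exact ⟨r, by rw [hr]; field_simp⟩
        · exact hcs b hb
      · refine ⟨a, by simp, fun b hb => ?_⟩
        rw [Finset.mem_cons] at hb
        rcases hb with rfl | hb
        · exact ⟨1, by simp⟩
        · obtain ⟨s', hs'⟩ := hcs b hb
          refine ⟨s' * r, ?_⟩
          rw [← hs', map_mul]
          have : v.ι r * a = c := by field_simp at hr; exact hr
          rw [mul_assoc, this]

/-- every nonzero polynomial is a scalar multiple of an integral polynomial with a coefficient `1` -/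
lemma exists_primitive (f : MvPolynomial σ K) (hf : f ≠ 0) :
    ∃ (c : K) (g : MvPolynomial σ R) (m : σ →₀ ℕ), c ≠ 0 ∧ v.lift g = c • f ∧ coeff m g = 1 := by
  classical
  have hne : (f.support.image (fun m => coeff m f)).Nonempty := by
    rw [Finset.image_nonempty]
    exact MvPolynomial.support_nonempty.mpr hf
  obtain ⟨a, ha, hdiv⟩ := v.exists_dvd _ hne
  rw [Finset.mem_image] at ha
  obtain ⟨m, hm, rfl⟩ := ha
  have hm0 : coeff m f ≠ 0 := by simpa [mem_support_iff] using hm
  have hex : ∀ n : σ →₀ ℕ, ∃ r : R, v.ι r = (coeff m f)⁻¹ * coeff n f := by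
    intro n
    by_cases hn : coeff n f = 0
    · exact ⟨0, by simp [hn]⟩
    · obtain ⟨r, hr⟩ := hdiv (coeff n f) (Finset.mem_image.mpr ⟨n, by simpa [mem_support_iff] using hn, rfl⟩)
      exact ⟨r, by rw [← hr]; field_simp⟩
  choose r hr using hex
  have hg : ∀ n, coeff n (∑ m ∈ f.support, monomial m (r m) : MvPolynomial σ R) = r n := by
    intro n
    rw [coeff_sum]
    simp only [coeff_monomial]
    rw [Finset.sum_ite_eq']
    split_ifs with h
    · rfl
    · have h0 : coeff n f = 0 := by simpa [mem_support_iff] using h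
      have := hr n
      rw [h0, mul_zero] at this
      exact (v.inj (by simpa using this)).symm
  refine ⟨(coeff m f)⁻¹, ∑ n ∈ f.support, monomial n (r n), m, inv_ne_zero hm0, ?_, ?_⟩
  · ext n
    rw [coeff_lift, hg, hr, coeff_smul, smul_eq_mul]
  · rw [hg]
    apply v.inj
    rw [hr, map_one]
    field_simp

/-- integral echelon basis -/
lemma exists_echelon (n : ℕ) : ∀ (V : Submodule K (MvPolynomial σ K)) [FiniteDimensional K V],
    Module.finrank K V = n →
    ∃ (b : Fin n → MvPolynomial σ R) (e : Fin n → (σ →₀ ℕ)),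
      (∀ i j, coeff (e i) (b j) = if i = j then 1 else 0) ∧ (∀ i, v.lift (b i) ∈ V) ∧
      (∀ f ∈ V, f = ∑ i, coeff (e i) f • v.lift (b i)) := by
  induction n with
  | zero =>
    intro V _ hV
    refine ⟨Fin.elim0, Fin.elim0, fun i => i.elim0, fun i => i.elim0, fun f hf => ?_⟩
    rw [Submodule.finrank_eq_zero] at hV
    rw [hV, Submodule.mem_bot] at hf
    simp [hf]
  | succ n ih =>
    intro V _ hV
    have hVne : V ≠ ⊥ := by
      intro h
      rw [h] at hV
      simp at hV
    obtain ⟨f, hfV, hf0⟩ := Submodule.exists_mem_ne_zero_of_ne_bot hVne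
    obtain ⟨c, g, m, hc, hg, hm⟩ := v.exists_primitive f hf0
    have hgV : v.lift g ∈ V := by rw [hg]; exact V.smul_mem _ hfV
    let L : MvPolynomial σ K →ₗ[K] K := MvPolynomial.lcoeff K m
    let V' : Submodule K (MvPolynomial σ K) := V ⊓ LinearMap.ker L
    have hV'V : V' ≤ V := inf_le_left
    have : FiniteDimensional K V' := Submodule.finiteDimensional_of_le hV'V
    have hL : ∀ f, L f = coeff m f := fun f => rfl
    have hrank : Module.finrank K V' = n := by
      have h1 := LinearMap.finrank_range_add_finrank_ker (L.domRestrict V)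
      have h2 : LinearMap.range (L.domRestrict V) = ⊤ := by
        rw [LinearMap.range_eq_top]
        intro x
        refine ⟨⟨x • v.lift g, V.smul_mem _ hgV⟩, ?_⟩
        rw [LinearMap.domRestrict_apply, hL]
        simp [hm]
      rw [h2] at h1
      have h3 : Module.finrank K (LinearMap.ker (L.domRestrict V)) = Module.finrank K V' := by
        have : V' = (LinearMap.ker (L.domRestrict V)).map V.subtype := by
          ext x
          simp only [V', Submodule.mem_inf, LinearMap.mem_ker, Submodule.mem_map,
            Submodule.coe_subtype, Subtype.exists, exists_and_right, exists_eq_right,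
            LinearMap.domRestrict_apply]
          constructor
          · rintro ⟨h1, h2⟩; exact ⟨h1, h2⟩
          · rintro ⟨h1, h2⟩; exact ⟨h1, h2⟩
        rw [this]
        exact (LinearEquiv.finrank_eq (Submodule.equivMapOfInjective _ V.injective_subtype _))
      rw [h3] at h1
      simp at h1
      omega
    obtain ⟨b, e, hbe, hbV, hspan⟩ := ih V' hrank
    have hbm : ∀ i, coeff m (b i) = 0 := by
      intro i
      have := (Submodule.mem_inf.mp (hbV i)).2
      rw [LinearMap.mem_ker, hL, coeff_lift] at this
      exact v.inj (by simpa using this)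
    let g' : MvPolynomial σ R := g - ∑ i, coeff (e i) g • b i
    have hg'm : coeff m g' = 1 := by
      simp only [g', coeff_sub, coeff_sum, coeff_smul, hbm, smul_zero, Finset.sum_const_zero,
        sub_zero, hm]
    have hg'e : ∀ i, coeff (e i) g' = 0 := by
      intro i
      simp only [g', coeff_sub, coeff_sum, coeff_smul, hbe]
      simp
    have hg'V : v.lift g' ∈ V := by
      simp only [g', map_sub, map_sum]
      refine V.sub_mem hgV (V.sum_mem fun i _ => ?_)
      rw [MvPolynomial.smul_eq_C_mul, map_mul, lift_C, ← MvPolynomial.smul_eq_C_mul]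
      exact V.smul_mem _ (hV'V (hbV i))
    refine ⟨Fin.cons g' b, Fin.cons m e, ?_, ?_, ?_⟩
    · intro i j
      refine Fin.cases ?_ (fun i => ?_) i <;> refine Fin.cases ?_ (fun j => ?_) j
      · simp [hg'm]
      · simp only [Fin.cons_zero, Fin.cons_succ, hbm]
        rw [if_neg (Fin.succ_ne_zero j).symm]
      · simp only [Fin.cons_zero, Fin.cons_succ, hg'e]
        rw [if_neg (Fin.succ_ne_zero i)]
      · simp only [Fin.cons_succ, hbe, Fin.succ_inj]
    · intro i
      refine Fin.cases ?_ (fun i => ?_) i
      · simpa using hg'V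
      · simpa using hV'V (hbV i)
    · intro f hf
      rw [Fin.sum_univ_succ]
      simp only [Fin.cons_zero, Fin.cons_succ]
      have h1 : f - coeff m f • v.lift g' ∈ V' := by
        refine Submodule.mem_inf.mpr ⟨V.sub_mem hf (V.smul_mem _ hg'V), ?_⟩
        rw [LinearMap.mem_ker, hL, coeff_sub, coeff_smul, coeff_lift, hg'm]
        simp
      have h2 := hspan _ h1
      have h3 : ∀ i, coeff (e i) (f - coeff m f • v.lift g') = coeff (e i) f := by
        intro i
        rw [coeff_sub, coeff_smul, coeff_lift, hg'e]
        simp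
      simp only [h3] at h2
      rw [← h2]
      ring

/-- the reduction of a subspace -/
noncomputable def red (V : Submodule K (MvPolynomial σ K)) : Submodule k (MvPolynomial σ k) where
  carrier := {g | ∃ f : MvPolynomial σ R, v.lift f ∈ V ∧ v.bar f = g}
  add_mem' := by
    rintro _ _ ⟨f, hf, rfl⟩ ⟨g, hg, rfl⟩
    exact ⟨f + g, by rw [map_add]; exact V.add_mem hf hg, by simp⟩
  zero_mem' := ⟨0, by simp, by simp⟩
  smul_mem' := by
    rintro c _ ⟨f, hf, rfl⟩
    obtain ⟨r, rfl⟩ := v.surj c
    refine ⟨C r * f, ?_, ?_⟩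
    · rw [map_mul, lift_C, ← MvPolynomial.smul_eq_C_mul]
      exact V.smul_mem _ hf
    · rw [map_mul, bar_C, ← MvPolynomial.smul_eq_C_mul]

lemma mem_red {V : Submodule K (MvPolynomial σ K)} {g : MvPolynomial σ k} :
    g ∈ v.red V ↔ ∃ f : MvPolynomial σ R, v.lift f ∈ V ∧ v.bar f = g := Iff.rfl

lemma bar_mem_red {V : Submodule K (MvPolynomial σ K)} {f : MvPolynomial σ R}
    (h : v.lift f ∈ V) : v.bar f ∈ v.red V := ⟨f, h, rfl⟩

lemma red_mono {V W : Submodule K (MvPolynomial σ K)} (h : V ≤ W) : v.red V ≤ v.red W := by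
  rintro _ ⟨f, hf, rfl⟩
  exact ⟨f, h hf, rfl⟩

/-- reduction preserves the dimension -/
theorem finrank_red (V : Submodule K (MvPolynomial σ K)) [FiniteDimensional K V] :
    FiniteDimensional k (v.red V) ∧ Module.finrank k (v.red V) = Module.finrank K V := by
  obtain ⟨b, e, hbe, hbV, hspan⟩ := v.exists_echelon _ V rfl
  have hred : v.red V = Submodule.span k (Set.range fun i => v.bar (b i)) := by
    apply le_antisymm
    · rintro _ ⟨f, hf, rfl⟩
      have h1 := hspan _ hf
      have h2 : f = ∑ i, C (coeff (e i) f) * b i := by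
        apply v.lift_inj
        rw [h1]
        simp only [map_sum, map_mul, lift_C, coeff_lift, MvPolynomial.smul_eq_C_mul]
      rw [h2, map_sum]
      refine Submodule.sum_mem _ fun i _ => ?_
      rw [map_mul, bar_C, ← MvPolynomial.smul_eq_C_mul]
      exact Submodule.smul_mem _ _ (Submodule.subset_span ⟨i, rfl⟩)
    · rw [Submodule.span_le]
      rintro _ ⟨i, rfl⟩
      exact ⟨b i, hbV i, rfl⟩
  have hli : LinearIndependent k (fun i => v.bar (b i)) := by
    rw [Fintype.linearIndependent_iff]
    intro c hc i
    have := congrArg (coeff (e i)) hc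
    simp only [coeff_sum, coeff_smul, coeff_bar, hbe] at this
    simpa using this
  constructor
  · rw [hred]
    exact FiniteDimensional.span_of_finite k (Set.finite_range _)
  · rw [hred, finrank_span_eq_card hli]
    simp

end Red

end Pool.Agent.Work.MP_c21e2e_ag
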