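import Pool.Agent.Work.MP_c21e2e_ag.PrimeBound

set_option linter.unusedSectionVars false
set_option linter.unusedSimpArgs false

/-!
# Lines and double lines in affine three-space, and their Hilbert functions
-/

namespace Pool.Agent.Work.MP_c21e2e_ag

open MvPolynomial

variable {F : Type*} [Field F]

/-- A line `{(s, M 0 0 + M 0 1 s, M 1 0 + M 1 1 s)}`, given by a `2 × 2` matrix. -/
abbrev Mat (F : Type*) := Matrix (Fin 2) (Fin 2) F

/-- restriction to the line -/
noncomputable def psi (M : Mat F) : MvPolynomial (Fin 3) F →ₐ[F] Polynomial F :=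
  aeval ![Polynomial.X, Polynomial.C (M 0 0) + Polynomial.C (M 0 1) * Polynomial.X,
    Polynomial.C (M 1 0) + Polynomial.C (M 1 1) * Polynomial.X]

@[simp] lemma psi_C (M : Mat F) (a : F) : psi M (C a) = Polynomial.C a := by
  simp [psi]
@[simp] lemma psi_X0 (M : Mat F) : psi M (X 0) = Polynomial.X := by simp [psi]
@[simp] lemma psi_X1 (M : Mat F) :
    psi M (X 1) = Polynomial.C (M 0 0) + Polynomial.C (M 0 1) * Polynomial.X := by simp [psi]
@[simp] lemma psi_X2 (M : Mat F) :
    psi M (X 2) = Polynomial.C (M 1 0) + Polynomial.C (M 1 1) * Polynomial.X := by simp [psi]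

/-- the thickening direction: derivative along `(1, s ^ N)` -/
noncomputable def del (M : Mat F) (N : ℕ) : MvPolynomial (Fin 3) F →ₗ[F] Polynomial F :=
  (psi M).toLinearMap ∘ₗ (pderiv 1).toLinearMap +
    (LinearMap.mulLeft F (Polynomial.X ^ N)) ∘ₗ (psi M).toLinearMap ∘ₗ (pderiv 2).toLinearMap

lemma del_apply (M : Mat F) (N : ℕ) (f : MvPolynomial (Fin 3) F) :
    del M N f = psi M (pderiv 1 f) + Polynomial.X ^ N * psi M (pderiv 2 f) := rfl

lemma del_mul (M : Mat F) (N : ℕ) (f g : MvPolynomial (Fin 3) F) :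
    del M N (f * g) = psi M f * del M N g + psi M g * del M N f := by
  simp only [del_apply, pderiv_mul, map_add, map_mul]
  ring

/-- ideal of a line -/
noncomputable def ln (M : Mat F) : Ideal (MvPolynomial (Fin 3) F) := RingHom.ker (psi M)

lemma mem_ln {M : Mat F} {f : MvPolynomial (Fin 3) F} : f ∈ ln M ↔ psi M f = 0 := RingHom.mem_ker

instance (M : Mat F) : (ln M).IsPrime := RingHom.ker_isPrime _

/-- ideal of a double line -/
noncomputable def dbl (M : Mat F) (N : ℕ) : Ideal (MvPolynomial (Fin 3) F) where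
  carrier := {f | psi M f = 0 ∧ del M N f = 0}
  add_mem' := by
    rintro f g ⟨h1, h2⟩ ⟨h3, h4⟩
    exact ⟨by rw [map_add, h1, h3, add_zero], by rw [map_add, h2, h4, add_zero]⟩
  zero_mem' := ⟨by simp, by simp⟩
  smul_mem' := by
    rintro c f ⟨h1, h2⟩
    exact ⟨by rw [smul_eq_mul, map_mul, h1, mul_zero],
      by rw [smul_eq_mul, del_mul, h1, h2]; simp⟩

lemma mem_dbl {M : Mat F} {N : ℕ} {f : MvPolynomial (Fin 3) F} :
    f ∈ dbl M N ↔ psi M f = 0 ∧ del M N f = 0 := Iff.rfl

lemma dbl_le_ln (M : Mat F) (N : ℕ) : dbl M N ≤ ln M := fun _ h => mem_ln.mpr h.1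

lemma mul_mem_dbl {M : Mat F} {N : ℕ} {f g : MvPolynomial (Fin 3) F} (hf : f ∈ ln M)
    (hg : g ∈ ln M) : f * g ∈ dbl M N := by
  rw [mem_ln] at hf hg
  exact ⟨by rw [map_mul, hf, zero_mul], by rw [del_mul, hf, hg]; simp⟩

lemma mem_dbl_of_mul {M : Mat F} {N : ℕ} {f g : MvPolynomial (Fin 3) F} (hf : f ∉ ln M)
    (h : f * g ∈ dbl M N) : g ∈ dbl M N := by
  rw [mem_ln] at hf
  obtain ⟨h1, h2⟩ := h
  rw [map_mul, mul_eq_zero, or_iff_right hf] at h1
  rw [del_mul, h1, zero_mul, add_zero, mul_eq_zero, or_iff_right hf] at h2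
  exact ⟨h1, h2⟩

lemma mem_ln_of_mul {M : Mat F} {N : ℕ} {f g : MvPolynomial (Fin 3) F}
    (hf' : f ∉ dbl M N) (h : f * g ∈ dbl M N) : g ∈ ln M := by
  by_contra hg
  exact hf' (mem_dbl_of_mul hg (by rwa [mul_comm]))

/-- section of `psi` -/
noncomputable def jj : Polynomial F →ₐ[F] MvPolynomial (Fin 3) F := Polynomial.aeval (X 0)

@[simp] lemma psi_jj (M : Mat F) (p : Polynomial F) : psi M (jj p) = p := by
  unfold jj
  rw [← Polynomial.aeval_algHom_apply, psi_X0, Polynomial.aeval_X_left_apply]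

lemma pderiv_jj (i : Fin 3) (hi : i ≠ 0) (p : Polynomial F) :
    pderiv i (jj p : MvPolynomial (Fin 3) F) = 0 := by
  unfold jj
  rw [Derivation.map_aeval, pderiv_X_of_ne hi.symm, smul_zero]

@[simp] lemma del_jj (M : Mat F) (N : ℕ) (p : Polynomial F) : del M N (jj p) = 0 := by
  rw [del_apply, pderiv_jj 1 (by decide), pderiv_jj 2 (by decide)]
  simp

/-- first equation of the line -/
noncomputable def eu (M : Mat F) : MvPolynomial (Fin 3) F := X 1 - C (M 0 0) - C (M 0 1) * X 0
/-- second equation of the line -/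
noncomputable def ev (M : Mat F) : MvPolynomial (Fin 3) F := X 2 - C (M 1 0) - C (M 1 1) * X 0

lemma psi_eu (M M' : Mat F) : psi M (eu M') = Polynomial.C (M 0 0 - M' 0 0) +
    Polynomial.C (M 0 1 - M' 0 1) * Polynomial.X := by
  simp only [eu, map_sub, psi_X1, psi_C, map_mul, psi_X0]
  ring

lemma psi_ev (M M' : Mat F) : psi M (ev M') = Polynomial.C (M 1 0 - M' 1 0) +
    Polynomial.C (M 1 1 - M' 1 1) * Polynomial.X := by
  simp only [ev, map_sub, psi_X2, psi_C, map_mul, psi_X0]
  ring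

lemma eu_mem (M : Mat F) : eu M ∈ ln M := by rw [mem_ln, psi_eu]; simp
lemma ev_mem (M : Mat F) : ev M ∈ ln M := by rw [mem_ln, psi_ev]; simp

lemma del_eu (M M' : Mat F) (N : ℕ) : del M N (eu M') = 1 := by
  simp [del_apply, eu, pderiv_X_of_ne]

lemma del_ev (M M' : Mat F) (N : ℕ) : del M N (ev M') = Polynomial.X ^ N := by
  simp [del_apply, ev, pderiv_X_of_ne]

lemma X_mem_T (i : Fin 3) : (X i : MvPolynomial (Fin 3) F) ∈ T F (Fin 3) 1 := by
  rw [mem_T]
  exact (totalDegree_X i).le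

lemma C_mem_T (a : F) (n : ℕ) : (C a : MvPolynomial (Fin 3) F) ∈ T F (Fin 3) n := by
  rw [mem_T, totalDegree_C]
  exact Nat.zero_le _

lemma eu_mem_T (M : Mat F) : eu M ∈ T F (Fin 3) 1 :=
  Submodule.sub_mem _ (Submodule.sub_mem _ (X_mem_T 1) (C_mem_T _ _))
    (mul_mem_T (C_mem_T _ 0) (X_mem_T 0) (by omega))

lemma ev_mem_T (M : Mat F) : ev M ∈ T F (Fin 3) 1 :=
  Submodule.sub_mem _ (Submodule.sub_mem _ (X_mem_T 2) (C_mem_T _ _))
    (mul_mem_T (C_mem_T _ 0) (X_mem_T 0) (by omega))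

/-- degree control of `psi` -/
lemma psi_mem {M : Mat F} {t : ℕ} {f : MvPolynomial (Fin 3) F} (hf : f ∈ T F (Fin 3) t) :
    psi M f ∈ Polynomial.degreeLT F (t + 1) := by
  rw [mem_T] at hf
  rw [← support_sum_monomial_coeff f, map_sum]
  refine Submodule.sum_mem _ fun m hm => ?_
  have h1 : (m.sum fun _ e => e) ≤ t := (le_totalDegree hm).trans hf
  rw [Finsupp.sum_fintype _ _ (fun _ => rfl)] at h1
  rw [monomial_eq, map_mul, psi_C, Finsupp.prod_fintype _ _ (fun _ => pow_zero _), map_prod,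
    Polynomial.mem_degreeLT, Polynomial.degree_lt_iff_coeff_zero]
  intro k hk
  apply Polynomial.coeff_eq_zero_of_natDegree_lt
  refine lt_of_le_of_lt ?_ (show t < k by omega)
  refine le_trans ?_ h1
  refine (Polynomial.natDegree_C_mul_le _ _).trans ?_
  refine (Polynomial.natDegree_prod_le _ _).trans ?_
  refine Finset.sum_le_sum fun i _ => ?_
  rw [map_pow]
  refine Polynomial.natDegree_pow_le.trans ?_
  have : (psi M (X i)).natDegree ≤ 1 := by
    fin_cases i
    · simp
    · simp only [Fin.mk_one, Fin.isValue, psi_X1]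
      exact (Polynomial.natDegree_add_le _ _).trans (by
        rw [Polynomial.natDegree_C]
        exact max_le (by omega) ((Polynomial.natDegree_C_mul_le _ _).trans
          Polynomial.natDegree_X.le))
    · simp only [Fin.reduceFinMk, psi_X2]
      exact (Polynomial.natDegree_add_le _ _).trans (by
        rw [Polynomial.natDegree_C]
        exact max_le (by omega) ((Polynomial.natDegree_C_mul_le _ _).trans
          Polynomial.natDegree_X.le))
  calc m i * _ ≤ m i * 1 := Nat.mul_le_mul_left _ this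
    _ = m i := mul_one _

lemma pderiv_mem {t : ℕ} {f : MvPolynomial (Fin 3) F} (hf : f ∈ T F (Fin 3) (t + 1)) (i : Fin 3) :
    pderiv i f ∈ T F (Fin 3) t := by
  rw [mem_T] at hf ⊢
  rw [totalDegree, Finset.sup_le_iff]
  intro m hm
  rw [mem_support_iff, coeff_pderiv] at hm
  have h1 : coeff (m + Finsupp.single i 1) f ≠ 0 := left_ne_zero_of_mul hm
  have h2 := (le_totalDegree (mem_support_iff.mpr h1)).trans hf
  rw [Finsupp.sum_add_index' (fun _ => rfl) (fun _ _ _ => rfl),
    Finsupp.sum_single_index rfl] at h2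
  omega

lemma pderiv_mem_zero {f : MvPolynomial (Fin 3) F} (hf : f ∈ T F (Fin 3) 0) (i : Fin 3) :
    pderiv i f = 0 := by
  rw [mem_T, Nat.le_zero, totalDegree_eq_zero_iff_eq_C] at hf
  rw [hf, pderiv_C]

lemma degreeLT_mono {m n : ℕ} (h : m ≤ n) :
    Polynomial.degreeLT F m ≤ Polynomial.degreeLT F n := Polynomial.degreeLT_mono h

lemma X_pow_mul_mem {N n : ℕ} {p : Polynomial F} (hp : p ∈ Polynomial.degreeLT F n) :
    Polynomial.X ^ N * p ∈ Polynomial.degreeLT F (n + N) := by
  rw [Polynomial.mem_degreeLT, Polynomial.degree_lt_iff_coeff_zero] at *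
  intro k hk
  rw [Polynomial.coeff_X_pow_mul']
  split_ifs with h
  · exact hp _ (by omega)
  · rfl

/-- degree control of `del` -/
lemma del_mem {M : Mat F} {N t : ℕ} {f : MvPolynomial (Fin 3) F} (hf : f ∈ T F (Fin 3) t) :
    del M N f ∈ Polynomial.degreeLT F (t + N) := by
  rw [del_apply]
  cases t with
  | zero => rw [pderiv_mem_zero hf, pderiv_mem_zero hf]; simp
  | succ t =>
    refine Submodule.add_mem _ ?_ ?_
    · exact degreeLT_mono (by omega) (psi_mem (pderiv_mem hf 1))
    · exact X_pow_mul_mem (psi_mem (pderiv_mem hf 2))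

lemma jj_mem {t : ℕ} {p : Polynomial F} (hp : p ∈ Polynomial.degreeLT F (t + 1)) :
    (jj p : MvPolynomial (Fin 3) F) ∈ T F (Fin 3) t := by
  rw [Polynomial.mem_degreeLT] at hp
  unfold jj
  rw [Polynomial.aeval_eq_sum_range]
  refine Submodule.sum_mem _ fun i hi => Submodule.smul_mem _ _ ?_
  rw [Finset.mem_range] at hi
  rw [mem_T]
  refine (totalDegree_X_pow _ _).le.trans ?_
  by_cases hp0 : p = 0
  · rw [hp0, Polynomial.natDegree_zero] at hi; omega
  · rw [Polynomial.degree_eq_natDegree hp0] at hp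
    have : p.natDegree < t + 1 := by exact_mod_cast hp
    omega

lemma finrank_degreeLT (n : ℕ) : Module.finrank F (Polynomial.degreeLT F n) = n := by
  rw [LinearEquiv.finrank_eq (Polynomial.degreeLTEquiv F n)]
  simp

lemma map_psi_T (M : Mat F) (t : ℕ) :
    (T F (Fin 3) t).map (psi M).toLinearMap = Polynomial.degreeLT F (t + 1) := by
  apply le_antisymm
  · rintro _ ⟨f, hf, rfl⟩
    exact psi_mem hf
  · intro p hp
    exact ⟨jj p, jj_mem hp, by simp⟩

lemma hq_ln (M : Mat F) (t : ℕ) : hq ((ln M).restrictScalars F) t = t + 1 := by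
  have : (ln M).restrictScalars F = LinearMap.ker (psi M).toLinearMap := by
    ext f
    simp [mem_ln]
  rw [this, hq_ker, map_psi_T, finrank_degreeLT]

/-- the pair (restriction, derivative) -/
noncomputable def pd (M : Mat F) (N : ℕ) :
    MvPolynomial (Fin 3) F →ₗ[F] Polynomial F × Polynomial F :=
  LinearMap.prod (psi M).toLinearMap (del M N)

/-- a product of submodules is the product of the types -/
def prodSubEquiv {V W : Type*} [AddCommGroup V] [Module F V] [AddCommGroup W] [Module F W]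
    (p : Submodule F V) (q : Submodule F W) : p.prod q ≃ₗ[F] p × q where
  toFun x := (⟨x.1.1, x.2.1⟩, ⟨x.1.2, x.2.2⟩)
  invFun y := ⟨(y.1.1, y.2.1), ⟨y.1.2, y.2.2⟩⟩
  map_add' _ _ := rfl
  map_smul' _ _ := rfl
  left_inv _ := rfl
  right_inv _ := rfl

instance finDegreeLT (n : ℕ) : FiniteDimensional F (Polynomial.degreeLT F n) :=
  Module.Finite.equiv (Polynomial.degreeLTEquiv F n).symm

instance finProdDegreeLT (m n : ℕ) :
    FiniteDimensional F ((Polynomial.degreeLT F m).prod (Polynomial.degreeLT F n)) :=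
  Module.Finite.equiv (prodSubEquiv _ _).symm

lemma finrank_prod_degreeLT (m n : ℕ) :
    Module.finrank F ((Polynomial.degreeLT F m).prod (Polynomial.degreeLT F n)) = m + n := by
  rw [LinearEquiv.finrank_eq (prodSubEquiv _ _), Module.finrank_prod, finrank_degreeLT,
    finrank_degreeLT]

lemma map_pd_T_le (M : Mat F) (N t : ℕ) : (T F (Fin 3) t).map (pd M N) ≤
    (Polynomial.degreeLT F (t + 1)).prod (Polynomial.degreeLT F (t + N)) := by
  rintro _ ⟨f, hf, rfl⟩
  exact ⟨psi_mem hf, del_mem hf⟩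

lemma sum_monomial_mem (c : ℕ → F) (n : ℕ) :
    ∑ k ∈ Finset.range n, Polynomial.monomial k (c k) ∈ Polynomial.degreeLT F n := by
  refine Submodule.sum_mem _ fun k hk => ?_
  rw [Finset.mem_range] at hk
  rw [Polynomial.mem_degreeLT]
  exact (Polynomial.degree_monomial_le _ _).trans_lt (by exact_mod_cast hk)

lemma coeff_sum_monomial (c : ℕ → F) (n k : ℕ) :
    (∑ k ∈ Finset.range n, Polynomial.monomial k (c k)).coeff k = if k < n then c k else 0 := by
  rw [Polynomial.finsetSum_coeff]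
  simp only [Polynomial.coeff_monomial]
  rw [Finset.sum_ite_eq']
  simp

lemma exists_split {q : Polynomial F} {t N : ℕ} (hNt : N ≤ t)
    (hq : q ∈ Polynomial.degreeLT F (t + N)) :
    ∃ a b : Polynomial F, a ∈ Polynomial.degreeLT F t ∧
      b ∈ Polynomial.degreeLT F t ∧ q = a + Polynomial.X ^ N * b := by
  refine ⟨∑ k ∈ Finset.range N, Polynomial.monomial k (q.coeff k),
    ∑ k ∈ Finset.range t, Polynomial.monomial k (q.coeff (k + N)),
    degreeLT_mono hNt (sum_monomial_mem _ _), sum_monomial_mem _ _, ?_⟩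
  rw [Polynomial.mem_degreeLT, Polynomial.degree_lt_iff_coeff_zero] at hq
  ext k
  rw [Polynomial.coeff_add, Polynomial.coeff_X_pow_mul', coeff_sum_monomial]
  by_cases h1 : k < N
  · rw [if_pos h1, if_neg (by omega), add_zero]
  · rw [if_neg h1, if_pos (by omega), zero_add, coeff_sum_monomial]
    by_cases h2 : k < t + N
    · rw [if_pos (by omega), Nat.sub_add_cancel (by omega)]
    · rw [if_neg (by omega), hq k (by omega)]

lemma le_map_pd_T (M : Mat F) (N t : ℕ) (ht : N ≤ t) :
    (Polynomial.degreeLT F (t + 1)).prod (Polynomial.degreeLT F (t + N)) ≤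
    (T F (Fin 3) t).map (pd M N) := by
  rintro ⟨p, q⟩ ⟨hp, hq⟩
  simp only at hp hq
  obtain ⟨a, b, ha, hb, rfl⟩ := exists_split ht hq
  refine ⟨jj p + eu M * jj a + ev M * jj b, ?_, ?_⟩
  · have hlow : ∀ c : Polynomial F, c ∈ Polynomial.degreeLT F t → ∀ w ∈ T F (Fin 3) 1,
        w * jj c ∈ T F (Fin 3) t := by
      intro c hc w hw
      cases t with
      | zero =>
        have : c = 0 := by
          rw [Polynomial.mem_degreeLT] at hc
          exact Polynomial.degree_eq_bot.mp (by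
            rwa [Nat.cast_zero, Nat.WithBot.lt_zero_iff] at hc)
        rw [this]; simp
      | succ t => exact mul_mem_T hw (jj_mem hc) (by omega)
    exact Submodule.add_mem _ (Submodule.add_mem _ (jj_mem hp) (hlow a ha _ (eu_mem_T M)))
      (hlow b hb _ (ev_mem_T M))
  · have h1 : psi M (eu M) = 0 := mem_ln.mp (eu_mem M)
    have h2 : psi M (ev M) = 0 := mem_ln.mp (ev_mem M)
    have h3 : psi M (jj p + eu M * jj a + ev M * jj b) = p := by
      rw [map_add, map_add, map_mul, map_mul, h1, h2, psi_jj]; ring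
    have h4 : del M N (jj p + eu M * jj a + ev M * jj b) = a + Polynomial.X ^ N * b := by
      rw [map_add, map_add, del_mul, del_mul, del_jj, del_jj, del_jj, del_eu, del_ev, psi_jj,
        psi_jj, h1, h2]
      ring
    exact Prod.ext h3 h4

lemma dbl_eq_ker (M : Mat F) (N : ℕ) :
    (dbl M N).restrictScalars F = LinearMap.ker (pd M N) := by
  ext f
  rw [LinearMap.mem_ker]
  change (psi M f = 0 ∧ del M N f = 0) ↔ (psi M f, del M N f) = 0
  rw [Prod.mk_eq_zero]

lemma hq_dbl_le (M : Mat F) (N t : ℕ) :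
    hq ((dbl M N).restrictScalars F) t ≤ 2 * t + 1 + N := by
  rw [dbl_eq_ker, hq_ker]
  refine (Submodule.finrank_mono (map_pd_T_le M N t)).trans ?_
  rw [finrank_prod_degreeLT]
  omega

lemma le_hq_dbl (M : Mat F) (N t : ℕ) (ht : N ≤ t) :
    2 * t + 1 + N ≤ hq ((dbl M N).restrictScalars F) t := by
  rw [dbl_eq_ker, hq_ker]
  refine le_trans ?_ (Submodule.finrank_mono (le_map_pd_T M N t ht))
  rw [finrank_prod_degreeLT]
  omega

/-- disjoint lines: linear equations of one line give all linear polynomials on the other -/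
lemma exists_psi_eq {M M' : Mat F} (h : (M - M').det ≠ 0) (a b : F) :
    ∃ f ∈ ln M', f ∈ T F (Fin 3) 1 ∧ psi M f = Polynomial.C a + Polynomial.C b * Polynomial.X := by
  rw [Matrix.det_fin_two] at h
  simp only [Matrix.sub_apply] at h
  set d := (M 0 0 - M' 0 0) * (M 1 1 - M' 1 1) - (M 0 1 - M' 0 1) * (M 1 0 - M' 1 0) with hd
  refine ⟨C ((a * (M 1 1 - M' 1 1) - b * (M 1 0 - M' 1 0)) / d) * eu M' +
    C ((b * (M 0 0 - M' 0 0) - a * (M 0 1 - M' 0 1)) / d) * ev M', ?_, ?_, ?_⟩
  · exact Ideal.add_mem _ (Ideal.mul_mem_left _ _ (eu_mem _)) (Ideal.mul_mem_left _ _ (ev_mem _))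
  · exact Submodule.add_mem _ (mul_mem_T (C_mem_T _ 0) (eu_mem_T _) (by omega))
      (mul_mem_T (C_mem_T _ 0) (ev_mem_T _) (by omega))
  · rw [map_add, map_mul, map_mul, psi_eu, psi_ev, psi_C, psi_C]
    have e1 : (a * (M 1 1 - M' 1 1) - b * (M 1 0 - M' 1 0)) / d * (M 0 0 - M' 0 0) +
      (b * (M 0 0 - M' 0 0) - a * (M 0 1 - M' 0 1)) / d * (M 1 0 - M' 1 0) = a := by
      field_simp
      rw [hd]; ring
    have e2 : (a * (M 1 1 - M' 1 1) - b * (M 1 0 - M' 1 0)) / d * (M 0 1 - M' 0 1) +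
      (b * (M 0 0 - M' 0 0) - a * (M 0 1 - M' 0 1)) / d * (M 1 1 - M' 1 1) = b := by
      field_simp
      rw [hd]; ring
    have f1 := congrArg (Polynomial.C (R := F)) e1
    have f2 := congrArg (Polynomial.C (R := F)) e2
    rw [map_add, map_mul, map_mul] at f1 f2
    rw [← f1, ← f2]
    ring

end Pool.Agent.Work.MP_c21e2e_ag
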