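import Pool.Agent.Work.MP_c21e2e_ag.Slope

set_option linter.unusedSectionVars false
set_option linter.unusedSimpArgs false

/-!
# The Hilbert function of a prime of slope `γ` over an algebraically closed field is at most `γ t + 1`
-/

namespace Pool.Agent.Work.MP_c21e2e_ag

open MvPolynomial

variable {F : Type*} [Field F] {σ : Type*} [Finite σ]

/-- evaluation at finitely many points -/
noncomputable def evS (S : Finset (σ → F)) : MvPolynomial σ F →ₗ[F] (S → F) :=
  LinearMap.pi fun s => (MvPolynomial.aeval (R := F) (s : σ → F)).toLinearMap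

@[simp] lemma evS_apply (S : Finset (σ → F)) (f : MvPolynomial σ F) (s : S) :
    evS S f s = MvPolynomial.eval (s : σ → F) f := by
  simp [evS, MvPolynomial.aeval_eq_eval]

lemma exists_interp (S : Finset (σ → F)) (s : σ → F) :
    ∃ p : MvPolynomial σ F, eval s p = 1 ∧ ∀ s' ∈ S, s' ≠ s → eval s' p = 0 := by
  classical
  induction S using Finset.induction_on with
  | empty => exact ⟨1, by simp, by simp⟩
  | insert a S ha ih =>
    obtain ⟨p, hp, hp'⟩ := ih
    by_cases has : a = s
    · refine ⟨p, hp, fun s' hs' hne => ?_⟩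
      rw [Finset.mem_insert] at hs'
      rcases hs' with rfl | hs'
      · exact absurd has hne
      · exact hp' s' hs' hne
    · obtain ⟨i, hi⟩ := Function.ne_iff.mp has
      refine ⟨p * (C (s i - a i)⁻¹ * (X i - C (a i))), ?_, fun s' hs' hne => ?_⟩
      · have : s i - a i ≠ 0 := sub_ne_zero.mpr (Ne.symm hi)
        simp [hp, this]
      · rw [Finset.mem_insert] at hs'
        rcases hs' with rfl | hs'
        · simp
        · simp [hp' s' hs' hne]

lemma evS_surjective (S : Finset (σ → F)) : Function.Surjective (evS S) := by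
  classical
  intro y
  choose p hp hp' using exists_interp S
  refine ⟨∑ s : S, C (y s) * p s, ?_⟩
  funext s
  rw [map_sum, Finset.sum_apply, Finset.sum_eq_single s]
  · simp [hp]
  · intro s' _ hne
    rw [evS_apply, map_mul, hp' s' s s.2 (fun h => hne (Subtype.ext h.symm)), mul_zero]
  · simp

lemma evS_surjective_T (S : Finset (σ → F)) : ∃ n, ∀ t ≥ n, (T F σ t).map (evS S) = ⊤ := by
  classical
  choose p hp using fun s : S => evS_surjective S (Pi.single s 1)
  refine ⟨∑ s, (p s).totalDegree, fun t ht => ?_⟩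
  rw [eq_top_iff]
  intro y _
  refine ⟨∑ s, y s • p s, ?_, ?_⟩
  · refine Submodule.sum_mem _ fun s _ => Submodule.smul_mem _ _ ?_
    rw [mem_T]
    exact (Finset.single_le_sum (f := fun s => (p s).totalDegree) (fun _ _ => Nat.zero_le _)
      (Finset.mem_univ s)).trans ht
  · rw [map_sum]
    simp only [map_smul, hp]
    funext s
    simp [Finset.sum_apply, Pi.single_apply]

/-- Bezout type bound: a polynomial of degree `≤ e` outside the prime `P` has at most `γ e`
zeros on `V(P)`. -/
lemma card_zeros_le {P : Ideal (MvPolynomial σ F)} [P.IsPrime] {γ : ℕ}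
    (hγ : Slope (P.restrictScalars F) γ) {f : MvPolynomial σ F} (hf : f ∉ P) {e : ℕ}
    (hfe : f ∈ T F σ e) (S : Finset (σ → F)) (hS : ∀ s ∈ S, ∀ p ∈ P, eval s p = 0)
    (hfS : ∀ s ∈ S, eval s f = 0) : S.card ≤ γ * e := by
  obtain ⟨c, n, hn⟩ := hγ
  obtain ⟨n', hn'⟩ := evS_surjective_T S
  have h1 := sum_hq_le_hq (ι := Unit) (fun _ => P.restrictScalars F) (fun _ => f)
    (P.restrictScalars F) (LinearMap.ker (evS S)) (by
      intro p hp
      rw [LinearMap.mem_ker]
      funext s
      rw [evS_apply]
      exact hS s s.2 p hp)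
    (max n n') e (fun _ => hfe) (by
      intro _ g
      rw [LinearMap.mem_ker]
      funext s
      rw [evS_apply, map_mul, hfS s s.2, zero_mul]
      rfl) (by
      intro g hg i
      have hg' : f * g i ∈ P := by
        simpa using hg
      exact (Ideal.IsPrime.mem_or_mem ‹P.IsPrime› hg').resolve_left hf)
  rw [hq_ker, hn' _ (by omega)] at h1
  simp only [Finset.univ_unique, PUnit.default_eq_unit, Finset.sum_const, Finset.card_singleton,
        one_smul, finrank_top, Module.finrank_fintype_fun_eq_card, Fintype.card_coe] at h1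
  have h2 := hn (max n n') (le_max_left _ _)
  have h3 := hn (max n n' + e) (by omega)
  have h4 : (S.card : ℤ) ≤ γ * e := by
    have h5 : ((hq (P.restrictScalars F) (max n n') : ℤ) + S.card ≤
      hq (P.restrictScalars F) (max n n' + e)) := by exact_mod_cast h1
    rw [h2, h3] at h5
    push_cast at h5
    linarith
  exact_mod_cast h4

lemma infinite_zeros [IsAlgClosed F] {P : Ideal (MvPolynomial σ F)} [P.IsPrime] {γ : ℕ}
    (hγ : Slope (P.restrictScalars F) γ) (hpos : 1 ≤ γ) :
    (zeroLocus F P).Infinite := by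
  intro hfin
  obtain ⟨c, n, hn⟩ := hγ
  have hle : LinearMap.ker (evS hfin.toFinset) ≤ P.restrictScalars F := by
    intro f hf
    rw [LinearMap.mem_ker] at hf
    have h1 : f ∈ vanishingIdeal F (zeroLocus F P) := by
      rw [mem_vanishingIdeal_iff]
      intro x hx
      have := congrFun hf ⟨x, hfin.mem_toFinset.mpr hx⟩
      rw [evS_apply] at this
      rw [MvPolynomial.aeval_eq_eval]
      simpa using this
    rw [MvPolynomial.IsPrime.vanishingIdeal_zeroLocus] at h1
    exact h1
  set m := hfin.toFinset.card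
  have hb : ∀ t, hq (P.restrictScalars F) t ≤ m := by
    intro t
    refine (hq_anti hle t).trans ?_
    rw [hq_ker]
    refine (Submodule.finrank_le _).trans ?_
    rw [Module.finrank_fintype_fun_eq_card, Fintype.card_coe]
  have h1 := hn (max n (m + 1 - c).toNat) (le_max_left _ _)
  have h2 := hb (max n (m + 1 - c).toNat)
  have h3 : (m + 1 - c) ≤ ((max n (m + 1 - c).toNat : ℕ) : ℤ) := by
    push_cast
    exact (Int.self_le_toNat _).trans (le_max_right _ _)
  set t : ℤ := ((max n (m + 1 - c).toNat : ℕ) : ℤ)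
  have h4 : (0 : ℤ) ≤ t := by positivity
  have h5 : (1 : ℤ) ≤ γ := by exact_mod_cast hpos
  have h6 : ((hq (P.restrictScalars F) (max n (m + 1 - c).toNat) : ℕ) : ℤ) ≤ m := by
    exact_mod_cast h2
  rw [h1] at h6
  nlinarith

/-- a prime of slope `γ ≥ 1` has Hilbert function at most `γ t + 1` -/
theorem prime_bound [IsAlgClosed F] {P : Ideal (MvPolynomial σ F)} [P.IsPrime] {γ : ℕ}
    (hγ : Slope (P.restrictScalars F) γ) (hpos : 1 ≤ γ) (t : ℕ) :
    hq (P.restrictScalars F) t ≤ γ * t + 1 := by
  by_contra hlt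
  push Not at hlt
  obtain ⟨S, hS, hcard⟩ := (infinite_zeros hγ hpos).exists_subset_card_eq (γ * t + 1)
  have hex : ∃ f ∈ T F σ t, f ∉ P ∧ ∀ s ∈ S, eval s f = 0 := by
    by_contra hno
    push Not at hno
    have hle : D (LinearMap.ker (evS S)) t ≤ D (P.restrictScalars F) t := by
      apply Submodule.finrank_mono
      intro f hf
      refine ⟨?_, hf.2⟩
      by_contra hfP
      obtain ⟨s, hs, hs'⟩ := hno f hf.2 hfP
      apply hs'
      have := congrFun (LinearMap.mem_ker.mp hf.1) ⟨s, hs⟩
      rwa [evS_apply] at this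
    have h1 := hq_add_D (LinearMap.ker (evS S)) t
    have h2 := hq_add_D (P.restrictScalars F) t
    have h3 : hq (LinearMap.ker (evS S)) t ≤ S.card := by
      rw [hq_ker]
      refine (Submodule.finrank_le _).trans ?_
      rw [Module.finrank_fintype_fun_eq_card, Fintype.card_coe]
    omega
  obtain ⟨f, hft, hfP, hfS⟩ := hex
  have := card_zeros_le hγ hfP hft S (by
    intro s hs p hp
    have h1 := (mem_zeroLocus_iff.mp (hS hs)) p hp
    rwa [MvPolynomial.aeval_eq_eval] at h1) hfS
  omega

end Pool.Agent.Work.MP_c21e2e_ag
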