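import Pool.Agent.Work.MP_c21e2e_ag.Filt

set_option linter.unusedSectionVars false
set_option linter.unusedSimpArgs false

/-!
# Eventually linear Hilbert functions
-/

namespace Pool.Agent.Work.MP_c21e2e_ag

open MvPolynomial

lemma eventually_const (g : ℕ → ℕ) (n0 : ℕ) (h : ∀ t ≥ n0, g (t + 1) ≤ g t) :
    ∃ γ n1, n0 ≤ n1 ∧ ∀ t ≥ n1, g t = γ := by
  have hanti : ∀ s t, n0 ≤ s → s ≤ t → g t ≤ g s := by
    intro s t hs hst
    induction t, hst using Nat.le_induction with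
    | base => exact le_rfl
    | succ t hst ih => exact (h t (by omega)).trans ih
  have hex : ∃ m, ∃ t ≥ n0, g t = m := ⟨g n0, n0, le_rfl, rfl⟩
  classical
  obtain ⟨t1, ht1, hg1⟩ := Nat.find_spec hex
  refine ⟨Nat.find hex, t1, ht1, fun t ht => ?_⟩
  apply le_antisymm
  · rw [← hg1]; exact hanti _ _ ht1 ht
  · exact Nat.find_min' hex ⟨t, by omega, rfl⟩

lemma eventually_linear (a g : ℕ → ℕ) (n0 : ℕ) (ha : ∀ t, a (t + 1) = a t + g t)
    (h : ∀ t ≥ n0, g (t + 1) ≤ g t) :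
    ∃ γ : ℕ, ∃ c : ℤ, ∃ n, ∀ t ≥ n, (a t : ℤ) = γ * t + c := by
  obtain ⟨γ, n1, -, hn1⟩ := eventually_const g n0 h
  refine ⟨γ, a n1 - γ * n1, n1, fun t ht => ?_⟩
  induction t, ht using Nat.le_induction with
  | base => ring
  | succ t ht ih =>
    rw [ha, hn1 t ht]
    push_cast
    rw [ih]
    ring

variable {F : Type*} [Field F] {σ : Type*} [Finite σ]

/-- Eventually linear Hilbert function with slope `γ`. -/
def Slope (W : Submodule F (MvPolynomial σ F)) (γ : ℕ) : Prop :=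
  ∃ c : ℤ, ∃ n : ℕ, ∀ t ≥ n, (hq W t : ℤ) = γ * t + c

/-- noether normalisation type condition relative to the variable `x` -/
def Star (x : MvPolynomial σ F) (W : Submodule F (MvPolynomial σ F)) : Prop :=
  ∃ n0 : ℕ, ∀ t ≥ n0, T F σ (t + 1) ≤ (W ⊓ T F σ (t + 1)) ⊔
    ((T F σ t).map (LinearMap.mulLeft F x)) ⊔ T F σ t

lemma Star.mono {x : MvPolynomial σ F} {V W : Submodule F (MvPolynomial σ F)} (h : Star x V)
    (hVW : V ≤ W) : Star x W := by
  obtain ⟨n0, h⟩ := h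
  refine ⟨n0, fun t ht => (h t ht).trans ?_⟩
  exact sup_le_sup_right (sup_le_sup_right (inf_le_inf_right _ hVW) _) _

/-- dimension of the graded piece -/
noncomputable def gq (W : Submodule F (MvPolynomial σ F)) (t : ℕ) : ℕ :=
  Module.finrank F (T F σ (t + 1) ⧸
    (((W ⊓ T F σ (t + 1)) ⊔ T F σ t).comap (T F σ (t + 1)).subtype))

lemma hq_succ (W : Submodule F (MvPolynomial σ F)) (t : ℕ) :
    hq W (t + 1) = hq W t + gq W t := by
  have h1 := hq_add_D W t
  have h2 := hq_add_D W (t + 1)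
  have h3 := (((W ⊓ T F σ (t + 1)) ⊔ T F σ t).comap
    (T F σ (t + 1)).subtype).finrank_quotient_add_finrank
  rw [finrank_comap_subtype] at h3
  have h4 : ((W ⊓ T F σ (t + 1)) ⊔ T F σ t) ⊓ T F σ (t + 1) =
      (W ⊓ T F σ (t + 1)) ⊔ T F σ t := by
    rw [inf_eq_left]
    exact sup_le inf_le_right (T_mono (Nat.le_succ t))
  rw [h4] at h3
  have h5 := Submodule.finrank_sup_add_finrank_inf_eq (W ⊓ T F σ (t + 1)) (T F σ t)
  have h6 : (W ⊓ T F σ (t + 1)) ⊓ T F σ t = W ⊓ T F σ t := by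
    rw [inf_assoc, inf_eq_right.mpr (T_mono (F := F) (σ := σ) (Nat.le_succ t))]
  rw [h6] at h5
  have h7 : gq W t = Module.finrank F (T F σ (t + 1) ⧸
    (((W ⊓ T F σ (t + 1)) ⊔ T F σ t).comap (T F σ (t + 1)).subtype)) := rfl
  rw [← h7] at h3
  unfold D at h1 h2
  omega

lemma gq_anti {x : MvPolynomial σ F} (hx : x ∈ T F σ 1) {𝔞 : Ideal (MvPolynomial σ F)}
    (t : ℕ) (h : T F σ (t + 2) ≤ (𝔞.restrictScalars F ⊓ T F σ (t + 2)) ⊔
      ((T F σ (t + 1)).map (LinearMap.mulLeft F x)) ⊔ T F σ (t + 1)) :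
    gq (𝔞.restrictScalars F) (t + 1) ≤ gq (𝔞.restrictScalars F) t := by
  let m : T F σ (t + 1) →ₗ[F] T F σ (t + 2) :=
    ((LinearMap.mulLeft F x).domRestrict (T F σ (t + 1))).codRestrict _
      (fun g => mul_mem_T hx g.2 (by omega))
  have hm : ∀ g, ((m g : T F σ (t + 2)) : MvPolynomial σ F) = x * g := fun g => rfl
  refine finrank_le_of_ker_le (Submodule.mkQ _) ((Submodule.mkQ _) ∘ₗ m) ?_ ?_
  · intro y
    obtain ⟨⟨z, hz⟩, rfl⟩ := Submodule.mkQ_surjective _ y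
    have hz' := h hz
    rw [sup_assoc, Submodule.mem_sup] at hz'
    obtain ⟨p, hp, q, hq, hpq⟩ := hz'
    rw [Submodule.mem_sup] at hq
    obtain ⟨r, hr, s, hs, hrs⟩ := hq
    rw [Submodule.mem_map] at hr
    obtain ⟨u, hu, rfl⟩ := hr
    refine ⟨⟨u, hu⟩, ?_⟩
    rw [LinearMap.comp_apply, Submodule.mkQ_apply, Submodule.mkQ_apply, ← sub_eq_zero,
      ← Submodule.Quotient.mk_sub, Submodule.Quotient.mk_eq_zero, Submodule.mem_comap]
    have : (T F σ (t + 2)).subtype (m ⟨u, hu⟩ - ⟨z, hz⟩) = - p + - s := by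
      simp only [map_sub, Submodule.subtype_apply, hm]
      rw [← hpq, ← hrs, LinearMap.mulLeft_apply]
      ring
    rw [this]
    exact Submodule.add_mem_sup (Submodule.neg_mem _ hp) (Submodule.neg_mem _ hs)
  · intro y hy
    rw [LinearMap.mem_ker, Submodule.mkQ_apply, Submodule.Quotient.mk_eq_zero,
      Submodule.mem_comap, Submodule.mem_sup] at hy
    obtain ⟨p, hp, q, hq, hpq⟩ := hy
    rw [LinearMap.mem_ker, LinearMap.comp_apply, Submodule.mkQ_apply,
      Submodule.Quotient.mk_eq_zero, Submodule.mem_comap, Submodule.subtype_apply, hm]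
    rw [Submodule.subtype_apply] at hpq
    rw [← hpq, mul_add]
    refine Submodule.add_mem_sup ⟨?_, mul_mem_T hx hp.2 (by omega)⟩ (mul_mem_T hx hq (by omega))
    exact 𝔞.mul_mem_left x hp.1

theorem exists_slope {x : MvPolynomial σ F} (hx : x ∈ T F σ 1) {𝔞 : Ideal (MvPolynomial σ F)}
    (h : Star x (𝔞.restrictScalars F)) : ∃ γ, Slope (𝔞.restrictScalars F) γ := by
  obtain ⟨n0, h⟩ := h
  obtain ⟨γ, c, n, hn⟩ := eventually_linear (hq (𝔞.restrictScalars F))
    (gq (𝔞.restrictScalars F)) n0 (hq_succ _) (fun t ht => gq_anti hx t (h (t + 1) (by omega)))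
  exact ⟨γ, c, n, hn⟩

lemma Slope.unique {W : Submodule F (MvPolynomial σ F)} {γ γ' : ℕ} (h : Slope W γ)
    (h' : Slope W γ') : γ = γ' := by
  obtain ⟨c, n, h⟩ := h
  obtain ⟨c', n', h'⟩ := h'
  have h1 := h (max n n') (le_max_left _ _)
  have h2 := h' (max n n') (le_max_right _ _)
  have h3 := h (max n n' + 1) (by omega)
  have h4 := h' (max n n' + 1) (by omega)
  push_cast at h1 h2 h3 h4
  have : (γ : ℤ) = γ' := by linarith
  exact_mod_cast this

/-- comparison of slopes from eventual inequalities -/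
lemma slope_le_of {a b : ℕ} {c d : ℤ} (n : ℕ) (h : ∀ t : ℕ, n ≤ t → (a : ℤ) * t + c ≤ b * t + d) :
    a ≤ b := by
  by_contra hlt
  push Not at hlt
  have h1 := h (max n (d - c + 1).toNat) (le_max_left _ _)
  have h2 : (d - c + 1) ≤ ((max n (d - c + 1).toNat : ℕ) : ℤ) := by
    push_cast
    exact (Int.self_le_toNat _).trans (le_max_right _ _)
  set t : ℤ := ((max n (d - c + 1).toNat : ℕ) : ℤ)
  have h3 : (0 : ℤ) ≤ t := by positivity
  have h4 : (b : ℤ) + 1 ≤ a := by exact_mod_cast hlt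
  nlinarith

end Pool.Agent.Work.MP_c21e2e_ag
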